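import Pool.Agent.Lib_MP_f78f32_gt.SmJ

/-!
# Smoothing a seminorm by averaging over rotations with a polynomial weight
-/

open MeasureTheory Real
open scoped Matrix

namespace Pool.Agent.Lib_MP_f78f32_gt

/-! ### moments of the kernel -/

/-- entries of the first row -/
private def sme (j : Fin 3) (g : G) : ℝ := g.1 0 j

@[fun_prop] private lemma sme_cont (j : Fin 3) : Continuous (sme j) := G.cont_entry 0 j

private lemma smo_FDa (n : ℕ) : FD fa (fun g : G => ((1 + sme 0 g) / 2) ^ n * sme 1 g)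
    (fun g : G => (n * ((1 + sme 0 g) / 2) ^ (n - 1) * (sme 1 g / 2)) * sme 1 g +
      ((1 + sme 0 g) / 2) ^ n * (-sme 0 g)) := by
  have ha : FD fa (sme 0) (sme 1) := by
    intro g
    have h1 : (fun t => sme 0 (g * fa t)) = fun t => cos t * sme 0 g + sin t * sme 1 g :=
      funext fun t => (mul_fa g t 0).1
    rw [h1]
    have := ((hasDerivAt_cos (0:ℝ)).mul_const (sme 0 g)).fun_add
      ((hasDerivAt_sin (0:ℝ)).mul_const (sme 1 g))
    simpa using this
  have hb : FD fa (sme 1) (fun g : G => -sme 0 g) := by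
    intro g
    have h1 : (fun t => sme 1 (g * fa t)) = fun t => -sin t * sme 0 g + cos t * sme 1 g :=
      funext fun t => (mul_fa g t 0).2.1
    rw [h1]
    have := ((hasDerivAt_sin (0:ℝ)).fun_neg.mul_const (sme 0 g)).fun_add
      ((hasDerivAt_cos (0:ℝ)).mul_const (sme 1 g))
    simpa using this
  have hs : FD fa (fun g : G => (1 + sme 0 g) / 2) (fun g : G => sme 1 g / 2) := by
    intro g
    have := ((ha g).const_add 1).div_const 2
    exact this
  exact (hs.pow fa_zero n).mul fa_zero hb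

private lemma smo_FDb (n : ℕ) : FD fb (fun g : G => ((1 + sme 0 g) / 2) ^ n * sme 2 g)
    (fun g : G => (n * ((1 + sme 0 g) / 2) ^ (n - 1) * (sme 2 g / 2)) * sme 2 g +
      ((1 + sme 0 g) / 2) ^ n * (-sme 0 g)) := by
  have ha : FD fb (sme 0) (sme 2) := by
    intro g
    have h1 : (fun t => sme 0 (g * fb t)) = fun t => cos t * sme 0 g + sin t * sme 2 g :=
      funext fun t => (mul_fb g t 0).1
    rw [h1]
    have := ((hasDerivAt_cos (0:ℝ)).mul_const (sme 0 g)).fun_add
      ((hasDerivAt_sin (0:ℝ)).mul_const (sme 2 g))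
    simpa using this
  have hb : FD fb (sme 2) (fun g : G => -sme 0 g) := by
    intro g
    have h1 : (fun t => sme 2 (g * fb t)) = fun t => -sin t * sme 0 g + cos t * sme 2 g :=
      funext fun t => (mul_fb g t 0).2.2
    rw [h1]
    have := ((hasDerivAt_sin (0:ℝ)).fun_neg.mul_const (sme 0 g)).fun_add
      ((hasDerivAt_cos (0:ℝ)).mul_const (sme 2 g))
    simpa using this
  have hs : FD fb (fun g : G => (1 + sme 0 g) / 2) (fun g : G => sme 2 g / 2) := by
    intro g
    have := ((ha g).const_add 1).div_const 2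
    exact this
  exact (hs.pow fb_zero n).mul fb_zero hb

private lemma smo_moment (n : ℕ) : ∫ g : G, ((1 + sme 0 g) / 2) ^ n ∂μ = 1 / (n + 1) := by
  have hrec : ∀ n : ℕ, (n + 1 : ℝ) * (∫ g : G, ((1 + sme 0 g) / 2) ^ n ∂μ) =
      (n + 2) * ∫ g : G, ((1 + sme 0 g) / 2) ^ (n + 1) ∂μ := by
    intro n
    have h1 := int_FDa (smo_FDa n) (by fun_prop) (by fun_prop)
    have h2 := int_FDb (smo_FDb n) (by fun_prop) (by fun_prop)
    have h3 : ∫ g : G, (((n * ((1 + sme 0 g) / 2) ^ (n - 1) * (sme 1 g / 2)) * sme 1 g +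
        ((1 + sme 0 g) / 2) ^ n * (-sme 0 g)) +
        ((n * ((1 + sme 0 g) / 2) ^ (n - 1) * (sme 2 g / 2)) * sme 2 g +
        ((1 + sme 0 g) / 2) ^ n * (-sme 0 g))) ∂μ = 0 := by
      rw [integral_add (intg (by fun_prop)) (intg (by fun_prop)), h1, h2, add_zero]
    have h4 : ∀ g : G, (((n * ((1 + sme 0 g) / 2) ^ (n - 1) * (sme 1 g / 2)) * sme 1 g +
        ((1 + sme 0 g) / 2) ^ n * (-sme 0 g)) +
        ((n * ((1 + sme 0 g) / 2) ^ (n - 1) * (sme 2 g / 2)) * sme 2 g +
        ((1 + sme 0 g) / 2) ^ n * (-sme 0 g))) =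
        (2 * n + 2) * ((1 + sme 0 g) / 2) ^ n - (2 * n + 4) * ((1 + sme 0 g) / 2) ^ (n + 1) := by
      intro g
      have h5 := g.row_dot 0 0
      simp only [Fin.sum_univ_three, if_true] at h5
      have h6 : sme 1 g * sme 1 g + sme 2 g * sme 2 g = (1 - sme 0 g) * (1 + sme 0 g) := by
        unfold sme
        linear_combination h5
      rcases n with _ | n
      · simp only [Nat.cast_zero, zero_mul, pow_zero, zero_add, pow_one, mul_zero]
        ring
      · rw [Nat.add_sub_cancel]
        push_cast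
        have h7 : ∀ s a b c : ℝ, s = (1 + a) / 2 → b * b + c * c = (1 - a) * (1 + a) →
            ((n + 1 : ℝ) * s ^ n * (b / 2)) * b + s ^ (n + 1) * (-a) +
              (((n + 1 : ℝ) * s ^ n * (c / 2)) * c + s ^ (n + 1) * (-a)) =
            (2 * (n + 1) + 2) * s ^ (n + 1) - (2 * (n + 1) + 4) * s ^ (n + 1 + 1) := by
          intro s a b c hs hbc
          have ha : a = 2 * s - 1 := by rw [hs]; ring
          subst ha
          linear_combination ((n + 1 : ℝ) * s ^ n / 2) * hbc
        exact h7 _ _ _ _ rfl h6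
    simp_rw [h4] at h3
    rw [integral_sub (intg (by fun_prop)) (intg (by fun_prop)), integral_const_mul,
      integral_const_mul] at h3
    linarith
  induction n with
  | zero => simp
  | succ n ih =>
    have h1 := hrec n
    rw [ih] at h1
    have h2 : (n + 1 : ℝ) ≠ 0 := by positivity
    have h3 : (n + 2 : ℝ) ≠ 0 := by positivity
    push_cast
    field_simp at h1 ⊢
    linarith

/-! ### the circle integral -/

private lemma smo_circle (u P Q : ℝ) (h : P ^ 2 + Q ^ 2 = u ^ 2) (n : ℕ) :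
    ∫ t in (0:ℝ)..(2 * π), (u + (cos t * P + sin t * Q)) ^ n =
      u ^ n * ∫ t in (0:ℝ)..(2 * π), (1 + cos t) ^ n := by
  by_cases hu : u = 0
  · subst hu
    have hP : P = 0 := by nlinarith [sq_nonneg P, sq_nonneg Q]
    have hQ : Q = 0 := by nlinarith [sq_nonneg P, sq_nonneg Q]
    subst hP hQ
    rcases n with _ | n
    · simp
    · simp
  · obtain ⟨t0, hc, hs⟩ : ∃ t0 : ℝ, cos t0 = P / u ∧ sin t0 = Q / u := by
      set z : ℂ := ⟨P / u, Q / u⟩ with hz
      have hn : ‖z‖ = 1 := by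
        rw [Complex.norm_def, Complex.normSq_apply]
        have : z.re * z.re + z.im * z.im = 1 := by
          simp only [hz]
          field_simp
          linarith
        rw [this, Real.sqrt_one]
      have hz0 : z ≠ 0 := by
        intro h0
        rw [h0, norm_zero] at hn
        exact zero_ne_one hn
      refine ⟨z.arg, ?_, ?_⟩
      · rw [Complex.cos_arg hz0, hn, div_one]
      · rw [Complex.sin_arg, hn, div_one]
    have h1 : ∀ t, (u + (cos t * P + sin t * Q)) ^ n = u ^ n * (1 + cos (t - t0)) ^ n := by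
      intro t
      rw [← mul_pow, cos_sub, hc, hs]
      congr 1
      field_simp
    simp_rw [h1]
    rw [intervalIntegral.integral_const_mul,
      intervalIntegral.integral_comp_sub_right (fun t => (1 + cos t) ^ n)]
    congr 1
    have hper : Function.Periodic (fun t : ℝ => (1 + cos t) ^ n) (2 * π) := by
      intro t
      simp only [cos_add_two_pi]
    have h2 := hper.intervalIntegral_add_eq (0 - t0) 0
    rw [zero_add] at h2
    rw [← h2]
    congr 1
    ring

private lemma smo_circle_pos (n : ℕ) : 0 < ∫ t in (0:ℝ)..(2 * π), (1 + cos t) ^ (2 * n) := by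
  have hpi := Real.pi_pos
  apply intervalIntegral.integral_pos (by positivity) (by fun_prop)
  · intro x _
    rw [pow_mul]
    positivity
  · refine ⟨0, ⟨le_rfl, by positivity⟩, ?_⟩
    rw [cos_zero]
    positivity

private lemma smo_swap (K : G → ℝ → ℝ) (hK : Continuous (fun p : G × ℝ => K p.1 p.2)) :
    ∫ g, (∫ t in (0:ℝ)..(2 * π), K g t) ∂μ = ∫ t in (0:ℝ)..(2 * π), ∫ g, K g t ∂μ := by
  have hpi := Real.pi_pos
  have h0 : (0:ℝ) ≤ 2 * π := by positivity
  simp only [intervalIntegral.integral_of_le h0]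
  apply integral_integral_swap
  have : IntegrableOn (fun p : G × ℝ => K p.1 p.2) (Set.univ ×ˢ Set.Icc (0:ℝ) (2 * π))
      (μ.prod volume) :=
    hK.continuousOn.integrableOn_compact (isCompact_univ.prod isCompact_Icc)
  have h4 := this.mono_set (s := Set.univ ×ˢ Set.Ioc (0:ℝ) (2 * π))
    (Set.prod_mono le_rfl Set.Ioc_subset_Icc_self)
  rw [IntegrableOn, ← Measure.prod_restrict, Measure.restrict_univ] at h4
  exact h4

/-! ### the weight -/

/-- one plus the trace -/
private noncomputable def smoT (h : G) : ℝ := 1 + (h.1 0 0 + h.1 1 1 + h.1 2 2)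

private lemma smoT_cont : Continuous smoT := by
  unfold smoT
  exact continuous_const.add (((G.cont_entry 0 0).add (G.cont_entry 1 1)).add (G.cont_entry 2 2))

private lemma smoT_conj (k g : G) : smoT (k * g⁻¹) = smoT (g⁻¹ * k) := by
  have h := Matrix.trace_mul_comm k.1 (g⁻¹).1
  rw [Matrix.trace_fin_three, Matrix.trace_fin_three] at h
  unfold smoT
  rw [G.mul_val, G.mul_val]
  linarith

private lemma smoT_fr (m : G) (t : ℝ) :
    smoT (m * fr t) = (1 + m.1 0 0) + (cos t * (m.1 1 1 + m.1 2 2) + sin t * (m.1 1 2 - m.1 2 1)) := by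
  unfold smoT
  rw [(mul_fr m t 0).1, (mul_fr m t 1).2.1, (mul_fr m t 2).2.2]
  ring

private lemma smo_sq (m : G) :
    (m.1 1 1 + m.1 2 2) ^ 2 + (m.1 1 2 - m.1 2 1) ^ 2 = (1 + m.1 0 0) ^ 2 := by
  have h1 := m.row_dot 1 1
  have h2 := m.row_dot 2 2
  have h0 := m.col_dot 0 0
  have hc := m.cross.1
  simp only [Fin.sum_univ_three, if_true] at h0 h1 h2
  linear_combination h1 + h2 - h0 - 2 * hc

/-- the averaged weight -/
private lemma smo_weight (F : G → ℝ) (hF : Continuous F) (hinv : ∀ g t, F (g * fr t) = F g)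
    (g : G) (n : ℕ) :
    2 * π * ∫ h, F (h * g) * smoT h ^ n ∂μ =
      (∫ t in (0:ℝ)..(2 * π), (1 + cos t) ^ n) * ∫ h, (1 + kk h g 0) ^ n * F h ∂μ := by
  have hT := smoT_cont
  have h1 : ∫ h, F (h * g) * smoT h ^ n ∂μ = ∫ k, F k * smoT (k * g⁻¹) ^ n ∂μ := by
    rw [← int_right (fun k => F k * smoT (k * g⁻¹) ^ n) g]
    congr 1
    funext h
    rw [mul_inv_cancel_right]
  have h2 : ∀ t, ∫ k, F k * smoT (k * fr t * g⁻¹) ^ n ∂μ = ∫ k, F k * smoT (k * g⁻¹) ^ n ∂μ := by
    intro t
    rw [← int_right (fun k => F k * smoT (k * g⁻¹) ^ n) (fr t)]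
    congr 1
    funext k
    rw [hinv]
  have h3 : 2 * π * ∫ k, F k * smoT (k * g⁻¹) ^ n ∂μ =
      ∫ t in (0:ℝ)..(2 * π), ∫ k, F k * smoT (k * fr t * g⁻¹) ^ n ∂μ := by
    simp_rw [h2]
    simp
  rw [h1, h3, ← smo_swap (fun k t => F k * smoT (k * fr t * g⁻¹) ^ n) (by fun_prop),
    ← integral_const_mul]
  congr 1
  funext k
  have h4 : ∀ t, smoT (k * fr t * g⁻¹) = (1 + kk k g 0) + (cos t * ((g⁻¹ * k).1 1 1 +
      (g⁻¹ * k).1 2 2) + sin t * ((g⁻¹ * k).1 1 2 - (g⁻¹ * k).1 2 1)) := by
    intro t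
    rw [smoT_conj, ← mul_assoc, smoT_fr, ← kk_eq_mul, kk_symm]
  simp_rw [h4]
  rw [intervalIntegral.integral_const_mul, smo_circle]
  · ring
  · rw [smo_sq, ← kk_eq_mul, kk_symm]

/-- action of rotations on vectors -/
private noncomputable def smoA (h : G) (x : E3) : E3 := WithLp.toLp 2 (h.1.mulVec x.ofLp)

private lemma smoA_col (h g : G) : smoA h (col g 0) = col (h * g) 0 := rfl

private lemma smoA_add (h : G) (x y : E3) : smoA h (x + y) = smoA h x + smoA h y := by
  unfold smoA
  rw [WithLp.ofLp_add, Matrix.mulVec_add, WithLp.toLp_add]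

private lemma smoA_smul (h : G) (a : ℝ) (x : E3) : smoA h (a • x) = a • smoA h x := by
  unfold smoA
  rw [WithLp.ofLp_smul, Matrix.mulVec_smul, WithLp.toLp_smul]

private lemma smoA_cont (x : E3) : Continuous fun h : G => smoA h x := by
  unfold smoA
  apply (PiLp.continuous_toLp 2 _).comp
  apply Continuous.matrix_mulVec continuous_subtype_val continuous_const

private lemma smo_int_kk (φ : ℝ → ℝ) (g : G) : ∫ h, φ (kk h g 0) ∂μ = ∫ h : G, φ (sme 0 h) ∂μ := by
  have h1 : ∀ h : G, φ (kk h g 0) = φ (sme 0 (g⁻¹ * h)) := by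
    intro h
    rw [kk_symm, kk_eq_mul]
    rfl
  simp_rw [h1]
  exact int_left (fun h => φ (sme 0 h)) g⁻¹

/-- every unit vector is the first vector of a frame -/
private lemma smo_surj (x : E3) (hx : ‖x‖ = 1) : ∃ g : G, col g 0 = x := by
  have h1 : x 0 ^ 2 + x 1 ^ 2 + x 2 ^ 2 = 1 := by
    have := EuclideanSpace.norm_eq x
    rw [hx, Fin.sum_univ_three] at this
    have h2 := congrArg (fun r => r ^ 2) this
    simp only [one_pow] at h2
    rw [Real.sq_sqrt (by positivity)] at h2
    simp only [Real.norm_eq_abs, sq_abs] at h2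
    exact h2.symm
  set z : ℂ := ⟨x 1, x 2⟩ with hz
  have hzn : ‖z‖ = √(1 - x 0 ^ 2) := by
    rw [Complex.norm_def, Complex.normSq_apply]
    congr 1
    simp only [hz]
    linarith
  have hc : ‖z‖ * cos z.arg = x 1 := by
    rw [Complex.norm_mul_cos_arg]
  have hs : ‖z‖ * sin z.arg = x 2 := by
    rw [Complex.norm_mul_sin_arg]
  have h0 : -1 ≤ x 0 ∧ x 0 ≤ 1 := by
    constructor <;> nlinarith [sq_nonneg (x 1), sq_nonneg (x 2)]
  have hcos := Real.cos_arccos h0.1 h0.2
  have hsin := Real.sin_arccos (x 0)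
  refine ⟨fr z.arg * fa (arccos (x 0)), ?_⟩
  ext i
  show (fr z.arg * fa (arccos (x 0))).1 i 0 = x i
  rw [(mul_fa (fr z.arg) (arccos (x 0)) i).1, hcos, hsin, ← hzn]
  fin_cases i
  · simp [fr_val]
  · simp only [fr_val]
    simp [hc]
  · simp only [fr_val]
    simp [hs]

private lemma smo_dist (h g : G) : ‖col h 0 - col g 0‖ ^ 2 = 2 - 2 * kk h g 0 := by
  rw [EuclideanSpace.norm_sq_eq, Fin.sum_univ_three]
  have h1 := h.col_dot 0 0
  have h2 := g.col_dot 0 0
  simp only [Fin.sum_univ_three, if_true] at h1 h2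
  simp only [kk, Fin.sum_univ_three, Real.norm_eq_abs, sq_abs]
  show (h.1 0 0 - g.1 0 0) ^ 2 + (h.1 1 0 - g.1 1 0) ^ 2 + (h.1 2 0 - g.1 2 0) ^ 2 = _
  linear_combination h1 + h2

theorem smoothing (p : Seminorm ℝ E3) (m M : ℝ) (hm : 0 < m) (h1 : ∀ x, m * ‖x‖ ≤ p x)
    (h2 : ∀ x, p x ≤ M * ‖x‖) (δ : ℝ) (hδ : 0 < δ) :
    ∃ (q : Seminorm ℝ E3) (J : Jet), J.Ok ∧ (∀ g, J.f g = q (col g 0)) ∧
      ∀ x, |q x - p x| ≤ δ * ‖x‖ := by
  have hpi := Real.pi_pos
  -- `M` is positive
  have hcol1 : ∀ g : G, ‖col g 0‖ = 1 := by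
    intro g
    have h3 : ‖col g 0‖ ^ 2 = 1 := by
      rw [EuclideanSpace.norm_sq_eq, Fin.sum_univ_three]
      have h4 := g.col_dot 0 0
      simp only [Fin.sum_univ_three, if_true] at h4
      simp only [Real.norm_eq_abs, sq_abs]
      show g.1 0 0 ^ 2 + g.1 1 0 ^ 2 + g.1 2 0 ^ 2 = 1
      linear_combination h4
    nlinarith [norm_nonneg (col g 0)]
  have hM : 0 < M := by
    have h3 := h1 (col 1 0)
    have h4 := h2 (col 1 0)
    rw [hcol1] at h3 h4
    linarith
  have hpc : Continuous p := by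
    have hl : LipschitzWith (Real.toNNReal M) p := by
      apply LipschitzWith.of_dist_le_mul
      intro x y
      rw [Real.dist_eq, Real.coe_toNNReal _ hM.le, dist_eq_norm]
      exact (abs_sub_map_le_sub p x y).trans (h2 _)
    exact hl.continuous
  set F : G → ℝ := fun g => p (col g 0) with hF
  have hcolc : Continuous fun g : G => col g 0 := by
    unfold col
    apply (PiLp.continuous_toLp 2 _).comp
    exact continuous_pi fun i => G.cont_entry i 0
  have hFc : Continuous F := hpc.comp hcolc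
  have hFinv : ∀ g t, F (g * fr t) = F g := by
    intro g t
    simp only [hF]
    congr 1
    ext i
    exact (mul_fr g t i).1
  -- choice of parameters
  set ε : ℝ := δ / M with hε
  have hε0 : 0 < ε := by positivity
  obtain ⟨N, hN⟩ : ∃ N : ℕ, 2 / ((N : ℝ) + 1) ≤ ε ^ 2 := by
    obtain ⟨N, hN⟩ := exists_nat_gt (2 / ε ^ 2)
    refine ⟨N, ?_⟩
    rw [div_le_iff₀ (by positivity)]
    rw [div_lt_iff₀ (by positivity)] at hN
    nlinarith [sq_nonneg ε]
  set c : ℝ := ∫ t in (0:ℝ)..(2 * π), (1 + cos t) ^ (2 * N) with hc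
  have hc0 : 0 < c := smo_circle_pos N
  set K : Polynomial ℝ := Polynomial.C ((2 * N + 1 : ℝ) / 2 ^ (2 * N)) *
    (1 + Polynomial.X) ^ (2 * N) with hK
  have hKe : ∀ t, K.eval t = (2 * N + 1) * ((1 + t) / 2) ^ (2 * N) := by
    intro t
    simp only [hK, Polynomial.eval_mul, Polynomial.eval_C, Polynomial.eval_pow,
      Polynomial.eval_add, Polynomial.eval_one, Polynomial.eval_X]
    rw [div_pow]
    ring
  set κ : ℝ := (2 * N + 1 : ℝ) / 2 ^ (2 * N) * (2 * π) / c with hκ
  have hκ0 : 0 < κ := by positivity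
  have hT := smoT_cont
  have hint : ∀ x, Continuous fun h : G => p (smoA h x) * smoT h ^ (2 * N) := fun x =>
    (hpc.comp (smoA_cont x)).mul (hT.pow _)
  have hw0 : ∀ h : G, 0 ≤ smoT h ^ (2 * N) := by
    intro h
    rw [pow_mul]
    positivity
  let q : Seminorm ℝ E3 := Seminorm.of (fun x => κ * ∫ h, p (smoA h x) * smoT h ^ (2 * N) ∂μ)
    (by
      intro x y
      rw [← mul_add, ← integral_add (intg (hint x)) (intg (hint y))]
      apply mul_le_mul_of_nonneg_left _ hκ0.le
      apply integral_mono (intg (hint (x + y))) ((intg (hint x)).add (intg (hint y)))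
      intro h
      simp only [Pi.add_apply]
      rw [← add_mul, smoA_add]
      exact mul_le_mul_of_nonneg_right (map_add_le_add p _ _) (hw0 h))
    (by
      intro a x
      have h3 : ∀ h : G, p (smoA h (a • x)) * smoT h ^ (2 * N) =
          ‖a‖ * (p (smoA h x) * smoT h ^ (2 * N)) := by
        intro h
        rw [smoA_smul, map_smul_eq_mul]
        ring
      simp_rw [h3]
      rw [integral_const_mul]
      ring)
  have hq : ∀ x, q x = κ * ∫ h, p (smoA h x) * smoT h ^ (2 * N) ∂μ := fun x => rfl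
  have hqS : ∀ g, Sm K F g = q (col g 0) := by
    intro g
    rw [hq]
    have h3 := smo_weight F hFc hFinv g (2 * N)
    have h4 : ∀ h : G, p (smoA h (col g 0)) * smoT h ^ (2 * N) = F (h * g) * smoT h ^ (2 * N) :=
      fun h => rfl
    simp_rw [h4]
    have h5 : ∫ h, F (h * g) * smoT h ^ (2 * N) ∂μ =
        c / (2 * π) * ∫ h, (1 + kk h g 0) ^ (2 * N) * F h ∂μ := by
      field_simp
      rw [← h3]
      ring
    rw [h5, Sm]
    have h6 : ∀ h : G, K.eval (kk h g 0) * F h = ((2 * N + 1 : ℝ) / 2 ^ (2 * N)) *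
        ((1 + kk h g 0) ^ (2 * N) * F h) := by
      intro h
      rw [hKe, div_pow]
      ring
    simp_rw [h6]
    rw [integral_const_mul, hκ]
    field_simp
  -- moments of the kernel
  have hK1 : ∫ g : G, K.eval (sme 0 g) ∂μ = 1 := by
    simp_rw [hKe]
    rw [integral_const_mul, smo_moment]
    push_cast
    field_simp
  have hK2 : ∫ g : G, K.eval (sme 0 g) * (2 - 2 * sme 0 g) ∂μ = 2 / ((N : ℝ) + 1) := by
    have h3 : ∀ g : G, K.eval (sme 0 g) * (2 - 2 * sme 0 g) =
        (4 * (2 * N + 1)) * ((1 + sme 0 g) / 2) ^ (2 * N) -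
          (4 * (2 * N + 1)) * ((1 + sme 0 g) / 2) ^ (2 * N + 1) := by
      intro g
      rw [hKe]
      ring
    simp_rw [h3]
    rw [integral_sub (intg (by fun_prop)) (intg (by fun_prop)), integral_const_mul,
      integral_const_mul, smo_moment, smo_moment]
    push_cast
    field_simp
    ring
  have hKc : Continuous fun t => K.eval t := K.continuous
  have hK0 : ∀ t, 0 ≤ K.eval t := by
    intro t
    rw [hKe, pow_mul]
    positivity
  -- the estimate on frames
  have hest : ∀ g : G, |q (col g 0) - p (col g 0)| ≤ δ := by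
    intro g
    rw [← hqS]
    have hkc : Continuous fun h : G => kk h g 0 := kk_cont_left g 0
    have h3 : ∫ h, K.eval (kk h g 0) ∂μ = 1 := by
      rw [smo_int_kk (fun t => K.eval t) g, hK1]
    have h4 : Sm K F g - p (col g 0) = ∫ h, K.eval (kk h g 0) * (F h - F g) ∂μ := by
      have h5 : ∀ h : G, K.eval (kk h g 0) * (F h - F g) =
          K.eval (kk h g 0) * F h - F g * K.eval (kk h g 0) := by
        intro h; ring
      simp_rw [h5]
      have hcA : Continuous fun h : G => K.eval (kk h g 0) * F h := (hKc.comp hkc).mul hFc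
      have hcB : Continuous fun h : G => F g * K.eval (kk h g 0) := (hKc.comp hkc).const_mul (F g)
      rw [integral_sub (intg hcA) (intg hcB), integral_const_mul, h3, mul_one]
      rfl
    rw [h4]
    have h6 : ∀ h : G, ‖K.eval (kk h g 0) * (F h - F g)‖ ≤
        M * (ε / 2 * K.eval (kk h g 0) + 1 / (2 * ε) * (K.eval (kk h g 0) *
          (2 - 2 * kk h g 0))) := by
      intro h
      rw [norm_mul, Real.norm_eq_abs, Real.norm_eq_abs, abs_of_nonneg (hK0 _)]
      have h7 : |F h - F g| ≤ M * ‖col h 0 - col g 0‖ :=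
        (abs_sub_map_le_sub p _ _).trans (h2 _)
      have h8 : ‖col h 0 - col g 0‖ ≤ ε / 2 + 1 / (2 * ε) * (2 - 2 * kk h g 0) := by
        rw [← smo_dist h g]
        set d := ‖col h 0 - col g 0‖
        have h9 : 0 ≤ (d - ε) ^ 2 / (2 * ε) := by positivity
        have h10 : (d - ε) ^ 2 / (2 * ε) = ε / 2 + 1 / (2 * ε) * d ^ 2 - d := by
          field_simp
          ring
        linarith
      calc K.eval (kk h g 0) * |F h - F g| ≤ K.eval (kk h g 0) *
            (M * (ε / 2 + 1 / (2 * ε) * (2 - 2 * kk h g 0))) := by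
            apply mul_le_mul_of_nonneg_left _ (hK0 _)
            exact h7.trans (mul_le_mul_of_nonneg_left h8 hM.le)
        _ = _ := by ring
    have hc1 : Continuous fun h : G => ε / 2 * K.eval (kk h g 0) :=
      (hKc.comp hkc).const_mul _
    have hc2 : Continuous fun h : G => 1 / (2 * ε) * (K.eval (kk h g 0) * (2 - 2 * kk h g 0)) :=
      ((hKc.comp hkc).mul (by fun_prop)).const_mul _
    have h11 : ∫ h, K.eval (kk h g 0) * (2 - 2 * kk h g 0) ∂μ = 2 / ((N : ℝ) + 1) := by
      rw [smo_int_kk (fun t => K.eval t * (2 - 2 * t)) g, hK2]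
    calc |∫ h, K.eval (kk h g 0) * (F h - F g) ∂μ|
        ≤ ∫ h, M * (ε / 2 * K.eval (kk h g 0) + 1 / (2 * ε) * (K.eval (kk h g 0) *
          (2 - 2 * kk h g 0))) ∂μ := by
          rw [← Real.norm_eq_abs]
          exact norm_integral_le_of_norm_le ((intg (hc1.add hc2)).const_mul M)
            (Filter.Eventually.of_forall h6)
      _ = M * (ε / 2 + 1 / (2 * ε) * (2 / ((N : ℝ) + 1))) := by
          rw [integral_const_mul, integral_add (intg hc1) (intg hc2), integral_const_mul,
            integral_const_mul, h3, h11, mul_one]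
      _ ≤ M * (ε / 2 + 1 / (2 * ε) * ε ^ 2) := by gcongr
      _ = δ := by
          rw [hε]
          field_simp
          ring
  refine ⟨q, SmJ K F, SmJ_ok K F hFc, hqS, ?_⟩
  intro x
  by_cases hx : x = 0
  · subst hx
    simp
  · have hx0 : 0 < ‖x‖ := norm_pos_iff.mpr hx
    obtain ⟨g, hg⟩ := smo_surj (‖x‖⁻¹ • x) (by
      rw [norm_smul, norm_inv, norm_norm, inv_mul_cancel₀ hx0.ne'])
    have h3 := hest g
    rw [hg, map_smul_eq_mul, map_smul_eq_mul, norm_inv, norm_norm, ← mul_sub, abs_mul,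
      abs_of_pos (inv_pos.mpr hx0)] at h3
    rw [inv_mul_le_iff₀ hx0] at h3
    linarith

end Pool.Agent.Lib_MP_f78f32_gt
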