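import Pool.Agent.Lib_MP_f78f32_gt.Defs

/-! Definitions of the section curves (section Bodies of the skeleton). -/

open MeasureTheory Real
open scoped Matrix ComplexConjugate

namespace Pool.Agent.Lib_MP_f78f32_gt

/-- relative boundary of the central section, as in the frozen statement -/
def relBd (K : Set E3) (e : E3) : Set E3 :=
  {x : E3 | x ∈ K ∧ inner ℝ x e = (0:ℝ) ∧
    ∀ ε : ℝ, ε > 0 → ∃ y : E3, inner ℝ y e = (0:ℝ) ∧ dist y x < ε ∧ y ∉ K}

/-- the unit curve of `p` in the plane orthogonal to `e` -/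
def sec1 (p : E3 → ℝ) (e : E3) : Set E3 := {x : E3 | inner ℝ x e = (0:ℝ) ∧ p x = 1}

end Pool.Agent.Lib_MP_f78f32_gt
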