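import Pool.Agent.Lib_MP_f78f32_gt.ArcLen
import Pool.Agent.Lib_MP_f78f32_gt.Bodies

/-! # The section curve of a seminorm is a radial curve -/

open MeasureTheory Real
open scoped Matrix ComplexConjugate

namespace Pool.Agent.Lib_MP_f78f32_gt

namespace SecArc

lemma inner_col (g h : G) (j k : Fin 3) :
    inner ℝ (col g j) (col h k) = ∑ i, g.1 i j * h.1 i k := by
  simp [col, PiLp.inner_apply, mul_comm]

lemma inner_col_self (g : G) (j k : Fin 3) :
    inner ℝ (col g j) (col g k) = if j = k then (1 : ℝ) else 0 := by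
  rw [inner_col, G.col_dot]

lemma norm_col (g : G) (j : Fin 3) : ‖col g j‖ = 1 := by
  have h := inner_col_self g j j
  rw [real_inner_self_eq_norm_sq, if_pos rfl] at h
  have h0 := norm_nonneg (col g j)
  nlinarith

lemma col_fa (g : G) (t : ℝ) : col (g * fa t) 0 = cos t • col g 0 + sin t • col g 1 := by
  ext i
  simp only [col, PiLp.add_apply, PiLp.smul_apply, smul_eq_mul]
  exact (mul_fa g t i).1

lemma expand (g : G) (z : E3) : z = inner ℝ z (col g 0) • col g 0 + inner ℝ z (col g 1) • col g 1 +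
    inner ℝ z (col g 2) • col g 2 := by
  ext i
  have h0 := g.row_dot i 0
  have h1 := g.row_dot i 1
  have h2 := g.row_dot i 2
  simp only [Fin.sum_univ_three] at h0 h1 h2
  simp only [col, PiLp.add_apply, PiLp.smul_apply, smul_eq_mul, PiLp.inner_apply,
    Fin.sum_univ_three, RCLike.inner_apply, conj_trivial]
  have e : z i = z 0 * (if i = 0 then 1 else 0) + z 1 * (if i = 1 then 1 else 0) +
      z 2 * (if i = 2 then 1 else 0) := by
    fin_cases i <;> simp
  rw [e, ← h0, ← h1, ← h2]
  ring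

lemma exists_angle (p s : ℝ) (h : p ^ 2 + s ^ 2 ≠ 0) :
    ∃ t ∈ Set.Ico (0 : ℝ) (2 * π), p = √(p ^ 2 + s ^ 2) * cos t ∧ s = √(p ^ 2 + s ^ 2) * sin t := by
  set w : ℂ := ⟨p, s⟩ with hw
  have hw0 : w ≠ 0 := by
    intro h0
    apply h
    have h1 := congrArg Complex.re h0
    have h2 := congrArg Complex.im h0
    simp only [hw, Complex.zero_re, Complex.zero_im] at h1 h2
    rw [h1, h2]; norm_num
  have hn : ‖w‖ = √(p ^ 2 + s ^ 2) := by
    rw [Complex.norm_def, Complex.normSq_mk]
    congr 1; ring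
  have hn0 : ‖w‖ ≠ 0 := norm_ne_zero_iff.mpr hw0
  have hc : p = √(p ^ 2 + s ^ 2) * cos (Complex.arg w) := by
    rw [Complex.cos_arg hw0, ← hn]
    field_simp
    rfl
  have hs : s = √(p ^ 2 + s ^ 2) * sin (Complex.arg w) := by
    rw [Complex.sin_arg, ← hn]
    field_simp
    rfl
  have hpi := Real.pi_pos
  by_cases hneg : 0 ≤ Complex.arg w
  · exact ⟨Complex.arg w, ⟨hneg, by linarith [Complex.arg_le_pi w]⟩, hc, hs⟩
  · push Not at hneg
    refine ⟨Complex.arg w + 2 * π, ⟨by linarith [Complex.neg_pi_lt_arg w], by linarith⟩, ?_, ?_⟩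
    · rw [Real.cos_add_two_pi]; exact hc
    · rw [Real.sin_add_two_pi]; exact hs

end SecArc

open SecArc in
theorem sec_arc (q : Seminorm ℝ E3) (m : ℝ) (hm : 0 < m) (hq : ∀ x, m * ‖x‖ ≤ q x)
    (J : Jet) (hJ : J.Ok) (hJq : ∀ g, 1 + J.f g = 1 / q (col g 0)) (g : G) :
    Measure.hausdorffMeasure (1:ℝ) (sec1 q (col g 2)) =
      ENNReal.ofReal (∫ t in (0:ℝ)..(2 * π),
        √((1 + J.f (g * fa t)) ^ 2 + J.X (g * fa t) ^ 2)) := by
  have hqpos : ∀ g : G, 0 < q (col g 0) := by
    intro g
    have := hq (col g 0)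
    rw [norm_col, mul_one] at this
    linarith
  have hxe : inner ℝ (col g 0) (col g 2) = (0 : ℝ) := by rw [inner_col_self]; simp
  have hye : inner ℝ (col g 1) (col g 2) = (0 : ℝ) := by rw [inner_col_self]; simp
  have hxy : inner ℝ (col g 0) (col g 1) = (0 : ℝ) := by rw [inner_col_self]; simp
  have key := arc_length (fun t => 1 + J.f (g * fa t)) (fun t => J.X (g * fa t))
    (fun t => (hJ.dX.ata g t).const_add 1)
    (hJ.cX.comp (continuous_const.mul fa_cont))
    (fun t => by
      show 0 < 1 + J.f (g * fa t)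
      rw [hJq]; exact one_div_pos.mpr (hqpos _))
    (fun t => by
      have : fa (t + 2 * π) = fa t := by
        apply Subtype.ext
        rw [fa_val, fa_val, Real.cos_add_two_pi, Real.sin_add_two_pi]
      show 1 + J.f (g * fa (t + 2 * π)) = 1 + J.f (g * fa t)
      rw [this])
    (col g 0) (col g 1) (norm_col g 0) (norm_col g 1) hxy
  rw [← key]
  congr 1
  apply Set.Subset.antisymm
  · rintro z ⟨hz1, hz2⟩
    have hz : z = inner ℝ z (col g 0) • col g 0 + inner ℝ z (col g 1) • col g 1 := by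
      conv_lhs => rw [expand g z, hz1, zero_smul, add_zero]
    set p := inner ℝ z (col g 0) with hp
    set s := inner ℝ z (col g 1) with hs
    have hne : p ^ 2 + s ^ 2 ≠ 0 := by
      intro h0
      have h1 : p = 0 := by nlinarith [sq_nonneg p, sq_nonneg s]
      have h2 : s = 0 := by nlinarith [sq_nonneg p, sq_nonneg s]
      rw [h1, h2, zero_smul, zero_smul, add_zero] at hz
      rw [hz, map_zero] at hz2
      exact zero_ne_one hz2
    obtain ⟨t, ht, hpt, hst⟩ := exists_angle p s hne
    have hz' : z = √(p ^ 2 + s ^ 2) • col (g * fa t) 0 := by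
      rw [col_fa, smul_add, smul_smul, smul_smul, ← hpt, ← hst]
      exact hz
    have hqz : √(p ^ 2 + s ^ 2) * q (col (g * fa t) 0) = 1 := by
      rw [hz', map_smul_eq_mul, Real.norm_eq_abs, abs_of_nonneg (Real.sqrt_nonneg _)] at hz2
      exact hz2
    refine ⟨t, ht, ?_⟩
    show (1 + J.f (g * fa t)) • (cos t • col g 0 + sin t • col g 1) = z
    rw [hz', ← col_fa, hJq]
    congr 1
    rw [div_eq_iff (hqpos _).ne']
    exact hqz.symm
  · rintro z ⟨t, ht, rfl⟩
    constructor
    · show inner ℝ ((1 + J.f (g * fa t)) • (cos t • col g 0 + sin t • col g 1)) (col g 2) = (0 : ℝ)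
      rw [inner_smul_left, inner_add_left, inner_smul_left, inner_smul_left, hxe, hye]
      simp
    · show q ((1 + J.f (g * fa t)) • (cos t • col g 0 + sin t • col g 1)) = 1
      rw [← col_fa, map_smul_eq_mul, hJq, Real.norm_eq_abs,
        abs_of_pos (one_div_pos.mpr (hqpos _))]
      have := (hqpos (g * fa t)).ne'
      field_simp

end Pool.Agent.Lib_MP_f78f32_gt
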