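import Pool.Agent.Lib_MP_f78f32_gt.Bodies

/-!
# Monotonicity of the Hausdorff perimeter of sections (nearest point projection)
-/

open MeasureTheory Real
open scoped Matrix ComplexConjugate

namespace Pool.Agent.Lib_MP_f78f32_gt

lemma sm_cont (p : Seminorm ℝ E3) : Continuous p := by
  have h1 : ConvexOn ℝ Set.univ p := p.convexOn
  exact continuousOn_univ.mp (h1.continuousOn isOpen_univ)

/-- supporting functional of a seminorm -/
lemma sm_support (p : Seminorm ℝ E3) (z : E3) (hz : p z = 1) :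
    ∃ w : E3, inner ℝ w z = (1:ℝ) ∧ ∀ x, inner ℝ w x ≤ p x := by
  have hz0 : z ≠ 0 := by
    rintro rfl
    simp at hz
  have hform : ∀ (c : ℝ) (hx : c • z ∈ (LinearPMap.mkSpanSingleton z (1:ℝ) hz0 :
      E3 →ₗ.[ℝ] ℝ).domain),
      (LinearPMap.mkSpanSingleton z (1:ℝ) hz0 : E3 →ₗ.[ℝ] ℝ) ⟨c • z, hx⟩ = c := by
    intro c hx
    have hH : ∀ c : ℝ, c • z = 0 → (RingHom.id ℝ) c • (1:ℝ) = 0 := fun c hc => by
      rcases smul_eq_zero.mp hc with h | h
      · rw [h]; simp
      · exact absurd h hz0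
    have := LinearPMap.mkSpanSingleton'_apply (σ := RingHom.id ℝ) z (1:ℝ) hH c hx
    simpa [LinearPMap.mkSpanSingleton] using this
  obtain ⟨g, hg1, hg2⟩ := exists_extension_of_le_sublinear
    (LinearPMap.mkSpanSingleton z (1:ℝ) hz0) (fun x => p x)
    (fun c hc x => by rw [map_smul_eq_mul, Real.norm_of_nonneg hc.le])
    (fun x y => map_add_le_add p x y)
    (by
      rintro ⟨x, hx⟩
      obtain ⟨c, rfl⟩ := Submodule.mem_span_singleton.mp hx
      have h1 := hform c hx
      rw [h1]
      simp only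
      rw [map_smul_eq_mul, hz, mul_one]
      exact le_abs_self c)
  have hgz : g z = 1 := by
    have hmem : z ∈ (LinearPMap.mkSpanSingleton z (1:ℝ) hz0 : E3 →ₗ.[ℝ] ℝ).domain :=
      Submodule.mem_span_singleton_self z
    have := hg1 ⟨z, hmem⟩
    simp only at this
    rw [this]
    have h2 := hform 1 (by simp)
    simp only [one_smul] at h2
    exact h2
  let gc : StrongDual ℝ E3 := LinearMap.toContinuousLinearMap g
  refine ⟨(InnerProductSpace.toDual ℝ E3).symm gc, ?_, ?_⟩
  · rw [InnerProductSpace.toDual_symm_apply]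
    exact hgz
  · intro x
    rw [InnerProductSpace.toDual_symm_apply]
    exact hg2 x

theorem sec_close (p q : Seminorm ℝ E3) (m : ℝ) (hm : 0 < m) (hp : ∀ x, m * ‖x‖ ≤ p x)
    (hq : ∀ x, m * ‖x‖ ≤ q x) (c : ℝ) (hc : 0 < c) (h : ∀ x, q x ≤ c * p x) (e : E3) :
    Measure.hausdorffMeasure (1:ℝ) (sec1 p e) ≤
      ENNReal.ofReal c * Measure.hausdorffMeasure (1:ℝ) (sec1 q e) := by
  set A : Set E3 := {x : E3 | inner ℝ x e = (0:ℝ) ∧ p x ≤ 1} with hA
  have hAne : A.Nonempty := ⟨0, by simp [hA]⟩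
  have hAcl : IsClosed A :=
    (isClosed_eq (by fun_prop) continuous_const).inter
      (isClosed_le (sm_cont p) continuous_const)
  have hAconv : Convex ℝ A := by
    intro x hx y hy a b ha hb hab
    refine ⟨?_, ?_⟩
    · rw [inner_add_left, inner_smul_left, inner_smul_left, hx.1, hy.1]
      simp
    · calc p (a • x + b • y) ≤ p (a • x) + p (b • y) := map_add_le_add p _ _
        _ = a * p x + b * p y := by
          rw [map_smul_eq_mul, map_smul_eq_mul, Real.norm_of_nonneg ha, Real.norm_of_nonneg hb]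
        _ ≤ a * 1 + b * 1 := by
          gcongr
          · exact hx.2
          · exact hy.2
        _ = 1 := by rw [mul_one, mul_one, hab]
  have hproj : ∀ z : E3, ∃ v ∈ A, ∀ w ∈ A, inner ℝ (z - v) (w - v) ≤ (0:ℝ) := by
    intro z
    obtain ⟨v, hv, hv2⟩ := exists_norm_eq_iInf_of_complete_convex hAne hAcl.isComplete hAconv z
    exact ⟨v, hv, (norm_eq_iInf_iff_real_inner_le_zero hAconv hv).mp hv2⟩
  choose P hPA hP using hproj
  have hlip1 : ∀ x y : E3, ‖P x - P y‖ ≤ ‖x - y‖ := by
    intro x y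
    have h1 := hP x (P y) (hPA y)
    have h2 := hP y (P x) (hPA x)
    have h3 : ‖P x - P y‖ ^ 2 ≤ inner ℝ (x - y) (P x - P y) := by
      rw [← real_inner_self_eq_norm_sq]
      have e1 : inner ℝ (x - y) (P x - P y) - inner ℝ (P x - P y) (P x - P y) =
          -(inner ℝ (x - P x) (P y - P x) + inner ℝ (y - P y) (P x - P y)) := by
        simp only [inner_sub_left, inner_sub_right]
        ring
      linarith
    have h4 : inner ℝ (x - y) (P x - P y) ≤ ‖x - y‖ * ‖P x - P y‖ := real_inner_le_norm _ _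
    by_cases h0 : ‖P x - P y‖ = 0
    · rw [h0]; exact norm_nonneg _
    · have hpos : 0 < ‖P x - P y‖ := lt_of_le_of_ne (norm_nonneg _) (Ne.symm h0)
      have h5 : ‖P x - P y‖ * ‖P x - P y‖ ≤ ‖x - y‖ * ‖P x - P y‖ := by
        rw [← sq]; exact h3.trans h4
      exact le_of_mul_le_mul_right h5 hpos
  have hlip : LipschitzWith c.toNNReal (fun x : E3 => P (c • x)) := by
    apply LipschitzWith.of_dist_le_mul
    intro x y
    rw [dist_eq_norm, dist_eq_norm, Real.coe_toNNReal _ hc.le]
    refine (hlip1 _ _).trans ?_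
    rw [← smul_sub, norm_smul, Real.norm_of_nonneg hc.le]
  have huniq : ∀ z v : E3, v ∈ A → (∀ w ∈ A, inner ℝ (z - v) (w - v) ≤ (0:ℝ)) → P z = v := by
    intro z v hv hv2
    have h1 := hP z v hv
    have h2 := hv2 (P z) (hPA z)
    have h3 : ‖P z - v‖ ^ 2 ≤ 0 := by
      rw [← real_inner_self_eq_norm_sq]
      have e1 : inner ℝ (P z - v) (P z - v) =
          inner ℝ (z - P z) (v - P z) + inner ℝ (z - v) (P z - v) := by
        simp only [inner_sub_left, inner_sub_right]
        ring
      linarith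
    have h4 : ‖P z - v‖ = 0 := by
      have := sq_nonneg ‖P z - v‖
      exact pow_eq_zero_iff (two_ne_zero) |>.mp (le_antisymm h3 this)
    exact sub_eq_zero.mp (norm_eq_zero.mp h4)
  have hsub : sec1 p e ⊆ (fun x : E3 => P (c • x)) '' sec1 q e := by
    rintro z ⟨hze, hz1⟩
    obtain ⟨w, hw1, hw2⟩ := sm_support p z hz1
    -- project onto the plane
    set k : ℝ := inner ℝ w e / inner ℝ e e with hk
    set ν : E3 := w - k • e with hν
    have hνe : inner ℝ ν e = (0:ℝ) := by
      rw [hν, inner_sub_left, inner_smul_left]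
      by_cases h0 : e = 0
      · simp [h0]
      · have : inner ℝ e e ≠ (0:ℝ) := by
          rw [Ne, inner_self_eq_zero]; exact h0
        rw [hk]
        simp only [conj_trivial]
        field_simp
        ring
    have hνx : ∀ x : E3, inner ℝ x e = (0:ℝ) → inner ℝ ν x = inner ℝ w x := by
      intro x hx
      have hx' : inner ℝ e x = (0:ℝ) := by rw [real_inner_comm]; exact hx
      rw [hν, inner_sub_left, inner_smul_left, hx']
      simp
    have hν0 : ν ≠ 0 := by
      intro h0
      have := hνx z hze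
      rw [h0, hw1, inner_zero_left] at this
      exact zero_ne_one this
    have hνpos : 0 < ‖ν‖ := norm_pos_iff.mpr hν0
    have hcont : Continuous (fun t : ℝ => q (z + t • ν)) := (sm_cont q).comp (by fun_prop)
    set T : ℝ := (c / m + ‖z‖) / ‖ν‖ with hT
    have hT0 : 0 ≤ T := by positivity
    have hTq : c ≤ q (z + T • ν) := by
      refine le_trans ?_ (hq _)
      have h1 : ‖T • ν‖ ≤ ‖z + T • ν‖ + ‖z‖ := by
        calc ‖T • ν‖ = ‖(z + T • ν) - z‖ := by congr 1; abel
          _ ≤ _ := norm_sub_le _ _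
      have h2 : ‖T • ν‖ = c / m + ‖z‖ := by
        rw [norm_smul, Real.norm_of_nonneg hT0, hT]
        field_simp
      have h3 : c / m ≤ ‖z + T • ν‖ := by linarith
      calc c = m * (c / m) := by field_simp
        _ ≤ _ := by gcongr
    have h0q : q (z + (0:ℝ) • ν) ≤ c := by
      have := h z
      rw [hz1, mul_one] at this
      simpa using this
    obtain ⟨t, ht, htq⟩ := intermediate_value_Icc hT0 hcont.continuousOn ⟨h0q, hTq⟩
    simp only at htq
    refine ⟨c⁻¹ • (z + t • ν), ⟨?_, ?_⟩, ?_⟩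
    · rw [inner_smul_left, inner_add_left, inner_smul_left, hze, hνe]
      simp
    · rw [map_smul_eq_mul, htq, Real.norm_of_nonneg (inv_nonneg.mpr hc.le)]
      exact inv_mul_cancel₀ hc.ne'
    · simp only
      rw [smul_smul, mul_inv_cancel₀ hc.ne', one_smul]
      refine huniq _ z ⟨hze, hz1.le⟩ ?_
      intro y hy
      have e1 : z + t • ν - z = t • ν := by abel
      rw [e1, inner_smul_left]
      have hyz : inner ℝ (y - z) e = (0:ℝ) := by
        rw [inner_sub_left, hy.1, hze, sub_zero]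
      rw [hνx (y - z) hyz, inner_sub_right, hw1]
      have h3 : inner ℝ w y ≤ (1:ℝ) := (hw2 y).trans hy.2
      have h4 : inner ℝ w y - 1 ≤ (0:ℝ) := by linarith
      simp only [conj_trivial]
      exact mul_nonpos_of_nonneg_of_nonpos ht.1 h4
  calc Measure.hausdorffMeasure (1:ℝ) (sec1 p e)
      ≤ Measure.hausdorffMeasure (1:ℝ) ((fun x : E3 => P (c • x)) '' sec1 q e) :=
        measure_mono hsub
    _ ≤ (c.toNNReal : ENNReal) ^ (1:ℝ) * Measure.hausdorffMeasure (1:ℝ) (sec1 q e) :=
        hlip.hausdorffMeasure_image_le zero_le_one _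
    _ = ENNReal.ofReal c * Measure.hausdorffMeasure (1:ℝ) (sec1 q e) := by
        rw [ENNReal.rpow_one]; rfl

end Pool.Agent.Lib_MP_f78f32_gt
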