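import Pool.Agent.Lib_MP_f78f32_gt.Bodies

/-!
# A symmetric convex body is the unit ball of a seminorm
-/

open Topology

namespace Pool.Agent.Lib_MP_f78f32_gt

theorem body_norm (K : Set E3) (hK : IsCompact K) (hconv : Convex ℝ K)
    (hsym : ∀ x ∈ K, -x ∈ K) (r R : ℝ) (hr : 0 < r) (h1 : Metric.closedBall 0 r ⊆ K)
    (h2 : K ⊆ Metric.closedBall 0 R) :
    ∃ p : Seminorm ℝ E3, (∀ x, x ∈ K ↔ p x ≤ 1) ∧ (∀ x, ‖x‖ ≤ R * p x) ∧ (∀ x, r * p x ≤ ‖x‖) ∧
      ∀ e : E3, ‖e‖ = 1 → relBd K e = sec1 p e := by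
  have h0 : (0 : E3) ∈ K := h1 (Metric.mem_closedBall_self hr.le)
  have hn : K ∈ 𝓝 (0 : E3) := Filter.mem_of_superset (Metric.closedBall_mem_nhds 0 hr) h1
  have habs : Absorbent ℝ K := absorbent_nhds_zero hn
  have hpos : ∀ a : ℝ, 0 ≤ a → a ≤ 1 → ∀ x ∈ K, a • x ∈ K := by
    intro a ha ha1 x hx
    have := hconv h0 hx (sub_nonneg.mpr ha1) ha (by ring)
    simpa using this
  have hbal : Balanced ℝ K := by
    rw [balanced_iff_smul_mem]
    intro a ha x hx
    rcases le_total 0 a with h | h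
    · exact hpos a h (by rwa [Real.norm_of_nonneg h] at ha) x hx
    · have := hpos (-a) (neg_nonneg.mpr h) (by rwa [Real.norm_of_nonpos h] at ha) (-x) (hsym x hx)
      simpa using this
  have hR : 0 < R := by
    have hx : r • (EuclideanSpace.single 0 1 : E3) ∈ Metric.closedBall (0 : E3) r := by
      rw [mem_closedBall_zero_iff, norm_smul, EuclideanSpace.norm_single, norm_one, mul_one,
        Real.norm_of_nonneg hr.le]
    have := h2 (h1 hx)
    rw [mem_closedBall_zero_iff, norm_smul, EuclideanSpace.norm_single, norm_one, mul_one,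
        Real.norm_of_nonneg hr.le] at this
    linarith
  let p : Seminorm ℝ E3 := gaugeSeminorm hbal hconv habs
  have hpK : ∀ x, x ∈ K ↔ p x ≤ 1 := by
    intro x
    have h := gauge_le_one_iff_mem_closure hconv hn (x := x)
    rw [hK.isClosed.closure_eq] at h
    exact h.symm
  have hup : ∀ x, ‖x‖ ≤ R * p x := by
    intro x
    have h := gauge_mono habs h2 x
    rw [gauge_closedBall hR.le, div_le_iff₀ hR] at h
    have h' : ‖x‖ ≤ p x * R := h
    linarith
  have hlow : ∀ x, r * p x ≤ ‖x‖ := by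
    intro x
    have h := gauge_mono (absorbent_nhds_zero (Metric.closedBall_mem_nhds (0 : E3) hr)) h1 x
    rw [gauge_closedBall hr.le, le_div_iff₀ hr] at h
    have h' : p x * r ≤ ‖x‖ := h
    linarith
  refine ⟨p, hpK, hup, hlow, fun e _ => ?_⟩
  ext x
  constructor
  · rintro ⟨hxK, hxe, hy⟩
    refine ⟨hxe, le_antisymm ((hpK x).1 hxK) ?_⟩
    by_contra hlt
    rw [not_le] at hlt
    obtain ⟨y, -, hyx, hyK⟩ := hy (r * (1 - p x)) (mul_pos hr (by linarith))
    apply hyK
    rw [hpK]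
    have h3 : p y ≤ p x + p (y - x) := by
      calc p y = p (x + (y - x)) := by congr 1; abel
        _ ≤ p x + p (y - x) := map_add_le_add p _ _
    have h4 := hlow (y - x)
    rw [dist_eq_norm] at hyx
    have h5 : r * p (y - x) < r * (1 - p x) := lt_of_le_of_lt h4 hyx
    have h6 := lt_of_mul_lt_mul_left h5 hr.le
    linarith
  · rintro ⟨hxe, hx1⟩
    refine ⟨(hpK x).2 hx1.le, hxe, fun ε hε => ?_⟩
    have hd : 0 < 2 * (‖x‖ + 1) := by positivity
    refine ⟨(1 + ε / (2 * (‖x‖ + 1))) • x, ?_, ?_, ?_⟩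
    · rw [real_inner_smul_left, hxe, mul_zero]
    · have h3 : (1 + ε / (2 * (‖x‖ + 1))) • x - x = (ε / (2 * (‖x‖ + 1))) • x := by
        rw [add_smul, one_smul]; abel
      rw [dist_eq_norm, h3, norm_smul, Real.norm_of_nonneg (by positivity), div_mul_eq_mul_div,
        div_lt_iff₀ hd]
      nlinarith [norm_nonneg x]
    · rw [hpK, not_le, map_smul_eq_mul, hx1, mul_one, Real.norm_of_nonneg (by positivity)]
      have : 0 < ε / (2 * (‖x‖ + 1)) := by positivity
      linarith

end Pool.Agent.Lib_MP_f78f32_gt
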