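import Pool.Agent.Lib_MP_f78f32_gt.Defs

/-!
# JetInv: the jet of the reciprocal of a norm, with one sided bounds
-/

open MeasureTheory Real
open scoped Matrix

namespace Pool.Agent.Lib_MP_f78f32_gt

namespace JetInvAux

lemma second_nonneg (φ φ' : ℝ → ℝ) (hφ : ∀ t, HasDerivAt φ (φ' t) t) (c : ℝ)
    (hc : HasDerivAt φ' c 0) (h0 : φ 0 = 0) (h0' : φ' 0 = 0) (hnn : ∀ t, 0 ≤ φ t) : 0 ≤ c := by
  by_contra hneg
  push Not at hneg
  have h1 := hasDerivAt_iff_tendsto_slope.mp hc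
  have h2 : ∀ᶠ t in nhdsWithin (0:ℝ) {0}ᶜ, slope φ' 0 t < 0 := h1.eventually (gt_mem_nhds hneg)
  rw [eventually_nhdsWithin_iff, Metric.eventually_nhds_iff] at h2
  obtain ⟨ε, hε, h3⟩ := h2
  have h4 : ∀ t, 0 < t → t < ε → φ' t < 0 := by
    intro t ht hte
    have h5 := h3 (y := t) (by rw [Real.dist_eq, sub_zero, abs_of_pos ht]; exact hte)
      (by simp [ht.ne'])
    rw [slope_def_field, h0', sub_zero, sub_zero] at h5
    by_contra h6
    push Not at h6
    exact absurd h5 (not_lt.mpr (div_nonneg h6 ht.le))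
  obtain ⟨d, hd, hd'⟩ := exists_hasDerivAt_eq_slope φ φ' (a := 0) (b := ε / 2) (by linarith)
    (fun t _ => (hφ t).continuousAt.continuousWithinAt) (fun t _ => hφ t)
  have h7 := h4 d hd.1 (by linarith [hd.2])
  rw [hd', h0] at h7
  have : 0 ≤ (φ (ε / 2) - 0) / (ε / 2 - 0) := div_nonneg (by linarith [hnn (ε / 2)]) (by linarith)
  linarith

lemma landau (y y' y'' : ℝ → ℝ) (h1 : ∀ t, HasDerivAt y (y' t) t)
    (h2 : ∀ t, HasDerivAt y' (y'' t) t) (M : ℝ) (hM : 0 < M) (h3 : ∀ t, -M ≤ y'' t)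
    (s : ℝ) (hs : ∀ t, |y t - 1| ≤ s) : y' 0 ^ 2 ≤ 4 * s * M := by
  -- auxiliary function
  have hmono : Monotone fun t => y' t + M * t := by
    apply monotone_of_hasDerivAt_nonneg (f' := fun t => y'' t + M * 1)
    · intro t
      exact (h2 t).add ((hasDerivAt_id t).const_mul M)
    · intro t
      have := h3 t
      simp only [Pi.zero_apply]
      linarith
  have key : ∀ t, y 0 + y' 0 * t - M * t ^ 2 / 2 ≤ y t := by
    intro t
    have hd : ∀ u, HasDerivAt (fun u => y u - y' 0 * u + M * u ^ 2 / 2)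
        (y' u - y' 0 * 1 + M * (2 * u) / 2) u := by
      intro u
      have e1 := ((hasDerivAt_id u).pow 2).const_mul M
      have e2 : HasDerivAt (fun u => M * u ^ 2 / 2) (M * (2 * u) / 2) u := by
        have := e1.div_const 2
        simpa using this
      exact ((h1 u).sub ((hasDerivAt_id u).const_mul (y' 0))).add e2
    rcases lt_trichotomy t 0 with ht | ht | ht
    · obtain ⟨d, hd1, hd2⟩ := exists_hasDerivAt_eq_slope _ _ ht
        (fun u _ => (hd u).continuousAt.continuousWithinAt) (fun u _ => hd u)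
      have h5 : y' d + M * d ≤ y' 0 + M * 0 := hmono hd1.2.le
      have h6 : y' d - y' 0 * 1 + M * (2 * d) / 2 ≤ 0 := by linarith
      rw [hd2] at h6
      have h7 : 0 < 0 - t := by linarith
      rw [div_le_iff₀ h7] at h6
      nlinarith
    · subst ht; simp
    · obtain ⟨d, hd1, hd2⟩ := exists_hasDerivAt_eq_slope _ _ ht
        (fun u _ => (hd u).continuousAt.continuousWithinAt) (fun u _ => hd u)
      have h5 : y' 0 + M * 0 ≤ y' d + M * d := hmono hd1.1.le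
      have h6 : 0 ≤ y' d - y' 0 * 1 + M * (2 * d) / 2 := by linarith
      rw [hd2] at h6
      have h7 : 0 < t - 0 := by linarith
      rw [le_div_iff₀ h7] at h6
      nlinarith
  have h8 := key (y' 0 / M)
  have h9 := abs_le.mp (hs (y' 0 / M))
  have h10 := abs_le.mp (hs 0)
  have e1 : y' 0 * (y' 0 / M) - M * (y' 0 / M) ^ 2 / 2 = y' 0 ^ 2 / (2 * M) := by
    field_simp
    ring
  have h11 : y' 0 ^ 2 / (2 * M) ≤ 2 * s := by linarith [h9.2, h10.1]
  rw [div_le_iff₀ (by positivity)] at h11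
  linarith

lemma ji_col_fa (g : G) (t : ℝ) : col (g * fa t) 0 = cos t • col g 0 + sin t • col g 1 := by
  unfold col
  ext i
  have := (mul_fa g t i).1
  simp only [PiLp.add_apply, PiLp.smul_apply, smul_eq_mul]
  exact this

lemma col_pi (g : G) : col (g * fa π) 0 = -col g 0 := by
  rw [ji_col_fa]; simp

/-- the jet of the reciprocal -/
noncomputable def invJ (J : Jet) : Jet where
  f := fun g => (J.f g)⁻¹ - 1
  X := fun g => -J.X g / J.f g ^ 2
  Y := fun g => -J.Y g / J.f g ^ 2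
  XX := fun g => -J.XX g / J.f g ^ 2 + 2 * J.X g ^ 2 / J.f g ^ 3
  XY := fun g => -J.XY g / J.f g ^ 2 + 2 * J.X g * J.Y g / J.f g ^ 3
  YY := fun g => -J.YY g / J.f g ^ 2 + 2 * J.Y g ^ 2 / J.f g ^ 3

lemma FD_inv {c : ℝ → G} (h0 : c 0 = 1) {F F' : G → ℝ} (h : FD c F F') (hne : ∀ g, F g ≠ 0) :
    FD c (fun g => (F g)⁻¹ - 1) (fun g => -F' g / F g ^ 2) := fun g => by
  have h1 := (h g).inv (by simpa [h0] using hne g)
  have h2 := h1.sub_const 1
  simpa [h0] using h2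

lemma FD_div {c : ℝ → G} (h0 : c 0 = 1) {F F' H H' : G → ℝ} (h : FD c F F') (hH : FD c H H')
    (hne : ∀ g, F g ≠ 0) :
    FD c (fun g => -H g / F g ^ 2) (fun g => -H' g / F g ^ 2 + 2 * H g * F' g / F g ^ 3) :=
    fun g => by
  have hg := hne g
  have h1 := ((hH g).neg).div ((h g).pow 2) (by simpa [h0] using hg)
  have h2 : (-H' g * F (g * c 0) ^ 2 - -H (g * c 0) * ((2 : ℕ) * F (g * c 0) ^ (2 - 1) * F' g)) /
      (F (g * c 0) ^ 2) ^ 2 = -H' g / F g ^ 2 + 2 * H g * F' g / F g ^ 3 := by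
    rw [h0, mul_one]
    field_simp
    push_cast
    ring
  show HasDerivAt (fun t => -H (g * c t) / F (g * c t) ^ 2)
    (-H' g / F g ^ 2 + 2 * H g * F' g / F g ^ 3) 0
  rw [← h2]
  exact h1

lemma invJ_ok (J : Jet) (hJ : J.Ok) (hne : ∀ g, J.f g ≠ 0) : (invJ J).Ok where
  cf := (hJ.cf.inv₀ hne).sub continuous_const
  cX := hJ.cX.neg.div (hJ.cf.pow 2) (fun g => pow_ne_zero 2 (hne g))
  cY := hJ.cY.neg.div (hJ.cf.pow 2) (fun g => pow_ne_zero 2 (hne g))
  cXX := (hJ.cXX.neg.div (hJ.cf.pow 2) (fun g => pow_ne_zero 2 (hne g))).add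
    ((continuous_const.mul (hJ.cX.pow 2)).div (hJ.cf.pow 3) (fun g => pow_ne_zero 3 (hne g)))
  cXY := (hJ.cXY.neg.div (hJ.cf.pow 2) (fun g => pow_ne_zero 2 (hne g))).add
    (((continuous_const.mul hJ.cX).mul hJ.cY).div (hJ.cf.pow 3) (fun g => pow_ne_zero 3 (hne g)))
  cYY := (hJ.cYY.neg.div (hJ.cf.pow 2) (fun g => pow_ne_zero 2 (hne g))).add
    ((continuous_const.mul (hJ.cY.pow 2)).div (hJ.cf.pow 3) (fun g => pow_ne_zero 3 (hne g)))
  inv g t := by
    simp only [invJ, hJ.inv]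
  invX g t := by
    simp only [invJ, hJ.inv, hJ.invX]; ring
  invY g t := by
    simp only [invJ, hJ.inv, hJ.invY]; ring
  invXX g t := by
    simp only [invJ, hJ.inv, hJ.invX, hJ.invXX]; ring
  invXY g t := by
    simp only [invJ, hJ.inv, hJ.invX, hJ.invY, hJ.invXY]; ring
  invYY g t := by
    simp only [invJ, hJ.inv, hJ.invY, hJ.invYY]; ring
  dX := FD_inv fa_zero hJ.dX hne
  dY := FD_inv fb_zero hJ.dY hne
  dXX := (FD_div fa_zero hJ.dX hJ.dXX hne).congr fun g => by simp only [invJ]; ring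
  dXY := (FD_div fb_zero hJ.dY hJ.dXY hne).congr fun g => by simp only [invJ]
  dYX := (FD_div fa_zero hJ.dX hJ.dYX hne).congr fun g => by simp only [invJ]; ring
  dYY := (FD_div fb_zero hJ.dY hJ.dYY hne).congr fun g => by simp only [invJ]; ring

/-- convexity -/
lemma conv (q : Seminorm ℝ E3) (J : Jet) (hJ : J.Ok) (hJq : ∀ g, J.f g = q (col g 0)) (g : G) :
    0 ≤ J.XX g + J.f g := by
  have h1 : ∀ t, HasDerivAt (fun t => J.f (g * fa t)) (J.X (g * fa t)) t := hJ.dX.ata g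
  have h2 : ∀ t, HasDerivAt (fun t => J.X (g * fa t)) (J.XX (g * fa t)) t := hJ.dXX.ata g
  have h1n : ∀ t, HasDerivAt (fun t => J.f (g * fa (-t))) (-J.X (g * fa (-t))) t := by
    intro t
    have := (h1 (-t)).scomp t (hasDerivAt_neg t)
    simpa [Function.comp_def] using this
  have h2n : ∀ t, HasDerivAt (fun t => J.X (g * fa (-t))) (-J.XX (g * fa (-t))) t := by
    intro t
    have := (h2 (-t)).scomp t (hasDerivAt_neg t)
    simpa [Function.comp_def] using this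
  have h3 := second_nonneg
    (fun t => J.f (g * fa t) + J.f (g * fa (-t)) - 2 * J.f g * cos t)
    (fun t => J.X (g * fa t) + -J.X (g * fa (-t)) - 2 * J.f g * (-sin t))
    (fun t => ((h1 t).add (h1n t)).sub ((Real.hasDerivAt_cos t).const_mul (2 * J.f g)))
    (J.XX (g * fa 0) + - -J.XX (g * fa (-0)) - 2 * J.f g * (-cos 0))
    (((h2 0).add (h2n 0).neg).sub ((Real.hasDerivAt_sin 0).neg.const_mul (2 * J.f g)))
    (by simp; ring) (by simp) ?_
  · simp only [neg_zero, fa_zero, mul_one, cos_zero, neg_neg] at h3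
    linarith
  · intro t
    have e1 : col (g * fa t) 0 + col (g * fa (-t)) 0 = (2 * cos t) • col g 0 := by
      rw [ji_col_fa, ji_col_fa, cos_neg, sin_neg]
      module
    have e2 : q (col (g * fa t) 0 + col (g * fa (-t)) 0) ≤
        q (col (g * fa t) 0) + q (col (g * fa (-t)) 0) := map_add_le_add q _ _
    rw [e1, map_smul_eq_mul] at e2
    rw [hJq, hJq, hJq]
    have e3 : 2 * cos t * q (col g 0) ≤ ‖2 * cos t‖ * q (col g 0) :=
      mul_le_mul_of_nonneg_right (le_abs_self _) (apply_nonneg q _)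
    linarith

end JetInvAux

open JetInvAux in
theorem jet_inv (q : Seminorm ℝ E3) (J : Jet) (hJ : J.Ok) (hJq : ∀ g, J.f g = q (col g 0))
    (s : ℝ) (hs0 : 0 ≤ s) (hs1 : s ≤ 1 / 10) (hs : ∀ g, |J.f g - 1| ≤ s) :
    ∃ J' : Jet, J'.Ok ∧ (∀ g, 1 + J'.f g = 1 / q (col g 0)) ∧
      (∀ g, J'.f (g * fa π) = J'.f g) ∧ (∀ g, |J'.f g| ≤ 12 / 10 * s) ∧
      (∀ g, |J'.X g| ≤ 3 * √s) ∧ (∀ g, J'.XX g ≤ 1 + 15 * s) := by
  have hlo : ∀ g, 1 - s ≤ J.f g := fun g => by linarith [(abs_le.mp (hs g)).1]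
  have hhi : ∀ g, J.f g ≤ 1 + s := fun g => by linarith [(abs_le.mp (hs g)).2]
  have hpos : ∀ g, 0 < J.f g := fun g => by linarith [hlo g]
  have hne : ∀ g, J.f g ≠ 0 := fun g => (hpos g).ne'
  have hXsq : ∀ g, J.X g ^ 2 ≤ 4 * s * (1 + s) := by
    intro g
    have := landau (fun t => J.f (g * fa t)) (fun t => J.X (g * fa t)) (fun t => J.XX (g * fa t))
      (hJ.dX.ata g) (hJ.dXX.ata g) (1 + s) (by linarith)
      (fun t => by linarith [conv q J hJ hJq (g * fa t), hhi (g * fa t)]) s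
      (fun t => hs (g * fa t))
    simpa using this
  have hinv : ∀ g, (J.f g)⁻¹ ≤ 1 + 10 / 9 * s := by
    intro g
    rw [inv_le_comm₀ (hpos g) (by linarith)]
    refine le_trans ?_ (hlo g)
    rw [inv_le_iff_one_le_mul₀ (by linarith)]
    nlinarith
  have hinv0 : ∀ g, (J.f g)⁻¹ ≤ 10 / 9 := fun g => by
    rw [inv_le_comm₀ (hpos g) (by norm_num)]
    have := hlo g
    norm_num
    linarith
  have hinvpos : ∀ g, 0 < (J.f g)⁻¹ := fun g => inv_pos.mpr (hpos g)
  refine ⟨invJ J, invJ_ok J hJ hne, ?_, ?_, ?_, ?_, ?_⟩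
  · intro g
    simp only [invJ]
    rw [hJq]; ring
  · intro g
    simp only [invJ]
    rw [hJq, hJq, col_pi, map_neg_eq_map]
  · intro g
    simp only [invJ]
    have e : (J.f g)⁻¹ - 1 = (1 - J.f g) * (J.f g)⁻¹ := by
      field_simp [hne g]
    rw [e, abs_mul, abs_of_pos (hinvpos g)]
    have h1 : |1 - J.f g| ≤ s := by rw [abs_sub_comm]; exact hs g
    calc |1 - J.f g| * (J.f g)⁻¹ ≤ s * (10 / 9) :=
          mul_le_mul h1 (hinv0 g) (hinvpos g).le hs0
      _ ≤ 12 / 10 * s := by linarith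
  · intro g
    simp only [invJ]
    apply abs_le_of_sq_le_sq _ (by positivity)
    rw [mul_pow, Real.sq_sqrt hs0]
    have e : (-J.X g / J.f g ^ 2) ^ 2 = J.X g ^ 2 * ((J.f g)⁻¹) ^ 4 := by
      have := hne g
      field_simp
    rw [e]
    have h4 : ((J.f g)⁻¹) ^ 4 ≤ (10 / 9) ^ 4 := pow_le_pow_left₀ (hinvpos g).le (hinv0 g) 4
    calc J.X g ^ 2 * ((J.f g)⁻¹) ^ 4 ≤ (4 * s * (1 + s)) * (10 / 9) ^ 4 :=
          mul_le_mul (hXsq g) h4 (by positivity) (by positivity)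
      _ ≤ (4 * s * (1 + 1 / 10)) * (10 / 9) ^ 4 := by gcongr
      _ ≤ 3 ^ 2 * s := by nlinarith
  · intro g
    simp only [invJ]
    have hc := conv q J hJ hJq g
    have e1 : -J.XX g / J.f g ^ 2 ≤ (J.f g)⁻¹ := by
      rw [div_le_iff₀ (pow_pos (hpos g) 2)]
      have : (J.f g)⁻¹ * J.f g ^ 2 = J.f g := by
        have := hne g
        field_simp
      rw [this]
      linarith
    have e2 : 2 * J.X g ^ 2 / J.f g ^ 3 = 2 * J.X g ^ 2 * ((J.f g)⁻¹) ^ 3 := by
      have := hne g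
      field_simp
    have h3 : ((J.f g)⁻¹) ^ 3 ≤ (10 / 9) ^ 3 := pow_le_pow_left₀ (hinvpos g).le (hinv0 g) 3
    have e3 : 2 * J.X g ^ 2 * ((J.f g)⁻¹) ^ 3 ≤ 2 * (4 * s * (1 + 1 / 10)) * (10 / 9) ^ 3 := by
      have hx := hXsq g
      have : 4 * s * (1 + s) ≤ 4 * s * (1 + 1 / 10) := by gcongr
      exact mul_le_mul (by linarith) h3 (pow_pos (hinvpos g) 3).le (by positivity)
    rw [e2]
    have := hinv g
    nlinarith

end Pool.Agent.Lib_MP_f78f32_gt
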