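import Pool.Agent.Lib_MP_f78f32_gt.Defs

/-!
# Wirtinger inequality for pi-periodic functions and averaging along a flow
-/

open MeasureTheory Real
open scoped Matrix

namespace Pool.Agent.Lib_MP_f78f32_gt

private lemma wirt_memLp (f : ℝ → ℂ) (hf : Continuous f) :
    MemLp f 2 (volume.restrict (Set.Ioc (0:ℝ) π)) := by
  rw [memLp_two_iff_integrable_sq_norm hf.aestronglyMeasurable]
  have h : Continuous fun x => ‖f x‖ ^ 2 := by fun_prop
  exact (h.integrableOn_Icc (a := 0) (b := π)).mono_set Set.Ioc_subset_Icc_self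

private lemma wirt_pi (F F' : ℝ → ℝ) (h : ∀ t, HasDerivAt F (F' t) t) (hc : Continuous F')
    (h0 : F π = F 0) :
    ∫ t in (0:ℝ)..π, F t ^ 2 ≤ (1 / 4) * (∫ t in (0:ℝ)..π, F' t ^ 2) +
      (1 / π) * (∫ t in (0:ℝ)..π, F t) ^ 2 := by
  have hpi := Real.pi_pos
  have hab : (0:ℝ) < π := hpi
  have hFc : Continuous F := continuous_iff_continuousAt.2 fun t => (h t).continuousAt
  set f : ℝ → ℂ := fun t => (F t : ℂ) with hf
  set f' : ℝ → ℂ := fun t => (F' t : ℂ) with hf'
  have hfc : Continuous f := by simp only [hf]; fun_prop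
  have hf'c : Continuous f' := by simp only [hf']; fun_prop
  have P := hasSum_sq_fourierCoeffOn hab (wirt_memLp f hfc)
  have P' := hasSum_sq_fourierCoeffOn hab (wirt_memLp f' hf'c)
  -- zeroth coefficient
  have c0 : fourierCoeffOn hab f 0 = (((1 / π) * ∫ t in (0:ℝ)..π, F t : ℝ) : ℂ) := by
    rw [fourierCoeffOn_eq_integral]
    simp only [neg_zero, fourier_zero, one_smul, sub_zero, hf]
    rw [intervalIntegral.integral_ofReal]
    push_cast
    rw [Complex.real_smul]
    push_cast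
    ring
  have n0 : ‖fourierCoeffOn hab f 0‖ ^ 2 = (1 / π ^ 2) * (∫ t in (0:ℝ)..π, F t) ^ 2 := by
    rw [c0, Complex.norm_real, Real.norm_eq_abs, sq_abs]
    ring
  have cn : ∀ n : ℤ, n ≠ 0 → ‖fourierCoeffOn hab f n‖ ^ 2 ≤
      (1 / 4) * ‖fourierCoeffOn hab f' n‖ ^ 2 := by
    intro n hn
    have h1 := fourierCoeffOn_of_hasDerivAt hab (f := f) (f' := f') hn
      (fun x _ => (h x).ofReal_comp) (hf'c.intervalIntegrable _ _)
    have h2 : f π - f 0 = 0 := by
      simp only [hf, h0, sub_self]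
    rw [h2, mul_zero, zero_sub] at h1
    have h3 : ‖fourierCoeffOn hab f n‖ = ‖fourierCoeffOn hab f' n‖ / (2 * |(n : ℝ)|) := by
      rw [h1]
      have hn' : (n : ℝ) ≠ 0 := by exact_mod_cast hn
      have habs : 0 < |(n : ℝ)| := abs_pos.mpr hn'
      rw [norm_mul, norm_div, norm_neg, norm_mul, norm_mul, norm_mul, norm_mul]
      simp only [norm_one, norm_neg, Complex.norm_ofNat, Complex.norm_real, Complex.norm_I,
        Complex.norm_intCast, mul_one, Real.norm_eq_abs]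
      rw [abs_of_pos hpi]
      have h4 : ‖((π:ℝ) : ℂ) - ((0:ℝ) : ℂ)‖ = π := by
        rw [Complex.ofReal_zero, sub_zero, Complex.norm_real, Real.norm_eq_abs, abs_of_pos hpi]
      rw [h4]
      field_simp
    have h5 : (1 : ℝ) ≤ |(n : ℝ)| := by
      have : (1 : ℤ) ≤ |n| := Int.one_le_abs hn
      have h6 : ((1 : ℤ) : ℝ) ≤ ((|n| : ℤ) : ℝ) := by exact_mod_cast this
      simpa using h6
    have h7 : ‖fourierCoeffOn hab f n‖ ≤ (1 / 2) * ‖fourierCoeffOn hab f' n‖ := by
      rw [h3, div_le_iff₀ (by positivity)]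
      nlinarith [norm_nonneg (fourierCoeffOn hab f' n)]
    calc ‖fourierCoeffOn hab f n‖ ^ 2 ≤ ((1 / 2) * ‖fourierCoeffOn hab f' n‖) ^ 2 := by
          gcongr
      _ = _ := by ring
  have S := (hasSum_ite_eq (0 : ℤ) (‖fourierCoeffOn hab f 0‖ ^ 2)).add (P'.mul_left (1 / 4))
  have hle := hasSum_le (fun n => by
    by_cases hn : n = 0
    · subst hn
      simp only [if_true]
      have := sq_nonneg ‖fourierCoeffOn hab f' 0‖
      linarith
    · simp only [if_neg hn, zero_add]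
      exact cn n hn) P S
  rw [n0] at hle
  have e1 : ∀ t, ‖f t‖ ^ 2 = F t ^ 2 := by
    intro t
    simp only [hf]
    rw [Complex.norm_real, Real.norm_eq_abs, sq_abs]
  have e2 : ∀ t, ‖f' t‖ ^ 2 = F' t ^ 2 := by
    intro t
    simp only [hf']
    rw [Complex.norm_real, Real.norm_eq_abs, sq_abs]
  simp_rw [e1, e2] at hle
  rw [sub_zero, smul_eq_mul, smul_eq_mul] at hle
  have h8 := mul_le_mul_of_nonneg_left hle hpi.le
  have h9 : π * (π⁻¹ * ∫ t in (0:ℝ)..π, F t ^ 2) = ∫ t in (0:ℝ)..π, F t ^ 2 := by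
    field_simp
  rw [h9] at h8
  refine h8.trans (le_of_eq ?_)
  field_simp
  ring

theorem wirt_circle (F F' : ℝ → ℝ) (h : ∀ t, HasDerivAt F (F' t) t) (hc : Continuous F')
    (hper : ∀ t, F (t + π) = F t) :
    ∫ t in (0:ℝ)..(2 * π), F t ^ 2 ≤
      (1 / 4) * (∫ t in (0:ℝ)..(2 * π), F' t ^ 2) +
      (1 / (2 * π)) * (∫ t in (0:ℝ)..(2 * π), F t) ^ 2 := by
  have hpi := Real.pi_pos
  have hFc : Continuous F := continuous_iff_continuousAt.2 fun t => (h t).continuousAt
  have hper' : ∀ t, F' (t + π) = F' t := by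
    intro t
    have h1 : HasDerivAt (fun s => F (s + π)) (F' (t + π)) t := by
      exact HasDerivAt.comp_add_const t π (h (t + π))
    have h2 : (fun s => F (s + π)) = F := funext hper
    rw [h2] at h1
    exact h1.unique (h t)
  have dbl : ∀ K : ℝ → ℝ, Continuous K → (∀ t, K (t + π) = K t) →
      ∫ t in (0:ℝ)..(2 * π), K t = 2 * ∫ t in (0:ℝ)..π, K t := by
    intro K hK hKp
    have h1 : ∫ t in (0:ℝ)..(2 * π), K t = (∫ t in (0:ℝ)..π, K t) + ∫ t in π..(2 * π), K t :=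
      (intervalIntegral.integral_add_adjacent_intervals (hK.intervalIntegrable _ _)
        (hK.intervalIntegrable _ _)).symm
    have h2 : ∫ t in π..(2 * π), K t = ∫ t in (0:ℝ)..π, K (t + π) := by
      rw [intervalIntegral.integral_comp_add_right]
      congr 1 <;> ring
    rw [h1, h2]
    simp_rw [hKp]
    ring
  have e1 := dbl (fun t => F t ^ 2) (by fun_prop) (fun t => by simp only [hper])
  have e2 := dbl (fun t => F' t ^ 2) (by fun_prop) (fun t => by simp only [hper'])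
  have e3 := dbl F hFc hper
  have h0 : F π = F 0 := by
    have := hper 0
    rwa [zero_add] at this
  have h4 := wirt_pi F F' h hc h0
  rw [e1, e2, e3]
  have h5 := mul_le_mul_of_nonneg_left h4 (by norm_num : (0:ℝ) ≤ 2)
  refine h5.trans (le_of_eq ?_)
  field_simp

private lemma wirt_swap (K : G → ℝ → ℝ) (hK : Continuous (fun p : G × ℝ => K p.1 p.2)) :
    ∫ g, (∫ t in (0:ℝ)..(2 * π), K g t) ∂μ = ∫ t in (0:ℝ)..(2 * π), ∫ g, K g t ∂μ := by
  have hpi := Real.pi_pos
  have h0 : (0:ℝ) ≤ 2 * π := by positivity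
  simp only [intervalIntegral.integral_of_le h0]
  apply integral_integral_swap
  have : IntegrableOn (fun p : G × ℝ => K p.1 p.2) (Set.univ ×ˢ Set.Icc (0:ℝ) (2 * π))
      (μ.prod volume) :=
    hK.continuousOn.integrableOn_compact (isCompact_univ.prod isCompact_Icc)
  have h4 := this.mono_set (s := Set.univ ×ˢ Set.Ioc (0:ℝ) (2 * π))
    (Set.prod_mono le_rfl Set.Ioc_subset_Icc_self)
  rw [IntegrableOn, ← Measure.prod_restrict, Measure.restrict_univ] at h4
  exact h4

/-- averages along the flow are continuous -/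
lemma wirt_avg_cont (H : G → ℝ) (hH : Continuous H) :
    Continuous fun g => ∫ t in (0:ℝ)..(2 * π), H (g * fa t) := by
  apply intervalIntegral.continuous_parametric_intervalIntegral_of_continuous'
  fun_prop

/-- integral of the averages -/
lemma wirt_int_avg (H : G → ℝ) (hH : Continuous H) :
    ∫ g, (∫ t in (0:ℝ)..(2 * π), H (g * fa t)) ∂μ = 2 * π * ∫ g, H g ∂μ := by
  rw [wirt_swap (fun g t => H (g * fa t)) (by fun_prop)]
  have h5 : ∀ s, ∫ g, H (g * fa s) ∂μ = ∫ g, H g ∂μ := fun s => int_right H (fa s)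
  simp_rw [h5]
  simp

theorem avg_fa (u H : G → ℝ) (hu : Continuous u) (hH : Continuous H)
    (hinv : ∀ g t, u (g * fa t) = u g) :
    ∫ g, u g * H g ∂μ =
      ∫ g, u g * ((1 / (2 * π)) * ∫ t in (0:ℝ)..(2 * π), H (g * fa t)) ∂μ := by
  have hpi := Real.pi_pos
  have h1 : ∀ g, u g * ((1 / (2 * π)) * ∫ t in (0:ℝ)..(2 * π), H (g * fa t)) =
      (1 / (2 * π)) * ∫ t in (0:ℝ)..(2 * π), (u (g * fa t) * H (g * fa t)) := by
    intro g
    simp_rw [hinv]
    rw [intervalIntegral.integral_const_mul]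
    ring
  simp_rw [h1]
  rw [integral_const_mul, wirt_int_avg (fun g => u g * H g) (hu.mul hH)]
  field_simp

theorem wirt_G (F F' : G → ℝ) (hF : Continuous F) (hF' : Continuous F') (h : FD fa F F')
    (hev : ∀ g, F (g * fa π) = F g) :
    ∫ g, F g ^ 2 ∂μ ≤ (1 / 4) * (∫ g, F' g ^ 2 ∂μ) +
      ∫ g, ((1 / (2 * π)) * ∫ t in (0:ℝ)..(2 * π), F (g * fa t)) ^ 2 ∂μ := by
  have hpi := Real.pi_pos
  have h1 : ∀ g, ∫ t in (0:ℝ)..(2 * π), F (g * fa t) ^ 2 ≤
      (1 / 4) * (∫ t in (0:ℝ)..(2 * π), F' (g * fa t) ^ 2) +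
      (1 / (2 * π)) * (∫ t in (0:ℝ)..(2 * π), F (g * fa t)) ^ 2 := by
    intro g
    apply wirt_circle (fun t => F (g * fa t)) (fun t => F' (g * fa t)) (fun t => h.ata g t)
      (by fun_prop)
    intro t
    rw [fa_add, ← mul_assoc, hev]
  have c1 := wirt_avg_cont (fun g => F g ^ 2) (by fun_prop)
  have c2 := wirt_avg_cont (fun g => F' g ^ 2) (by fun_prop)
  have c3 := wirt_avg_cont F hF
  have h2 := integral_mono (μ := μ) (intg c1)
    ((intg (c2.const_mul (1 / 4))).add (intg ((c3.pow 2).const_mul (1 / (2 * π))))) h1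
  have e1 := wirt_int_avg (fun g => F g ^ 2) (by fun_prop)
  have e2 := wirt_int_avg (fun g => F' g ^ 2) (by fun_prop)
  simp only [Pi.add_apply] at h2
  rw [integral_add (intg (c2.const_mul (1 / 4))) (intg ((c3.pow 2).const_mul (1 / (2 * π)))),
    integral_const_mul, integral_const_mul, e1, e2] at h2
  simp only [Pi.pow_apply] at h2
  simp_rw [mul_pow]
  rw [integral_const_mul]
  have h3 : (0:ℝ) < 2 * π := by positivity
  have h4 : 2 * π * ∫ g, F g ^ 2 ∂μ ≤ 2 * π * ((1 / 4) * (∫ g, F' g ^ 2 ∂μ) +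
      (1 / (2 * π)) ^ 2 * ∫ g, (∫ t in (0:ℝ)..(2 * π), F (g * fa t)) ^ 2 ∂μ) := by
    refine h2.trans (le_of_eq ?_)
    field_simp
  exact le_of_mul_le_mul_left h4 h3

end Pool.Agent.Lib_MP_f78f32_gt
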