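import Pool.Agent.Lib_MP_f78f32_gt.Wallis

/-!
# Haar moments on the rotation group
-/

open MeasureTheory Real
open scoped Matrix

namespace Pool.Agent.Lib_MP_f78f32_gt

theorem int_kk' (φ : ℝ → ℝ) (h : G) : ∫ g, φ (kk h g 0) ∂μ = ∫ g, φ (g.1 0 0) ∂μ := by
  simp_rw [kk_eq_mul]
  exact int_left (fun g => φ (g.1 0 0)) h⁻¹

theorem int_kk (φ : ℝ → ℝ) (g : G) : ∫ h, φ (kk h g 0) ∂μ = ∫ h, φ (h.1 0 0) ∂μ := by
  have e : ∀ h : G, kk h g 0 = kk g h 0 := fun h => kk_symm h g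
  simp_rw [e]
  exact int_kk' φ g

/-- the mean of a continuous function is the mean of its circle averages -/
theorem mom_int_avg (H : G → ℝ) (hH : Continuous H) :
    ∫ g, (∫ t in (0:ℝ)..(2 * π), H (g * fa t)) ∂μ = 2 * π * ∫ g, H g ∂μ := by
  have h3 : ∫ g, (∫ s in (0:ℝ)..(2 * π), H (g * fa s)) ∂μ =
      ∫ s in (0:ℝ)..(2 * π), ∫ g, H (g * fa s) ∂μ := by
    simp only [intervalIntegral.integral_of_le (by positivity : (0:ℝ) ≤ 2 * π)]
    apply integral_integral_swap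
    have hcont : Continuous (fun p : G × ℝ => H (p.1 * fa p.2)) := by fun_prop
    have : IntegrableOn (fun p : G × ℝ => H (p.1 * fa p.2)) (Set.univ ×ˢ Set.Icc (0:ℝ) (2 * π))
        (μ.prod volume) :=
      hcont.continuousOn.integrableOn_compact (isCompact_univ.prod isCompact_Icc)
    have h4 := this.mono_set (s := Set.univ ×ˢ Set.Ioc (0:ℝ) (2 * π))
      (Set.prod_mono le_rfl Set.Ioc_subset_Icc_self)
    rw [IntegrableOn, ← Measure.prod_restrict, Measure.restrict_univ] at h4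
    exact h4
  rw [h3]
  have h5 : ∀ s, ∫ g, H (g * fa s) ∂μ = ∫ g, H g ∂μ := fun s => int_right H (fa s)
  simp_rw [h5]
  simp

lemma mom_kk_one (g : G) (j : Fin 3) : kk 1 g j = g.1 0 j := by
  rw [kk_eq_mul]; simp

lemma mom_FD_a0 (h : G) : FD fa (fun g => kk h g 0) (fun g => kk h g 1) := by
  intro g
  have e : (fun t => kk h (g * fa t) 0) = fun t => cos t * kk h g 0 + sin t * kk h g 1 := by
    funext t; exact (kk_fa h g t).1
  rw [e]
  have := HasDerivAt.fun_add ((hasDerivAt_cos 0).mul_const (kk h g 0))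
    ((hasDerivAt_sin 0).mul_const (kk h g 1))
  simpa using this
lemma mom_FD_a1 (h : G) : FD fa (fun g => kk h g 1) (fun g => -kk h g 0) := by
  intro g
  have e : (fun t => kk h (g * fa t) 1) = fun t => -sin t * kk h g 0 + cos t * kk h g 1 := by
    funext t; exact (kk_fa h g t).2.1
  rw [e]
  have := HasDerivAt.fun_add ((hasDerivAt_sin 0).fun_neg.mul_const (kk h g 0))
    ((hasDerivAt_cos 0).mul_const (kk h g 1))
  simpa using this
lemma mom_FD_b0 (h : G) : FD fb (fun g => kk h g 0) (fun g => kk h g 2) := by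
  intro g
  have e : (fun t => kk h (g * fb t) 0) = fun t => cos t * kk h g 0 + sin t * kk h g 2 := by
    funext t; exact (kk_fb h g t).1
  rw [e]
  have := HasDerivAt.fun_add ((hasDerivAt_cos 0).mul_const (kk h g 0))
    ((hasDerivAt_sin 0).mul_const (kk h g 2))
  simpa using this
lemma mom_FD_b2 (h : G) : FD fb (fun g => kk h g 2) (fun g => -kk h g 0) := by
  intro g
  have e : (fun t => kk h (g * fb t) 2) = fun t => -sin t * kk h g 0 + cos t * kk h g 2 := by
    funext t; exact (kk_fb h g t).2.2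
  rw [e]
  have := HasDerivAt.fun_add ((hasDerivAt_sin 0).fun_neg.mul_const (kk h g 0))
    ((hasDerivAt_cos 0).mul_const (kk h g 2))
  simpa using this

theorem moment (h : G) (n : ℕ) : ∫ g, kk h g 0 ^ (2 * n) ∂μ = 1 / (2 * n + 1) := by
  induction n with
  | zero => simp
  | succ n ih =>
    have h1 : ∫ g : G, ((2 * n + 1) * (kk h g 0 ^ (2 * n) * kk h g 1 ^ 2) -
        kk h g 0 ^ (2 * (n + 1))) ∂μ = 0 := by
      refine int_FDa (F := fun g => kk h g 0 ^ (2 * n + 1) * kk h g 1) ?_ (by fun_prop)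
        (by fun_prop)
      refine (((mom_FD_a0 h).pow fa_zero (2 * n + 1)).mul fa_zero (mom_FD_a1 h)).congr ?_
      intro g
      simp only [Nat.add_sub_cancel]
      push_cast
      ring
    have h2 : ∫ g : G, ((2 * n + 1) * (kk h g 0 ^ (2 * n) * kk h g 2 ^ 2) -
        kk h g 0 ^ (2 * (n + 1))) ∂μ = 0 := by
      refine int_FDb (F := fun g => kk h g 0 ^ (2 * n + 1) * kk h g 2) ?_ (by fun_prop)
        (by fun_prop)
      refine (((mom_FD_b0 h).pow fb_zero (2 * n + 1)).mul fb_zero (mom_FD_b2 h)).congr ?_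
      intro g
      simp only [Nat.add_sub_cancel]
      push_cast
      ring
    have h3 : ∫ g : G, ((2 * n + 1) * kk h g 0 ^ (2 * n) -
        (2 * n + 3) * kk h g 0 ^ (2 * (n + 1))) ∂μ = 0 := by
      have e : ∀ g : G, ((2 * n + 1) * kk h g 0 ^ (2 * n) -
          (2 * n + 3) * kk h g 0 ^ (2 * (n + 1))) =
          ((2 * n + 1) * (kk h g 0 ^ (2 * n) * kk h g 1 ^ 2) - kk h g 0 ^ (2 * (n + 1))) +
          ((2 * n + 1) * (kk h g 0 ^ (2 * n) * kk h g 2 ^ 2) - kk h g 0 ^ (2 * (n + 1))) := by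
        intro g
        have := kk_sq h g
        have e2 : kk h g 0 ^ (2 * (n + 1)) = kk h g 0 ^ (2 * n) * kk h g 0 ^ 2 := by
          rw [← pow_add]; rfl
        rw [e2]
        linear_combination (-(2 * (n : ℝ) + 1) * kk h g 0 ^ (2 * n)) * this
      simp_rw [e]
      rw [integral_add (intg (by fun_prop)) (intg (by fun_prop)), h1, h2, add_zero]
    rw [integral_sub (intg (by fun_prop)) (intg (by fun_prop)), integral_const_mul,
      integral_const_mul, ih] at h3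
    push_cast
    have h4 : (2 * (n : ℝ) + 1) * (1 / (2 * n + 1)) = 1 := by
      field_simp
    rw [h4] at h3
    rw [eq_div_iff (by positivity)]
    linarith

theorem moment1 (n : ℕ) : ∫ g : G, g.1 0 0 ^ (2 * n) ∂μ = 1 / (2 * n + 1) := by
  have := moment 1 n
  simp_rw [mom_kk_one] at this
  exact this

theorem moment_c (h : G) (k : ℕ) :
    ∫ g, (1 - kk h g 2 ^ 2) ^ k ∂μ = 1 / ((2 * k + 1) * al k) := by
  have h1 := mom_int_avg (fun g => kk h g 0 ^ (2 * k)) (by fun_prop)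
  have e : ∀ g : G, (∫ t in (0:ℝ)..(2 * π), kk h (g * fa t) 0 ^ (2 * k)) =
      2 * π * al k * (1 - kk h g 2 ^ 2) ^ k := by
    intro g
    have e1 : ∀ t, kk h (g * fa t) 0 = cos t * kk h g 0 + sin t * kk h g 1 :=
      fun t => (kk_fa h g t).1
    simp_rw [e1]
    rw [circle_avg]
    congr 2
    have := kk_sq h g
    linarith
  simp_rw [e] at h1
  rw [moment, integral_const_mul] at h1
  have hal := al_pos k
  have hpi := pi_pos
  rw [eq_div_iff (by positivity)]
  have h2 : al k * ∫ g, (1 - kk h g 2 ^ 2) ^ k ∂μ = 1 / (2 * k + 1) := by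
    have : (2 * π) * (al k * ∫ g, (1 - kk h g 2 ^ 2) ^ k ∂μ) = (2 * π) * (1 / (2 * k + 1)) := by
      rw [← h1]; ring
    exact mul_left_cancel₀ (by positivity) this
  rw [eq_div_iff (by positivity)] at h2
  linarith

lemma mom_kk_sq_le (h g : G) : kk h g 0 ^ 2 ≤ 1 := by
  have := kk_sq h g
  nlinarith [sq_nonneg (kk h g 1), sq_nonneg (kk h g 2)]

theorem moment_sqrt (n : ℕ) :
    ∫ g : G, (2 * n + 1) * g.1 0 0 ^ (2 * n) * √(1 - g.1 0 0 ^ 2) ∂μ ≤ √(2 / (2 * n + 3)) := by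
  simp_rw [← mom_kk_one]
  set l : ℝ := √(2 / (2 * n + 3)) with hl
  have hl0 : 0 < l := Real.sqrt_pos.2 (by positivity)
  have hl2 : l ^ 2 = 2 / (2 * n + 3) := Real.sq_sqrt (by positivity)
  have h1 : ∀ g : G, (2 * n + 1) * kk 1 g 0 ^ (2 * n) * √(1 - kk 1 g 0 ^ 2) ≤
      (2 * n + 1) * kk 1 g 0 ^ (2 * n) * (l / 2 + 1 / (2 * l)) -
        (2 * n + 1) * kk 1 g 0 ^ (2 * (n + 1)) * (1 / (2 * l)) := by
    intro g
    have hnn : 0 ≤ 1 - kk 1 g 0 ^ 2 := by linarith [mom_kk_sq_le 1 g]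
    have hs := Real.sq_sqrt hnn
    have h2 : √(1 - kk 1 g 0 ^ 2) ≤ l / 2 + (1 - kk 1 g 0 ^ 2) * (1 / (2 * l)) := by
      have h3 : 0 ≤ (√(1 - kk 1 g 0 ^ 2) - l) ^ 2 := sq_nonneg _
      have h4 : 2 * l * √(1 - kk 1 g 0 ^ 2) ≤ l ^ 2 + (1 - kk 1 g 0 ^ 2) := by nlinarith
      have h5 : l / 2 + (1 - kk 1 g 0 ^ 2) * (1 / (2 * l)) = (l ^ 2 + (1 - kk 1 g 0 ^ 2)) / (2 * l) := by
        field_simp
      rw [h5, le_div_iff₀ (by positivity)]
      linarith
    have hw : 0 ≤ (2 * n + 1) * kk 1 g 0 ^ (2 * n) := by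
      have : 0 ≤ kk 1 g 0 ^ (2 * n) := by rw [pow_mul]; positivity
      positivity
    have e2 : kk 1 g 0 ^ (2 * (n + 1)) = kk 1 g 0 ^ (2 * n) * kk 1 g 0 ^ 2 := by
      rw [← pow_add]; rfl
    rw [e2]
    refine (mul_le_mul_of_nonneg_left h2 hw).trans (le_of_eq ?_)
    ring
  refine (integral_mono (intg (by fun_prop)) (intg (by fun_prop)) h1).trans ?_
  rw [integral_sub (intg (by fun_prop)) (intg (by fun_prop)), integral_mul_const,
    integral_mul_const, integral_const_mul, integral_const_mul, moment, moment]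
  push_cast
  apply le_of_eq
  have e3 : (2 * (n : ℝ) + 1) * (1 / (2 * n + 1)) = 1 := by field_simp
  rw [e3]
  have e4 : (2 * (n : ℝ) + 1) * (1 / (2 * (n + 1) + 1)) = 1 - l ^ 2 := by
    rw [hl2]; field_simp; ring
  rw [e4]
  field_simp
  ring

lemma mom_kn_eval (n : ℕ) (t : ℝ) : (kn n).eval t = (2 * n + 1) * t ^ (2 * n) := by
  simp [kn]

theorem int_kn (n : ℕ) : ∫ g : G, (kn n).eval (g.1 0 0) ∂μ = 1 := by
  simp_rw [mom_kn_eval]
  rw [integral_const_mul, moment1]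
  field_simp

theorem norm_kn (n : ℕ) : ∫ g : G, |(kn n).eval (g.1 0 0)| ∂μ = 1 := by
  have e : ∀ g : G, |(kn n).eval (g.1 0 0)| = (kn n).eval (g.1 0 0) := by
    intro g
    rw [abs_of_nonneg]
    rw [mom_kn_eval]
    have : 0 ≤ g.1 0 0 ^ (2 * n) := by rw [pow_mul]; positivity
    positivity
  simp_rw [e]
  exact int_kn n

lemma mom_lap2_kn_eval (n : ℕ) (t : ℝ) : (lap2 (kn (n + 1))).eval t =
    (2 * n + 3) * ((2 * n + 2) * (2 * n + 1) * (t ^ (2 * n) * (1 - t ^ 2)) -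
      (4 * n + 2) * t ^ (2 * (n + 1))) := by
  have e : 2 * (n + 1) = (2 * n + 1) + 1 := by ring
  have e1 : (kn (n + 1)).derivative = Polynomial.C ((2 * (n : ℝ) + 3) * (2 * n + 2)) *
      Polynomial.X ^ (2 * n + 1) := by
    unfold kn
    rw [Polynomial.derivative_C_mul, e, Polynomial.derivative_X_pow_succ]
    rw [← mul_assoc]
    congr 1
    rw [← Polynomial.C_mul]
    congr 1
    push_cast
    ring
  have e2 : (kn (n + 1)).derivative.derivative =
      Polynomial.C ((2 * (n : ℝ) + 3) * (2 * n + 2) * (2 * n + 1)) *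
      Polynomial.X ^ (2 * n) := by
    rw [e1, Polynomial.derivative_C_mul, Polynomial.derivative_X_pow_succ]
    rw [← mul_assoc]
    congr 1
    rw [← Polynomial.C_mul]
    congr 1
    push_cast
    ring
  unfold lap2
  rw [e2, e1]
  simp only [Polynomial.eval_add, Polynomial.eval_sub, Polynomial.eval_mul, Polynomial.eval_C,
    Polynomial.eval_pow, Polynomial.eval_X, Polynomial.eval_one, mom_kn_eval]
  have e3 : Polynomial.eval t (2 : Polynomial ℝ) = 2 := by
    simp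
  rw [e3]
  push_cast
  rw [e]
  ring

theorem norm_lap2_kn (n : ℕ) : ∫ g : G, |(lap2 (kn n)).eval (g.1 0 0)| ∂μ ≤ 8 * n + 4 := by
  simp_rw [← mom_kk_one]
  cases n with
  | zero =>
    have e : ∀ t : ℝ, (lap2 (kn 0)).eval t = 2 := by
      intro t
      simp [lap2, kn]
    simp_rw [e]
    norm_num
  | succ n =>
    have e : ∀ g : G, |(lap2 (kn (n + 1))).eval (kk 1 g 0)| ≤
        (2 * n + 3) * ((2 * n + 2) * (2 * n + 1)) * kk 1 g 0 ^ (2 * n) +
          ((2 * n + 3) * (4 * n + 2) - (2 * n + 3) * ((2 * n + 2) * (2 * n + 1))) *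
            kk 1 g 0 ^ (2 * (n + 1)) := by
      intro g
      rw [mom_lap2_kn_eval]
      have p1 : 0 ≤ kk 1 g 0 ^ (2 * n) := by rw [pow_mul]; positivity
      have p2 : 0 ≤ kk 1 g 0 ^ (2 * (n + 1)) := by rw [pow_mul]; positivity
      have p3 : 0 ≤ 1 - kk 1 g 0 ^ 2 := by linarith [mom_kk_sq_le 1 g]
      have e2 : kk 1 g 0 ^ (2 * (n + 1)) = kk 1 g 0 ^ (2 * n) * kk 1 g 0 ^ 2 := by
        rw [← pow_add]; rfl
      rw [abs_mul, abs_of_pos (by positivity : (0:ℝ) < 2 * n + 3)]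
      have p4 : |(2 * n + 2) * (2 * n + 1) * (kk 1 g 0 ^ (2 * n) * (1 - kk 1 g 0 ^ 2)) -
          (4 * n + 2) * kk 1 g 0 ^ (2 * (n + 1))| ≤
          (2 * n + 2) * (2 * n + 1) * (kk 1 g 0 ^ (2 * n) * (1 - kk 1 g 0 ^ 2)) +
          (4 * n + 2) * kk 1 g 0 ^ (2 * (n + 1)) := by
        have q1 : 0 ≤ (2 * (n : ℝ) + 2) * (2 * n + 1) * (kk 1 g 0 ^ (2 * n) * (1 - kk 1 g 0 ^ 2)) := by
          positivity
        have q2 : 0 ≤ (4 * (n : ℝ) + 2) * kk 1 g 0 ^ (2 * (n + 1)) := by positivity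
        rw [abs_le]; constructor <;> linarith
      refine (mul_le_mul_of_nonneg_left p4 (by positivity)).trans (le_of_eq ?_)
      rw [e2]
      ring
    have hc : Continuous fun g : G => |(lap2 (kn (n + 1))).eval (kk 1 g 0)| :=
      ((lap2 (kn (n + 1))).continuous.comp (kk_cont_right 1 0)).abs
    refine (integral_mono (intg hc) (intg (by fun_prop)) e).trans ?_
    rw [integral_add (intg (by fun_prop)) (intg (by fun_prop)), integral_const_mul,
      integral_const_mul, moment, moment]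
    push_cast
    have e5 : (2 * (n : ℝ) + 3) * ((2 * n + 2) * (2 * n + 1)) * (1 / (2 * n + 1)) +
        ((2 * n + 3) * (4 * n + 2) - (2 * n + 3) * ((2 * n + 2) * (2 * n + 1))) *
          (1 / (2 * ((n : ℝ) + 1) + 1)) = 8 * n + 6 := by
      field_simp
      ring
    linarith

end Pool.Agent.Lib_MP_f78f32_gt
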