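import Pool.Agent.Lib_MP_f78f32_gt.Defs

/-!
# Differentiation under the integral: the jet of a zonal convolution
-/

open MeasureTheory Real
open scoped Matrix

namespace Pool.Agent.Lib_MP_f78f32_gt

/-- differentiation along a right flow under the integral sign -/
theorem FD_int {c : ℝ → G} (hc : ∀ s t, c (s + t) = c s * c t) (hcc : Continuous c)
    {u u' : G → G → ℝ} (hu : Continuous fun p : G × G => u p.1 p.2)
    (hu' : Continuous fun p : G × G => u' p.1 p.2) (hd : ∀ h, FD c (u h) (u' h))
    {F : G → ℝ} (hF : Continuous F) :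
    FD c (fun g => ∫ h, u h g * F h ∂μ) (fun g => ∫ h, u' h g * F h ∂μ) := by
  intro g
  have h0 : c 0 = 1 := by
    have := hc 0 0
    simp only [add_zero] at this
    exact mul_eq_left.mp this.symm
  have hK : IsCompact ((Set.univ : Set G) ×ˢ Set.Icc (-1 : ℝ) 1) := isCompact_univ.prod isCompact_Icc
  have hcont : Continuous fun p : G × ℝ => u' p.1 (g * c p.2) :=
    hu'.comp (continuous_fst.prodMk (continuous_const.mul (hcc.comp continuous_snd)))
  obtain ⟨C, hC⟩ := hK.exists_bound_of_continuousOn hcont.continuousOn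
  have hint : ∀ t, Integrable (fun h => u h (g * c t) * F h) μ := by
    intro t
    refine intg ?_
    exact (hu.comp (continuous_id.prodMk continuous_const)).mul hF
  have key := hasDerivAt_integral_of_dominated_loc_of_deriv_le (μ := μ)
    (F := fun (t : ℝ) (h : G) => u h (g * c t) * F h)
    (F' := fun (t : ℝ) (h : G) => u' h (g * c t) * F h) (x₀ := (0 : ℝ))
    (s := Metric.ball (0 : ℝ) 1) (bound := fun h => C * |F h|) (Metric.ball_mem_nhds _ one_pos)
    (Filter.Eventually.of_forall fun t => (hint t).aestronglyMeasurable)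
    (hint 0) ?_ ?_ ?_ ?_
  · have h1 := key.2
    simp only [h0, mul_one] at h1
    exact h1
  · refine (intg ?_).aestronglyMeasurable
    exact (hu'.comp (continuous_id.prodMk continuous_const)).mul hF
  · refine Filter.Eventually.of_forall fun h t ht => ?_
    rw [norm_mul, Real.norm_eq_abs (F h)]
    refine mul_le_mul_of_nonneg_right ?_ (abs_nonneg _)
    refine hC (h, t) ⟨Set.mem_univ _, ?_⟩
    rw [Metric.mem_ball, Real.dist_eq, sub_zero, abs_lt] at ht
    exact ⟨ht.1.le, ht.2.le⟩
  · exact (intg hF.abs).const_mul C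
  · refine Filter.Eventually.of_forall fun h t _ => ?_
    exact (FD.at hc (hd h) g t).mul_const _

/-- continuity of parametric integrals -/
theorem cont_int {u : G → G → ℝ} (hu : Continuous fun p : G × G => u p.1 p.2)
    {F : G → ℝ} (hF : Continuous F) : Continuous (fun g => ∫ h, u h g * F h ∂μ) := by
  have h1 : Continuous (Function.uncurry fun (g h : G) => u h g * F h) := by
    have h2 : Continuous fun p : G × G => u p.2 p.1 :=
      hu.comp (continuous_snd.prodMk continuous_fst)
    exact h2.mul (hF.comp continuous_snd)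
  have h3 := continuous_parametric_integral_of_continuous (μ := μ) h1
    (s := Set.univ) isCompact_univ
  simpa using h3

/-! ### derivatives of the scalar products -/

theorem FD_kk_a0 (h : G) : FD fa (fun g => kk h g 0) (fun g => kk h g 1) := by
  intro g
  simp only [(kk_fa h g _).1]
  have h1 : HasDerivAt (fun t : ℝ => cos t * kk h g 0 + sin t * kk h g 1)
      (-sin 0 * kk h g 0 + cos 0 * kk h g 1) 0 :=
    ((hasDerivAt_cos 0).mul_const (kk h g 0)).add ((hasDerivAt_sin 0).mul_const (kk h g 1))
  simpa using h1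
theorem FD_kk_a1 (h : G) : FD fa (fun g => kk h g 1) (fun g => -kk h g 0) := by
  intro g
  simp only [(kk_fa h g _).2.1]
  have h1 : HasDerivAt (fun t : ℝ => -sin t * kk h g 0 + cos t * kk h g 1)
      (-cos 0 * kk h g 0 + -sin 0 * kk h g 1) 0 :=
    ((hasDerivAt_sin 0).neg.mul_const (kk h g 0)).add
      ((hasDerivAt_cos 0).mul_const (kk h g 1))
  simpa using h1
theorem FD_kk_a2 (h : G) : FD fa (fun g => kk h g 2) (fun _ => 0) := by
  intro g
  simp only [(kk_fa h g _).2.2]
  exact hasDerivAt_const _ _
theorem FD_kk_b0 (h : G) : FD fb (fun g => kk h g 0) (fun g => kk h g 2) := by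
  intro g
  simp only [(kk_fb h g _).1]
  have h1 : HasDerivAt (fun t : ℝ => cos t * kk h g 0 + sin t * kk h g 2)
      (-sin 0 * kk h g 0 + cos 0 * kk h g 2) 0 :=
    ((hasDerivAt_cos 0).mul_const (kk h g 0)).add ((hasDerivAt_sin 0).mul_const (kk h g 2))
  simpa using h1
theorem FD_kk_b1 (h : G) : FD fb (fun g => kk h g 1) (fun _ => 0) := by
  intro g
  simp only [(kk_fb h g _).2.1]
  exact hasDerivAt_const _ _
theorem FD_kk_b2 (h : G) : FD fb (fun g => kk h g 2) (fun g => -kk h g 0) := by
  intro g
  simp only [(kk_fb h g _).2.2]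
  have h1 : HasDerivAt (fun t : ℝ => -sin t * kk h g 0 + cos t * kk h g 2)
      (-cos 0 * kk h g 0 + -sin 0 * kk h g 2) 0 :=
    ((hasDerivAt_sin 0).neg.mul_const (kk h g 0)).add
      ((hasDerivAt_cos 0).mul_const (kk h g 2))
  simpa using h1

theorem FD_poly_a (k : Polynomial ℝ) (h : G) :
    FD fa (fun g => k.eval (kk h g 0)) (fun g => k.derivative.eval (kk h g 0) * kk h g 1) :=
  FD.comp fa_zero (φ := fun x => k.eval x) (φ' := fun x => k.derivative.eval x)
    (fun _ => k.hasDerivAt _) (FD_kk_a0 h)
theorem FD_poly_b (k : Polynomial ℝ) (h : G) :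
    FD fb (fun g => k.eval (kk h g 0)) (fun g => k.derivative.eval (kk h g 0) * kk h g 2) :=
  FD.comp fb_zero (φ := fun x => k.eval x) (φ' := fun x => k.derivative.eval x)
    (fun _ => k.hasDerivAt _) (FD_kk_b0 h)

theorem cont_poly_kk (k : Polynomial ℝ) : Continuous fun p : G × G => k.eval (kk p.1 p.2 0) :=
  k.continuous.comp (kk_cont 0)

/-- linear combinations under the integral -/
theorem int_lin3 {u v w : G → G → ℝ} (hu : Continuous fun p : G × G => u p.1 p.2)
    (hv : Continuous fun p : G × G => v p.1 p.2) (hw : Continuous fun p : G × G => w p.1 p.2)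
    {F : G → ℝ} (hF : Continuous F) (g : G) (α β γ : ℝ) :
    ∫ h, (α * u h g + β * v h g + γ * w h g) * F h ∂μ =
      α * ∫ h, u h g * F h ∂μ + β * ∫ h, v h g * F h ∂μ + γ * ∫ h, w h g * F h ∂μ := by
  have c1 : ∀ {z : G → G → ℝ}, (Continuous fun p : G × G => z p.1 p.2) →
      Continuous fun h => z h g * F h := fun hz =>
    (hz.comp (continuous_id.prodMk continuous_const)).mul hF
  have h1 : ∀ h, (α * u h g + β * v h g + γ * w h g) * F h =
      α * (u h g * F h) + β * (v h g * F h) + γ * (w h g * F h) := fun h => by ring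
  simp_rw [h1]
  rw [integral_add, integral_add, integral_const_mul, integral_const_mul, integral_const_mul]
  · exact intg (continuous_const.mul (c1 hu))
  · exact intg (continuous_const.mul (c1 hv))
  · exact intg ((continuous_const.mul (c1 hu)).add (continuous_const.mul (c1 hv)))
  · exact intg (continuous_const.mul (c1 hw))

theorem SmJ_ok (k : Polynomial ℝ) (F : G → ℝ) (hF : Continuous F) : (SmJ k F).Ok := by
  have ck := cont_poly_kk k
  have ck1 := cont_poly_kk k.derivative
  have ck2 := cont_poly_kk k.derivative.derivative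
  have c0 := kk_cont 0
  have c1 := kk_cont 1
  have c2 := kk_cont 2
  have cX : Continuous fun p : G × G => k.derivative.eval (kk p.1 p.2 0) * kk p.1 p.2 1 :=
    ck1.mul c1
  have cY : Continuous fun p : G × G => k.derivative.eval (kk p.1 p.2 0) * kk p.1 p.2 2 :=
    ck1.mul c2
  have cXX : Continuous fun p : G × G => k.derivative.derivative.eval (kk p.1 p.2 0) *
      kk p.1 p.2 1 ^ 2 - k.derivative.eval (kk p.1 p.2 0) * kk p.1 p.2 0 :=
    (ck2.mul (c1.pow 2)).sub (ck1.mul c0)
  have cXY : Continuous fun p : G × G => k.derivative.derivative.eval (kk p.1 p.2 0) *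
      kk p.1 p.2 1 * kk p.1 p.2 2 := (ck2.mul c1).mul c2
  have cYY : Continuous fun p : G × G => k.derivative.derivative.eval (kk p.1 p.2 0) *
      kk p.1 p.2 2 ^ 2 - k.derivative.eval (kk p.1 p.2 0) * kk p.1 p.2 0 :=
    (ck2.mul (c2.pow 2)).sub (ck1.mul c0)
  refine
    { cf := cont_int ck hF
      cX := cont_int (u := fun h g => k.derivative.eval (kk h g 0) * kk h g 1) cX hF
      cY := cont_int (u := fun h g => k.derivative.eval (kk h g 0) * kk h g 2) cY hF
      cXX := cont_int (u := fun h g => k.derivative.derivative.eval (kk h g 0) * kk h g 1 ^ 2 -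
        k.derivative.eval (kk h g 0) * kk h g 0) cXX hF
      cXY := cont_int (u := fun h g => k.derivative.derivative.eval (kk h g 0) * kk h g 1 *
        kk h g 2) cXY hF
      cYY := cont_int (u := fun h g => k.derivative.derivative.eval (kk h g 0) * kk h g 2 ^ 2 -
        k.derivative.eval (kk h g 0) * kk h g 0) cYY hF
      inv := ?_, invX := ?_, invY := ?_, invXX := ?_, invXY := ?_, invYY := ?_
      dX := ?_, dY := ?_, dXX := ?_, dXY := ?_, dYX := ?_, dYY := ?_ }
  · intro g t
    simp only [SmJ, Sm, (kk_fr _ g t).1]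
  · intro g t
    have h1 := int_lin3 (u := fun h g => k.derivative.eval (kk h g 0) * kk h g 1)
      (v := fun h g => k.derivative.eval (kk h g 0) * kk h g 2)
      (w := fun h g => k.derivative.eval (kk h g 0) * kk h g 2) cX cY cY hF g (cos t) (sin t) 0
    simp only [SmJ]
    rw [zero_mul, add_zero] at h1
    rw [← h1]
    congr 1
    funext h
    rw [(kk_fr h g t).1, (kk_fr h g t).2.1]
    ring
  · intro g t
    have h1 := int_lin3 (u := fun h g => k.derivative.eval (kk h g 0) * kk h g 1)
      (v := fun h g => k.derivative.eval (kk h g 0) * kk h g 2)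
      (w := fun h g => k.derivative.eval (kk h g 0) * kk h g 2) cX cY cY hF g (-sin t) (cos t) 0
    simp only [SmJ]
    rw [zero_mul, add_zero] at h1
    rw [← h1]
    congr 1
    funext h
    rw [(kk_fr h g t).1, (kk_fr h g t).2.2]
    ring
  · intro g t
    have h1 := int_lin3 (u := fun h g => k.derivative.derivative.eval (kk h g 0) * kk h g 1 ^ 2 -
        k.derivative.eval (kk h g 0) * kk h g 0)
      (v := fun h g => k.derivative.derivative.eval (kk h g 0) * kk h g 1 * kk h g 2)
      (w := fun h g => k.derivative.derivative.eval (kk h g 0) * kk h g 2 ^ 2 -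
        k.derivative.eval (kk h g 0) * kk h g 0) cXX cXY cYY hF g (cos t ^ 2)
        (2 * cos t * sin t) (sin t ^ 2)
    simp only [SmJ]
    rw [← h1]
    congr 1
    funext h
    rw [(kk_fr h g t).1, (kk_fr h g t).2.1]
    linear_combination (k.derivative.eval (kk h g 0) * kk h g 0 * F h) * (sin_sq_add_cos_sq t)
  · intro g t
    have h1 := int_lin3 (u := fun h g => k.derivative.derivative.eval (kk h g 0) * kk h g 1 ^ 2 -
        k.derivative.eval (kk h g 0) * kk h g 0)
      (v := fun h g => k.derivative.derivative.eval (kk h g 0) * kk h g 1 * kk h g 2)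
      (w := fun h g => k.derivative.derivative.eval (kk h g 0) * kk h g 2 ^ 2 -
        k.derivative.eval (kk h g 0) * kk h g 0) cXX cXY cYY hF g (-(cos t * sin t))
        (cos t ^ 2 - sin t ^ 2) (cos t * sin t)
    simp only [SmJ]
    rw [mul_sub]
    have h2 : ∀ x y z : ℝ, -(cos t * sin t) * x + (cos t ^ 2 - sin t ^ 2) * z +
        cos t * sin t * y = cos t * sin t * y - cos t * sin t * x +
        (cos t ^ 2 - sin t ^ 2) * z := fun x y z => by ring
    rw [← h2, ← h1]
    congr 1
    funext h
    rw [(kk_fr h g t).1, (kk_fr h g t).2.1, (kk_fr h g t).2.2]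
    ring
  · intro g t
    have h1 := int_lin3 (u := fun h g => k.derivative.derivative.eval (kk h g 0) * kk h g 1 ^ 2 -
        k.derivative.eval (kk h g 0) * kk h g 0)
      (v := fun h g => k.derivative.derivative.eval (kk h g 0) * kk h g 1 * kk h g 2)
      (w := fun h g => k.derivative.derivative.eval (kk h g 0) * kk h g 2 ^ 2 -
        k.derivative.eval (kk h g 0) * kk h g 0) cXX cXY cYY hF g (sin t ^ 2)
        (-(2 * cos t * sin t)) (cos t ^ 2)
    simp only [SmJ]
    rw [sub_eq_add_neg, ← neg_mul, ← h1]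
    congr 1
    funext h
    rw [(kk_fr h g t).1, (kk_fr h g t).2.2]
    linear_combination (k.derivative.eval (kk h g 0) * kk h g 0 * F h) * (sin_sq_add_cos_sq t)
  · exact FD_int fa_add fa_cont (u := fun h g => k.eval (kk h g 0))
      (u' := fun h g => k.derivative.eval (kk h g 0) * kk h g 1) ck cX (FD_poly_a k) hF
  · exact FD_int fb_add fb_cont (u := fun h g => k.eval (kk h g 0))
      (u' := fun h g => k.derivative.eval (kk h g 0) * kk h g 2) ck cY (FD_poly_b k) hF
  · refine FD_int fa_add fa_cont (u := fun h g => k.derivative.eval (kk h g 0) * kk h g 1)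
      (u' := fun h g => k.derivative.derivative.eval (kk h g 0) * kk h g 1 ^ 2 -
        k.derivative.eval (kk h g 0) * kk h g 0) cX cXX (fun h => ?_) hF
    exact ((FD_poly_a k.derivative h).mul fa_zero (FD_kk_a1 h)).congr fun g => by ring
  · refine FD_int fb_add fb_cont (u := fun h g => k.derivative.eval (kk h g 0) * kk h g 1)
      (u' := fun h g => k.derivative.derivative.eval (kk h g 0) * kk h g 1 * kk h g 2)
      cX cXY (fun h => ?_) hF
    exact ((FD_poly_b k.derivative h).mul fb_zero (FD_kk_b1 h)).congr fun g => by ring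
  · refine FD_int fa_add fa_cont (u := fun h g => k.derivative.eval (kk h g 0) * kk h g 2)
      (u' := fun h g => k.derivative.derivative.eval (kk h g 0) * kk h g 1 * kk h g 2)
      cY cXY (fun h => ?_) hF
    exact ((FD_poly_a k.derivative h).mul fa_zero (FD_kk_a2 h)).congr fun g => by ring
  · refine FD_int fb_add fb_cont (u := fun h g => k.derivative.eval (kk h g 0) * kk h g 2)
      (u' := fun h g => k.derivative.derivative.eval (kk h g 0) * kk h g 2 ^ 2 -
        k.derivative.eval (kk h g 0) * kk h g 0) cY cYY (fun h => ?_) hF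
    exact ((FD_poly_b k.derivative h).mul fb_zero (FD_kk_b2 h)).congr fun g => by ring

theorem SmJ_lap (k : Polynomial ℝ) (F : G → ℝ) (hF : Continuous F) (g : G) :
    (SmJ k F).XX g + (SmJ k F).YY g + 2 * (SmJ k F).f g = Sm (lap2 k) F g := by
  have ck := cont_poly_kk k
  have ck1 := cont_poly_kk k.derivative
  have ck2 := cont_poly_kk k.derivative.derivative
  have c0 := kk_cont 0
  have c1 := kk_cont 1
  have c2 := kk_cont 2
  have cXX : Continuous fun p : G × G => k.derivative.derivative.eval (kk p.1 p.2 0) *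
      kk p.1 p.2 1 ^ 2 - k.derivative.eval (kk p.1 p.2 0) * kk p.1 p.2 0 :=
    (ck2.mul (c1.pow 2)).sub (ck1.mul c0)
  have cYY : Continuous fun p : G × G => k.derivative.derivative.eval (kk p.1 p.2 0) *
      kk p.1 p.2 2 ^ 2 - k.derivative.eval (kk p.1 p.2 0) * kk p.1 p.2 0 :=
    (ck2.mul (c2.pow 2)).sub (ck1.mul c0)
  have h1 := int_lin3 (u := fun h g => k.derivative.derivative.eval (kk h g 0) * kk h g 1 ^ 2 -
      k.derivative.eval (kk h g 0) * kk h g 0)
    (v := fun h g => k.derivative.derivative.eval (kk h g 0) * kk h g 2 ^ 2 -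
      k.derivative.eval (kk h g 0) * kk h g 0)
    (w := fun h g => k.eval (kk h g 0)) cXX cYY ck hF g 1 1 2
  simp only [SmJ, Sm]
  rw [one_mul, one_mul] at h1
  rw [← h1]
  congr 1
  funext h
  have h2 := kk_sq h g
  have h3 : (lap2 k).eval (kk h g 0) = (1 - kk h g 0 ^ 2) *
      k.derivative.derivative.eval (kk h g 0) -
      2 * kk h g 0 * k.derivative.eval (kk h g 0) + 2 * k.eval (kk h g 0) := by
    simp [lap2]
  rw [h3]
  linear_combination (k.derivative.derivative.eval (kk h g 0) * F h) * h2

end Pool.Agent.Lib_MP_f78f32_gt
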