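import Pool.Agent.Lib_MP_f78f32_gt.Defs

/-! # Hausdorff measure of a continuously differentiable injective curve -/

open MeasureTheory Real
open scoped Matrix

namespace Pool.Agent.Lib_MP_f78f32_gt

namespace Arc

open Set Filter Topology

variable {c c' : ℝ → E3}

/-- the length function -/
noncomputable def Len (c' : ℝ → E3) (a t : ℝ) : ℝ := ∫ u in a..t, ‖c' u‖

lemma Len_sub (hc' : Continuous c') (a s t : ℝ) :
    Len c' a t - Len c' a s = ∫ u in s..t, ‖c' u‖ := by
  unfold Len
  rw [intervalIntegral.integral_interval_sub_left] <;>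
  exact (hc'.norm).intervalIntegrable _ _

lemma Len_mono (hc' : Continuous c') (a : ℝ) {s t : ℝ} (h : s ≤ t) : Len c' a s ≤ Len c' a t := by
  have h1 := Len_sub hc' a s t
  have h2 : 0 ≤ ∫ u in s..t, ‖c' u‖ :=
    intervalIntegral.integral_nonneg h fun u _ => norm_nonneg _
  linarith

lemma Len_deriv (hc' : Continuous c') (a t : ℝ) : HasDerivAt (Len c' a) ‖c' t‖ t := by
  unfold Len
  exact intervalIntegral.integral_hasDerivAt_right (hc'.norm.intervalIntegrable _ _)
    (hc'.norm.stronglyMeasurableAtFilter _ _) hc'.norm.continuousAt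

lemma norm_sub_le (hc : ∀ t, HasDerivAt c (c' t) t) (hc' : Continuous c') (a : ℝ) {s t : ℝ}
    (h : s ≤ t) : ‖c t - c s‖ ≤ Len c' a t - Len c' a s := by
  have h1 : ∫ u in s..t, c' u = c t - c s :=
    intervalIntegral.integral_eq_sub_of_hasDerivAt (fun u _ => hc u)
      (hc'.intervalIntegrable _ _)
  rw [← h1, Len_sub hc']
  exact intervalIntegral.norm_integral_le_integral_norm h

lemma dist_le (hc : ∀ t, HasDerivAt c (c' t) t) (hc' : Continuous c') (a s t : ℝ) :
    dist (c s) (c t) ≤ dist (Len c' a s) (Len c' a t) := by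
  rcases le_total s t with h | h
  · rw [dist_comm, dist_eq_norm]
    refine (norm_sub_le hc hc' a h).trans ?_
    rw [dist_comm, Real.dist_eq]
    exact le_abs_self _
  · rw [dist_eq_norm]
    refine (norm_sub_le hc hc' a h).trans ?_
    rw [Real.dist_eq]
    exact le_abs_self _

/-- upper bound for the measure of the image -/
lemma upper (hc : ∀ t, HasDerivAt c (c' t) t) (hc' : Continuous c') (a : ℝ) {s t : ℝ} :
    Measure.hausdorffMeasure (1 : ℝ) (c '' Icc s t) ≤
      ENNReal.ofReal (Len c' a t - Len c' a s) := by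
  classical
  -- reparametrisation
  let γ : ℝ → E3 := fun y => if hy : ∃ u ∈ Icc s t, Len c' a u = y then c hy.choose else 0
  have hγ : ∀ u ∈ Icc s t, γ (Len c' a u) = c u := by
    intro u hu
    have hex : ∃ u' ∈ Icc s t, Len c' a u' = Len c' a u := ⟨u, hu, rfl⟩
    have h1 : γ (Len c' a u) = c hex.choose := dif_pos hex
    rw [h1]
    have h2 := hex.choose_spec.2
    have h3 := dist_le hc hc' a hex.choose u
    rw [h2, dist_self] at h3
    exact dist_le_zero.mp h3
  have himg : c '' Icc s t = γ '' (Len c' a '' Icc s t) := by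
    rw [image_image]
    exact image_congr fun u hu => (hγ u hu).symm
  have hlip : LipschitzOnWith 1 γ (Len c' a '' Icc s t) := by
    refine LipschitzOnWith.of_dist_le_mul ?_
    rintro _ ⟨u, hu, rfl⟩ _ ⟨v, hv, rfl⟩
    rw [hγ u hu, hγ v hv, NNReal.coe_one, one_mul]
    exact dist_le hc hc' a u v
  rw [himg]
  refine (hlip.hausdorffMeasure_image_le zero_le_one).trans ?_
  rw [ENNReal.coe_one, ENNReal.one_rpow, one_mul, hausdorffMeasure_real]
  have hsub : Len c' a '' Icc s t ⊆ Icc (Len c' a s) (Len c' a t) := by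
    rintro _ ⟨u, hu, rfl⟩
    exact ⟨Len_mono hc' a hu.1, Len_mono hc' a hu.2⟩
  refine (measure_mono hsub).trans ?_
  rw [Real.volume_Icc]

/-- lower bound by the chord -/
lemma chord (hc : Continuous c) {s t : ℝ} (h : s ≤ t) :
    ENNReal.ofReal ‖c t - c s‖ ≤ Measure.hausdorffMeasure (1 : ℝ) (c '' Icc s t) := by
  set v := c t - c s with hv
  rcases eq_or_ne v 0 with h0 | h0
  · rw [h0]; simp
  have hv0 : 0 < ‖v‖ := norm_pos_iff.mpr h0
  let f : E3 → ℝ := fun x => inner ℝ v x / ‖v‖
  have hf : LipschitzWith 1 f := by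
    refine LipschitzWith.of_dist_le_mul fun x y => ?_
    rw [NNReal.coe_one, one_mul, Real.dist_eq, dist_eq_norm]
    have h1 : f x - f y = inner ℝ v (x - y) / ‖v‖ := by
      simp only [f]
      rw [inner_sub_right]; ring
    rw [h1, abs_div, abs_norm, div_le_iff₀ hv0, mul_comm]
    exact abs_real_inner_le_norm v (x - y)
  have h1 := hf.hausdorffMeasure_image_le (zero_le_one : (0 : ℝ) ≤ 1) (c '' Icc s t)
  rw [ENNReal.coe_one, ENNReal.one_rpow, one_mul, hausdorffMeasure_real] at h1
  refine le_trans ?_ h1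
  have h2 : Icc (f (c s)) (f (c t)) ⊆ f '' (c '' Icc s t) := by
    rw [image_image]
    exact intermediate_value_Icc h ((hf.continuous.comp hc).continuousOn)
  refine le_trans ?_ (measure_mono h2)
  rw [Real.volume_Icc]
  apply ENNReal.ofReal_le_ofReal
  have h3 : f (c t) - f (c s) = ‖v‖ := by
    simp only [f]
    rw [← sub_div, ← inner_sub_right, ← hv, real_inner_self_eq_norm_sq]
    field_simp
  rw [h3]

lemma chord' (hc : Continuous c) {s t : ℝ} (h : s ≤ t) :
    ENNReal.ofReal ‖c t - c s‖ ≤ Measure.hausdorffMeasure (1 : ℝ) (c '' Ico s t) := by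
  refine (chord hc h).trans ?_
  have h1 : c '' Icc s t ⊆ c '' Ico s t ∪ {c t} := by
    rintro _ ⟨u, hu, rfl⟩
    rcases eq_or_lt_of_le hu.2 with h2 | h2
    · right; rw [h2]; rfl
    · left; exact ⟨u, ⟨hu.1, h2⟩, rfl⟩
  refine (measure_mono h1).trans ((measure_union_le _ _).trans ?_)
  have : Measure.hausdorffMeasure (1 : ℝ) ({c t} : Set E3) = 0 := by
    have := Measure.nullSingletonClass_hausdorff E3 (d := 1) one_pos
    exact measure_singleton _
  rw [this, add_zero]

/-- the length formula -/
theorem length (hc : ∀ t, HasDerivAt c (c' t) t) (hc' : Continuous c') {a b : ℝ} (hab : a ≤ b)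
    (hinj : InjOn c (Ico a b)) :
    Measure.hausdorffMeasure (1 : ℝ) (c '' Ico a b) = ENNReal.ofReal (∫ u in a..b, ‖c' u‖) := by
  have hcc : Continuous c := continuous_iff_continuousAt.mpr fun t => (hc t).continuousAt
  -- the distribution function
  set m : ℝ → ENNReal := fun t => Measure.hausdorffMeasure (1 : ℝ) (c '' Ico a t) with hm
  have hup : ∀ s t, s ≤ t → Measure.hausdorffMeasure (1 : ℝ) (c '' Ico s t) ≤
      ENNReal.ofReal (Len c' a t - Len c' a s) := fun s t h =>
    (measure_mono (image_mono Ico_subset_Icc_self)).trans (upper hc hc' a)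
  have hfin : ∀ t, a ≤ t → m t ≠ ⊤ := fun t h =>
    ne_top_of_le_ne_top ENNReal.ofReal_ne_top (hup a t h)
  have hsplit : ∀ s t, a ≤ s → s ≤ t → t ≤ b →
      m t = m s + Measure.hausdorffMeasure (1 : ℝ) (c '' Ico s t) := by
    intro s t h1 h2 h3
    simp only [hm]
    rw [← measure_union, ← image_union, Ico_union_Ico_eq_Ico h1 h2]
    · rw [Set.disjoint_left]
      rintro _ ⟨u, hu, rfl⟩ ⟨v, hv, hvu⟩
      have h4 : v = u := hinj ⟨h1.trans hv.1, lt_of_lt_of_le hv.2 h3⟩
        ⟨hu.1, lt_of_lt_of_le hu.2 (h2.trans h3)⟩ hvu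
      rw [h4] at hv
      exact absurd hu.2 (not_lt.mpr hv.1)
    · have hsub : Ico s t ⊆ Ico a b := fun u hu => ⟨h1.trans hu.1, lt_of_lt_of_le hu.2 h3⟩
      exact MeasurableSet.image_of_continuousOn_injOn measurableSet_Ico hcc.continuousOn
        (hinj.mono hsub)
  set D : ℝ → ℝ := fun t => Len c' a t - (m t).toReal with hD
  have hstep : ∀ s t, a ≤ s → s ≤ t → t ≤ b →
      0 ≤ D t - D s ∧ D t - D s ≤ Len c' a t - Len c' a s - ‖c t - c s‖ := by
    intro s t h1 h2 h3
    have e1 := hsplit s t h1 h2 h3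
    have hfin' : Measure.hausdorffMeasure (1 : ℝ) (c '' Ico s t) ≠ ⊤ :=
      ne_top_of_le_ne_top ENNReal.ofReal_ne_top (hup s t h2)
    have e2 : (m t).toReal = (m s).toReal +
        (Measure.hausdorffMeasure (1 : ℝ) (c '' Ico s t)).toReal := by
      rw [e1, ENNReal.toReal_add (hfin s h1) hfin']
    have e3 : (Measure.hausdorffMeasure (1 : ℝ) (c '' Ico s t)).toReal ≤
        Len c' a t - Len c' a s := by
      refine ENNReal.toReal_le_of_le_ofReal ?_ (hup s t h2)
      linarith [Len_mono hc' a h2]
    have e4 : ‖c t - c s‖ ≤ (Measure.hausdorffMeasure (1 : ℝ) (c '' Ico s t)).toReal := by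
      rw [← ENNReal.ofReal_le_iff_le_toReal hfin']
      exact chord' hcc h2
    simp only [hD]
    constructor <;> linarith
  have hDa : D a = 0 := by
    simp [hD, hm, Len]
  have hdistD : ∀ s ∈ Icc a b, ∀ t ∈ Icc a b, dist (D t) (D s) ≤ dist (Len c' a t) (Len c' a s) := by
    intro s hs t ht
    rw [Real.dist_eq, Real.dist_eq]
    rcases le_total s t with h | h
    · obtain ⟨e1, e2⟩ := hstep s t hs.1 h ht.2
      rw [abs_of_nonneg e1]
      refine le_trans ?_ (le_abs_self _)
      linarith [norm_nonneg (c t - c s)]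
    · obtain ⟨e1, e2⟩ := hstep t s ht.1 h hs.2
      rw [abs_sub_comm, abs_of_nonneg e1, abs_sub_comm]
      refine le_trans ?_ (le_abs_self _)
      linarith [norm_nonneg (c s - c t)]
  have hcontD : ContinuousOn D (Icc a b) := by
    intro x hx
    rw [ContinuousWithinAt, tendsto_iff_dist_tendsto_zero]
    have h1 : Tendsto (fun y => dist (Len c' a y) (Len c' a x)) (𝓝[Icc a b] x) (𝓝 0) := by
      have h2 : Tendsto (Len c' a) (𝓝[Icc a b] x) (𝓝 (Len c' a x)) :=
        ((Len_deriv hc' a x).continuousAt).tendsto.mono_left nhdsWithin_le_nhds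
      exact tendsto_iff_dist_tendsto_zero.mp h2
    refine squeeze_zero' (Filter.Eventually.of_forall fun y => dist_nonneg) ?_ h1
    filter_upwards [self_mem_nhdsWithin] with y hy
    exact hdistD x hx y hy
  have hderivD : ∀ x ∈ Ico a b, HasDerivWithinAt D 0 (Ici x) x := by
    intro x hx
    rw [hasDerivWithinAt_iff_isLittleO]
    have o1 := (hasDerivWithinAt_iff_isLittleO.mp ((Len_deriv hc' a x).hasDerivWithinAt (s := Ici x)))
    have o2 := (hasDerivWithinAt_iff_isLittleO.mp ((hc x).hasDerivWithinAt (s := Ici x)))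
    have o3 := o1.norm_left.add o2.norm_left
    refine Asymptotics.IsBigO.trans_isLittleO ?_ o3
    refine Asymptotics.IsBigO.of_bound 1 ?_
    have hb : ∀ᶠ y in 𝓝[Ici x] x, y < b := nhdsWithin_le_nhds (Iio_mem_nhds hx.2)
    filter_upwards [self_mem_nhdsWithin, hb] with y hy hyb
    have hxy : x ≤ y := hy
    obtain ⟨e1, e2⟩ := hstep x y hx.1 hxy hyb.le
    rw [smul_zero, sub_zero, Real.norm_eq_abs, abs_of_nonneg e1, one_mul]
    refine e2.trans (le_trans ?_ (le_abs_self _))
    have e3 : ‖(y - x) • c' x‖ - ‖c y - c x‖ ≤ ‖c y - c x - (y - x) • c' x‖ := by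
      rw [← norm_neg (c y - c x - (y - x) • c' x), neg_sub]
      exact norm_sub_norm_le _ _
    have e4 : ‖(y - x) • c' x‖ = (y - x) * ‖c' x‖ := by
      rw [norm_smul, Real.norm_eq_abs, abs_of_nonneg (by linarith)]
    have e5 : Len c' a y - Len c' a x - (y - x) • ‖c' x‖ ≤
        ‖Len c' a y - Len c' a x - (y - x) • ‖c' x‖‖ := le_abs_self _
    rw [smul_eq_mul] at e5 ⊢
    linarith
  have hconst := constant_of_has_deriv_right_zero hcontD hderivD b (right_mem_Icc.mpr hab)
  rw [hDa] at hconst
  have h1 : Len c' a b = (m b).toReal := by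
    simp only [hD] at hconst; linarith
  have h2 : m b = ENNReal.ofReal (Len c' a b) := by
    rw [h1, ENNReal.ofReal_toReal (hfin b hab)]
  exact h2

end Arc

open Set in
theorem arc_length (r r' : ℝ → ℝ) (hr : ∀ t, HasDerivAt r (r' t) t) (hc : Continuous r')
    (hpos : ∀ t, 0 < r t) (hper : ∀ t, r (t + 2 * π) = r t) (x y : E3) (hx : ‖x‖ = 1)
    (hy : ‖y‖ = 1) (hxy : inner ℝ x y = (0:ℝ)) :
    Measure.hausdorffMeasure (1:ℝ)
      ((fun t : ℝ => r t • (cos t • x + sin t • y)) '' Set.Ico 0 (2 * π)) =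
      ENNReal.ofReal (∫ t in (0:ℝ)..(2 * π), √(r t ^ 2 + r' t ^ 2)) := by
  have hsq : ∀ p q : ℝ, ‖p • x + q • y‖ ^ 2 = p ^ 2 + q ^ 2 := by
    intro p q
    rw [norm_add_sq_real, norm_smul, norm_smul, hx, hy, inner_smul_left, inner_smul_right, hxy]
    simp
  have hrc : Continuous r := continuous_iff_continuousAt.mpr fun t => (hr t).continuousAt
  set c : ℝ → E3 := fun t => r t • (cos t • x + sin t • y) with hcdef
  set c' : ℝ → E3 := fun t => (r' t * cos t - r t * sin t) • x + (r' t * sin t + r t * cos t) • y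
    with hc'def
  have hderiv : ∀ t, HasDerivAt c (c' t) t := by
    intro t
    have h1 : HasDerivAt (fun t : ℝ => cos t • x + sin t • y) (-sin t • x + cos t • y) t :=
      ((hasDerivAt_cos t).smul_const x).add ((hasDerivAt_sin t).smul_const y)
    have h2 := (hr t).smul h1
    refine h2.congr_deriv ?_
    simp only [hc'def]
    module
  have hcont' : Continuous c' := by
    simp only [hc'def]
    fun_prop
  have hinj : InjOn c (Ico 0 (2 * π)) := by
    intro s hs t ht hst
    have hn : ∀ t, ‖c t‖ = r t := by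
      intro t
      have h1 : ‖cos t • x + sin t • y‖ = 1 := by
        have h2 := hsq (cos t) (sin t)
        rw [cos_sq_add_sin_sq] at h2
        nlinarith [norm_nonneg (cos t • x + sin t • y)]
      simp only [hcdef]
      rw [norm_smul, h1, mul_one, Real.norm_eq_abs, abs_of_pos (hpos t)]
    have hrr : r s = r t := by rw [← hn s, ← hn t, hst]
    have hvec : cos s • x + sin s • y = cos t • x + sin t • y := by
      have h3 : r t • (cos s • x + sin s • y) = r t • (cos t • x + sin t • y) := by
        have h4 : c s = c t := hst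
        simp only [hcdef] at h4
        rw [hrr] at h4
        exact h4
      exact smul_right_injective _ (hpos t).ne' h3
    have hd := hsq (cos s - cos t) (sin s - sin t)
    have hz : (cos s - cos t) • x + (sin s - sin t) • y = 0 := by
      have : (cos s - cos t) • x + (sin s - sin t) • y =
        (cos s • x + sin s • y) - (cos t • x + sin t • y) := by module
      rw [this, hvec, sub_self]
    rw [hz, norm_zero] at hd
    have hcos : cos s = cos t := by nlinarith [sq_nonneg (cos s - cos t), sq_nonneg (sin s - sin t)]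
    have hsin : sin s = sin t := by nlinarith [sq_nonneg (cos s - cos t), sq_nonneg (sin s - sin t)]
    have hang := Real.Angle.cos_sin_inj hcos hsin
    rw [Real.Angle.angle_eq_iff_two_pi_dvd_sub] at hang
    obtain ⟨k, hk⟩ := hang
    have hpi := Real.pi_pos
    have hk1 : (k : ℝ) < 1 := by
      by_contra hcon
      push Not at hcon
      have := hs.2
      have := ht.1
      nlinarith
    have hk2 : (-1 : ℝ) < k := by
      by_contra hcon
      push Not at hcon
      have := hs.1
      have := ht.2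
      nlinarith
    have hk0 : k = 0 := by
      have h5 : k < 1 := by exact_mod_cast hk1
      have h6 : -1 < k := by exact_mod_cast hk2
      omega
    rw [hk0] at hk
    simp at hk
    linarith
  rw [Arc.length hderiv hcont' (by positivity) hinj]
  congr 1
  refine intervalIntegral.integral_congr fun t _ => ?_
  simp only [hc'def]
  rw [← Real.sqrt_sq (norm_nonneg _), hsq]
  congr 1
  have := sin_sq_add_cos_sq t
  linear_combination (r t ^ 2 + r' t ^ 2) * this

end Pool.Agent.Lib_MP_f78f32_gt
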