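import Mathlib

/-!
# The rotation group of 3-space, its Haar probability measure and right flows
-/

open MeasureTheory Real
open scoped Matrix

namespace Pool.Agent.Lib_MP_f78f32_gt

/-- rotations of 3-space, as a submonoid of the matrices -/
def SO3 : Submonoid (Matrix (Fin 3) (Fin 3) ℝ) where
  carrier := {M | Mᵀ * M = 1 ∧ M.det = 1}
  one_mem' := by simp
  mul_mem' := by
    rintro A B ⟨hA, hA'⟩ ⟨hB, hB'⟩
    refine ⟨?_, by simp [hA', hB']⟩
    rw [Matrix.transpose_mul, Matrix.mul_assoc, ← Matrix.mul_assoc Aᵀ, hA, Matrix.one_mul, hB]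

/-- the rotation group -/
abbrev G : Type := ↥SO3

lemma G.tm (g : G) : (g.1)ᵀ * g.1 = 1 := g.2.1
lemma G.mt (g : G) : g.1 * (g.1)ᵀ = 1 := by
  exact mul_eq_one_comm.mp g.2.1
lemma G.det (g : G) : g.1.det = 1 := g.2.2

noncomputable instance : Inv G := ⟨fun g => ⟨(g.1)ᵀ, by
  refine ⟨?_, ?_⟩
  · rw [Matrix.transpose_transpose]; exact g.mt
  · rw [Matrix.det_transpose]; exact g.det⟩⟩

@[simp] lemma G.coe_inv (g : G) : ((g⁻¹ : G) : Matrix (Fin 3) (Fin 3) ℝ) = (g.1)ᵀ := rfl
@[simp] lemma G.inv_val (g : G) : (g⁻¹ : G).1 = (g.1)ᵀ := rfl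
@[simp] lemma G.mul_val (g h : G) : (g * h).1 = g.1 * h.1 := rfl
@[simp] lemma G.one_val : (1 : G).1 = 1 := rfl

noncomputable instance : Group G where
  inv_mul_cancel g := Subtype.ext (by simpa using g.tm)

instance : IsTopologicalGroup G where
  continuous_inv := by
    refine Continuous.subtype_mk ?_ _
    exact continuous_subtype_val.matrix_transpose

lemma G.cont_entry (i j : Fin 3) : Continuous (fun g : G => g.1 i j) :=
  (continuous_subtype_val : Continuous (fun g : G => g.1)).matrix_elem i j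

lemma G.col_dot (g : G) (j k : Fin 3) : ∑ i, g.1 i j * g.1 i k = if j = k then 1 else 0 := by
  have h := congrFun (congrFun g.tm j) k
  rw [Matrix.mul_apply] at h
  simpa [Matrix.transpose_apply, Matrix.one_apply] using h

lemma G.row_dot (g : G) (i k : Fin 3) : ∑ j, g.1 i j * g.1 k j = if i = k then 1 else 0 := by
  have h := congrFun (congrFun g.mt i) k
  rw [Matrix.mul_apply] at h
  simpa [Matrix.transpose_apply, Matrix.one_apply] using h

lemma G.entry_sq_le (g : G) (i j : Fin 3) : g.1 i j ^ 2 ≤ 1 := by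
  have h := g.col_dot j j
  simp only [if_true] at h
  have : g.1 i j * g.1 i j ≤ ∑ i, g.1 i j * g.1 i j :=
    Finset.single_le_sum (f := fun i => g.1 i j * g.1 i j) (fun i _ => mul_self_nonneg _)
      (Finset.mem_univ i)
  nlinarith

lemma G.abs_entry_le (g : G) (i j : Fin 3) : |g.1 i j| ≤ 1 := by
  have := g.entry_sq_le i j
  exact (sq_le_one_iff_abs_le_one _).mp this

instance : CompactSpace G := by
  apply isCompact_iff_compactSpace.mp
  have hbox : IsCompact (Set.pi Set.univ (fun _ : Fin 3 => Set.pi Set.univ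
      (fun _ : Fin 3 => Set.Icc (-1 : ℝ) 1))) :=
    isCompact_univ_pi (fun _ => isCompact_univ_pi (fun _ => isCompact_Icc))
  have hcl : IsClosed (SO3 : Set (Matrix (Fin 3) (Fin 3) ℝ)) := by
    have h1 : IsClosed {M : Matrix (Fin 3) (Fin 3) ℝ | Mᵀ * M = 1} :=
      isClosed_eq ((continuous_id.matrix_transpose).matrix_mul continuous_id) continuous_const
    have h2 : IsClosed {M : Matrix (Fin 3) (Fin 3) ℝ | M.det = 1} :=
      isClosed_eq (continuous_id.matrix_det) continuous_const
    exact h1.inter h2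
  refine IsCompact.of_isClosed_subset hbox hcl ?_
  intro M hM i _ j _
  have := G.abs_entry_le ⟨M, hM⟩ i j
  exact abs_le.mp this

instance : T2Space G := inferInstance
instance : SecondCountableTopology G := by
  have : SecondCountableTopology (Matrix (Fin 3) (Fin 3) ℝ) :=
    inferInstanceAs (SecondCountableTopology (Fin 3 → Fin 3 → ℝ))
  exact TopologicalSpace.Subtype.secondCountableTopology _

instance : MeasurableSpace G := borel G
instance : BorelSpace G := ⟨rfl⟩

/-- The Haar probability measure of the rotation group. -/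
noncomputable def μ : Measure G := (Measure.haar (Set.univ : Set G))⁻¹ • Measure.haar

lemma haar_univ_ne_zero : (Measure.haar (Set.univ : Set G)) ≠ 0 :=
  IsOpen.measure_ne_zero _ isOpen_univ Set.univ_nonempty
lemma haar_univ_ne_top : (Measure.haar (Set.univ : Set G)) ≠ ⊤ :=
  isCompact_univ.measure_ne_top

instance : Measure.IsHaarMeasure μ :=
  Measure.IsHaarMeasure.smul _ (ENNReal.inv_ne_zero.mpr haar_univ_ne_top)
    (ENNReal.inv_ne_top.mpr haar_univ_ne_zero)

instance : IsProbabilityMeasure μ := ⟨by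
  rw [μ, Measure.smul_apply, smul_eq_mul]
  exact ENNReal.inv_mul_cancel haar_univ_ne_zero haar_univ_ne_top⟩

instance : μ.IsMulRightInvariant := by
  refine ⟨fun g => ?_⟩
  have : Measure.IsHaarMeasure (Measure.map (· * g) μ) := inferInstance
  have : IsProbabilityMeasure (Measure.map (· * g) μ) :=
    Measure.isProbabilityMeasure_map (by fun_prop)
  exact Measure.isHaarMeasure_eq_of_isProbabilityMeasure _ _

instance : μ.IsInvInvariant := by
  have h1 : Measure.IsHaarMeasure μ.inv := by
    refine @Measure.isHaarMeasure_of_isCompact_nonempty_interior G _ _ _ _ _ μ.inv inferInstance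
      Set.univ isCompact_univ (by simp) ?_ ?_
    · rw [Measure.inv_apply]; simp
    · rw [Measure.inv_apply]; simp
  have h2 : IsProbabilityMeasure μ.inv := ⟨by rw [Measure.inv_apply]; simp⟩
  exact ⟨Measure.isHaarMeasure_eq_of_isProbabilityMeasure _ _⟩

lemma intg {F : G → ℝ} (hF : Continuous F) : Integrable F μ :=
  hF.integrable_of_hasCompactSupport (HasCompactSupport.of_compactSpace F)

lemma int_left (F : G → ℝ) (h : G) : ∫ g, F (h * g) ∂μ = ∫ g, F g ∂μ :=
  integral_mul_left_eq_self F h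
lemma int_right (F : G → ℝ) (h : G) : ∫ g, F (g * h) ∂μ = ∫ g, F g ∂μ :=
  integral_mul_right_eq_self F h
lemma int_inv (F : G → ℝ) : ∫ g, F g⁻¹ ∂μ = ∫ g, F g ∂μ :=
  integral_inv_eq_self F μ

/-! ### flows -/

/-- rotation of the first two frame vectors -/
noncomputable def fa (t : ℝ) : G :=
  ⟨!![cos t, -sin t, 0; sin t, cos t, 0; 0, 0, 1], by
    have h := sin_sq_add_cos_sq t
    refine ⟨?_, ?_⟩
    · ext i j
      fin_cases i <;> fin_cases j <;>
        simp [Matrix.mul_apply, Fin.sum_univ_three] <;> nlinarith [h]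
    · simp [Matrix.det_fin_three]; nlinarith [h]⟩

/-- rotation of the first and the third frame vectors -/
noncomputable def fb (t : ℝ) : G :=
  ⟨!![cos t, 0, -sin t; 0, 1, 0; sin t, 0, cos t], by
    have h := sin_sq_add_cos_sq t
    refine ⟨?_, ?_⟩
    · ext i j
      fin_cases i <;> fin_cases j <;>
        simp [Matrix.mul_apply, Fin.sum_univ_three] <;> nlinarith [h]
    · simp [Matrix.det_fin_three]; nlinarith [h]⟩

/-- rotation of the last two frame vectors -/
noncomputable def fr (t : ℝ) : G :=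
  ⟨!![1, 0, 0; 0, cos t, -sin t; 0, sin t, cos t], by
    have h := sin_sq_add_cos_sq t
    refine ⟨?_, ?_⟩
    · ext i j
      fin_cases i <;> fin_cases j <;>
        simp [Matrix.mul_apply, Fin.sum_univ_three] <;> nlinarith [h]
    · simp [Matrix.det_fin_three]; nlinarith [h]⟩

lemma fa_val (t : ℝ) : (fa t).1 = !![cos t, -sin t, 0; sin t, cos t, 0; 0, 0, 1] := rfl
lemma fb_val (t : ℝ) : (fb t).1 = !![cos t, 0, -sin t; 0, 1, 0; sin t, 0, cos t] := rfl
lemma fr_val (t : ℝ) : (fr t).1 = !![1, 0, 0; 0, cos t, -sin t; 0, sin t, cos t] := rfl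

lemma fa_add (s t : ℝ) : fa (s + t) = fa s * fa t := by
  apply Subtype.ext
  ext i j
  fin_cases i <;> fin_cases j <;>
    simp [fa_val, Matrix.mul_apply, Fin.sum_univ_three, cos_add, sin_add] <;> ring
lemma fb_add (s t : ℝ) : fb (s + t) = fb s * fb t := by
  apply Subtype.ext
  ext i j
  fin_cases i <;> fin_cases j <;>
    simp [fb_val, Matrix.mul_apply, Fin.sum_univ_three, cos_add, sin_add] <;> ring
lemma fr_add (s t : ℝ) : fr (s + t) = fr s * fr t := by
  apply Subtype.ext
  ext i j
  fin_cases i <;> fin_cases j <;>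
    simp [fr_val, Matrix.mul_apply, Fin.sum_univ_three, cos_add, sin_add] <;> ring

@[simp] lemma fa_zero : fa 0 = 1 := by
  apply Subtype.ext; ext i j; fin_cases i <;> fin_cases j <;> simp [fa_val]
@[simp] lemma fb_zero : fb 0 = 1 := by
  apply Subtype.ext; ext i j; fin_cases i <;> fin_cases j <;> simp [fb_val]
@[simp] lemma fr_zero : fr 0 = 1 := by
  apply Subtype.ext; ext i j; fin_cases i <;> fin_cases j <;> simp [fr_val]

lemma cont_mk_G {X : Type*} [TopologicalSpace X] {F : X → G}
    (h : ∀ i j, Continuous fun x => (F x).1 i j) : Continuous F :=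
  Continuous.subtype_mk (f := fun x => (F x).1) (continuous_matrix h) (fun x => (F x).2)

@[fun_prop] lemma fa_cont : Continuous fa := by
  apply cont_mk_G
  intro i j
  fin_cases i <;> fin_cases j <;> simp [fa_val] <;> fun_prop
@[fun_prop] lemma fb_cont : Continuous fb := by
  apply cont_mk_G
  intro i j
  fin_cases i <;> fin_cases j <;> simp [fb_val] <;> fun_prop
@[fun_prop] lemma fr_cont : Continuous fr := by
  apply cont_mk_G
  intro i j
  fin_cases i <;> fin_cases j <;> simp [fr_val] <;> fun_prop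

lemma mul_fa (g : G) (t : ℝ) (i : Fin 3) :
    (g * fa t).1 i 0 = cos t * g.1 i 0 + sin t * g.1 i 1 ∧
    (g * fa t).1 i 1 = -sin t * g.1 i 0 + cos t * g.1 i 1 ∧
    (g * fa t).1 i 2 = g.1 i 2 := by
  simp [fa_val, Matrix.mul_apply, Fin.sum_univ_three]
  constructor <;> ring
lemma mul_fb (g : G) (t : ℝ) (i : Fin 3) :
    (g * fb t).1 i 0 = cos t * g.1 i 0 + sin t * g.1 i 2 ∧
    (g * fb t).1 i 1 = g.1 i 1 ∧
    (g * fb t).1 i 2 = -sin t * g.1 i 0 + cos t * g.1 i 2 := by
  simp [fb_val, Matrix.mul_apply, Fin.sum_univ_three]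
  constructor <;> ring
lemma mul_fr (g : G) (t : ℝ) (i : Fin 3) :
    (g * fr t).1 i 0 = g.1 i 0 ∧
    (g * fr t).1 i 1 = cos t * g.1 i 1 + sin t * g.1 i 2 ∧
    (g * fr t).1 i 2 = -sin t * g.1 i 1 + cos t * g.1 i 2 := by
  simp [fr_val, Matrix.mul_apply, Fin.sum_univ_three]
  constructor <;> ring

/-- `F'` is the derivative of `F` along the right flow `c`. -/
def FD (c : ℝ → G) (F F' : G → ℝ) : Prop :=
  ∀ g, HasDerivAt (fun t => F (g * c t)) (F' g) 0

lemma FD.at {c : ℝ → G} (hc : ∀ s t, c (s + t) = c s * c t) {F F' : G → ℝ} (h : FD c F F')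
    (g : G) (t : ℝ) : HasDerivAt (fun s => F (g * c s)) (F' (g * c t)) t := by
  have h1 := h (g * c t)
  have h2 : HasDerivAt (fun s => s - t) 1 t := (hasDerivAt_id t).sub_const t
  have h3 : HasDerivAt (fun s => F (g * c t * c s)) (F' (g * c t)) (t - t) := by
    simpa using h1
  have h4 := HasDerivAt.scomp (g₁ := fun s => F (g * c t * c s)) (h := fun s => s - t) t h3 h2
  simp only [one_smul] at h4
  refine h4.congr_of_eventuallyEq ?_
  refine Filter.Eventually.of_forall fun s => ?_
  simp only [Function.comp_def]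
  rw [mul_assoc, ← hc]
  congr 3
  ring

lemma FD.ata {F F' : G → ℝ} (h : FD fa F F') (g : G) (t : ℝ) :
    HasDerivAt (fun s => F (g * fa s)) (F' (g * fa t)) t := FD.at fa_add h g t
lemma FD.atb {F F' : G → ℝ} (h : FD fb F F') (g : G) (t : ℝ) :
    HasDerivAt (fun s => F (g * fb s)) (F' (g * fb t)) t := FD.at fb_add h g t
lemma FD.atr {F F' : G → ℝ} (h : FD fr F F') (g : G) (t : ℝ) :
    HasDerivAt (fun s => F (g * fr s)) (F' (g * fr t)) t := FD.at fr_add h g t

section rules
variable {c : ℝ → G} {F F' H H' : G → ℝ}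

lemma FD.add (hF : FD c F F') (hH : FD c H H') :
    FD c (fun g => F g + H g) (fun g => F' g + H' g) := fun g => (hF g).add (hH g)
lemma FD.sub (hF : FD c F F') (hH : FD c H H') :
    FD c (fun g => F g - H g) (fun g => F' g - H' g) := fun g => (hF g).sub (hH g)
lemma FD.neg (hF : FD c F F') : FD c (fun g => -F g) (fun g => -F' g) := fun g => (hF g).neg
lemma FD.mul (h0 : c 0 = 1) (hF : FD c F F') (hH : FD c H H') :
    FD c (fun g => F g * H g) (fun g => F' g * H g + F g * H' g) := fun g => by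
  have := (hF g).mul (hH g)
  simp only [h0, mul_one] at this
  exact this
lemma FD.const (a : ℝ) : FD c (fun _ => a) (fun _ => 0) := fun _ => hasDerivAt_const _ _
lemma FD.const_mul (a : ℝ) (hF : FD c F F') :
    FD c (fun g => a * F g) (fun g => a * F' g) := fun g => (hF g).const_mul a
lemma FD.pow (h0 : c 0 = 1) (hF : FD c F F') (n : ℕ) :
    FD c (fun g => F g ^ n) (fun g => n * F g ^ (n - 1) * F' g) := fun g => by
  have := (hF g).pow n
  simp only [h0, mul_one] at this
  exact this
lemma FD.comp (h0 : c 0 = 1) {φ φ' : ℝ → ℝ} (hφ : ∀ g, HasDerivAt φ (φ' (F g)) (F g))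
    (hF : FD c F F') : FD c (fun g => φ (F g)) (fun g => φ' (F g) * F' g) := fun g => by
  have h1 : HasDerivAt φ (φ' (F g)) (F (g * c 0)) := by simpa [h0] using hφ g
  exact h1.comp (0 : ℝ) (hF g)
lemma FD.congr (hF : FD c F F') (h : ∀ g, F' g = H' g) : FD c F H' := fun g => by
  rw [← h g]; exact hF g
end rules

/-- integration by parts: derivatives along right flows have mean zero -/
lemma int_FD {c : ℝ → G} (hc : ∀ s t, c (s + t) = c s * c t) (hcc : Continuous c)
    {F F' : G → ℝ} (h : FD c F F') (hF : Continuous F) (hF' : Continuous F') :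
    ∫ g, F' g ∂μ = 0 := by
  have h0 : c 0 = 1 := by
    have := hc 0 0
    simp only [add_zero] at this
    exact (mul_eq_left.mp this.symm)
  have h1 : ∀ g, ∫ s in (0:ℝ)..1, F' (g * c s) = F (g * c 1) - F g := by
    intro g
    rw [intervalIntegral.integral_eq_sub_of_hasDerivAt (f := fun s => F (g * c s))
      (fun s _ => FD.at hc h g s)]
    · simp [h0]
    · exact (hF'.comp (continuous_const.mul hcc)).intervalIntegrable _ _
  have h2 : ∫ g, (∫ s in (0:ℝ)..1, F' (g * c s)) ∂μ = 0 := by
    simp_rw [h1]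
    have h6 : Continuous fun g : G => F (g * c 1) := by fun_prop
    rw [integral_sub (intg h6) (intg hF), int_right F (c 1), sub_self]
  have h3 : ∫ g, (∫ s in (0:ℝ)..1, F' (g * c s)) ∂μ = ∫ s in (0:ℝ)..1, ∫ g, F' (g * c s) ∂μ := by
    simp only [intervalIntegral.integral_of_le (zero_le_one (α := ℝ))]
    apply integral_integral_swap
    have hcont : Continuous (fun p : G × ℝ => F' (p.1 * c p.2)) := by fun_prop
    have : IntegrableOn (fun p : G × ℝ => F' (p.1 * c p.2)) (Set.univ ×ˢ Set.Icc (0:ℝ) 1)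
        (μ.prod volume) :=
      hcont.continuousOn.integrableOn_compact (isCompact_univ.prod isCompact_Icc)
    have h4 := this.mono_set (s := Set.univ ×ˢ Set.Ioc (0:ℝ) 1)
      (Set.prod_mono le_rfl Set.Ioc_subset_Icc_self)
    rw [IntegrableOn, ← Measure.prod_restrict, Measure.restrict_univ] at h4
    exact h4
  rw [h3] at h2
  have h5 : ∀ s, ∫ g, F' (g * c s) ∂μ = ∫ g, F' g ∂μ := fun s => int_right F' (c s)
  simp_rw [h5] at h2
  simpa using h2

lemma int_FDa {F F' : G → ℝ} (h : FD fa F F') (hF : Continuous F) (hF' : Continuous F') :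
    ∫ g, F' g ∂μ = 0 := int_FD fa_add fa_cont h hF hF'
lemma int_FDb {F F' : G → ℝ} (h : FD fb F F') (hF : Continuous F) (hF' : Continuous F') :
    ∫ g, F' g ∂μ = 0 := int_FD fb_add fb_cont h hF hF'
lemma int_FDr {F F' : G → ℝ} (h : FD fr F F') (hF : Continuous F) (hF' : Continuous F') :
    ∫ g, F' g ∂μ = 0 := int_FD fr_add fr_cont h hF hF'

end Pool.Agent.Lib_MP_f78f32_gt
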