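import Pool.Agent.Lib_MP_f78f32_gt.Young

/-!
Commutation of the rotation derivatives with zonal convolution, and the energy bound.
-/

open MeasureTheory Real
open scoped Matrix

namespace Pool.Agent.Lib_MP_f78f32_gt

lemma comm_FD_kk_fa (h : G) : FD fa (fun g => kk h g 0) (fun g => kk h g 1) := by
  intro g
  have h1 : (fun t => kk h (g * fa t) 0) = fun t => cos t * kk h g 0 + sin t * kk h g 1 := by
    funext t; exact (kk_fa h g t).1
  rw [h1]
  have h2 := ((hasDerivAt_cos 0).mul_const (kk h g 0)).add ((hasDerivAt_sin 0).mul_const (kk h g 1))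
  simp only [sin_zero, neg_zero, zero_mul, cos_zero, one_mul, zero_add] at h2
  exact h2

lemma comm_FD_kk_fb (h : G) : FD fb (fun g => kk h g 0) (fun g => kk h g 2) := by
  intro g
  have h1 : (fun t => kk h (g * fb t) 0) = fun t => cos t * kk h g 0 + sin t * kk h g 2 := by
    funext t; exact (kk_fb h g t).1
  rw [h1]
  have h2 := ((hasDerivAt_cos 0).mul_const (kk h g 0)).add ((hasDerivAt_sin 0).mul_const (kk h g 2))
  simp only [sin_zero, neg_zero, zero_mul, cos_zero, one_mul, zero_add] at h2
  exact h2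

lemma comm_FD_co_fa (a : Fin 3 → ℝ) : FD fa (fun g => co a 2 g) (fun _ => 0) := by
  intro g
  have h1 : (fun t => co a 2 (g * fa t)) = fun _ => co a 2 g := by
    funext t; exact (co_fa a g t).2.2
  rw [h1]
  exact hasDerivAt_const _ _

lemma comm_FD_co_fb (a : Fin 3 → ℝ) : FD fb (fun g => co a 1 g) (fun _ => 0) := by
  intro g
  have h1 : (fun t => co a 1 (g * fb t)) = fun _ => co a 1 g := by
    funext t; exact (co_fb a g t).2.1
  rw [h1]
  exact hasDerivAt_const _ _

/-- both brackets are triple products -/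
lemma comm_bracket (a : Fin 3 → ℝ) (g h : G) :
    co a 2 g * kk h g 1 - co a 1 g * kk h g 2 =
      -(kk g h 1 * co a 2 h - kk g h 2 * co a 1 h) := by
  obtain ⟨e0, e1, e2⟩ := G.cross g
  obtain ⟨d0, d1, d2⟩ := G.cross h
  simp only [co, kk, Fin.sum_univ_three]
  linear_combination (-(a 1 * h.1 0 0 - a 0 * h.1 1 0)) * e2 +
    (-(a 0 * h.1 2 0 - a 2 * h.1 0 0)) * e1 + (-(a 2 * h.1 1 0 - a 1 * h.1 2 0)) * e0 +
    (-(a 1 * g.1 0 0 - a 0 * g.1 1 0)) * d2 +
    (-(a 0 * g.1 2 0 - a 2 * g.1 0 0)) * d1 + (-(a 2 * g.1 1 0 - a 1 * g.1 2 0)) * d0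

theorem comm (k : Polynomial ℝ) (a : Fin 3 → ℝ) (F X Y : G → ℝ) (cF : Continuous F)
    (cX : Continuous X) (cY : Continuous Y) (dX : FD fa F X) (dY : FD fb F Y) (g : G) :
    va a (SmJ k F).X (SmJ k F).Y g = Sm k (va a X Y) g := by
  have ck : Continuous fun h : G => k.eval (kk g h 0) := k.continuous.comp (kk_cont_right g 0)
  have ck' : Continuous fun h : G => k.derivative.eval (kk g h 0) :=
    k.derivative.continuous.comp (kk_cont_right g 0)
  have dka : FD fa (fun h => k.eval (kk g h 0))
      (fun h => k.derivative.eval (kk g h 0) * kk g h 1) :=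
    FD.comp (φ := fun x => k.eval x) (φ' := fun x => k.derivative.eval x) fa_zero
      (fun h => k.hasDerivAt _) (comm_FD_kk_fa g)
  have dkb : FD fb (fun h => k.eval (kk g h 0))
      (fun h => k.derivative.eval (kk g h 0) * kk g h 2) :=
    FD.comp (φ := fun x => k.eval x) (φ' := fun x => k.derivative.eval x) fb_zero
      (fun h => k.hasDerivAt _) (comm_FD_kk_fb g)
  have h1 := int_FDa (FD.mul fa_zero (FD.mul fa_zero dka (comm_FD_co_fa a)) dX)
    (by fun_prop) (by fun_prop)
  have h2 := int_FDb (FD.mul fb_zero (FD.mul fb_zero dkb (comm_FD_co_fb a)) dY)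
    (by fun_prop) (by fun_prop)
  have e1 : ∫ h, k.eval (kk g h 0) * co a 2 h * X h ∂μ =
      -∫ h, k.derivative.eval (kk g h 0) * kk g h 1 * co a 2 h * F h ∂μ := by
    rw [← integral_neg, ← sub_eq_zero, ← integral_sub (intg (by fun_prop)) (intg (by fun_prop)), ← h1]
    refine integral_congr_ae (Filter.Eventually.of_forall fun h => ?_)
    simp only
    ring
  have e2 : ∫ h, k.eval (kk g h 0) * co a 1 h * Y h ∂μ =
      -∫ h, k.derivative.eval (kk g h 0) * kk g h 2 * co a 1 h * F h ∂μ := by
    rw [← integral_neg, ← sub_eq_zero, ← integral_sub (intg (by fun_prop)) (intg (by fun_prop)), ← h2]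
    refine integral_congr_ae (Filter.Eventually.of_forall fun h => ?_)
    simp only
    ring
  have cka : Continuous fun h : G => k.eval (kk h g 0) := k.continuous.comp (kk_cont_left g 0)
  have cka' : Continuous fun h : G => k.derivative.eval (kk h g 0) :=
    k.derivative.continuous.comp (kk_cont_left g 0)
  have e3 : Sm k (va a X Y) g = (∫ h, k.eval (kk g h 0) * co a 2 h * X h ∂μ) -
      ∫ h, k.eval (kk g h 0) * co a 1 h * Y h ∂μ := by
    rw [← integral_sub (intg (by fun_prop)) (intg (by fun_prop))]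
    unfold Sm va
    refine integral_congr_ae (Filter.Eventually.of_forall fun h => ?_)
    simp only
    rw [kk_symm h g]
    ring
  rw [e3, e1, e2]
  have e4 : va a (SmJ k F).X (SmJ k F).Y g =
      ∫ h, k.derivative.eval (kk h g 0) * (co a 2 g * kk h g 1 - co a 1 g * kk h g 2) * F h ∂μ := by
    unfold va SmJ
    simp only
    rw [← integral_const_mul, ← integral_const_mul,
      ← integral_sub (intg (by fun_prop)) (intg (by fun_prop))]
    refine integral_congr_ae (Filter.Eventually.of_forall fun h => ?_)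
    simp only
    ring
  rw [e4, ← integral_neg, ← integral_neg, ← integral_sub (intg (by fun_prop)) (intg (by fun_prop))]
  refine integral_congr_ae (Filter.Eventually.of_forall fun h => ?_)
  simp only
  rw [comm_bracket, kk_symm h g]
  ring

lemma comm_co_single (i j : Fin 3) (g : G) : co (Pi.single i 1) j g = g.1 i j := by
  simp [co, Pi.single_apply]

theorem va_sum (X Y X' Y' : G → ℝ) (g : G) :
    ∑ i, va (Pi.single i 1) X Y g * va (Pi.single i 1) X' Y' g = X g * X' g + Y g * Y' g := by
  have h11 := g.col_dot 1 1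
  have h22 := g.col_dot 2 2
  have h12 := g.col_dot 1 2
  simp only [Fin.sum_univ_three, if_true, Fin.isValue, Fin.reduceEq, if_false] at h11 h22 h12
  simp only [va, comm_co_single, Fin.sum_univ_three]
  linear_combination (X g * X' g) * h22 + (Y g * Y' g) * h11 - (X g * Y' g + Y g * X' g) * h12

lemma comm_va_cont (a : Fin 3 → ℝ) (X Y : G → ℝ) (cX : Continuous X) (cY : Continuous Y) :
    Continuous (va a X Y) := by
  unfold va
  fun_prop

lemma comm_energy_sum (X Y : G → ℝ) (cX : Continuous X) (cY : Continuous Y) :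
    ∫ g, (X g ^ 2 + Y g ^ 2) ∂μ = ∑ i, n2 (va (Pi.single i 1) X Y) := by
  unfold n2
  rw [← integral_finsetSum (f := fun i g => va (Pi.single i 1) X Y g ^ 2) _
    (fun i _ => intg ((comm_va_cont _ X Y cX cY).pow 2))]
  refine integral_congr_ae (Filter.Eventually.of_forall fun g => ?_)
  simp only
  have := va_sum X Y X Y g
  simp only [← sq] at this
  rw [this]

theorem energy_Sm (k : Polynomial ℝ) (J : Jet) (hJ : J.Ok) :
    (SmJ k J.f).E ≤ (∫ g : G, |k.eval (g.1 0 0)| ∂μ) ^ 2 * J.E := by
  have h1 : ∀ i, va (Pi.single i 1) (SmJ k J.f).X (SmJ k J.f).Y =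
      Sm k (va (Pi.single i 1) J.X J.Y) := by
    intro i
    funext g
    exact comm k _ J.f J.X J.Y hJ.cf hJ.cX hJ.cY hJ.dX hJ.dY g
  have hc : ∀ i, Continuous (va (Pi.single i 1) (SmJ k J.f).X (SmJ k J.f).Y) := by
    intro i
    rw [h1]
    exact Sm_cont k _ (comm_va_cont _ _ _ hJ.cX hJ.cY)
  have hX : Continuous (SmJ k J.f).X := by
    have : (SmJ k J.f).X = fun g : G => ∑ i, g.1 i 2 *
        va (Pi.single i 1) (SmJ k J.f).X (SmJ k J.f).Y g := by
      funext g
      have h22 := g.col_dot 2 2
      have h12 := g.col_dot 1 2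
      simp only [Fin.sum_univ_three, if_true, Fin.isValue, Fin.reduceEq, if_false] at h22 h12
      simp only [va, comm_co_single, Fin.sum_univ_three]
      linear_combination (-(SmJ k J.f).X g) * h22 + (SmJ k J.f).Y g * h12
    rw [this]
    exact continuous_finsetSum _ fun i _ => (G.cont_entry i 2).mul (hc i)
  have hY : Continuous (SmJ k J.f).Y := by
    have : (SmJ k J.f).Y = fun g : G => ∑ i, -g.1 i 1 *
        va (Pi.single i 1) (SmJ k J.f).X (SmJ k J.f).Y g := by
      funext g
      have h11 := g.col_dot 1 1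
      have h12 := g.col_dot 1 2
      simp only [Fin.sum_univ_three, if_true, Fin.isValue, Fin.reduceEq, if_false] at h11 h12
      simp only [va, comm_co_single, Fin.sum_univ_three]
      linear_combination (-(SmJ k J.f).Y g) * h11 + (SmJ k J.f).X g * h12
    rw [this]
    exact continuous_finsetSum _ fun i _ => (G.cont_entry i 1).neg.mul (hc i)
  unfold Jet.E
  rw [comm_energy_sum _ _ hX hY, comm_energy_sum _ _ hJ.cX hJ.cY, Finset.mul_sum]
  refine Finset.sum_le_sum fun i _ => ?_
  rw [h1]
  exact young k _ (comm_va_cont _ _ _ hJ.cX hJ.cY)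

end Pool.Agent.Lib_MP_f78f32_gt
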