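import Pool.Agent.Lib_MP_f78f32_gt.Basic

/-!
# Definitions for the local rigidity theorem

A function on the sphere is treated as a function on the rotation group `G`: the frame
`g = (x, τ, e)` (columns) is mapped to `f x`. The flows are `fa` (moves `x` towards `τ`),
`fb` (moves `x` towards `e`), `fr` (rotates `τ, e` and fixes `x`).
-/

open MeasureTheory Real
open scoped Matrix

namespace Pool.Agent.Lib_MP_f78f32_gt

/-- right handedness of the frame: the first column is the vector product of the other two -/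
lemma G.cross (g : G) :
    g.1 0 0 = g.1 1 1 * g.1 2 2 - g.1 2 1 * g.1 1 2 ∧
    g.1 1 0 = g.1 2 1 * g.1 0 2 - g.1 0 1 * g.1 2 2 ∧
    g.1 2 0 = g.1 0 1 * g.1 1 2 - g.1 1 1 * g.1 0 2 := by
  have h : (g.1)ᵀ = g.1.adjugate := by
    have h1 : g.1 * g.1.adjugate = 1 := by
      rw [Matrix.mul_adjugate, g.det, one_smul]
    calc (g.1)ᵀ = (g.1)ᵀ * (g.1 * g.1.adjugate) := by rw [h1, Matrix.mul_one]
      _ = ((g.1)ᵀ * g.1) * g.1.adjugate := by rw [Matrix.mul_assoc]
      _ = g.1.adjugate := by rw [g.tm, Matrix.one_mul]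
  have e0 := congrFun (congrFun h 0) 0
  have e1 := congrFun (congrFun h 0) 1
  have e2 := congrFun (congrFun h 0) 2
  simp only [Matrix.transpose_apply, Matrix.adjugate_fin_three, Matrix.of_apply, Matrix.cons_val',
    Matrix.cons_val_zero, Matrix.cons_val_one, Matrix.cons_val_fin_one, Matrix.cons_val] at e0 e1 e2
  refine ⟨?_, ?_, ?_⟩
  · rw [e0]; ring
  · rw [e1]; ring
  · rw [e2]; ring

/-- scalar product of the vector `a` and the `j`-th frame vector -/
def co (a : Fin 3 → ℝ) (j : Fin 3) (g : G) : ℝ := ∑ i, a i * g.1 i j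

/-- scalar product of the first vector of the frame `h` and the `j`-th vector of the frame `g` -/
def kk (h g : G) (j : Fin 3) : ℝ := ∑ i, h.1 i 0 * g.1 i j

/-- second order jet of a function on the sphere, lifted to the frames: `X`, `Y` are the
derivatives in directions `τ`, `e`; `XX`, `XY`, `YY` the entries of the covariant Hessian. -/
structure Jet where
  f : G → ℝ
  X : G → ℝ
  Y : G → ℝ
  XX : G → ℝ
  XY : G → ℝ
  YY : G → ℝ

/-- the jet is the jet of a `C²` function on the sphere -/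
structure Jet.Ok (J : Jet) : Prop where
  cf : Continuous J.f
  cX : Continuous J.X
  cY : Continuous J.Y
  cXX : Continuous J.XX
  cXY : Continuous J.XY
  cYY : Continuous J.YY
  inv : ∀ g t, J.f (g * fr t) = J.f g
  invX : ∀ g t, J.X (g * fr t) = cos t * J.X g + sin t * J.Y g
  invY : ∀ g t, J.Y (g * fr t) = -sin t * J.X g + cos t * J.Y g
  invXX : ∀ g t, J.XX (g * fr t) =
    cos t ^ 2 * J.XX g + 2 * cos t * sin t * J.XY g + sin t ^ 2 * J.YY g
  invXY : ∀ g t, J.XY (g * fr t) =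
    cos t * sin t * (J.YY g - J.XX g) + (cos t ^ 2 - sin t ^ 2) * J.XY g
  invYY : ∀ g t, J.YY (g * fr t) =
    sin t ^ 2 * J.XX g - 2 * cos t * sin t * J.XY g + cos t ^ 2 * J.YY g
  dX : FD fa J.f J.X
  dY : FD fb J.f J.Y
  dXX : FD fa J.X J.XX
  dXY : FD fb J.X J.XY
  dYX : FD fa J.Y J.XY
  dYY : FD fb J.Y J.YY

/-- Dirichlet energy -/
noncomputable def Jet.E (J : Jet) : ℝ := ∫ g, (J.X g ^ 2 + J.Y g ^ 2) ∂μ

/-- squared `L²` norm -/
noncomputable def n2 (F : G → ℝ) : ℝ := ∫ g, F g ^ 2 ∂μ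

/-- zonal convolution operator with polynomial kernel -/
noncomputable def Sm (k : Polynomial ℝ) (F : G → ℝ) (g : G) : ℝ :=
  ∫ h, k.eval (kk h g 0) * F h ∂μ

/-- jet of `Sm k F` -/
noncomputable def SmJ (k : Polynomial ℝ) (F : G → ℝ) : Jet where
  f := Sm k F
  X := fun g => ∫ h, (k.derivative.eval (kk h g 0) * kk h g 1) * F h ∂μ
  Y := fun g => ∫ h, (k.derivative.eval (kk h g 0) * kk h g 2) * F h ∂μ
  XX := fun g => ∫ h, (k.derivative.derivative.eval (kk h g 0) * kk h g 1 ^ 2 -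
    k.derivative.eval (kk h g 0) * kk h g 0) * F h ∂μ
  XY := fun g => ∫ h, (k.derivative.derivative.eval (kk h g 0) * kk h g 1 * kk h g 2) * F h ∂μ
  YY := fun g => ∫ h, (k.derivative.derivative.eval (kk h g 0) * kk h g 2 ^ 2 -
    k.derivative.eval (kk h g 0) * kk h g 0) * F h ∂μ

/-- the normalised kernel `(2n+1) t^{2n}` -/
noncomputable def kn (n : ℕ) : Polynomial ℝ :=
  Polynomial.C (2 * (n : ℝ) + 1) * Polynomial.X ^ (2 * n)

/-- the kernel of `(Δ + 2) ∘ Sm k` -/
noncomputable def lap2 (k : Polynomial ℝ) : Polynomial ℝ :=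
  (1 - Polynomial.X ^ 2) * k.derivative.derivative - 2 * Polynomial.X * k.derivative + 2 * k

/-- rotation derivative of a function with derivatives `X`, `Y` -/
def va (a : Fin 3 → ℝ) (X Y : G → ℝ) (g : G) : ℝ := co a 2 g * X g - co a 1 g * Y g

/-- the Wallis numbers `binom(2k,k)/4^k` -/
noncomputable def al (k : ℕ) : ℝ := (Nat.centralBinom k : ℝ) / 4 ^ k

/-- 3-space -/
abbrev E3 : Type := EuclideanSpace ℝ (Fin 3)

/-- the `j`-th vector of the frame -/
noncomputable def col (g : G) (j : Fin 3) : E3 := WithLp.toLp 2 (fun i => g.1 i j)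

lemma kk_eq_co (h g : G) (j : Fin 3) : kk h g j = co (fun i => h.1 i 0) j g := rfl

lemma kk_eq_mul (h g : G) (j : Fin 3) : kk h g j = (h⁻¹ * g).1 0 j := by
  simp [kk, Matrix.mul_apply, Matrix.transpose_apply]

lemma co_fa (a : Fin 3 → ℝ) (g : G) (t : ℝ) :
    co a 0 (g * fa t) = cos t * co a 0 g + sin t * co a 1 g ∧
    co a 1 (g * fa t) = -sin t * co a 0 g + cos t * co a 1 g ∧
    co a 2 (g * fa t) = co a 2 g := by
  have h0 := fun i => (mul_fa g t i).1
  have h1 := fun i => (mul_fa g t i).2.1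
  have h2 := fun i => (mul_fa g t i).2.2
  simp only [co, Fin.sum_univ_three]
  refine ⟨?_, ?_, ?_⟩
  · rw [h0, h0, h0]; try ring
  · rw [h1, h1, h1]; try ring
  · rw [h2, h2, h2]; try ring
lemma co_fb (a : Fin 3 → ℝ) (g : G) (t : ℝ) :
    co a 0 (g * fb t) = cos t * co a 0 g + sin t * co a 2 g ∧
    co a 1 (g * fb t) = co a 1 g ∧
    co a 2 (g * fb t) = -sin t * co a 0 g + cos t * co a 2 g := by
  have h0 := fun i => (mul_fb g t i).1
  have h1 := fun i => (mul_fb g t i).2.1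
  have h2 := fun i => (mul_fb g t i).2.2
  simp only [co, Fin.sum_univ_three]
  refine ⟨?_, ?_, ?_⟩
  · rw [h0, h0, h0]; try ring
  · rw [h1, h1, h1]; try ring
  · rw [h2, h2, h2]; try ring
lemma co_fr (a : Fin 3 → ℝ) (g : G) (t : ℝ) :
    co a 0 (g * fr t) = co a 0 g ∧
    co a 1 (g * fr t) = cos t * co a 1 g + sin t * co a 2 g ∧
    co a 2 (g * fr t) = -sin t * co a 1 g + cos t * co a 2 g := by
  have h0 := fun i => (mul_fr g t i).1
  have h1 := fun i => (mul_fr g t i).2.1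
  have h2 := fun i => (mul_fr g t i).2.2
  simp only [co, Fin.sum_univ_three]
  refine ⟨?_, ?_, ?_⟩
  · rw [h0, h0, h0]; try ring
  · rw [h1, h1, h1]; try ring
  · rw [h2, h2, h2]; try ring

lemma kk_fa (h g : G) (t : ℝ) :
    kk h (g * fa t) 0 = cos t * kk h g 0 + sin t * kk h g 1 ∧
    kk h (g * fa t) 1 = -sin t * kk h g 0 + cos t * kk h g 1 ∧
    kk h (g * fa t) 2 = kk h g 2 := co_fa _ g t
lemma kk_fb (h g : G) (t : ℝ) :
    kk h (g * fb t) 0 = cos t * kk h g 0 + sin t * kk h g 2 ∧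
    kk h (g * fb t) 1 = kk h g 1 ∧
    kk h (g * fb t) 2 = -sin t * kk h g 0 + cos t * kk h g 2 := co_fb _ g t
lemma kk_fr (h g : G) (t : ℝ) :
    kk h (g * fr t) 0 = kk h g 0 ∧
    kk h (g * fr t) 1 = cos t * kk h g 1 + sin t * kk h g 2 ∧
    kk h (g * fr t) 2 = -sin t * kk h g 1 + cos t * kk h g 2 := co_fr _ g t

lemma kk_symm (h g : G) : kk h g 0 = kk g h 0 := by
  simp only [kk]; exact Finset.sum_congr rfl fun i _ => mul_comm _ _

lemma co_sq (a : Fin 3 → ℝ) (g : G) :
    co a 0 g ^ 2 + co a 1 g ^ 2 + co a 2 g ^ 2 = a 0 ^ 2 + a 1 ^ 2 + a 2 ^ 2 := by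
  have h00 := g.row_dot 0 0
  have h11 := g.row_dot 1 1
  have h22 := g.row_dot 2 2
  have h01 := g.row_dot 0 1
  have h02 := g.row_dot 0 2
  have h12 := g.row_dot 1 2
  simp only [Fin.sum_univ_three, if_true, Fin.isValue, Fin.reduceEq, if_false] at h00 h11 h22 h01 h02 h12
  simp only [co, Fin.sum_univ_three]
  linear_combination (a 0 ^ 2) * h00 + (a 1 ^ 2) * h11 + (a 2 ^ 2) * h22 +
    (2 * a 0 * a 1) * h01 + (2 * a 0 * a 2) * h02 + (2 * a 1 * a 2) * h12

lemma kk_sq (h g : G) : kk h g 0 ^ 2 + kk h g 1 ^ 2 + kk h g 2 ^ 2 = 1 := by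
  have h1 := co_sq (fun i => h.1 i 0) g
  have h2 := h.col_dot 0 0
  simp only [Fin.sum_univ_three, if_true] at h2
  simp only [kk_eq_co]
  linear_combination h1 + h2

@[fun_prop] lemma co_cont (a : Fin 3 → ℝ) (j : Fin 3) : Continuous (co a j) := by
  unfold co
  exact continuous_finsetSum _ fun i _ => continuous_const.mul (G.cont_entry i j)

lemma kk_cont (j : Fin 3) : Continuous (fun p : G × G => kk p.1 p.2 j) := by
  unfold kk
  exact continuous_finsetSum _ fun i _ =>
    ((G.cont_entry i 0).comp continuous_fst).mul ((G.cont_entry i j).comp continuous_snd)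

@[fun_prop] lemma kk_cont_left (g : G) (j : Fin 3) : Continuous (fun h : G => kk h g j) :=
  (kk_cont j).comp (continuous_id.prodMk continuous_const)
@[fun_prop] lemma kk_cont_right (h : G) (j : Fin 3) : Continuous (fun g : G => kk h g j) :=
  (kk_cont j).comp (continuous_const.prodMk continuous_id)

end Pool.Agent.Lib_MP_f78f32_gt
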