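import Pool.Agent.Lib_MP_f78f32_gt.MAT
import Pool.Agent.Lib_MP_f78f32_gt.BodyNorm
import Pool.Agent.Lib_MP_f78f32_gt.SecMono
import Pool.Agent.Lib_MP_f78f32_gt.SecArc
import Pool.Agent.Lib_MP_f78f32_gt.Smoothing
import Pool.Agent.Lib_MP_f78f32_gt.JetInv

/-!
# Local rigidity
-/

open MeasureTheory Real
open scoped Matrix ComplexConjugate

namespace Pool.Agent.Lib_MP_f78f32_gt

lemma col_surj (x : E3) (hx : ‖x‖ = 1) : ∃ g : G, col g 0 = x := by
  have h1 : x 0 ^ 2 + x 1 ^ 2 + x 2 ^ 2 = 1 := by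
    have := EuclideanSpace.norm_eq x
    rw [hx, Fin.sum_univ_three] at this
    have h2 := congrArg (fun r => r ^ 2) this
    simp only [one_pow] at h2
    rw [Real.sq_sqrt (by positivity)] at h2
    simp only [Real.norm_eq_abs, sq_abs] at h2
    exact h2.symm
  set z : ℂ := ⟨x 1, x 2⟩ with hz
  have hzn : ‖z‖ = √(1 - x 0 ^ 2) := by
    rw [Complex.norm_def, Complex.normSq_apply]
    congr 1
    simp only [hz]
    linarith
  have hc : ‖z‖ * cos z.arg = x 1 := by
    rw [Complex.norm_mul_cos_arg]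
  have hs : ‖z‖ * sin z.arg = x 2 := by
    rw [Complex.norm_mul_sin_arg]
  have h0 : -1 ≤ x 0 ∧ x 0 ≤ 1 := by
    constructor <;> nlinarith [sq_nonneg (x 1), sq_nonneg (x 2)]
  have hcos := Real.cos_arccos h0.1 h0.2
  have hsin := Real.sin_arccos (x 0)
  refine ⟨fr z.arg * fa (arccos (x 0)), ?_⟩
  ext i
  show (fr z.arg * fa (arccos (x 0))).1 i 0 = x i
  rw [(mul_fa (fr z.arg) (arccos (x 0)) i).1, hcos, hsin, ← hzn]
  fin_cases i
  · simp [fr_val]
  · simp only [fr_val]
    simp [hc]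
  · simp only [fr_val]
    simp [hs]

lemma col_surj2 (x : E3) (hx : ‖x‖ = 1) : ∃ g : G, col g 2 = x := by
  obtain ⟨g, hg⟩ := col_surj x hx
  refine ⟨g * fb (-(π / 2)), ?_⟩
  rw [← hg]
  ext i
  show (g * fb (-(π / 2))).1 i 2 = g.1 i 0
  rw [(mul_fb g (-(π / 2)) i).2.2]
  simp

/-- the trivial jet -/
def J0 : Jet := ⟨fun _ => 0, fun _ => 0, fun _ => 0, fun _ => 0, fun _ => 0, fun _ => 0⟩

lemma J0_ok : J0.Ok where
  cf := continuous_const
  cX := continuous_const
  cY := continuous_const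
  cXX := continuous_const
  cXY := continuous_const
  cYY := continuous_const
  inv := fun _ _ => rfl
  invX := fun _ _ => by simp [J0]
  invY := fun _ _ => by simp [J0]
  invXX := fun _ _ => by simp [J0]
  invXY := fun _ _ => by simp [J0]
  invYY := fun _ _ => by simp [J0]
  dX := fun _ => hasDerivAt_const _ _
  dY := fun _ => hasDerivAt_const _ _
  dXX := fun _ => hasDerivAt_const _ _
  dXY := fun _ => hasDerivAt_const _ _
  dYX := fun _ => hasDerivAt_const _ _
  dYY := fun _ => hasDerivAt_const _ _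

lemma ncol (g : G) (j : Fin 3) : ‖col g j‖ = 1 := by
  have h := g.col_dot j j
  simp only [if_true, Fin.sum_univ_three] at h
  rw [EuclideanSpace.norm_eq, Fin.sum_univ_three]
  simp only [Real.norm_eq_abs, sq_abs]
  rw [Real.sqrt_eq_one]
  show g.1 0 j ^ 2 + g.1 1 j ^ 2 + g.1 2 j ^ 2 = 1
  linarith

/-- perimeter of the unit circle -/
lemma sec_norm (e : E3) (he : ‖e‖ = 1) :
    Measure.hausdorffMeasure (1:ℝ) (sec1 (normSeminorm ℝ E3) e) = ENNReal.ofReal (2 * π) := by
  obtain ⟨g, rfl⟩ := col_surj2 e he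
  rw [sec_arc (normSeminorm ℝ E3) 1 one_pos (fun x => by simp) J0 J0_ok (fun g => by
    simp [J0, ncol]) g]
  simp [J0]

/-- scaling a seminorm by a positive factor -/
noncomputable def scl (c : ℝ) (p : Seminorm ℝ E3) : Seminorm ℝ E3 := c.toNNReal • p

lemma scl_apply (c : ℝ) (hc : 0 ≤ c) (p : Seminorm ℝ E3) (x : E3) : scl c p x = c * p x := by
  rw [scl, Seminorm.smul_apply, NNReal.smul_def, Real.coe_toNNReal c hc, smul_eq_mul]

/-- two sided comparison of section perimeters -/
lemma sec_two (p q : Seminorm ℝ E3) (m : ℝ) (hm : 0 < m) (hp : ∀ x, m * ‖x‖ ≤ p x)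
    (hq : ∀ x, m * ‖x‖ ≤ q x) (c : ℝ) (hc : 0 < c) (h : ∀ x, q x = c * p x) (e : E3) :
    Measure.hausdorffMeasure (1:ℝ) (sec1 p e) =
      ENNReal.ofReal c * Measure.hausdorffMeasure (1:ℝ) (sec1 q e) := by
  apply le_antisymm
  · exact sec_close p q m hm hp hq c hc (fun x => (h x).le) e
  · have h1 := sec_close q p m hm hq hp c⁻¹ (inv_pos.mpr hc) (fun x => by
      rw [h x]; field_simp; exact le_rfl) e
    calc ENNReal.ofReal c * Measure.hausdorffMeasure (1:ℝ) (sec1 q e)
        ≤ ENNReal.ofReal c * (ENNReal.ofReal c⁻¹ * Measure.hausdorffMeasure (1:ℝ) (sec1 p e)) := by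
          gcongr
      _ = (ENNReal.ofReal c * ENNReal.ofReal c⁻¹) *
          Measure.hausdorffMeasure (1:ℝ) (sec1 p e) := by rw [mul_assoc]
      _ = Measure.hausdorffMeasure (1:ℝ) (sec1 p e) := by
          rw [← ENNReal.ofReal_mul hc.le, mul_inv_cancel₀ hc.ne']
          simp

lemma seminorm_cont (p : Seminorm ℝ E3) (M : ℝ) (h : ∀ x, p x ≤ M * ‖x‖) : Continuous p := by
  have hM : 0 ≤ |M| := abs_nonneg _
  refine Seminorm.continuous_of_le (q := scl |M| (normSeminorm ℝ E3)) ?_ ?_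
  · have : (fun x => (scl |M| (normSeminorm ℝ E3)) x) = fun x : E3 => |M| * ‖x‖ := by
      ext x; rw [scl_apply _ hM]; rfl
    show Continuous (fun x => (scl |M| (normSeminorm ℝ E3)) x)
    rw [this]
    fun_prop
  · intro x
    rw [scl_apply _ hM]
    refine (h x).trans ?_
    show M * ‖x‖ ≤ |M| * ‖x‖
    exact mul_le_mul_of_nonneg_right (le_abs_self M) (norm_nonneg x)

lemma col_cont (j : Fin 3) : Continuous fun g : G => col g j := by
  unfold col
  apply (PiLp.continuous_toLp 2 _).comp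
  exact continuous_pi fun i => G.cont_entry i j

/-- rigidity for seminorms close to the Euclidean norm -/
theorem seminorm_rigid : ∃ ε₀ > 0, ε₀ ≤ 1 / 100 ∧ ∀ p : Seminorm ℝ E3,
    (∀ x, ‖x‖ ≤ (1 + ε₀) * p x) → (∀ x, p x ≤ (1 + ε₀) * ‖x‖) →
    (∀ e : E3, ‖e‖ = 1 →
      Measure.hausdorffMeasure (1:ℝ) (sec1 p e) = ENNReal.ofReal (2 * π)) →
    ∀ x, p x = ‖x‖ := by
  obtain ⟨κ₀, hκ₀, hκ₀1, hM⟩ := MAT
  refine ⟨κ₀ ^ 2, by positivity, by nlinarith, ?_⟩
  intro p hp1 hp2 hper
  have hpi := Real.pi_pos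
  have hε : κ₀ ^ 2 ≤ 1 / 10000 := by nlinarith
  have pc := seminorm_cont p _ hp2
  have hpos : ∀ g : G, 1 ≤ (1 + κ₀ ^ 2) * p (col g 0) := fun g => by
    have := hp1 (col g 0); rwa [ncol] at this
  have hpos' : ∀ g : G, 0 < p (col g 0) := fun g => by
    have := hpos g
    by_contra hc
    push Not at hc
    have h2 : (1 + κ₀ ^ 2) * p (col g 0) ≤ 0 := mul_nonpos_of_nonneg_of_nonpos (by positivity) hc
    linarith
  have hup : ∀ g : G, p (col g 0) ≤ 1 + κ₀ ^ 2 := fun g => by
    have := hp2 (col g 0); rwa [ncol, mul_one] at this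
  have hcontF : Continuous fun g : G => |1 / p (col g 0) - 1| := by
    apply Continuous.abs
    apply Continuous.sub _ continuous_const
    apply Continuous.div continuous_const (pc.comp (col_cont 0))
    intro g
    exact (hpos' g).ne'
  obtain ⟨g₀, -, hmax⟩ := IsCompact.exists_isMaxOn (isCompact_univ (X := G)) ⟨1, trivial⟩
    hcontF.continuousOn
  set S := |1 / p (col g₀ 0) - 1| with hS
  have hmax' : ∀ g : G, |1 / p (col g 0) - 1| ≤ S := fun g => hmax (Set.mem_univ g)
  have hS0 : 0 ≤ S := abs_nonneg _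
  have hSle : S ≤ κ₀ ^ 2 := by
    rw [hS, abs_le]
    have h1 := hpos g₀
    have h2 := hpos' g₀
    have h3 := hup g₀
    constructor
    · have : 1 - κ₀ ^ 2 ≤ 1 / p (col g₀ 0) := by
        rw [le_div_iff₀ h2]
        nlinarith
      linarith
    · have : 1 / p (col g₀ 0) ≤ 1 + κ₀ ^ 2 := by
        rw [div_le_iff₀ h2]
        exact h1
      linarith
  rcases hS0.eq_or_lt with hS00 | hSpos
  · -- the norm is Euclidean
    intro x
    by_cases hx : x = 0
    · simp [hx]
    · have hn : 0 < ‖x‖ := norm_pos_iff.mpr hx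
      obtain ⟨g, hg⟩ := col_surj (‖x‖⁻¹ • x) (by
        rw [norm_smul, norm_inv, norm_norm, inv_mul_cancel₀ hn.ne'])
      have h1 := hmax' g
      rw [← hS00] at h1
      have h2 : 1 / p (col g 0) - 1 = 0 := abs_nonpos_iff.mp h1
      have h3 : p (col g 0) = 1 := by
        have h4 := hpos' g
        field_simp at h2
        linarith
      rw [hg, map_smul_eq_mul, norm_inv, norm_norm] at h3
      field_simp at h3
      exact h3
  · exfalso
    set κ := √S with hκ
    have hκ0 : 0 < κ := Real.sqrt_pos.mpr hSpos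
    have hκS : κ ^ 2 = S := Real.sq_sqrt hS0
    have hκκ : κ ≤ κ₀ := by
      rw [hκ, Real.sqrt_le_left hκ₀.le]
      exact hSle
    have hκ100 : κ ≤ 1 / 100 := hκκ.trans hκ₀1
    have hκ2 : κ ^ 2 ≤ 1 / 10000 := by nlinarith
    obtain ⟨δ, hδ, hMAT⟩ := hM κ hκ0 hκκ
    set d := min (δ / 2) (κ ^ 2 / 100) with hd
    have hd0 : 0 < d := lt_min (by positivity) (by positivity)
    have hd1 : d ≤ δ / 2 := min_le_left _ _
    have hd2 : d ≤ κ ^ 2 / 100 := min_le_right _ _
    have hp1' : ∀ x, 9 / 10 * ‖x‖ ≤ p x := fun x => by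
      have h1 := hp1 x
      have h2 := norm_nonneg x
      have h3 : 0 ≤ p x := apply_nonneg p x
      nlinarith
    obtain ⟨q, J, hJ, hJq, hclose⟩ := smoothing p (9 / 10) (1 + κ₀ ^ 2) (by norm_num) hp1' hp2 d hd0
    have hsph : ∀ g : G, |p (col g 0) - 1| ≤ 1.01 * κ ^ 2 := fun g => by
      have h1 := hmax' g
      rw [← hκS] at h1
      have h2 := hpos' g
      have h3 := abs_le.mp h1
      have e : p (col g 0) * (1 / p (col g 0) - 1) = 1 - p (col g 0) := by
        field_simp
      have h4 : p (col g 0) ≤ 1.01 := by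
        have := hup g
        linarith
      rw [abs_le]
      constructor
      · nlinarith [h3.1, h3.2]
      · nlinarith [h3.1, h3.2]
    have hq1 : ∀ g : G, |q (col g 0) - p (col g 0)| ≤ d := fun g => by
      have := hclose (col g 0); rwa [ncol, mul_one] at this
    have hs : ∀ g, |J.f g - 1| ≤ 1.1 * κ ^ 2 := fun g => by
      rw [hJq g]
      have h1 := abs_le.mp (hsph g)
      have h2 := abs_le.mp (hq1 g)
      rw [abs_le]
      constructor <;> nlinarith [h1.1, h1.2, h2.1, h2.2]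
    obtain ⟨J', hJ', hJq', hev, hf, hX, hXX⟩ := jet_inv q J hJ hJq (1.1 * κ ^ 2) (by positivity)
      (by nlinarith) hs
    have hqpos : ∀ g : G, 0.99 ≤ q (col g 0) := fun g => by
      have h1 := abs_le.mp (hs g)
      rw [hJq g] at h1
      nlinarith [h1.1]
    have hqlow : ∀ x, 8 / 10 * ‖x‖ ≤ q x := fun x => by
      have h1 := (abs_le.mp (hclose x)).1
      have h2 := hp1' x
      have h3 := norm_nonneg x
      nlinarith
    refine hMAT J' hJ' hev ?_ ⟨g₀, ?_⟩ ?_ ?_ ?_
    · intro g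
      refine (hf g).trans ?_
      nlinarith [sq_nonneg κ]
    · have h1 : J'.f g₀ = 1 / q (col g₀ 0) - 1 := by have := hJq' g₀; linarith
      rw [h1]
      have h2 : |1 / q (col g₀ 0) - 1 / p (col g₀ 0)| ≤ 2 * d := by
        have a1 := hqpos g₀
        have a2 : 0.98 ≤ p (col g₀ 0) := by
          have h1 := abs_le.mp (hsph g₀)
          nlinarith [h1.1]
        have e : 1 / q (col g₀ 0) - 1 / p (col g₀ 0) =
            (p (col g₀ 0) - q (col g₀ 0)) / (q (col g₀ 0) * p (col g₀ 0)) := by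
          field_simp
        have a3 : 0.9 ≤ q (col g₀ 0) * p (col g₀ 0) := by nlinarith
        rw [e, abs_div, abs_of_pos (by linarith : 0 < q (col g₀ 0) * p (col g₀ 0)),
          div_le_iff₀ (by linarith)]
        have a4 := hq1 g₀
        rw [abs_sub_comm] at a4
        nlinarith
      have h3 : S ≤ |1 / q (col g₀ 0) - 1| + |1 / q (col g₀ 0) - 1 / p (col g₀ 0)| := by
        rw [hS]
        have : 1 / p (col g₀ 0) - 1 = (1 / q (col g₀ 0) - 1) -
            (1 / q (col g₀ 0) - 1 / p (col g₀ 0)) := by ring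
        rw [this]
        exact abs_sub _ _
      rw [← hκS] at h3
      linarith
    · intro g
      refine (hX g).trans ?_
      have : √(1.1 * κ ^ 2) ≤ 4 / 3 * κ := by
        rw [Real.sqrt_le_left (by positivity)]
        nlinarith [sq_nonneg κ]
      linarith
    · intro g
      refine (hXX g).trans ?_
      nlinarith
    · intro g
      have harc := sec_arc q (8 / 10) (by norm_num) hqlow J' hJ' hJq' g
      set I := ∫ t in (0:ℝ)..(2 * π), √((1 + J'.f (g * fa t)) ^ 2 + J'.X (g * fa t) ^ 2) with hI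
      have hI0 : 0 ≤ I := by
        rw [hI]
        exact intervalIntegral.integral_nonneg (by positivity) (fun t _ => Real.sqrt_nonneg _)
      have hpp := hper (col g 2) (ncol g 2)
      have c1 := sec_close p q (8 / 10) (by norm_num)
        (fun x => by have := hp1' x; have := norm_nonneg x; nlinarith) hqlow (1 + 2 * d)
        (by positivity) (fun x => by
          have h1 := (abs_le.mp (hclose x)).2
          have h2 := hp1' x
          have h3 := norm_nonneg x
          have h4 : d * ‖x‖ ≤ 2 * d * p x := by nlinarith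
          linarith) (col g 2)
      have c2 := sec_close q p (8 / 10) (by norm_num) hqlow
        (fun x => by have := hp1' x; have := norm_nonneg x; nlinarith) (1 + 2 * d)
        (by positivity) (fun x => by
          have h1 := (abs_le.mp (hclose x)).1
          have h2 := hqlow x
          have h3 := norm_nonneg x
          have h4 : d * ‖x‖ ≤ 2 * d * q x := by nlinarith
          linarith) (col g 2)
      rw [hpp, harc, ← ENNReal.ofReal_mul (by positivity),
        ENNReal.ofReal_le_ofReal_iff (by positivity)] at c1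
      rw [hpp, harc, ← ENNReal.ofReal_mul (by positivity),
        ENNReal.ofReal_le_ofReal_iff (by positivity)] at c2
      have e1 : (1 / (2 * π)) * I - 1 = (I - 2 * π) / (2 * π) := by field_simp
      rw [e1, abs_div, abs_of_pos (by positivity : (0:ℝ) < 2 * π), div_le_iff₀ (by positivity),
        abs_le]
      constructor
      · nlinarith
      · nlinarith

/-- **Local rigidity.** -/
theorem local_rigidity : ∃ ε : ℝ, 0 < ε ∧ ∀ K : Set E3, IsCompact K → Convex ℝ K →
    (∀ x ∈ K, -x ∈ K) →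
    (∃ r : ℝ, 0 < r ∧ Metric.closedBall 0 r ⊆ K ∧ K ⊆ Metric.closedBall 0 ((1 + ε) * r)) →
    (∃ p : ENNReal, ∀ e : E3, ‖e‖ = 1 → Measure.hausdorffMeasure (1:ℝ) (relBd K e) = p) →
    ∃ r : ℝ, 0 < r ∧ K = Metric.closedBall 0 r := by
  obtain ⟨ε, hε, hε1, hrig⟩ := seminorm_rigid
  refine ⟨ε, hε, ?_⟩
  rintro K hK hconv hsym ⟨r, hr, hin, hout⟩ ⟨P, hP⟩
  have hpi := Real.pi_pos
  obtain ⟨p, hKp, hp1, hp2, hrel⟩ := body_norm K hK hconv hsym r ((1 + ε) * r) hr hin hout
  -- perimeters of the sections of `p`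
  have hPp : ∀ e : E3, ‖e‖ = 1 → Measure.hausdorffMeasure (1:ℝ) (sec1 p e) = P := by
    intro e he
    rw [← hrel e he]
    exact hP e he
  -- lower bound of `p`
  set m : ℝ := min 1 (((1 + ε) * r)⁻¹) with hm
  have hm0 : 0 < m := lt_min one_pos (by positivity)
  have hpm : ∀ x, m * ‖x‖ ≤ p x := fun x => by
    have h1 := hp1 x
    have h2 := norm_nonneg x
    calc m * ‖x‖ ≤ ((1 + ε) * r)⁻¹ * ‖x‖ := by gcongr; exact min_le_right _ _
      _ ≤ ((1 + ε) * r)⁻¹ * ((1 + ε) * r * p x) := by gcongr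
      _ = p x := by field_simp
  have hnm : ∀ x, m * ‖x‖ ≤ (normSeminorm ℝ E3) x := fun x => by
    have h2 := norm_nonneg x
    calc m * ‖x‖ ≤ 1 * ‖x‖ := by gcongr; exact min_le_left _ _
      _ = ‖x‖ := one_mul _
  -- a unit vector
  obtain ⟨e₀, he₀⟩ : ∃ e : E3, ‖e‖ = 1 := ⟨col 1 0, ncol 1 0⟩
  have b1 := sec_close p (normSeminorm ℝ E3) m hm0 hpm hnm ((1 + ε) * r) (by positivity)
    (fun x => hp1 x) e₀
  have b2 := sec_close (normSeminorm ℝ E3) p m hm0 hnm hpm r⁻¹ (by positivity)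
    (fun x => by
      have := hp2 x
      show p x ≤ r⁻¹ * ‖x‖
      rw [le_inv_mul_iff₀ hr]
      exact this) e₀
  rw [hPp e₀ he₀, sec_norm e₀ he₀, ← ENNReal.ofReal_mul (by positivity)] at b1
  rw [hPp e₀ he₀, sec_norm e₀ he₀] at b2
  have hPtop : P ≠ ⊤ := ne_top_of_le_ne_top ENNReal.ofReal_ne_top b1
  set c : ℝ := P.toReal / (2 * π) with hc
  have hPc : P = ENNReal.ofReal (c * (2 * π)) := by
    rw [hc, div_mul_cancel₀ _ (by positivity), ENNReal.ofReal_toReal hPtop]
  have hc0' : 0 ≤ c := by rw [hc]; positivity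
  rw [hPc, ENNReal.ofReal_le_ofReal_iff (by positivity)] at b1
  rw [hPc, ← ENNReal.ofReal_mul (by positivity), ENNReal.ofReal_le_ofReal_iff (by positivity)] at b2
  have hcu : c ≤ (1 + ε) * r := by
    by_contra h
    push Not at h
    nlinarith
  have hcl : r ≤ c := by
    have h1 : 2 * π ≤ r⁻¹ * c * (2 * π) := by linarith
    have h2 : 1 ≤ r⁻¹ * c := by
      by_contra h
      push Not at h
      nlinarith
    rw [le_inv_mul_iff₀ hr] at h2
    linarith
  have hc0 : 0 < c := hr.trans_le hcl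
  -- the normalised seminorm
  set q := scl c p with hq
  have hqa : ∀ x, q x = c * p x := fun x => scl_apply c hc0' p x
  have hq1 : ∀ x, ‖x‖ ≤ (1 + ε) * q x := fun x => by
    rw [hqa]
    have h1 := hp1 x
    have h2 : 0 ≤ p x := apply_nonneg p x
    calc ‖x‖ ≤ (1 + ε) * r * p x := h1
      _ ≤ (1 + ε) * c * p x := by gcongr
      _ = (1 + ε) * (c * p x) := by ring
  have hq2 : ∀ x, q x ≤ (1 + ε) * ‖x‖ := fun x => by
    rw [hqa]
    have h1 := hp2 x
    have h2 : 0 ≤ p x := apply_nonneg p x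
    calc c * p x ≤ (1 + ε) * r * p x := by gcongr
      _ = (1 + ε) * (r * p x) := by ring
      _ ≤ (1 + ε) * ‖x‖ := by gcongr
  set m' : ℝ := min m (c * m) with hm'
  have hm'0 : 0 < m' := lt_min hm0 (by positivity)
  have hqper : ∀ e : E3, ‖e‖ = 1 →
      Measure.hausdorffMeasure (1:ℝ) (sec1 q e) = ENNReal.ofReal (2 * π) := by
    intro e he
    have h1 := sec_two p q m' hm'0
      (fun x => (mul_le_mul_of_nonneg_right (min_le_left _ _) (norm_nonneg x)).trans (hpm x))
      (fun x => by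
        rw [hqa]
        calc m' * ‖x‖ ≤ (c * m) * ‖x‖ :=
              mul_le_mul_of_nonneg_right (min_le_right _ _) (norm_nonneg x)
          _ = c * (m * ‖x‖) := by ring
          _ ≤ c * p x := by have := hpm x; gcongr)
      c hc0 hqa e
    rw [hPp e he, hPc, ENNReal.ofReal_mul hc0'] at h1
    have h2 : ENNReal.ofReal c ≠ 0 := by
      rw [Ne, ENNReal.ofReal_eq_zero]; push Not; exact hc0
    exact ((ENNReal.mul_right_inj h2 ENNReal.ofReal_ne_top).mp h1).symm
  have hfin := hrig q hq1 hq2 hqper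
  refine ⟨c, hc0, ?_⟩
  ext x
  rw [hKp x, mem_closedBall_zero_iff]
  have h1 := hfin x
  rw [hqa] at h1
  rw [← h1]
  constructor
  · intro h
    nlinarith
  · intro h
    by_contra h2
    push Not at h2
    nlinarith

end Pool.Agent.Lib_MP_f78f32_gt
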