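import Pool.Agent.Lib_MP_f78f32_gt.Defs

/-!
# Polynomial model for the mode decomposition

For frames `g = (x, τ, e)` and a unit vector `y` (first column of `h`) put
`a = x·y`, `b = τ·y`, `c = e·y`, `ζ = b + i c`. Polynomials in `a, ζ, ζ̄` (variables `0, 1, 2`).
`dp`, `dm` are the raising and lowering operators `(X - iY)/2`, `(X + iY)/2`.
-/

open MeasureTheory Real MvPolynomial
open scoped Matrix ComplexConjugate

namespace Pool.Agent.Lib_MP_f78f32_gt

/-- polynomials in `a, ζ, ζ̄` -/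
abbrev DD : Type := MvPolynomial (Fin 3) ℂ

/-- raising operator -/
noncomputable def dp : Derivation ℂ DD DD :=
  MvPolynomial.mkDerivation ℂ ![C (1 / 2) * X 2, -X 0, 0]
/-- lowering operator -/
noncomputable def dm : Derivation ℂ DD DD :=
  MvPolynomial.mkDerivation ℂ ![C (1 / 2) * X 1, 0, -X 0]

/-- weights of `a, ζ, ζ̄` -/
def wt : Fin 3 → ℤ := ![0, -1, 1]

/-- polynomials of mode `m` -/
noncomputable def gr (m : ℤ) : Submodule ℂ DD := weightedHomogeneousSubmodule ℂ wt m

/-- evaluation at a pair of frames -/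
noncomputable def ev (h g : G) : DD →ₐ[ℂ] ℂ :=
  aeval ![(kk h g 0 : ℂ), (kk h g 1 : ℂ) + Complex.I * (kk h g 2 : ℂ),
    (kk h g 1 : ℂ) - Complex.I * (kk h g 2 : ℂ)]

/-- integral transform against `F` -/
noncomputable def TT (F : G → ℝ) (P : DD) (g : G) : ℂ := ∫ h, ev h g P * (F h : ℂ) ∂μ

/-- the scalar product -/
noncomputable def ip (F : G → ℝ) (P Q : DD) : ℂ := ∫ g, TT F P g * conj (TT F Q g) ∂μ

/-- the kernel on the dual side: its circle averages are `kn n` -/
noncomputable def kap (n : ℕ) : Polynomial ℝ :=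
  ∑ m ∈ Finset.range (n + 1),
    Polynomial.C ((2 * (n : ℝ) + 1) * (-1) ^ m * (n.choose m : ℝ) / al m) * Polynomial.X ^ (2 * m)

/-- the polynomial `c = (ζ - ζ̄)/(2i)` -/
noncomputable def cpol : DD := C (1 / (2 * Complex.I)) * (X 1 - X 2)

/-- `kap n` evaluated at `c` -/
noncomputable def Wp (n : ℕ) : DD :=
  Polynomial.aeval cpol ((kap n).map (algebraMap ℝ ℂ))

/-- component of mode `m` -/
noncomputable def Wm (n : ℕ) (m : ℤ) : DD := weightedHomogeneousComponent wt m (Wp n)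

/-- component of mode `m` of `(X² + Y² + V² + 2) W` -/
noncomputable def Um (n : ℕ) (m : ℤ) : DD :=
  (2 : ℂ) • (dp (dm (Wm n m)) + dm (dp (Wm n m))) + (2 - (m : ℂ) ^ 2) • Wm n m

/-- the quantity controlling all modes -/
noncomputable def Dn (n : ℕ) (F : G → ℝ) : ℝ :=
  2 * √((SmJ (kn n) F).E) * √((SmJ (lap2 (kn n)) F).E) + 4 * n2 (Sm (kn n) F)

end Pool.Agent.Lib_MP_f78f32_gt
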