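import Pool.Agent.Lib_MP_f78f32_gt.GKDefs

/-!
Piece GKabs: the abstract mode estimate of Guillemin and Kazhdan.
-/

open MeasureTheory Real
open scoped Matrix ComplexConjugate

namespace Pool.Agent.Lib_MP_f78f32_gt

section GKabs

variable {D : Type*} [AddCommGroup D] [Module ℂ D] (ip : D → D → ℂ)
    (h_add : ∀ P Q R, ip (P + Q) R = ip P R + ip Q R)
    (h_smul : ∀ (c : ℂ) (P Q : D), ip (c • P) Q = c * ip P Q)
    (h_conj : ∀ P Q, ip Q P = conj (ip P Q))
    (h_pos : ∀ P, 0 ≤ (ip P P).re)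

omit [Module ℂ D] in
include h_add h_conj in
theorem ipa_add_right (P Q R : D) : ip P (Q + R) = ip P Q + ip P R := by
  rw [h_conj (Q + R) P, h_add, map_add, ← h_conj, ← h_conj]

include h_smul h_conj in
theorem ipa_smul_right (c : ℂ) (P Q : D) : ip P (c • Q) = conj c * ip P Q := by
  rw [h_conj (c • Q) P, h_smul, map_mul, ← h_conj]

include h_smul in
theorem ipa_neg_left (P Q : D) : ip (-P) Q = - ip P Q := by
  have := h_smul (-1) P Q
  simpa using this

include h_smul h_conj in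
theorem ipa_neg_right (P Q : D) : ip P (-Q) = - ip P Q := by
  have := ipa_smul_right ip h_smul h_conj (-1) P Q
  simpa using this

include h_add h_smul h_conj h_pos in
theorem ipa_cs_sq (P Q : D) : (ip P Q).re ^ 2 ≤ (ip P P).re * (ip Q Q).re := by
  have key : ∀ t : ℝ, 0 ≤ (ip Q Q).re * (t * t) + (2 * (ip P Q).re) * t + (ip P P).re := by
    intro t
    have h1 := h_pos (P + (t : ℂ) • Q)
    rw [h_add, ipa_add_right ip h_add h_conj, ipa_add_right ip h_add h_conj, h_smul, h_smul,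
      ipa_smul_right ip h_smul h_conj, ipa_smul_right ip h_smul h_conj, h_conj P Q] at h1
    simp only [Complex.conj_ofReal, Complex.add_re, Complex.mul_re, Complex.ofReal_re,
      Complex.ofReal_im, Complex.conj_re, Complex.conj_im, Complex.mul_im, zero_mul, sub_zero] at h1
    have : (ip Q Q).im = 0 := by
      have h2 := congrArg Complex.im (h_conj Q Q)
      rw [Complex.conj_im] at h2
      linarith
    nlinarith [h1]
  have := discrim_le_zero key
  unfold discrim at this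
  nlinarith [this]

include h_add h_smul h_conj h_pos in
theorem ipa_cs (P Q : D) : |(ip P Q).re| ≤ √(ip P P).re * √(ip Q Q).re := by
  rw [← Real.sqrt_mul (h_pos P), ← Real.sqrt_sq_eq_abs]
  exact Real.sqrt_le_sqrt (ipa_cs_sq ip h_add h_smul h_conj h_pos P Q)

variable (dp dm : D →ₗ[ℂ] D)
    (h_adj : ∀ P Q, ip (dp P) Q = - ip P (dm Q))

include h_conj h_adj in
theorem ipa_adj' (P Q : D) : ip (dm P) Q = - ip P (dp Q) := by
  rw [h_conj Q (dm P), h_conj (dp Q) P, h_adj, map_neg, neg_neg]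

variable (gr : ℤ → Submodule ℂ D)
    (hcomm : ∀ (m : ℤ) (P : D), P ∈ gr m → dp (dm P) - dm (dp P) = (-(m : ℂ) / 2) • P)

include h_add h_smul h_conj h_adj hcomm in
theorem ipa_diff (m : ℤ) (P : D) (hP : P ∈ gr m) :
    (ip (dp P) (dp P)).re = (ip (dm P) (dm P)).re - (m / 2 : ℝ) * (ip P P).re := by
  have h1 : ip (dp P) (dp P) = - ip P (dm (dp P)) := h_adj P (dp P)
  have h2 : ip (dm P) (dm P) = - ip P (dp (dm P)) := ipa_adj' ip h_conj dp dm h_adj P (dm P)
  have h3 : dp (dm P) = dm (dp P) + (-(m : ℂ) / 2) • P := by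
    rw [← hcomm m P hP]; abel
  rw [h3, ipa_add_right ip h_add h_conj, ipa_smul_right ip h_smul h_conj] at h2
  have h4 : conj (-(m : ℂ) / 2) = ((-(m : ℝ) / 2 : ℝ) : ℂ) := by
    have : (-(m : ℂ) / 2) = ((-(m : ℝ) / 2 : ℝ) : ℂ) := by push_cast; ring
    rw [this, Complex.conj_ofReal]
  rw [h4] at h2
  rw [h1, h2]
  simp only [Complex.neg_re, Complex.add_re, Complex.mul_re, Complex.ofReal_re, Complex.ofReal_im,
    zero_mul, sub_zero]
  ring

variable (W : ℤ → D) (hW : ∀ m, W m ∈ gr m) (hrel : ∀ m, dp (W m) + dm (W (m + 2)) = 0)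

include h_smul h_conj hrel in
theorem ipa_step (m : ℤ) :
    (ip (dm (W (m + 2))) (dm (W (m + 2)))).re = (ip (dp (W m)) (dp (W m))).re := by
  have h : dm (W (m + 2)) = - dp (W m) := by
    rw [eq_neg_iff_add_eq_zero, add_comm]; exact hrel m
  rw [h, ipa_neg_left ip h_smul, ipa_neg_right ip h_smul h_conj, neg_neg]

include h_add h_smul h_conj h_pos h_adj hcomm hW hrel in
/-- decay of the energies of the positive even modes -/
theorem ipa_mode (j : ℕ) (hj : 1 ≤ j) :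
    (ip (dm (W (2 * j))) (dm (W (2 * j)))).re ≤ (ip (dp (W 0)) (dp (W 0))).re ∧
    (ip (dp (W (2 * j))) (dp (W (2 * j)))).re ≤ (ip (dp (W 0)) (dp (W 0))).re ∧
    (j : ℝ) * (ip (W (2 * j)) (W (2 * j))).re ≤ (ip (dp (W 0)) (dp (W 0))).re := by
  have hd : ∀ j : ℕ, (ip (dp (W (2 * j))) (dp (W (2 * j)))).re =
      (ip (dm (W (2 * j))) (dm (W (2 * j)))).re - (j : ℝ) * (ip (W (2 * j)) (W (2 * j))).re := by
    intro j
    rw [ipa_diff ip h_add h_smul h_conj dp dm h_adj gr hcomm (2 * j) _ (hW _)]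
    push_cast
    ring
  have h1 : ∀ j : ℕ, 1 ≤ j →
      (ip (dm (W (2 * j))) (dm (W (2 * j)))).re ≤ (ip (dp (W 0)) (dp (W 0))).re := by
    intro j hj
    induction j, hj using Nat.le_induction with
    | base =>
      have := ipa_step ip h_smul h_conj dp dm W hrel 0
      rw [zero_add] at this
      rw [show (2 * ((1 : ℕ) : ℤ)) = 2 by norm_num, this]
    | succ n hn ih =>
      have h2 := ipa_step ip h_smul h_conj dp dm W hrel (2 * n)
      rw [show (2 * ((n + 1 : ℕ) : ℤ)) = 2 * n + 2 by push_cast; ring, h2, hd]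
      have h3 := h_pos (W (2 * n))
      have h4 : 0 ≤ (n : ℝ) * (ip (W (2 * n)) (W (2 * n))).re := by positivity
      linarith
  refine ⟨h1 j hj, ?_, ?_⟩
  · rw [hd]
    have h4 : 0 ≤ (j : ℝ) * (ip (W (2 * j)) (W (2 * j))).re :=
      mul_nonneg (Nat.cast_nonneg _) (h_pos _)
    have := h1 j hj
    linarith
  · have h2 := hd j
    have h3 := h_pos (dp (W (2 * j)))
    have := h1 j hj
    linarith

end GKabs

theorem gk_abs {D : Type*} [AddCommGroup D] [Module ℂ D] (ip : D → D → ℂ)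
    (h_add : ∀ P Q R, ip (P + Q) R = ip P R + ip Q R)
    (h_smul : ∀ (c : ℂ) (P Q : D), ip (c • P) Q = c * ip P Q)
    (h_conj : ∀ P Q, ip Q P = conj (ip P Q))
    (h_pos : ∀ P, 0 ≤ (ip P P).re)
    (dp dm : D →ₗ[ℂ] D)
    (h_adj : ∀ P Q, ip (dp P) Q = - ip P (dm Q))
    (gr : ℤ → Submodule ℂ D)
    (hdp : ∀ (m : ℤ) (P : D), P ∈ gr m → dp P ∈ gr (m + 1))
    (hdm : ∀ (m : ℤ) (P : D), P ∈ gr m → dm P ∈ gr (m - 1))
    (hcomm : ∀ (m : ℤ) (P : D), P ∈ gr m → dp (dm P) - dm (dp P) = (-(m : ℂ) / 2) • P)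
    (W U : ℤ → D) (hW : ∀ m, W m ∈ gr m)
    (hrel : ∀ m, dp (W m) + dm (W (m + 2)) = 0)
    (hU : ∀ m, U m = (2 : ℂ) • (dp (dm (W m)) + dm (dp (W m))) + (2 - (m : ℂ) ^ 2) • W m)
    (j : ℕ) (hj : 1 ≤ j) :
    (ip (U (2 * j)) (U (2 * j))).re ≤
      (4 + 4 * j) * √(ip (dp (W 0)) (dp (W 0))).re * √(ip (dp (U 0)) (dp (U 0))).re := by
  have hUgr : ∀ m, U m ∈ gr m := by
    intro m
    rw [hU]
    refine Submodule.add_mem _ (Submodule.smul_mem _ _ (Submodule.add_mem _ ?_ ?_))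
      (Submodule.smul_mem _ _ (hW m))
    · have := hdp _ _ (hdm _ _ (hW m))
      rwa [show m - 1 + 1 = m by ring] at this
    · have := hdm _ _ (hdp _ _ (hW m))
      rwa [show m + 1 - 1 = m by ring] at this
  have hUrel : ∀ m, dp (U m) + dm (U (m + 2)) = 0 := by
    intro m
    set x := dp (W m) with hx
    have hxgr : x ∈ gr (m + 1) := hdp _ _ (hW m)
    have hy : dm (W (m + 2)) = - x := by
      rw [eq_neg_iff_add_eq_zero, add_comm]; exact hrel m
    have c1 : dp (dm (W m)) = dm x + (-(m : ℂ) / 2) • W m := by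
      rw [← hcomm m _ (hW m), hx]; abel
    have c2 : dm (dp (W (m + 2))) = - dp x + (((m : ℂ) + 2) / 2) • W (m + 2) := by
      have h1 := hcomm (m + 2) _ (hW (m + 2))
      rw [hy] at h1
      have h2 : dm (dp (W (m + 2))) = dp (-x) - (-(((m + 2 : ℤ) : ℂ)) / 2) • W (m + 2) := by
        rw [← h1]; abel
      rw [h2, map_neg, sub_eq_add_neg, ← neg_smul]
      congr 2
      push_cast
      ring
    have c3 : dp (dm x) = dm (dp x) + (-((m : ℂ) + 1) / 2) • x := by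
      have h1 := hcomm (m + 1) _ hxgr
      have h2 : dp (dm x) = dm (dp x) + (-(((m + 1 : ℤ) : ℂ)) / 2) • x := by
        rw [← h1]; abel
      rw [h2]
      congr 2
      push_cast
      ring
    rw [hU m, hU (m + 2), hy, c1, c2]
    simp only [map_add, map_smul, map_neg, ← hx, hy, c3]
    push_cast
    module
  obtain ⟨w1, w2, w3⟩ := ipa_mode ip h_add h_smul h_conj h_pos dp dm h_adj gr hcomm W hW hrel j hj
  obtain ⟨u1, u2, u3⟩ := ipa_mode ip h_add h_smul h_conj h_pos dp dm h_adj gr hcomm U hUgr hUrel j hj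
  have e0 : ip (U (2 * j)) (U (2 * j)) =
      -2 * ip (dm (W (2 * j))) (dm (U (2 * j))) - 2 * ip (dp (W (2 * j))) (dp (U (2 * j)))
        + (2 - (((2 * j : ℤ) : ℂ)) ^ 2) * ip (W (2 * j)) (U (2 * j)) := by
    have e00 : ∀ Q : D, ip (U (2 * j)) Q =
        -2 * ip (dm (W (2 * j))) (dm Q) - 2 * ip (dp (W (2 * j))) (dp Q)
          + (2 - (((2 * j : ℤ) : ℂ)) ^ 2) * ip (W (2 * j)) Q := by
      intro Q
      rw [hU (2 * j), h_add, h_smul, h_add, h_smul, h_adj (dm (W (2 * j))) Q,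
        ipa_adj' ip h_conj dp dm h_adj (dp (W (2 * j))) Q]
      ring
    exact e00 _
  have e1 : (ip (U (2 * j)) (U (2 * j))).re =
      -2 * (ip (dm (W (2 * j))) (dm (U (2 * j)))).re - 2 * (ip (dp (W (2 * j))) (dp (U (2 * j)))).re
        + (2 - (2 * (j : ℝ)) ^ 2) * (ip (W (2 * j)) (U (2 * j))).re := by
    rw [e0]
    have : (2 - (((2 * j : ℤ) : ℂ)) ^ 2) = (((2 - (2 * (j : ℝ)) ^ 2) : ℝ) : ℂ) := by
      push_cast; ring
    rw [this]
    simp only [Complex.add_re, Complex.sub_re, Complex.mul_re, Complex.ofReal_re, Complex.ofReal_im,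
      zero_mul, sub_zero, Complex.neg_re, Complex.neg_im, Complex.re_ofNat, Complex.im_ofNat,
      neg_zero]
  have q1 := ipa_cs ip h_add h_smul h_conj h_pos (dm (W (2 * j))) (dm (U (2 * j)))
  have q2 := ipa_cs ip h_add h_smul h_conj h_pos (dp (W (2 * j))) (dp (U (2 * j)))
  have q3 := ipa_cs ip h_add h_smul h_conj h_pos (W (2 * j)) (U (2 * j))
  set a := √(ip (dp (W 0)) (dp (W 0))).re with ha
  set b := √(ip (dp (U 0)) (dp (U 0))).re with hb
  have ha0 : 0 ≤ a := Real.sqrt_nonneg _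
  have hb0 : 0 ≤ b := Real.sqrt_nonneg _
  have s1 : √(ip (dm (W (2 * j))) (dm (W (2 * j)))).re ≤ a := Real.sqrt_le_sqrt w1
  have s2 : √(ip (dp (W (2 * j))) (dp (W (2 * j)))).re ≤ a := Real.sqrt_le_sqrt w2
  have t1 : √(ip (dm (U (2 * j))) (dm (U (2 * j)))).re ≤ b := Real.sqrt_le_sqrt u1
  have t2 : √(ip (dp (U (2 * j))) (dp (U (2 * j)))).re ≤ b := Real.sqrt_le_sqrt u2
  have s3 : √(j : ℝ) * √(ip (W (2 * j)) (W (2 * j))).re ≤ a := by
    rw [← Real.sqrt_mul (Nat.cast_nonneg _)]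
    exact Real.sqrt_le_sqrt w3
  have t3 : √(j : ℝ) * √(ip (U (2 * j)) (U (2 * j))).re ≤ b := by
    rw [← Real.sqrt_mul (Nat.cast_nonneg _)]
    exact Real.sqrt_le_sqrt u3
  have r1 : |(ip (dm (W (2 * j))) (dm (U (2 * j)))).re| ≤ a * b :=
    q1.trans (mul_le_mul s1 t1 (Real.sqrt_nonneg _) ha0)
  have r2 : |(ip (dp (W (2 * j))) (dp (U (2 * j)))).re| ≤ a * b :=
    q2.trans (mul_le_mul s2 t2 (Real.sqrt_nonneg _) ha0)
  have r3 : (j : ℝ) * |(ip (W (2 * j)) (U (2 * j))).re| ≤ a * b := by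
    calc (j : ℝ) * |(ip (W (2 * j)) (U (2 * j))).re|
        ≤ (j : ℝ) * (√(ip (W (2 * j)) (W (2 * j))).re * √(ip (U (2 * j)) (U (2 * j))).re) :=
          mul_le_mul_of_nonneg_left q3 (Nat.cast_nonneg _)
      _ = (√(j : ℝ) * √(ip (W (2 * j)) (W (2 * j))).re) *
          (√(j : ℝ) * √(ip (U (2 * j)) (U (2 * j))).re) := by
          have : (j : ℝ) = √(j : ℝ) * √(j : ℝ) := (Real.mul_self_sqrt (Nat.cast_nonneg _)).symm
          calc (j : ℝ) * (√(ip (W (2 * j)) (W (2 * j))).re * √(ip (U (2 * j)) (U (2 * j))).re)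
              = (√(j : ℝ) * √(j : ℝ)) *
                (√(ip (W (2 * j)) (W (2 * j))).re * √(ip (U (2 * j)) (U (2 * j))).re) := by
                rw [← this]
            _ = _ := by ring
      _ ≤ a * b := mul_le_mul s3 t3 (by positivity) ha0
  have hj1 : (1 : ℝ) ≤ j := by exact_mod_cast hj
  have x1 := abs_le.mp r1
  have x2 := abs_le.mp r2
  set z := (ip (W (2 * j)) (U (2 * j))).re with hz
  have hab : 0 ≤ a * b := mul_nonneg ha0 hb0
  have x3 : (2 - (2 * (j : ℝ)) ^ 2) * z ≤ 4 * j * (a * b) := by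
    have hz1 : - |z| ≤ z := neg_abs_le z
    have h1 : (2 - (2 * (j : ℝ)) ^ 2) * z ≤ ((2 * (j : ℝ)) ^ 2 - 2) * |z| := by
      have : 0 ≤ (2 * (j : ℝ)) ^ 2 - 2 := by nlinarith
      nlinarith
    have h2 : ((2 * (j : ℝ)) ^ 2 - 2) * |z| ≤ 4 * j * (j * |z|) := by
      have := abs_nonneg z
      nlinarith
    have h3 : 4 * (j : ℝ) * (j * |z|) ≤ 4 * j * (a * b) :=
      mul_le_mul_of_nonneg_left r3 (by positivity)
    linarith
  rw [e1]
  nlinarith [x1.1, x2.1, x3]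

theorem gk_abs_neg {D : Type*} [AddCommGroup D] [Module ℂ D] (ip : D → D → ℂ)
    (h_add : ∀ P Q R, ip (P + Q) R = ip P R + ip Q R)
    (h_smul : ∀ (c : ℂ) (P Q : D), ip (c • P) Q = c * ip P Q)
    (h_conj : ∀ P Q, ip Q P = conj (ip P Q))
    (h_pos : ∀ P, 0 ≤ (ip P P).re)
    (dp dm : D →ₗ[ℂ] D)
    (h_adj : ∀ P Q, ip (dp P) Q = - ip P (dm Q))
    (gr : ℤ → Submodule ℂ D)
    (hdp : ∀ (m : ℤ) (P : D), P ∈ gr m → dp P ∈ gr (m + 1))
    (hdm : ∀ (m : ℤ) (P : D), P ∈ gr m → dm P ∈ gr (m - 1))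
    (hcomm : ∀ (m : ℤ) (P : D), P ∈ gr m → dp (dm P) - dm (dp P) = (-(m : ℂ) / 2) • P)
    (W U : ℤ → D) (hW : ∀ m, W m ∈ gr m)
    (hrel : ∀ m, dp (W m) + dm (W (m + 2)) = 0)
    (hU : ∀ m, U m = (2 : ℂ) • (dp (dm (W m)) + dm (dp (W m))) + (2 - (m : ℂ) ^ 2) • W m)
    (j : ℕ) (hj : 1 ≤ j) :
    (ip (U (-(2 * j))) (U (-(2 * j)))).re ≤
      (4 + 4 * j) * √(ip (dm (W 0)) (dm (W 0))).re * √(ip (dm (U 0)) (dm (U 0))).re := by
  have := gk_abs ip h_add h_smul h_conj h_pos dm dp (ipa_adj' ip h_conj dp dm h_adj)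
    (fun m => gr (-m))
    (fun m P hP => by
      have := hdm (-m) P hP
      rwa [show -m - 1 = -(m + 1) by ring] at this)
    (fun m P hP => by
      have := hdp (-m) P hP
      rwa [show -m + 1 = -(m - 1) by ring] at this)
    (fun m P hP => by
      have h1 := hcomm (-m) P hP
      have h2 : dm (dp P) - dp (dm P) = -((-(((-m : ℤ) : ℂ)) / 2) • P) := by
        rw [← h1]; abel
      rw [h2, ← neg_smul]
      congr 1
      push_cast
      ring)
    (fun m => W (-m)) (fun m => U (-m)) (fun m => hW (-m))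
    (fun m => by
      have h1 := hrel (-(m + 2))
      rw [show -(m + 2) + 2 = -m by ring, add_comm] at h1
      exact h1)
    (fun m => by
      rw [hU (-m), add_comm (dp (dm (W (-m))))]
      push_cast
      rw [neg_sq])
    j hj
  simpa using this

end Pool.Agent.Lib_MP_f78f32_gt
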