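import Pool.Agent.Lib_MP_f78f32_gt.GKpoly

/-!
# Modes of the polynomial `Wp`
-/

open MeasureTheory Real MvPolynomial
open scoped Matrix ComplexConjugate

namespace Pool.Agent.Lib_MP_f78f32_gt

namespace GKm

lemma wHC_of_mem {m k : ℤ} {P : DD} (h : P ∈ gr k) :
    weightedHomogeneousComponent wt m P = if k = m then P else 0 := by
  rw [weightedHomogeneousComponent_of_mem h]
  by_cases hk : k = m
  · rw [if_pos hk, if_pos hk.symm]
  · rw [if_neg hk, if_neg (fun h => hk h.symm)]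

lemma monomial_mem (d : Fin 3 →₀ ℕ) (c : ℂ) : monomial d c ∈ gr (Finsupp.weight wt d) :=
  (mem_weightedHomogeneousSubmodule ℂ wt _ _).mpr (isWeightedHomogeneous_monomial wt d c rfl)

lemma wHC_dp (m : ℤ) (P : DD) :
    weightedHomogeneousComponent wt (m + 1) (dp P) = dp (weightedHomogeneousComponent wt m P) := by
  induction P using MvPolynomial.induction_on' with
  | monomial d c =>
    have h1 := monomial_mem d c
    rw [wHC_of_mem (dp_mem _ _ h1), wHC_of_mem h1]
    by_cases h : Finsupp.weight wt d = m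
    · rw [if_pos h, if_pos (by rw [h])]
    · rw [if_neg h, if_neg (by intro h'; exact h (by linarith)), map_zero]
  | add P Q hP hQ => rw [map_add, map_add, map_add, map_add, hP, hQ]

lemma wHC_dm (m : ℤ) (P : DD) :
    weightedHomogeneousComponent wt (m - 1) (dm P) = dm (weightedHomogeneousComponent wt m P) := by
  induction P using MvPolynomial.induction_on' with
  | monomial d c =>
    have h1 := monomial_mem d c
    rw [wHC_of_mem (dm_mem _ _ h1), wHC_of_mem h1]
    by_cases h : Finsupp.weight wt d = m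
    · rw [if_pos h, if_pos (by rw [h])]
    · rw [if_neg h, if_neg (by intro h'; exact h (by linarith)), map_zero]
  | add P Q hP hQ => rw [map_add, map_add, map_add, map_add, hP, hQ]

lemma X_mem (i : Fin 3) : (X i : DD) ∈ gr (wt i) :=
  (mem_weightedHomogeneousSubmodule ℂ wt _ _).mpr (isWeightedHomogeneous_X ℂ wt i)

lemma mul_mem {m k : ℤ} {P Q : DD} (hP : P ∈ gr m) (hQ : Q ∈ gr k) : P * Q ∈ gr (m + k) :=
  (mem_weightedHomogeneousSubmodule ℂ wt _ _).mpr
    (((mem_weightedHomogeneousSubmodule ℂ wt _ _).mp hP).mul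
      ((mem_weightedHomogeneousSubmodule ℂ wt _ _).mp hQ))

lemma pow_mem {m : ℤ} {P : DD} (hP : P ∈ gr m) (k : ℕ) : P ^ k ∈ gr (k * m) := by
  have := ((mem_weightedHomogeneousSubmodule ℂ wt _ _).mp hP).pow k
  rw [nsmul_eq_mul] at this
  exact (mem_weightedHomogeneousSubmodule ℂ wt _ _).mpr this

lemma C_mul_mem {m : ℤ} {P : DD} (c : ℂ) (hP : P ∈ gr m) : C c * P ∈ gr m := by
  rw [← MvPolynomial.smul_eq_C_mul]
  exact (gr m).smul_mem c hP

/-- the term of index `k` in the binomial expansion -/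
lemma term_mem (m k : ℕ) (hk : k ∈ Finset.range (2 * m + 1)) :
    (X 1 ^ k * (-X 2) ^ (2 * m - k) * ((2 * m).choose k : DD) : DD) ∈ gr (2 * ((m : ℤ) - k)) := by
  have hk' : k ≤ 2 * m := by
    have := Finset.mem_range.mp hk; omega
  have h1 := pow_mem (X_mem 1) k
  have h2 := pow_mem ((gr (wt 2)).neg_mem (X_mem 2)) (2 * m - k)
  have h3 := C_mul_mem ((2 * m).choose k : ℂ) (mul_mem h1 h2)
  have e : (X 1 ^ k * (-X 2) ^ (2 * m - k) * ((2 * m).choose k : DD) : DD) =
      C ((2 * m).choose k : ℂ) * (X 1 ^ k * (-X 2) ^ (2 * m - k)) := by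
    rw [mul_comm]
    congr 1
  rw [e]
  convert h3 using 2
  simp only [wt, Matrix.cons_val_one, Matrix.cons_val]
  push_cast [Nat.cast_sub hk']
  ring

lemma cpol_pow (m : ℕ) : cpol ^ (2 * m) =
    C ((-1 / 4 : ℂ) ^ m) * ∑ k ∈ Finset.range (2 * m + 1),
      (X 1 ^ k * (-X 2) ^ (2 * m - k) * ((2 * m).choose k : DD)) := by
  rw [cpol, mul_pow, sub_eq_add_neg, add_pow, ← C_pow]
  congr 2
  rw [pow_mul]
  rw [div_pow, mul_pow, Complex.I_sq]
  norm_num

/-- only the even weights between `-2n` and `2n` occur in `cpol ^ (2m)`, `m ≤ n` -/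
lemma sum_cpol (n m : ℕ) (hm : m ≤ n) :
    ∑ j ∈ Finset.Icc (-(n : ℤ)) n, weightedHomogeneousComponent wt (2 * j) (cpol ^ (2 * m)) =
      cpol ^ (2 * m) := by
  rw [cpol_pow]
  have h1 : ∀ j : ℤ, weightedHomogeneousComponent wt (2 * j)
      (C ((-1 / 4 : ℂ) ^ m) * ∑ k ∈ Finset.range (2 * m + 1),
        (X 1 ^ k * (-X 2) ^ (2 * m - k) * ((2 * m).choose k : DD))) =
      C ((-1 / 4 : ℂ) ^ m) * ∑ k ∈ Finset.range (2 * m + 1),
        if (m : ℤ) - k = j then
          (X 1 ^ k * (-X 2) ^ (2 * m - k) * ((2 * m).choose k : DD)) else 0 := by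
    intro j
    rw [← MvPolynomial.smul_eq_C_mul, map_smul, map_sum, MvPolynomial.smul_eq_C_mul]
    congr 1
    refine Finset.sum_congr rfl fun k hk => ?_
    rw [wHC_of_mem (term_mem m k hk)]
    by_cases h : (m : ℤ) - k = j
    · rw [if_pos h, if_pos (by rw [h])]
    · rw [if_neg h, if_neg (by intro h'; exact h (by linarith))]
  simp_rw [h1]
  rw [← Finset.mul_sum, Finset.sum_comm]
  congr 1
  refine Finset.sum_congr rfl fun k hk => ?_
  have hk' : k ≤ 2 * m := by
    have := Finset.mem_range.mp hk; omega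
  rw [Finset.sum_ite_eq, if_pos]
  rw [Finset.mem_Icc]
  constructor <;> omega

/-- weight zero component of `cpol ^ (2m)` -/
lemma zero_cpol (m : ℕ) :
    weightedHomogeneousComponent wt 0 (cpol ^ (2 * m)) = C (al m : ℂ) * (X 1 * X 2) ^ m := by
  rw [cpol_pow, ← MvPolynomial.smul_eq_C_mul, map_smul, map_sum, MvPolynomial.smul_eq_C_mul]
  have h1 : ∀ k ∈ Finset.range (2 * m + 1), weightedHomogeneousComponent wt 0
        (X 1 ^ k * (-X 2) ^ (2 * m - k) * ((2 * m).choose k : DD)) =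
        if k = m then (X 1 ^ k * (-X 2) ^ (2 * m - k) * ((2 * m).choose k : DD)) else 0 := by
    intro k hk
    rw [wHC_of_mem (term_mem m k hk)]
    by_cases h : k = m
    · rw [if_pos h, if_pos (by rw [h]; ring)]
    · rw [if_neg h, if_neg (by intro h'; exact h (by omega))]
  rw [Finset.sum_congr rfl h1, Finset.sum_ite_eq', if_pos (by rw [Finset.mem_range]; omega)]
  have e1 : 2 * m - m = m := by omega
  rw [e1, neg_pow, al]
  have e2 : ((2 * m).choose m : DD) = C ((Nat.centralBinom m : ℂ)) := by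
    rw [Nat.centralBinom_eq_two_mul_choose]; simp
  rw [e2]
  have e3 : (((Nat.centralBinom m : ℝ) / 4 ^ m : ℝ) : ℂ) =
      (-1 / 4 : ℂ) ^ m * (-1) ^ m * (Nat.centralBinom m : ℂ) := by
    push_cast
    rw [← mul_pow, div_eq_mul_inv, mul_comm, ← inv_pow]
    congr 2
    norm_num
  rw [e3, C_mul, C_mul]
  have e4 : ((-1 : DD)) ^ m = C ((-1 : ℂ) ^ m) := by simp
  rw [e4, mul_pow]
  ring

lemma al_ne (m : ℕ) : (al m : ℂ) ≠ 0 := by
  rw [al]
  have h1 : (Nat.centralBinom m : ℝ) ≠ 0 := by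
    exact_mod_cast (Nat.centralBinom_pos m).ne'
  have h2 : ((4 : ℝ) ^ m) ≠ 0 := by positivity
  exact_mod_cast div_ne_zero h1 h2

/-- the coefficients of `kap n` -/
noncomputable def kc (n m : ℕ) : ℂ := (2 * (n : ℂ) + 1) * (-1) ^ m * (n.choose m : ℂ) / (al m : ℂ)

lemma Wp_eq (n : ℕ) : Wp n = ∑ m ∈ Finset.range (n + 1), kc n m • cpol ^ (2 * m) := by
  rw [Wp, kap, Polynomial.map_sum, map_sum]
  refine Finset.sum_congr rfl fun m _ => ?_
  simp only [Polynomial.map_mul, Polynomial.map_C, Polynomial.map_pow, Polynomial.map_X, map_mul,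
    map_pow, Polynomial.aeval_X, Polynomial.aeval_C, Algebra.smul_def]
  congr 2
  simp [kc]

lemma sum_Wm (n : ℕ) : ∑ j ∈ Finset.Icc (-(n : ℤ)) n, Wm n (2 * j) = Wp n := by
  simp only [Wm]
  rw [Wp_eq]
  simp_rw [map_sum, map_smul]
  rw [Finset.sum_comm]
  refine Finset.sum_congr rfl fun m hm => ?_
  rw [← Finset.smul_sum, sum_cpol n m (by have := Finset.mem_range.mp hm; omega)]

lemma Wm_zero (n : ℕ) : Wm n 0 = C (2 * (n : ℂ) + 1) * (1 - X 1 * X 2) ^ n := by
  rw [Wm, Wp_eq]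
  simp_rw [map_sum, map_smul, zero_cpol]
  rw [sub_eq_add_neg, add_comm (1 : DD), add_pow, Finset.mul_sum]
  refine Finset.sum_congr rfl fun m _ => ?_
  rw [one_pow, mul_one, neg_pow (X 1 * X 2 : DD) m, MvPolynomial.smul_eq_C_mul, kc]
  have e1 : ((-1 : DD)) ^ m = C ((-1 : ℂ) ^ m) := by simp
  have e2 : (n.choose m : DD) = C (n.choose m : ℂ) := by simp
  rw [e1, e2]
  have e3 : C ((2 * (n : ℂ) + 1) * (-1) ^ m * (n.choose m : ℂ) / (al m : ℂ)) *
      (C (al m : ℂ) * (X 1 * X 2) ^ m) =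
      C ((2 * (n : ℂ) + 1) * (-1) ^ m * (n.choose m : ℂ)) * (X 1 * X 2 : DD) ^ m := by
    rw [← mul_assoc, ← C_mul, div_mul_cancel₀ _ (al_ne m)]
  rw [e3, C_mul, C_mul]
  ring

end GKm

open GKm

theorem Wm_mem (n : ℕ) (m : ℤ) : Wm n m ∈ gr m :=
  (mem_weightedHomogeneousSubmodule ℂ wt _ _).mpr
    (weightedHomogeneousComponent_isWeightedHomogeneous m (Wp n))

lemma GKm.dp_cpol : dp cpol = C (-1 / (2 * Complex.I)) * X 0 := by
  rw [cpol, ← MvPolynomial.smul_eq_C_mul, Derivation.map_smul, map_sub, dp, mkDerivation_X, mkDerivation_X]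
  simp only [Matrix.cons_val_one, Matrix.cons_val, sub_zero, MvPolynomial.smul_eq_C_mul]
  rw [neg_div, C_neg]
  ring

lemma GKm.dm_cpol : dm cpol = C (1 / (2 * Complex.I)) * X 0 := by
  rw [cpol, ← MvPolynomial.smul_eq_C_mul, Derivation.map_smul, map_sub, dm, mkDerivation_X, mkDerivation_X]
  simp only [Matrix.cons_val_one, Matrix.cons_val, zero_sub, neg_neg, MvPolynomial.smul_eq_C_mul]

lemma GKm.dpm_Wp (n : ℕ) : dp (Wp n) + dm (Wp n) = 0 := by
  rw [Wp, Derivation.map_aeval, Derivation.map_aeval, ← smul_add, dp_cpol, dm_cpol, ← add_mul,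
    ← C_add]
  have : (-1 / (2 * Complex.I) + 1 / (2 * Complex.I) : ℂ) = 0 := by ring
  rw [this, C_0, zero_mul, smul_zero]

theorem Wm_rel (n : ℕ) (m : ℤ) : dp (Wm n m) + dm (Wm n (m + 2)) = 0 := by
  rw [Wm, Wm, ← wHC_dp, ← wHC_dm]
  have e : m + 2 - 1 = m + 1 := by ring
  rw [e, ← map_add, dpm_Wp, map_zero]

theorem Um_mem (n : ℕ) (m : ℤ) : Um n m ∈ gr m := by
  have h := Wm_mem n m
  have h1 := dp_mem _ _ (dm_mem _ _ h)
  have h2 := dm_mem _ _ (dp_mem _ _ h)
  rw [sub_add_cancel] at h1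
  rw [add_sub_cancel_right] at h2
  exact (gr m).add_mem ((gr m).smul_mem _ ((gr m).add_mem h1 h2)) ((gr m).smul_mem _ h)

theorem Um_two (n : ℕ) : Um n 2 = (-4 : ℂ) • dp (dp (Wm n 0)) := by
  have h1 := Wm_rel n 0
  rw [zero_add] at h1
  have h2 : dm (Wm n 2) = - dp (Wm n 0) := by
    rw [eq_neg_iff_add_eq_zero, add_comm]; exact h1
  have h3 := comm_dp_dm 2 _ (Wm_mem n 2)
  have h4 : dm (dp (Wm n 2)) = dp (dm (Wm n 2)) + Wm n 2 := by
    rw [sub_eq_iff_eq_add] at h3
    rw [h3]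
    have : (-((2 : ℤ) : ℂ) / 2) = -1 := by norm_num
    rw [this, neg_smul, one_smul]
    abel
  rw [Um, h4, h2, map_neg]
  have : (2 - ((2 : ℤ) : ℂ) ^ 2) = -2 := by norm_num
  rw [this]
  module

theorem Um_neg_two (n : ℕ) : Um n (-2) = (-4 : ℂ) • dm (dm (Wm n 0)) := by
  have h1 := Wm_rel n (-2)
  rw [neg_add_cancel] at h1
  have h2 : dp (Wm n (-2)) = - dm (Wm n 0) := by
    rw [eq_neg_iff_add_eq_zero]; exact h1
  have h3 := comm_dp_dm (-2) _ (Wm_mem n (-2))
  have h4 : dp (dm (Wm n (-2))) = dm (dp (Wm n (-2))) + Wm n (-2) := by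
    rw [sub_eq_iff_eq_add] at h3
    rw [h3]
    have : (-((-2 : ℤ) : ℂ) / 2) = 1 := by norm_num
    rw [this, one_smul]
    abel
  rw [Um, h4, h2, map_neg]
  have : (2 - ((-2 : ℤ) : ℂ) ^ 2) = -2 := by norm_num
  rw [this]
  module

theorem GKm.ev_X0 (h g : G) : ev h g (X 0) = (kk h g 0 : ℂ) := by
  simp [ev]
theorem GKm.ev_X1 (h g : G) : ev h g (X 1) = (kk h g 1 : ℂ) + Complex.I * (kk h g 2 : ℂ) := by
  simp [ev]
theorem GKm.ev_X2 (h g : G) : ev h g (X 2) = (kk h g 1 : ℂ) - Complex.I * (kk h g 2 : ℂ) := by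
  simp [ev]

lemma GKm.ev_C (h g : G) (c : ℂ) : ev h g (C c) = c := by
  simp [ev]

lemma GKm.kk_sqC (h g : G) : (kk h g 0 : ℂ) ^ 2 + (kk h g 1 : ℂ) ^ 2 + (kk h g 2 : ℂ) ^ 2 = 1 := by
  exact_mod_cast kk_sq h g

theorem ev_Wm_zero (n : ℕ) (h g : G) :
    ev h g (Wm n 0) = (((kn n).eval (kk h g 0) : ℝ) : ℂ) := by
  rw [Wm_zero, map_mul, map_pow, map_sub, map_mul, map_one, ev_X1, ev_X2, ev_C]
  have h1 : (1 - ((kk h g 1 : ℂ) + Complex.I * (kk h g 2 : ℂ)) *
      ((kk h g 1 : ℂ) - Complex.I * (kk h g 2 : ℂ))) = (kk h g 0 : ℂ) ^ 2 := by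
    have := kk_sqC h g
    linear_combination -this + (kk h g 2 : ℂ) ^ 2 * Complex.I_sq
  rw [h1, ← pow_mul, kn]
  simp

/-- rotation derivation of the last two variables -/
noncomputable def GKm.dv : Derivation ℂ DD DD :=
  MvPolynomial.mkDerivation ℂ ![0, C (-Complex.I) * X 1, C Complex.I * X 2]

/-- `Y`-derivation -/
noncomputable def GKm.dy : Derivation ℂ DD DD := Complex.I • (dp - dm)

lemma GKm.dv_monomial (d : Fin 3 →₀ ℕ) (c : ℂ) :
    dv (monomial d c) = (Complex.I * (Finsupp.weight wt d : ℤ)) • monomial d c := by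
  have hmon : (monomial d c : DD) = C c * (X 0 ^ d 0 * (X 1 ^ d 1 * X 2 ^ d 2)) := by
    rw [monomial_eq, Finsupp.prod_fintype _ _ (fun i => pow_zero _), Fin.prod_univ_three, mul_assoc]
  have hw : (Finsupp.weight wt d : ℤ) = -(d 1 : ℤ) + d 2 := by
    rw [Finsupp.weight_apply, Finsupp.sum_fintype _ _ (fun i => by simp), Fin.sum_univ_three]
    simp [wt]
  have h0 : dv (X 0 : DD) = 0 := by simp [dv, mkDerivation_X]
  have h1 : dv (X 1 : DD) = C (-Complex.I) * X 1 := by simp [dv, mkDerivation_X]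
  have h2 : dv (X 2 : DD) = C Complex.I * X 2 := by simp [dv, mkDerivation_X]
  have hp : ∀ (i : Fin 3) (a : ℂ), dv (X i : DD) = C a * X i → ∀ k : ℕ,
      dv (X i ^ k : DD) = C (a * k) * X i ^ k := by
    intro i a hi k
    induction k with
    | zero => simp
    | succ k ih =>
      rw [pow_succ, Derivation.leibniz, ih, hi]
      simp only [smul_eq_mul, Nat.cast_add, Nat.cast_one, mul_add, mul_one, C_add]
      ring
  rw [hw, hmon, ← MvPolynomial.smul_eq_C_mul, Derivation.map_smul, Derivation.leibniz,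
    Derivation.leibniz, hp 0 0 (by rw [h0]; simp), hp 1 _ h1, hp 2 _ h2]
  simp only [smul_eq_mul, MvPolynomial.smul_eq_C_mul, zero_mul, C_0, mul_zero, add_zero]
  push_cast
  simp only [mul_add, C_add, C_mul, C_neg, mul_neg, neg_mul]
  ring

lemma GKm.dv_gr (m : ℤ) (P : DD) (h : P ∈ gr m) : dv P = (Complex.I * m) • P := by
  have h' : IsWeightedHomogeneous wt P m := (mem_weightedHomogeneousSubmodule ℂ wt m P).mp h
  conv_lhs => rw [P.as_sum]
  conv_rhs => rw [P.as_sum]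
  rw [map_sum, Finset.smul_sum]
  refine Finset.sum_congr rfl fun d hd => ?_
  rw [dv_monomial, h' (by rwa [mem_support_iff] at hd)]

lemma GKm.dv_cpol : dv cpol = -(C (1 / 2) * (X 1 + X 2)) := by
  rw [cpol, ← MvPolynomial.smul_eq_C_mul, Derivation.map_smul, map_sub, dv, mkDerivation_X,
    mkDerivation_X]
  simp only [Matrix.cons_val_one, Matrix.cons_val, MvPolynomial.smul_eq_C_mul]
  have e1 : C (1 / (2 * Complex.I)) * (C (-Complex.I) * X 1 - C Complex.I * X 2 : DD) =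
      -((C (1 / (2 * Complex.I)) * C Complex.I) * (X 1 + X 2)) := by
    rw [C_neg]; ring
  have e2 : (1 / (2 * Complex.I)) * Complex.I = 1 / 2 := by
    field_simp
  rw [e1, ← C_mul, e2]

lemma GKm.dy_cpol : dy cpol = - X 0 := by
  have : dy cpol = Complex.I • (dp cpol - dm cpol) := rfl
  rw [this, dp_cpol, dm_cpol, MvPolynomial.smul_eq_C_mul, ← sub_mul, ← C_sub, ← mul_assoc, ← C_mul]
  have e : Complex.I * (-1 / (2 * Complex.I) - 1 / (2 * Complex.I)) = -1 := by
    field_simp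
    ring
  rw [e, C_neg, C_1]
  ring

lemma GKm.dy_X0 : dy (X 0) = cpol := by
  have : dy (X 0) = Complex.I • (dp (X 0) - dm (X 0)) := rfl
  rw [this, dp, dm, mkDerivation_X, mkDerivation_X, cpol, MvPolynomial.smul_eq_C_mul]
  simp only [Matrix.cons_val_zero]
  rw [← mul_sub, ← mul_assoc, ← C_mul]
  have e : Complex.I * (1 / 2) = - (1 / (2 * Complex.I)) := by
    field_simp
    rw [Complex.I_sq]
  rw [e, C_neg]
  ring

lemma GKm.dv_b : dv (C (1 / 2) * (X 1 + X 2)) = cpol := by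
  rw [← MvPolynomial.smul_eq_C_mul, Derivation.map_smul, map_add, dv, mkDerivation_X,
    mkDerivation_X, cpol]
  simp only [Matrix.cons_val_one, Matrix.cons_val, MvPolynomial.smul_eq_C_mul]
  have e1 : C (1 / 2) * (C (-Complex.I) * X 1 + C Complex.I * X 2 : DD) =
      C ((1 / 2) * (-Complex.I)) * (X 1 - X 2) := by
    rw [C_mul, C_neg]; ring
  have e2 : (1 / 2) * (-Complex.I) = 1 / (2 * Complex.I) := by
    field_simp
    rw [Complex.I_sq]
    norm_num
  rw [e1, e2]

lemma GKm.ev_aeval (h g : G) (k : Polynomial ℝ) :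
    ev h g (Polynomial.aeval cpol (k.map (algebraMap ℝ ℂ))) = ((k.eval (kk h g 2) : ℝ) : ℂ) := by
  have hc : ev h g cpol = (kk h g 2 : ℂ) := by
    rw [cpol, map_mul, map_sub, ev_C, ev_X1, ev_X2]
    field_simp
    ring
  rw [← Polynomial.aeval_algHom_apply, hc, Polynomial.aeval_map_algebraMap]
  exact Polynomial.aeval_algebraMap_apply_eq_algebraMap_eval _ _

lemma GKm.two_box (P : DD) : (2 : ℂ) • (dp (dm P) + dm (dp P)) =
    (dp (dp P + dm P) + dm (dp P + dm P)) + dy (dy P) := by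
  have h1 : dy P = Complex.I • (dp P - dm P) := rfl
  have h2 : ∀ Q, dy Q = Complex.I • (dp Q - dm Q) := fun Q => rfl
  rw [h2 (dy P), h1, Derivation.map_smul, Derivation.map_smul, map_sub, map_sub, map_add, map_add,
    ← smul_sub, smul_smul, Complex.I_mul_I]
  module

theorem Um_sum (n : ℕ) (h g : G) :
    ∑ j ∈ Finset.Icc (-(n : ℤ)) n, ev h g (Um n (2 * j)) =
      (((lap2 (kap n)).eval (kk h g 2) : ℝ) : ℂ) := by
  rw [← map_sum]
  have h1 : ∀ j : ℤ, Um n (2 * j) = ((dp (dp (Wm n (2 * j)) + dm (Wm n (2 * j))) +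
      dm (dp (Wm n (2 * j)) + dm (Wm n (2 * j)))) + dy (dy (Wm n (2 * j)))) +
      (dv (dv (Wm n (2 * j))) + (2 : ℂ) • Wm n (2 * j)) := by
    intro j
    have hW := Wm_mem n (2 * j)
    rw [Um, two_box, dv_gr _ _ hW, Derivation.map_smul, dv_gr _ _ hW, smul_smul, ← add_smul]
    congr 2
    linear_combination -((2 * j : ℤ) : ℂ) ^ 2 * Complex.I_sq
  simp_rw [h1, Finset.sum_add_distrib, ← map_sum, Finset.sum_add_distrib, ← map_sum,
    ← Finset.smul_sum, sum_Wm, dpm_Wp]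
  rw [map_zero, map_zero, add_zero, zero_add]
  have hy : dy (dy (Wp n)) = Polynomial.aeval cpol
      (((kap n).derivative.derivative).map (algebraMap ℝ ℂ)) * X 0 ^ 2 -
      Polynomial.aeval cpol (((kap n).derivative).map (algebraMap ℝ ℂ)) * cpol := by
    rw [Wp, Derivation.map_aeval, dy_cpol, Polynomial.derivative_map, smul_eq_mul,
      Derivation.leibniz, Derivation.map_aeval, dy_cpol, map_neg, dy_X0,
      Polynomial.derivative_map]
    simp only [smul_eq_mul]
    ring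
  have hv : dv (dv (Wp n)) = Polynomial.aeval cpol
      (((kap n).derivative.derivative).map (algebraMap ℝ ℂ)) * (C (1 / 2) * (X 1 + X 2)) ^ 2 -
      Polynomial.aeval cpol (((kap n).derivative).map (algebraMap ℝ ℂ)) * cpol := by
    rw [Wp, Derivation.map_aeval, dv_cpol, Polynomial.derivative_map, smul_eq_mul,
      Derivation.leibniz, Derivation.map_aeval, dv_cpol, map_neg, dv_b,
      Polynomial.derivative_map]
    simp only [smul_eq_mul]
    ring
  rw [hy, hv]
  simp only [map_add, map_sub, map_mul, map_pow, map_smul, ev_aeval, ev_X0, ev_X1, ev_X2, ev_C]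
  have hc : ev h g cpol = (kk h g 2 : ℂ) := by
    rw [cpol, map_mul, map_sub, ev_C, ev_X1, ev_X2]
    field_simp
    ring
  have hW : ev h g (Wp n) = (((kap n).eval (kk h g 2) : ℝ) : ℂ) := ev_aeval h g _
  rw [hc, hW, lap2]
  simp only [Polynomial.eval_add, Polynomial.eval_sub, Polynomial.eval_mul, Polynomial.eval_pow,
    Polynomial.eval_X, Polynomial.eval_one, Polynomial.eval_ofNat, smul_eq_mul]
  push_cast
  have hs := kk_sqC h g
  linear_combination (((kap n).derivative.derivative.eval (kk h g 2) : ℝ) : ℂ) * hs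

end Pool.Agent.Lib_MP_f78f32_gt
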