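import Pool.Agent.Lib_MP_f78f32_gt.GKpoly
import Pool.Agent.Lib_MP_f78f32_gt.GKmode
import Pool.Agent.Lib_MP_f78f32_gt.SmJ

/-!
# Evaluation of derivatives of the zeroth mode
-/

open MeasureTheory Real
open scoped Matrix ComplexConjugate

namespace Pool.Agent.Lib_MP_f78f32_gt

/-- derivatives along the first flow, from the real formula -/
theorem ev_X_of (h g : G) (P : DD) (φ : G → ℝ) (φ' : ℝ) (hP : ∀ g, ev h g P = ((φ g : ℝ) : ℂ))
    (hd : HasDerivAt (fun t : ℝ => φ (g * fa t)) φ' 0) :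
    ev h g (dp P + dm P) = (φ' : ℂ) := by
  have h1 := ev_fa h g P
  have h2 : HasDerivAt (fun t : ℝ => ev h (g * fa t) P) (φ' : ℂ) 0 := by
    have h3 : (fun t : ℝ => ev h (g * fa t) P) = fun t : ℝ => ((φ (g * fa t) : ℝ) : ℂ) := by
      funext t; rw [hP]
    rw [h3]
    exact hd.ofReal_comp
  exact h1.unique h2

theorem ev_Y_of (h g : G) (P : DD) (φ : G → ℝ) (φ' : ℝ) (hP : ∀ g, ev h g P = ((φ g : ℝ) : ℂ))
    (hd : HasDerivAt (fun t : ℝ => φ (g * fb t)) φ' 0) :
    ev h g (Complex.I • (dp P - dm P)) = (φ' : ℂ) := by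
  have h1 := ev_fb h g P
  have h2 : HasDerivAt (fun t : ℝ => ev h (g * fb t) P) (φ' : ℂ) 0 := by
    have h3 : (fun t : ℝ => ev h (g * fb t) P) = fun t : ℝ => ((φ (g * fb t) : ℝ) : ℂ) := by
      funext t; rw [hP]
    rw [h3]
    exact hd.ofReal_comp
  exact h1.unique h2

/-! derivatives of the coordinates -/

theorem kk_da0 (h g : G) : HasDerivAt (fun t : ℝ => kk h (g * fa t) 0) (kk h g 1) 0 := by
  have h1 : (fun t : ℝ => kk h (g * fa t) 0) = fun t => cos t * kk h g 0 + sin t * kk h g 1 := by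
    funext t; exact (kk_fa h g t).1
  rw [h1]
  have := ((hasDerivAt_cos 0).mul_const (kk h g 0)).fun_add
    ((hasDerivAt_sin 0).mul_const (kk h g 1))
  simpa using this

theorem kk_da1 (h g : G) : HasDerivAt (fun t : ℝ => kk h (g * fa t) 1) (-kk h g 0) 0 := by
  have h1 : (fun t : ℝ => kk h (g * fa t) 1) = fun t => -sin t * kk h g 0 + cos t * kk h g 1 := by
    funext t; exact (kk_fa h g t).2.1
  rw [h1]
  have := ((hasDerivAt_sin 0).fun_neg.mul_const (kk h g 0)).fun_add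
    ((hasDerivAt_cos 0).mul_const (kk h g 1))
  simpa using this

theorem kk_da2 (h g : G) : HasDerivAt (fun t : ℝ => kk h (g * fa t) 2) 0 0 := by
  have h1 : (fun t : ℝ => kk h (g * fa t) 2) = fun _ => kk h g 2 := by
    funext t; exact (kk_fa h g t).2.2
  rw [h1]
  exact hasDerivAt_const _ _

theorem kk_db0 (h g : G) : HasDerivAt (fun t : ℝ => kk h (g * fb t) 0) (kk h g 2) 0 := by
  have h1 : (fun t : ℝ => kk h (g * fb t) 0) = fun t => cos t * kk h g 0 + sin t * kk h g 2 := by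
    funext t; exact (kk_fb h g t).1
  rw [h1]
  have := ((hasDerivAt_cos 0).mul_const (kk h g 0)).fun_add
    ((hasDerivAt_sin 0).mul_const (kk h g 2))
  simpa using this

theorem kk_db1 (h g : G) : HasDerivAt (fun t : ℝ => kk h (g * fb t) 1) 0 0 := by
  have h1 : (fun t : ℝ => kk h (g * fb t) 1) = fun _ => kk h g 1 := by
    funext t; exact (kk_fb h g t).2.1
  rw [h1]
  exact hasDerivAt_const _ _

theorem kk_db2 (h g : G) : HasDerivAt (fun t : ℝ => kk h (g * fb t) 2) (-kk h g 0) 0 := by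
  have h1 : (fun t : ℝ => kk h (g * fb t) 2) = fun t => -sin t * kk h g 0 + cos t * kk h g 2 := by
    funext t; exact (kk_fb h g t).2.2
  rw [h1]
  have := ((hasDerivAt_sin 0).fun_neg.mul_const (kk h g 0)).fun_add
    ((hasDerivAt_cos 0).mul_const (kk h g 2))
  simpa using this

theorem pol_da (k : Polynomial ℝ) (h g : G) :
    HasDerivAt (fun t : ℝ => k.eval (kk h (g * fa t) 0)) (k.derivative.eval (kk h g 0) * kk h g 1)
      0 := by
  have h1 : HasDerivAt (fun x => k.eval x) (k.derivative.eval (kk h g 0)) (kk h (g * fa 0) 0) := by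
    rw [fa_zero, mul_one]
    exact k.hasDerivAt _
  exact h1.comp (0 : ℝ) (kk_da0 h g)

theorem pol_db (k : Polynomial ℝ) (h g : G) :
    HasDerivAt (fun t : ℝ => k.eval (kk h (g * fb t) 0)) (k.derivative.eval (kk h g 0) * kk h g 2)
      0 := by
  have h1 : HasDerivAt (fun x => k.eval x) (k.derivative.eval (kk h g 0)) (kk h (g * fb 0) 0) := by
    rw [fb_zero, mul_one]
    exact k.hasDerivAt _
  exact h1.comp (0 : ℝ) (kk_db0 h g)

section zonal

variable (k : Polynomial ℝ) (h : G) (P : DD)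
  (hP : ∀ g, ev h g P = ((k.eval (kk h g 0) : ℝ) : ℂ))

include hP

theorem ev_X (g : G) : ev h g (dp P + dm P) =
    ((k.derivative.eval (kk h g 0) * kk h g 1 : ℝ) : ℂ) :=
  ev_X_of h g P (fun g => k.eval (kk h g 0)) _ hP (pol_da k h g)

theorem ev_Y (g : G) : ev h g (Complex.I • (dp P - dm P)) =
    ((k.derivative.eval (kk h g 0) * kk h g 2 : ℝ) : ℂ) :=
  ev_Y_of h g P (fun g => k.eval (kk h g 0)) _ hP (pol_db k h g)

theorem ev_XX (g : G) : ev h g (dp (dp P + dm P) + dm (dp P + dm P)) =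
    ((k.derivative.derivative.eval (kk h g 0) * kk h g 1 ^ 2 -
      k.derivative.eval (kk h g 0) * kk h g 0 : ℝ) : ℂ) := by
  refine ev_X_of h g _ (fun g => k.derivative.eval (kk h g 0) * kk h g 1) _
    (ev_X k h P hP) ?_
  have h1 := (pol_da k.derivative h g).fun_mul (kk_da1 h g)
  simp only [fa_zero, mul_one] at h1
  exact h1.congr_deriv (by ring)

theorem ev_YX (g : G) : ev h g (Complex.I • (dp (dp P + dm P) - dm (dp P + dm P))) =
    ((k.derivative.derivative.eval (kk h g 0) * kk h g 1 * kk h g 2 : ℝ) : ℂ) := by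
  refine ev_Y_of h g _ (fun g => k.derivative.eval (kk h g 0) * kk h g 1) _
    (ev_X k h P hP) ?_
  have h1 := (pol_db k.derivative h g).fun_mul (kk_db1 h g)
  simp only [fb_zero, mul_one] at h1
  exact h1.congr_deriv (by ring)

theorem ev_XY (g : G) : ev h g (dp (Complex.I • (dp P - dm P)) + dm (Complex.I • (dp P - dm P))) =
    ((k.derivative.derivative.eval (kk h g 0) * kk h g 1 * kk h g 2 : ℝ) : ℂ) := by
  refine ev_X_of h g _ (fun g => k.derivative.eval (kk h g 0) * kk h g 2) _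
    (ev_Y k h P hP) ?_
  have h1 := (pol_da k.derivative h g).fun_mul (kk_da2 h g)
  simp only [fa_zero, mul_one] at h1
  exact h1.congr_deriv (by ring)

theorem ev_YY (g : G) :
    ev h g (Complex.I • (dp (Complex.I • (dp P - dm P)) - dm (Complex.I • (dp P - dm P)))) =
    ((k.derivative.derivative.eval (kk h g 0) * kk h g 2 ^ 2 -
      k.derivative.eval (kk h g 0) * kk h g 0 : ℝ) : ℂ) := by
  refine ev_Y_of h g _ (fun g => k.derivative.eval (kk h g 0) * kk h g 2) _
    (ev_Y k h P hP) ?_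
  have h1 := (pol_db k.derivative h g).fun_mul (kk_db2 h g)
  simp only [fb_zero, mul_one] at h1
  exact h1.congr_deriv (by ring)

theorem ev_dp (g : G) : ev h g (dp P) =
    (1 / 2) * (((k.derivative.eval (kk h g 0) * kk h g 1 : ℝ) : ℂ) -
      Complex.I * ((k.derivative.eval (kk h g 0) * kk h g 2 : ℝ) : ℂ)) := by
  rw [← ev_X k h P hP g, ← ev_Y k h P hP g, map_add, map_smul, map_sub, smul_eq_mul]
  linear_combination (1 / 2 : ℂ) * (ev h g (dp P) - ev h g (dm P)) * Complex.I_mul_I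

theorem ev_dm (g : G) : ev h g (dm P) =
    (1 / 2) * (((k.derivative.eval (kk h g 0) * kk h g 1 : ℝ) : ℂ) +
      Complex.I * ((k.derivative.eval (kk h g 0) * kk h g 2 : ℝ) : ℂ)) := by
  rw [← ev_X k h P hP g, ← ev_Y k h P hP g, map_add, map_smul, map_sub, smul_eq_mul]
  linear_combination (-1 / 2 : ℂ) * (ev h g (dp P) - ev h g (dm P)) * Complex.I_mul_I

theorem ev_lap (g : G) : ev h g (dp (dm P) + dm (dp P)) =
    (1 / 2) * (((k.derivative.derivative.eval (kk h g 0) * kk h g 1 ^ 2 -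
      k.derivative.eval (kk h g 0) * kk h g 0 : ℝ) : ℂ) +
      ((k.derivative.derivative.eval (kk h g 0) * kk h g 2 ^ 2 -
      k.derivative.eval (kk h g 0) * kk h g 0 : ℝ) : ℂ)) := by
  rw [← ev_XX k h P hP g, ← ev_YY k h P hP g]
  simp only [map_add, Derivation.map_smul, map_smul, map_sub, smul_eq_mul]
  linear_combination (-1 / 2 : ℂ) * (ev h g (dp (dp P)) - ev h g (dp (dm P)) -
    ev h g (dm (dp P)) + ev h g (dm (dm P))) * Complex.I_mul_I

theorem ev_dpdp (g : G) : ev h g (dp (dp P)) =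
    (1 / 4) * ((((k.derivative.derivative.eval (kk h g 0) * kk h g 1 ^ 2 -
      k.derivative.eval (kk h g 0) * kk h g 0) -
      (k.derivative.derivative.eval (kk h g 0) * kk h g 2 ^ 2 -
      k.derivative.eval (kk h g 0) * kk h g 0) : ℝ) : ℂ) -
      2 * Complex.I * ((k.derivative.derivative.eval (kk h g 0) * kk h g 1 * kk h g 2 : ℝ) : ℂ)) := by
  rw [Complex.ofReal_sub, ← ev_XX k h P hP g, ← ev_YY k h P hP g, two_mul, add_mul]
  nth_rewrite 1 [← ev_XY k h P hP g]
  rw [← ev_YX k h P hP g]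
  simp only [map_add, Derivation.map_smul, map_smul, map_sub, smul_eq_mul]
  linear_combination (1 / 4 : ℂ) * (3 * ev h g (dp (dp P)) - ev h g (dp (dm P)) -
    ev h g (dm (dp P)) - ev h g (dm (dm P))) * Complex.I_mul_I

theorem ev_dmdm (g : G) : ev h g (dm (dm P)) =
    (1 / 4) * ((((k.derivative.derivative.eval (kk h g 0) * kk h g 1 ^ 2 -
      k.derivative.eval (kk h g 0) * kk h g 0) -
      (k.derivative.derivative.eval (kk h g 0) * kk h g 2 ^ 2 -
      k.derivative.eval (kk h g 0) * kk h g 0) : ℝ) : ℂ) +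
      2 * Complex.I * ((k.derivative.derivative.eval (kk h g 0) * kk h g 1 * kk h g 2 : ℝ) : ℂ)) := by
  rw [Complex.ofReal_sub, ← ev_XX k h P hP g, ← ev_YY k h P hP g, two_mul, add_mul]
  nth_rewrite 1 [← ev_XY k h P hP g]
  rw [← ev_YX k h P hP g]
  simp only [map_add, Derivation.map_smul, map_smul, map_sub, smul_eq_mul]
  linear_combination (1 / 4 : ℂ) * (3 * ev h g (dm (dm P)) - ev h g (dp (dm P)) -
    ev h g (dm (dp P)) - ev h g (dp (dp P))) * Complex.I_mul_I

end zonal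

theorem ev_dp_Wm (n : ℕ) (h g : G) : ev h g (dp (Wm n 0)) =
    (1 / 2) * ((((kn n).derivative.eval (kk h g 0) * kk h g 1 : ℝ) : ℂ) -
      Complex.I * (((kn n).derivative.eval (kk h g 0) * kk h g 2 : ℝ) : ℂ)) :=
  ev_dp (kn n) h _ (ev_Wm_zero n h) g

theorem ev_dm_Wm (n : ℕ) (h g : G) : ev h g (dm (Wm n 0)) =
    (1 / 2) * ((((kn n).derivative.eval (kk h g 0) * kk h g 1 : ℝ) : ℂ) +
      Complex.I * (((kn n).derivative.eval (kk h g 0) * kk h g 2 : ℝ) : ℂ)) :=
  ev_dm (kn n) h _ (ev_Wm_zero n h) g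

theorem ev_Um_zero (n : ℕ) (h g : G) :
    ev h g (Um n 0) = (((lap2 (kn n)).eval (kk h g 0) : ℝ) : ℂ) := by
  unfold Um
  rw [map_add, map_smul, map_smul, ev_lap (kn n) h _ (ev_Wm_zero n h) g, ev_Wm_zero]
  have h1 : (lap2 (kn n)).eval (kk h g 0) =
      (1 - kk h g 0 ^ 2) * (kn n).derivative.derivative.eval (kk h g 0) -
        2 * kk h g 0 * (kn n).derivative.eval (kk h g 0) + 2 * (kn n).eval (kk h g 0) := by
    unfold lap2
    simp
  have h2 : (1 : ℝ) - kk h g 0 ^ 2 = kk h g 1 ^ 2 + kk h g 2 ^ 2 := by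
    have := kk_sq h g
    linarith
  rw [h1, h2]
  simp only [smul_eq_mul]
  push_cast
  ring

/-! ### integral transforms -/

theorem cint (A B : G → ℝ) (hA : Continuous A) (hB : Continuous B) (c d : ℂ) :
    ∫ h, (c * (A h : ℂ) + d * (B h : ℂ)) ∂μ =
      c * ((∫ h, A h ∂μ : ℝ) : ℂ) + d * ((∫ h, B h ∂μ : ℝ) : ℂ) := by
  have iA : Integrable (fun h => c * (A h : ℂ)) μ := (intg hA).ofReal.const_mul c
  have iB : Integrable (fun h => d * (B h : ℂ)) μ := (intg hB).ofReal.const_mul d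
  rw [integral_add iA iB, integral_const_mul, integral_const_mul, integral_complex_ofReal,
    integral_complex_ofReal]

theorem TT_dp (k : Polynomial ℝ) (P : DD) (hP : ∀ h g, ev h g P = ((k.eval (kk h g 0) : ℝ) : ℂ))
    (F : G → ℝ) (hF : Continuous F) (g : G) :
    TT F (dp P) g = (1 / 2) * (((SmJ k F).X g : ℂ) - Complex.I * ((SmJ k F).Y g : ℂ)) := by
  have hc1 : Continuous fun h => (k.derivative.eval (kk h g 0) * kk h g 1) * F h :=
    ((k.derivative.continuous.comp (kk_cont_left g 0)).mul (kk_cont_left g 1)).mul hF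
  have hc2 : Continuous fun h => (k.derivative.eval (kk h g 0) * kk h g 2) * F h :=
    ((k.derivative.continuous.comp (kk_cont_left g 0)).mul (kk_cont_left g 2)).mul hF
  have h1 := cint _ _ hc1 hc2 (1 / 2) (-(1 / 2) * Complex.I)
  have h2 : TT F (dp P) g = ∫ h, ((1 / 2 : ℂ) *
      (((k.derivative.eval (kk h g 0) * kk h g 1) * F h : ℝ) : ℂ) + (-(1 / 2) * Complex.I) *
      (((k.derivative.eval (kk h g 0) * kk h g 2) * F h : ℝ) : ℂ)) ∂μ := by
    unfold TT
    congr 1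
    funext h
    rw [ev_dp k h P (hP h) g]
    push_cast
    ring
  rw [h2, h1]
  simp only [SmJ]
  ring

theorem TT_dm (k : Polynomial ℝ) (P : DD) (hP : ∀ h g, ev h g P = ((k.eval (kk h g 0) : ℝ) : ℂ))
    (F : G → ℝ) (hF : Continuous F) (g : G) :
    TT F (dm P) g = (1 / 2) * (((SmJ k F).X g : ℂ) + Complex.I * ((SmJ k F).Y g : ℂ)) := by
  have hc1 : Continuous fun h => (k.derivative.eval (kk h g 0) * kk h g 1) * F h :=
    ((k.derivative.continuous.comp (kk_cont_left g 0)).mul (kk_cont_left g 1)).mul hF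
  have hc2 : Continuous fun h => (k.derivative.eval (kk h g 0) * kk h g 2) * F h :=
    ((k.derivative.continuous.comp (kk_cont_left g 0)).mul (kk_cont_left g 2)).mul hF
  have h1 := cint _ _ hc1 hc2 (1 / 2) ((1 / 2) * Complex.I)
  have h2 : TT F (dm P) g = ∫ h, ((1 / 2 : ℂ) *
      (((k.derivative.eval (kk h g 0) * kk h g 1) * F h : ℝ) : ℂ) + ((1 / 2) * Complex.I) *
      (((k.derivative.eval (kk h g 0) * kk h g 2) * F h : ℝ) : ℂ)) ∂μ := by
    unfold TT
    congr 1
    funext h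
    rw [ev_dm k h P (hP h) g]
    push_cast
    ring
  rw [h2, h1]
  simp only [SmJ]
  ring

theorem SmJ_diff (k : Polynomial ℝ) (F : G → ℝ) (hF : Continuous F) (g : G) :
    ∫ h, ((k.derivative.derivative.eval (kk h g 0) * kk h g 1 ^ 2 -
      k.derivative.eval (kk h g 0) * kk h g 0) -
      (k.derivative.derivative.eval (kk h g 0) * kk h g 2 ^ 2 -
      k.derivative.eval (kk h g 0) * kk h g 0)) * F h ∂μ = (SmJ k F).XX g - (SmJ k F).YY g := by
  have hk1 : Continuous fun h => k.derivative.eval (kk h g 0) :=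
    k.derivative.continuous.comp (kk_cont_left g 0)
  have hk2 : Continuous fun h => k.derivative.derivative.eval (kk h g 0) :=
    k.derivative.derivative.continuous.comp (kk_cont_left g 0)
  simp only [SmJ]
  rw [← integral_sub]
  · congr 1
    funext h
    ring
  · exact intg (((hk2.mul ((kk_cont_left g 1).pow 2)).sub (hk1.mul (kk_cont_left g 0))).mul hF)
  · exact intg (((hk2.mul ((kk_cont_left g 2).pow 2)).sub (hk1.mul (kk_cont_left g 0))).mul hF)

theorem TT_Um_two (n : ℕ) (F : G → ℝ) (hF : Continuous F) (g : G) :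
    TT F (Um n 2) g = -((((SmJ (kn n) F).XX g - (SmJ (kn n) F).YY g : ℝ) : ℂ) -
      2 * Complex.I * ((SmJ (kn n) F).XY g : ℂ)) := by
  set k := kn n with hk
  have hk1 : Continuous fun h => k.derivative.eval (kk h g 0) :=
    k.derivative.continuous.comp (kk_cont_left g 0)
  have hk2 : Continuous fun h => k.derivative.derivative.eval (kk h g 0) :=
    k.derivative.derivative.continuous.comp (kk_cont_left g 0)
  have hc1 : Continuous fun h => ((k.derivative.derivative.eval (kk h g 0) * kk h g 1 ^ 2 -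
      k.derivative.eval (kk h g 0) * kk h g 0) -
      (k.derivative.derivative.eval (kk h g 0) * kk h g 2 ^ 2 -
      k.derivative.eval (kk h g 0) * kk h g 0)) * F h :=
    (((hk2.mul ((kk_cont_left g 1).pow 2)).sub (hk1.mul (kk_cont_left g 0))).sub
      ((hk2.mul ((kk_cont_left g 2).pow 2)).sub (hk1.mul (kk_cont_left g 0)))).mul hF
  have hc2 : Continuous fun h => (k.derivative.derivative.eval (kk h g 0) * kk h g 1 *
      kk h g 2) * F h :=
    ((hk2.mul (kk_cont_left g 1)).mul (kk_cont_left g 2)).mul hF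
  have h1 := cint _ _ hc1 hc2 (-1) (2 * Complex.I)
  have h2 : TT F (Um n 2) g = ∫ h, ((-1 : ℂ) *
      ((((k.derivative.derivative.eval (kk h g 0) * kk h g 1 ^ 2 -
      k.derivative.eval (kk h g 0) * kk h g 0) -
      (k.derivative.derivative.eval (kk h g 0) * kk h g 2 ^ 2 -
      k.derivative.eval (kk h g 0) * kk h g 0)) * F h : ℝ) : ℂ) + (2 * Complex.I) *
      (((k.derivative.derivative.eval (kk h g 0) * kk h g 1 * kk h g 2) * F h : ℝ) : ℂ)) ∂μ := by
    unfold TT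
    congr 1
    funext h
    rw [Um_two, map_smul, ev_dpdp k h _ (ev_Wm_zero n h) g, smul_eq_mul]
    push_cast
    ring
  rw [h2, h1, SmJ_diff k F hF g]
  simp only [SmJ]
  ring

theorem TT_Um_neg_two (n : ℕ) (F : G → ℝ) (hF : Continuous F) (g : G) :
    TT F (Um n (-2)) g = -((((SmJ (kn n) F).XX g - (SmJ (kn n) F).YY g : ℝ) : ℂ) +
      2 * Complex.I * ((SmJ (kn n) F).XY g : ℂ)) := by
  set k := kn n with hk
  have hk1 : Continuous fun h => k.derivative.eval (kk h g 0) :=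
    k.derivative.continuous.comp (kk_cont_left g 0)
  have hk2 : Continuous fun h => k.derivative.derivative.eval (kk h g 0) :=
    k.derivative.derivative.continuous.comp (kk_cont_left g 0)
  have hc1 : Continuous fun h => ((k.derivative.derivative.eval (kk h g 0) * kk h g 1 ^ 2 -
      k.derivative.eval (kk h g 0) * kk h g 0) -
      (k.derivative.derivative.eval (kk h g 0) * kk h g 2 ^ 2 -
      k.derivative.eval (kk h g 0) * kk h g 0)) * F h :=
    (((hk2.mul ((kk_cont_left g 1).pow 2)).sub (hk1.mul (kk_cont_left g 0))).sub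
      ((hk2.mul ((kk_cont_left g 2).pow 2)).sub (hk1.mul (kk_cont_left g 0)))).mul hF
  have hc2 : Continuous fun h => (k.derivative.derivative.eval (kk h g 0) * kk h g 1 *
      kk h g 2) * F h :=
    ((hk2.mul (kk_cont_left g 1)).mul (kk_cont_left g 2)).mul hF
  have h1 := cint _ _ hc1 hc2 (-1) (-(2 * Complex.I))
  have h2 : TT F (Um n (-2)) g = ∫ h, ((-1 : ℂ) *
      ((((k.derivative.derivative.eval (kk h g 0) * kk h g 1 ^ 2 -
      k.derivative.eval (kk h g 0) * kk h g 0) -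
      (k.derivative.derivative.eval (kk h g 0) * kk h g 2 ^ 2 -
      k.derivative.eval (kk h g 0) * kk h g 0)) * F h : ℝ) : ℂ) + (-(2 * Complex.I)) *
      (((k.derivative.derivative.eval (kk h g 0) * kk h g 1 * kk h g 2) * F h : ℝ) : ℂ)) ∂μ := by
    unfold TT
    congr 1
    funext h
    rw [Um_neg_two, map_smul, ev_dmdm k h _ (ev_Wm_zero n h) g, smul_eq_mul]
    push_cast
    ring
  rw [h2, h1, SmJ_diff k F hF g]
  simp only [SmJ]
  ring

theorem ip_dp_of (k : Polynomial ℝ) (P : DD)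
    (hP : ∀ h g, ev h g P = ((k.eval (kk h g 0) : ℝ) : ℂ)) (F : G → ℝ) (hF : Continuous F) :
    (ip F (dp P) (dp P)).re = (1 / 4) * (SmJ k F).E := by
  have h1 : ip F (dp P) (dp P) =
      ∫ g, (((1 / 4) * ((SmJ k F).X g ^ 2 + (SmJ k F).Y g ^ 2) : ℝ) : ℂ) ∂μ := by
    unfold ip
    congr 1
    funext g
    rw [TT_dp k P hP F hF g, Complex.mul_conj]
    rw [Complex.normSq_mul, Complex.normSq_apply, Complex.normSq_apply]
    push_cast
    simp
    ring
  rw [h1, integral_complex_ofReal, Complex.ofReal_re, integral_const_mul]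
  rfl

theorem ip_dm_of (k : Polynomial ℝ) (P : DD)
    (hP : ∀ h g, ev h g P = ((k.eval (kk h g 0) : ℝ) : ℂ)) (F : G → ℝ) (hF : Continuous F) :
    (ip F (dm P) (dm P)).re = (1 / 4) * (SmJ k F).E := by
  have h1 : ip F (dm P) (dm P) =
      ∫ g, (((1 / 4) * ((SmJ k F).X g ^ 2 + (SmJ k F).Y g ^ 2) : ℝ) : ℂ) ∂μ := by
    unfold ip
    congr 1
    funext g
    rw [TT_dm k P hP F hF g, Complex.mul_conj]
    rw [Complex.normSq_mul, Complex.normSq_apply, Complex.normSq_apply]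
    push_cast
    simp
    ring
  rw [h1, integral_complex_ofReal, Complex.ofReal_re, integral_const_mul]
  rfl

theorem ip_dp_Wm (n : ℕ) (F : G → ℝ) (hF : Continuous F) :
    (ip F (dp (Wm n 0)) (dp (Wm n 0))).re = (1 / 4) * (SmJ (kn n) F).E :=
  ip_dp_of (kn n) _ (ev_Wm_zero n) F hF
theorem ip_dm_Wm (n : ℕ) (F : G → ℝ) (hF : Continuous F) :
    (ip F (dm (Wm n 0)) (dm (Wm n 0))).re = (1 / 4) * (SmJ (kn n) F).E :=
  ip_dm_of (kn n) _ (ev_Wm_zero n) F hF
theorem ip_dp_Um (n : ℕ) (F : G → ℝ) (hF : Continuous F) :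
    (ip F (dp (Um n 0)) (dp (Um n 0))).re = (1 / 4) * (SmJ (lap2 (kn n)) F).E :=
  ip_dp_of (lap2 (kn n)) _ (ev_Um_zero n) F hF
theorem ip_dm_Um (n : ℕ) (F : G → ℝ) (hF : Continuous F) :
    (ip F (dm (Um n 0)) (dm (Um n 0))).re = (1 / 4) * (SmJ (lap2 (kn n)) F).E :=
  ip_dm_of (lap2 (kn n)) _ (ev_Um_zero n) F hF

theorem TT_Um_zero (n : ℕ) (F : G → ℝ) (g : G) :
    TT F (Um n 0) g = ((Sm (lap2 (kn n)) F g : ℝ) : ℂ) := by
  unfold TT Sm
  rw [← integral_complex_ofReal]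
  congr 1
  funext h
  rw [ev_Um_zero]
  push_cast
  rfl

/-- Cauchy Schwarz for pairs -/
theorem cs_pair (X Y X' Y' : G → ℝ) (hX : Continuous X) (hY : Continuous Y) (hX' : Continuous X')
    (hY' : Continuous Y') :
    |∫ g, (X g * X' g + Y g * Y' g) ∂μ| ≤
      √(∫ g, (X g ^ 2 + Y g ^ 2) ∂μ) * √(∫ g, (X' g ^ 2 + Y' g ^ 2) ∂μ) := by
  set A := ∫ g, (X g ^ 2 + Y g ^ 2) ∂μ with hA
  set B := ∫ g, (X g * X' g + Y g * Y' g) ∂μ with hB
  set D := ∫ g, (X' g ^ 2 + Y' g ^ 2) ∂μ with hD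
  have hA0 : 0 ≤ A := integral_nonneg fun g => by positivity
  have hquad : ∀ s : ℝ, 0 ≤ D * (s * s) + (2 * B) * s + A := by
    intro s
    have h1 : 0 ≤ ∫ g, ((X g + s * X' g) ^ 2 + (Y g + s * Y' g) ^ 2) ∂μ :=
      integral_nonneg fun g => by positivity
    have h2 : ∫ g, ((X g + s * X' g) ^ 2 + (Y g + s * Y' g) ^ 2) ∂μ =
        D * (s * s) + (2 * B) * s + A := by
      have h3 : ∀ g, (X g + s * X' g) ^ 2 + (Y g + s * Y' g) ^ 2 =
          (s * s) * (X' g ^ 2 + Y' g ^ 2) + (2 * s) * (X g * X' g + Y g * Y' g) +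
            (X g ^ 2 + Y g ^ 2) := by intro g; ring
      simp_rw [h3]
      rw [integral_add, integral_add, integral_const_mul, integral_const_mul]
      · ring
      · exact intg (continuous_const.mul ((hX'.pow 2).add (hY'.pow 2)))
      · exact intg (continuous_const.mul ((hX.mul hX').add (hY.mul hY')))
      · exact intg ((continuous_const.mul ((hX'.pow 2).add (hY'.pow 2))).add
          (continuous_const.mul ((hX.mul hX').add (hY.mul hY'))))
      · exact intg ((hX.pow 2).add (hY.pow 2))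
    rwa [h2] at h1
  have hdis := discrim_le_zero hquad
  unfold discrim at hdis
  rw [← Real.sqrt_mul hA0]
  apply Real.abs_le_sqrt
  nlinarith

theorem ip_Um_zero (n : ℕ) (F : G → ℝ) (hF : Continuous F) :
    (ip F (Um n 0) (Um n 0)).re ≤ Dn n F := by
  set k := kn n with hk
  have hJ := SmJ_ok k F hF
  have hK := SmJ_ok (lap2 k) F hF
  set φ := SmJ k F with hφ
  set ψ := SmJ (lap2 k) F with hψ
  have hψf : ψ.f = Sm (lap2 k) F := rfl
  have hφf : φ.f = Sm k F := rfl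
  have h1 : (ip F (Um n 0) (Um n 0)).re = ∫ g, ψ.f g ^ 2 ∂μ := by
    have h2 : ip F (Um n 0) (Um n 0) = ∫ g, ((ψ.f g ^ 2 : ℝ) : ℂ) ∂μ := by
      unfold ip
      congr 1
      funext g
      rw [TT_Um_zero, Complex.conj_ofReal, hψf]
      push_cast
      ring
    rw [h2, integral_complex_ofReal, Complex.ofReal_re]
  have hlap : ∀ g, ψ.f g = φ.XX g + φ.YY g + 2 * φ.f g := fun g => (SmJ_lap k F hF g).symm
  -- integration by parts
  have ha : ∫ g, (φ.XX g * ψ.f g + φ.X g * ψ.X g) ∂μ = 0 :=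
    int_FDa (FD.mul fa_zero hJ.dXX hK.dX) (hJ.cX.mul hK.cf)
      ((hJ.cXX.mul hK.cf).add (hJ.cX.mul hK.cX))
  have hb : ∫ g, (φ.YY g * ψ.f g + φ.Y g * ψ.Y g) ∂μ = 0 :=
    int_FDb (FD.mul fb_zero hJ.dYY hK.dY) (hJ.cY.mul hK.cf)
      ((hJ.cYY.mul hK.cf).add (hJ.cY.mul hK.cY))
  have hsum : ∫ g, ψ.f g ^ 2 ∂μ = -(∫ g, (φ.X g * ψ.X g + φ.Y g * ψ.Y g) ∂μ) +
      ∫ g, 2 * φ.f g * ψ.f g ∂μ := by
    have h3 : ∀ g, ψ.f g ^ 2 = (φ.XX g * ψ.f g + φ.X g * ψ.X g) +
        (φ.YY g * ψ.f g + φ.Y g * ψ.Y g) + (-(φ.X g * ψ.X g + φ.Y g * ψ.Y g)) +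
        2 * φ.f g * ψ.f g := by
      intro g
      rw [sq]
      nth_rewrite 1 [hlap g]
      ring
    have c1 : Continuous fun g => φ.XX g * ψ.f g + φ.X g * ψ.X g :=
      (hJ.cXX.mul hK.cf).add (hJ.cX.mul hK.cX)
    have c2 : Continuous fun g => φ.YY g * ψ.f g + φ.Y g * ψ.Y g :=
      (hJ.cYY.mul hK.cf).add (hJ.cY.mul hK.cY)
    have c3 : Continuous fun g => -(φ.X g * ψ.X g + φ.Y g * ψ.Y g) :=
      ((hJ.cX.mul hK.cX).add (hJ.cY.mul hK.cY)).neg
    have c4 : Continuous fun g => 2 * φ.f g * ψ.f g := (continuous_const.mul hJ.cf).mul hK.cf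
    have c12 : Continuous fun g => (φ.XX g * ψ.f g + φ.X g * ψ.X g) +
        (φ.YY g * ψ.f g + φ.Y g * ψ.Y g) := c1.add c2
    have c123 : Continuous fun g => (φ.XX g * ψ.f g + φ.X g * ψ.X g) +
        (φ.YY g * ψ.f g + φ.Y g * ψ.Y g) + (-(φ.X g * ψ.X g + φ.Y g * ψ.Y g)) := c12.add c3
    simp_rw [h3]
    rw [integral_add (intg c123) (intg c4), integral_add (intg c12)
      (intg c3), integral_add (intg c1) (intg c2), ha, hb, integral_neg]
    ring
  have hcs := cs_pair φ.X φ.Y ψ.X ψ.Y hJ.cX hJ.cY hK.cX hK.cY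
  have hyoung : ∫ g, 2 * φ.f g * ψ.f g ∂μ ≤ 2 * n2 φ.f + (1 / 2) * ∫ g, ψ.f g ^ 2 ∂μ := by
    unfold n2
    have d1 : Continuous fun g => 2 * φ.f g ^ 2 := continuous_const.mul (hJ.cf.pow 2)
    have d2 : Continuous fun g => (1 / 2) * ψ.f g ^ 2 := continuous_const.mul (hK.cf.pow 2)
    have d3 : Continuous fun g => 2 * φ.f g * ψ.f g := (continuous_const.mul hJ.cf).mul hK.cf
    have d4 : Continuous fun g => 2 * φ.f g ^ 2 + (1 / 2) * ψ.f g ^ 2 := d1.add d2
    rw [← integral_const_mul, ← integral_const_mul, ← integral_add (intg d1) (intg d2)]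
    refine integral_mono (intg d3) (intg d4) ?_
    intro g
    simp only
    nlinarith [sq_nonneg (2 * φ.f g - ψ.f g)]
  have hE1 : (∫ g, (φ.X g ^ 2 + φ.Y g ^ 2) ∂μ) = φ.E := rfl
  have hE2 : (∫ g, (ψ.X g ^ 2 + ψ.Y g ^ 2) ∂μ) = ψ.E := rfl
  rw [hE1, hE2] at hcs
  have hle := neg_le_of_abs_le hcs
  rw [h1]
  unfold Dn
  rw [← hk, ← hφ, ← hψ, ← hφf]
  linarith

end Pool.Agent.Lib_MP_f78f32_gt
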