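import Pool.Agent.Lib_MP_f78f32_gt.GKpoly

/-!
# The scalar product of the polynomial model and the adjointness of `dp`, `dm`
-/

open MeasureTheory Real MvPolynomial
open scoped Matrix ComplexConjugate

namespace Pool.Agent.Lib_MP_f78f32_gt

private lemma intgC {F : G → ℂ} (hF : Continuous F) : Integrable F μ :=
  hF.integrable_of_hasCompactSupport (HasCompactSupport.of_compactSpace F)

private lemma ev_cont_left (P : DD) (g : G) : Continuous (fun h : G => ev h g P) := by
  have h1 : Continuous (fun h : G => ((h, g) : G × G)) := continuous_id.prodMk continuous_const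
  exact Continuous.comp (g := fun p : G × G => ev p.1 p.2 P) (f := fun h : G => ((h, g) : G × G))
    (ev_cont P) h1

private lemma ev_cont_right (P : DD) (h : G) : Continuous (fun g : G => ev h g P) := by
  have h1 : Continuous (fun g : G => ((h, g) : G × G)) := continuous_const.prodMk continuous_id
  exact Continuous.comp (g := fun p : G × G => ev p.1 p.2 P) (f := fun g : G => ((h, g) : G × G))
    (ev_cont P) h1

private lemma TT_integrand_cont (F : G → ℝ) (hF : Continuous F) (P : DD) (g : G) :
    Continuous (fun h : G => ev h g P * (F h : ℂ)) :=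
  (ev_cont_left P g).mul (Complex.continuous_ofReal.comp hF)

private lemma ev_bound (F : G → ℝ) (hF : Continuous F) (P : DD) :
    ∃ C : ℝ, ∀ h g : G, ‖ev h g P * (F h : ℂ)‖ ≤ C := by
  have hc : Continuous (fun p : G × G => ev p.1 p.2 P * (F p.1 : ℂ)) :=
    (ev_cont P).mul (Complex.continuous_ofReal.comp (hF.comp continuous_fst))
  obtain ⟨C, hC⟩ := (isCompact_range hc.norm).bddAbove
  exact ⟨C, fun h g => hC ⟨(h, g), rfl⟩⟩

private lemma TT_cont (F : G → ℝ) (hF : Continuous F) (P : DD) : Continuous (TT F P) := by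
  obtain ⟨C, hC⟩ := ev_bound F hF P
  unfold TT
  refine continuous_of_dominated (F := fun g h => ev h g P * (F h : ℂ)) (bound := fun _ => C)
    ?_ ?_ ?_ ?_
  · intro g; exact (TT_integrand_cont F hF P g).aestronglyMeasurable
  · intro g; exact Filter.Eventually.of_forall fun h => hC h g
  · exact integrable_const _
  · exact Filter.Eventually.of_forall fun h => (ev_cont_right P h).mul continuous_const

private lemma TT_add (F : G → ℝ) (hF : Continuous F) (P Q : DD) (g : G) :
    TT F (P + Q) g = TT F P g + TT F Q g := by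
  unfold TT
  rw [← integral_add (intgC (TT_integrand_cont F hF P g)) (intgC (TT_integrand_cont F hF Q g))]
  congr 1
  funext h
  rw [map_add]; ring

private lemma TT_smul (F : G → ℝ) (c : ℂ) (P : DD) (g : G) :
    TT F (c • P) g = c * TT F P g := by
  unfold TT
  rw [← integral_const_mul]
  congr 1
  funext h
  rw [map_smul, smul_eq_mul]; ring

private lemma TT_flow (F : G → ℝ) (hF : Continuous F) {c : ℝ → G} (hc : ∀ s t, c (s + t) = c s * c t)
    (P Q : DD)
    (hd : ∀ h g, HasDerivAt (fun t : ℝ => ev h (g * c t) P) (ev h g Q) 0) (g : G) :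
    HasDerivAt (fun t : ℝ => TT F P (g * c t)) (TT F Q g) 0 := by
  have h0 : c 0 = 1 := by
    have := hc 0 0
    simp only [add_zero] at this
    exact (mul_eq_left.mp this.symm)
  obtain ⟨C, hC⟩ := ev_bound F hF Q
  have hd' : ∀ h (t : ℝ), HasDerivAt (fun s : ℝ => ev h (g * c s) P) (ev h (g * c t) Q) t := by
    intro h t
    have h1 := hd h (g * c t)
    have h2 : HasDerivAt (fun s : ℝ => s - t) 1 t := (hasDerivAt_id t).sub_const t
    have h3 : HasDerivAt (fun s : ℝ => ev h (g * c t * c s) P) (ev h (g * c t) Q) (t - t) := by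
      simpa using h1
    have h4 := HasDerivAt.scomp (g₁ := fun s : ℝ => ev h (g * c t * c s) P)
      (h := fun s => s - t) t h3 h2
    simp only [one_smul] at h4
    refine h4.congr_of_eventuallyEq (Filter.Eventually.of_forall fun s => ?_)
    simp only [Function.comp_def]
    rw [mul_assoc g, ← hc]
    congr 3
    ring_nf
  have key := hasDerivAt_integral_of_dominated_loc_of_deriv_le (μ := μ) (𝕜 := ℝ)
    (F := fun (t : ℝ) (h : G) => ev h (g * c t) P * (F h : ℂ))
    (F' := fun (t : ℝ) (h : G) => ev h (g * c t) Q * (F h : ℂ)) (x₀ := 0)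
    (s := Set.univ) (bound := fun _ => C) Filter.univ_mem
    (Filter.Eventually.of_forall fun t =>
      (TT_integrand_cont F hF P (g * c t)).aestronglyMeasurable)
    (intgC (TT_integrand_cont F hF P (g * c 0)))
    ((TT_integrand_cont F hF Q (g * c 0)).aestronglyMeasurable)
    (Filter.Eventually.of_forall fun h t _ => hC h (g * c t))
    (integrable_const _)
    (Filter.Eventually.of_forall fun h t _ => (hd' h t).mul_const _)
  have h5 := key.2
  simp only [h0, mul_one] at h5
  exact h5

private lemma int_flowC {c : ℝ → G} (hc : ∀ s t, c (s + t) = c s * c t) (hcc : Continuous c)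
    {Φ Φ' : G → ℂ} (hd : ∀ g, HasDerivAt (fun t : ℝ => Φ (g * c t)) (Φ' g) 0)
    (hΦ : Continuous Φ) (hΦ' : Continuous Φ') : ∫ g, Φ' g ∂μ = 0 := by
  have hre : FD c (fun g => (Φ g).re) (fun g => (Φ' g).re) := fun g => by
    have := (Complex.reCLM.hasFDerivAt.comp_hasDerivAt (0 : ℝ) (hd g))
    simpa [Function.comp_def] using this
  have him : FD c (fun g => (Φ g).im) (fun g => (Φ' g).im) := fun g => by
    have := (Complex.imCLM.hasFDerivAt.comp_hasDerivAt (0 : ℝ) (hd g))
    simpa [Function.comp_def] using this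
  have h1 := int_FD hc hcc hre (Complex.continuous_re.comp hΦ) (Complex.continuous_re.comp hΦ')
  have h2 := int_FD hc hcc him (Complex.continuous_im.comp hΦ) (Complex.continuous_im.comp hΦ')
  have h3 : ((∫ g, Φ' g ∂μ) : ℂ).re = 0 := by
    rw [← h1]
    exact (Complex.reCLM.integral_comp_comm (intgC hΦ')).symm
  have h4 : ((∫ g, Φ' g ∂μ) : ℂ).im = 0 := by
    rw [← h2]
    exact (Complex.imCLM.integral_comp_comm (intgC hΦ')).symm
  exact Complex.ext h3 h4

private lemma ip_integrand_cont (F : G → ℝ) (hF : Continuous F) (P Q : DD) :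
    Continuous (fun g => TT F P g * conj (TT F Q g)) :=
  (TT_cont F hF P).mul (Complex.continuous_conj.comp (TT_cont F hF Q))

private lemma ip_flow (F : G → ℝ) (hF : Continuous F) {c : ℝ → G} (hc : ∀ s t, c (s + t) = c s * c t)
    (hcc : Continuous c) (X : DD → DD)
    (hd : ∀ P h g, HasDerivAt (fun t : ℝ => ev h (g * c t) P) (ev h g (X P)) 0) (P Q : DD) :
    ip F (X P) Q + ip F P (X Q) = 0 := by
  have h0 : c 0 = 1 := by
    have := hc 0 0
    simp only [add_zero] at this
    exact (mul_eq_left.mp this.symm)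
  unfold ip
  rw [← integral_add (intgC (ip_integrand_cont F hF _ _)) (intgC (ip_integrand_cont F hF _ _))]
  refine int_flowC hc hcc (Φ := fun g => TT F P g * conj (TT F Q g)) ?_
    (ip_integrand_cont F hF _ _)
    ((ip_integrand_cont F hF _ _).add (ip_integrand_cont F hF _ _))
  intro g
  have h1 := TT_flow F hF hc P (X P) (hd P) g
  have h2 := TT_flow F hF hc Q (X Q) (hd Q) g
  have h3 : HasDerivAt (fun t : ℝ => conj (TT F Q (g * c t))) (conj (TT F (X Q) g)) 0 := by
    have := (Complex.conjCLE.toContinuousLinearMap.hasFDerivAt.comp_hasDerivAt (0 : ℝ) h2)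
    simpa [Function.comp_def] using this
  have h4 := h1.mul h3
  simp only [h0, mul_one] at h4
  exact h4

theorem ip_add (F : G → ℝ) (hF : Continuous F) (P Q R : DD) :
    ip F (P + Q) R = ip F P R + ip F Q R := by
  unfold ip
  rw [← integral_add (intgC (ip_integrand_cont F hF _ _)) (intgC (ip_integrand_cont F hF _ _))]
  congr 1
  funext g
  rw [TT_add F hF]; ring

theorem ip_smul (F : G → ℝ) (hF : Continuous F) (c : ℂ) (P Q : DD) :
    ip F (c • P) Q = c * ip F P Q := by
  have _ := hF
  unfold ip
  rw [← integral_const_mul]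
  congr 1
  funext g
  rw [TT_smul]; ring

theorem ip_conj (F : G → ℝ) (hF : Continuous F) (P Q : DD) :
    ip F Q P = conj (ip F P Q) := by
  have _ := hF
  unfold ip
  rw [← integral_conj]
  congr 1
  funext g
  rw [map_mul, Complex.conj_conj]; ring

theorem ip_pos (F : G → ℝ) (hF : Continuous F) (P : DD) : 0 ≤ (ip F P P).re := by
  unfold ip
  have h1 : ((∫ g, TT F P g * conj (TT F P g) ∂μ) : ℂ).re
      = ∫ g, (TT F P g * conj (TT F P g)).re ∂μ :=
    (Complex.reCLM.integral_comp_comm (intgC (ip_integrand_cont F hF P P))).symm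
  rw [h1]
  refine integral_nonneg fun g => ?_
  rw [Complex.mul_conj]
  simpa using Complex.normSq_nonneg _

theorem ip_adj (F : G → ℝ) (hF : Continuous F) (P Q : DD) :
    ip F (dp P) Q = - ip F P (dm Q) := by
  have h1 := ip_flow F hF fa_add fa_cont (fun P => dp P + dm P) (fun P h g => ev_fa h g P) P Q
  have h2 := ip_flow F hF fb_add fb_cont (fun P => Complex.I • (dp P - dm P))
    (fun P h g => ev_fb h g P) P Q
  have hadd2 : ∀ A B C : DD, ip F A (B + C) = ip F A B + ip F A C := by
    intro A B C
    rw [ip_conj F hF (B + C) A, ip_add F hF, map_add, ← ip_conj F hF, ← ip_conj F hF]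
  have hsmul2 : ∀ (c : ℂ) (A B : DD), ip F A (c • B) = conj c * ip F A B := by
    intro c A B
    rw [ip_conj F hF (c • B) A, ip_smul F hF, map_mul, ← ip_conj F hF]
  have hsub : ∀ A B : DD, A - B = A + (-1 : ℂ) • B := by
    intro A B; rw [neg_smul, one_smul, sub_eq_add_neg]
  simp only [hsub, smul_add, smul_smul, ip_add F hF, hadd2, ip_smul F hF, hsmul2, map_mul,
    Complex.conj_I, map_neg, map_one] at h1 h2
  have h3 := congrArg (fun z => -Complex.I * z) h2
  simp only [mul_zero] at h3
  have hI : Complex.I * Complex.I = -1 := Complex.I_mul_I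
  linear_combination (1 / 2) * h1 + (1 / 2) * h3 +
    ((1 / 2) * (ip F (dp P) Q - ip F (dm P) Q - ip F P (dp Q) + ip F P (dm Q))) * hI

end Pool.Agent.Lib_MP_f78f32_gt
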