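import Pool.Agent.Lib_MP_f78f32_gt.GKDefs

/-!
# The graded polynomial model: derivations, evaluation, flows
-/

open MeasureTheory Real MvPolynomial
open scoped Matrix ComplexConjugate

namespace Pool.Agent.Lib_MP_f78f32_gt

/-- a derivation whose values on the variables are homogeneous shifts the weight -/
lemma gkp_der_mem (f : Fin 3 → DD) (d : ℤ) (hf : ∀ i, f i ∈ gr (wt i + d)) (m : ℤ) (P : DD)
    (h : P ∈ gr m) : MvPolynomial.mkDerivation ℂ f P ∈ gr (m + d) := by
  have hP : P = ∑ s ∈ P.support, monomial s (coeff s P) := P.as_sum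
  rw [hP, map_sum]
  refine Submodule.sum_mem _ fun s hs => ?_
  have hw : Finsupp.weight wt s = m := by
    have := (mem_weightedHomogeneousSubmodule ℂ wt m P).mp h
    exact this (mem_support_iff.mp hs)
  rw [mkDerivation_monomial]
  refine Submodule.smul_mem _ _ ?_
  rw [Finsupp.sum]
  refine Submodule.sum_mem _ fun i hi => ?_
  have hi' : s i ≠ 0 := Finsupp.mem_support_iff.mp hi
  have hle : Finsupp.single i 1 ≤ s := by
    rw [Finsupp.single_le_iff]
    omega
  have hs2 : s - Finsupp.single i 1 + Finsupp.single i 1 = s := tsub_add_cancel_of_le hle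
  have hw2 : Finsupp.weight wt (s - Finsupp.single i 1) + wt i = m := by
    rw [← hw]
    conv_rhs => rw [← hs2]
    rw [map_add, Finsupp.weight_single, one_smul]
  have h1 : (monomial (s - Finsupp.single i 1) (s i : ℂ)) ∈
      gr (Finsupp.weight wt (s - Finsupp.single i 1)) :=
    isWeightedHomogeneous_monomial wt _ _ rfl
  have h2 : IsWeightedHomogeneous wt (monomial (s - Finsupp.single i 1) (s i : ℂ) * f i)
      (Finsupp.weight wt (s - Finsupp.single i 1) + (wt i + d)) :=
    IsWeightedHomogeneous.mul h1 (hf i)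
  have h3 : Finsupp.weight wt (s - Finsupp.single i 1) + (wt i + d) = m + d := by
    rw [← add_assoc, hw2]
  rw [h3] at h2
  exact h2

theorem dp_mem (m : ℤ) (P : DD) (h : P ∈ gr m) : dp P ∈ gr (m + 1) := by
  refine gkp_der_mem _ 1 ?_ m P h
  intro i
  have hX : ∀ j : Fin 3, (X j : DD) ∈ gr (wt j) := fun j => isWeightedHomogeneous_X ℂ wt j
  fin_cases i
  · have := hX 2
    have h2 : C (1 / 2) * (X 2 : DD) = (1 / 2 : ℂ) • (X 2 : DD) := by
      rw [smul_eq_C_mul]
    simp only [Fin.zero_eta, Fin.isValue, Matrix.cons_val_zero]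
    rw [h2]
    exact Submodule.smul_mem _ _ (by simpa [wt] using this)
  · have := hX 0
    exact Submodule.neg_mem _ (by simpa [wt] using this)
  · exact Submodule.zero_mem _

theorem dm_mem (m : ℤ) (P : DD) (h : P ∈ gr m) : dm P ∈ gr (m - 1) := by
  rw [sub_eq_add_neg]
  refine gkp_der_mem _ (-1) ?_ m P h
  intro i
  have hX : ∀ j : Fin 3, (X j : DD) ∈ gr (wt j) := fun j => isWeightedHomogeneous_X ℂ wt j
  fin_cases i
  · have := hX 1
    have h2 : C (1 / 2) * (X 1 : DD) = (1 / 2 : ℂ) • (X 1 : DD) := by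
      rw [smul_eq_C_mul]
    simp only [Fin.zero_eta, Fin.isValue, Matrix.cons_val_zero]
    rw [h2]
    exact Submodule.smul_mem _ _ (by simpa [wt] using this)
  · exact Submodule.zero_mem _
  · have := hX 0
    exact Submodule.neg_mem _ (by simpa [wt] using this)

/-- the weight derivation -/
lemma gkp_euler (c : ℂ) (m : ℤ) (P : DD) (h : P ∈ gr m) :
    MvPolynomial.mkDerivation ℂ (fun i => (c * (wt i : ℂ)) • (X i : DD)) P = (c * (m : ℂ)) • P := by
  have hP : P = ∑ s ∈ P.support, monomial s (coeff s P) := P.as_sum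
  conv_lhs => rw [hP]
  conv_rhs => rw [hP]
  rw [map_sum, Finset.smul_sum]
  refine Finset.sum_congr rfl fun s hs => ?_
  have hw : Finsupp.weight wt s = m := by
    have := (mem_weightedHomogeneousSubmodule ℂ wt m P).mp h
    exact this (mem_support_iff.mp hs)
  rw [mkDerivation_monomial, Finsupp.sum]
  have h1 : ∀ i ∈ s.support, monomial (s - Finsupp.single i 1) (s i : ℂ) •
      ((c * (wt i : ℂ)) • (X i : DD)) = (c * ((s i : ℂ) * (wt i : ℂ))) • monomial s 1 := by
    intro i hi
    have hi' : s i ≠ 0 := Finsupp.mem_support_iff.mp hi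
    have hle : Finsupp.single i 1 ≤ s := by
      rw [Finsupp.single_le_iff]
      omega
    have hs2 : s - Finsupp.single i 1 + Finsupp.single i 1 = s := tsub_add_cancel_of_le hle
    rw [smul_eq_mul, mul_smul_comm, X, monomial_mul, hs2, mul_one, smul_monomial, smul_monomial]
    congr 1
    simp only [smul_eq_mul]
    ring
  rw [Finset.sum_congr rfl h1, ← Finset.sum_smul, smul_smul, ← Finset.mul_sum]
  have h2 : (∑ i ∈ s.support, (s i : ℂ) * (wt i : ℂ)) = (m : ℂ) := by
    rw [← hw, Finsupp.weight_apply, Finsupp.sum]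
    push_cast
    refine Finset.sum_congr rfl fun i _ => ?_
    simp
  rw [h2, smul_monomial, smul_monomial]
  congr 1
  simp only [smul_eq_mul]
  ring

theorem comm_dp_dm (m : ℤ) (P : DD) (h : P ∈ gr m) :
    dp (dm P) - dm (dp P) = (-(m : ℂ) / 2) • P := by
  have h1 : (⁅dp, dm⁆ : Derivation ℂ DD DD) =
      MvPolynomial.mkDerivation ℂ (fun i => ((-1 / 2 : ℂ) * (wt i : ℂ)) • (X i : DD)) := by
    apply MvPolynomial.derivation_ext
    intro i
    rw [Derivation.commutator_apply, mkDerivation_X]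
    fin_cases i
    · simp [dp, dm, wt, Derivation.leibniz]
    · simp only [dp, dm, wt, Fin.mk_one, Fin.isValue, mkDerivation_X, Matrix.cons_val_one,
        Matrix.cons_val_zero, map_zero, map_neg]
      rw [smul_eq_C_mul, sub_neg_eq_add, zero_add]
      congr 2
      push_cast
      ring
    · simp only [dp, dm, wt, Fin.reduceFinMk, Fin.isValue, mkDerivation_X, Matrix.cons_val,
        Matrix.cons_val_zero, map_zero, map_neg]
      rw [smul_eq_C_mul, sub_zero, ← neg_mul, ← C_neg]
      congr 2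
      push_cast
      ring
  have h2 := congrArg (fun D : Derivation ℂ DD DD => D P) h1
  simp only [Derivation.commutator_apply] at h2
  rw [h2, gkp_euler _ m P h]
  congr 1
  ring

/-- chain rule for the evaluation along a flow -/
lemma gkp_ev (h g : G) (c : ℝ → G) (hc : c 0 = 1) (D : Derivation ℂ DD DD)
    (hX : ∀ n, HasDerivAt (fun t : ℝ => ev h (g * c t) (X n)) (ev h g (D (X n))) 0) (P : DD) :
    HasDerivAt (fun t : ℝ => ev h (g * c t) P) (ev h g (D P)) 0 := by
  induction P using MvPolynomial.induction_on with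
  | C a =>
    have h1 : ∀ t : ℝ, ev h (g * c t) (C a) = a := fun t => by simp [ev]
    have h2 : D (C a) = 0 := by
      rw [← algebraMap_eq]; exact D.map_algebraMap a
    simp_rw [h1]
    rw [h2, map_zero]
    exact hasDerivAt_const _ _
  | add P Q hP hQ =>
    simp only [map_add]
    exact hP.add hQ
  | mul_X P n hP =>
    have h1 := hP.mul (hX n)
    simp only [hc, mul_one] at h1
    rw [Derivation.leibniz, smul_eq_mul, smul_eq_mul, map_add, map_mul, map_mul]
    simp only [map_mul]
    refine h1.congr_deriv ?_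
    ring

lemma gkp_ev_X0 (h g : G) : ev h g (X 0) = (kk h g 0 : ℂ) := by simp [ev]
lemma gkp_ev_X1 (h g : G) : ev h g (X 1) = (kk h g 1 : ℂ) + Complex.I * (kk h g 2 : ℂ) := by
  simp [ev]
lemma gkp_ev_X2 (h g : G) : ev h g (X 2) = (kk h g 1 : ℂ) - Complex.I * (kk h g 2 : ℂ) := by
  simp [ev]

lemma gkp_cs (a b : ℝ) : HasDerivAt (fun t : ℝ => cos t * a + sin t * b) b 0 := by
  have h1 := ((hasDerivAt_cos 0).mul_const a).add ((hasDerivAt_sin 0).mul_const b)
  refine (h1.congr_deriv ?_)
  simp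

lemma gkp_ks_fa (h g : G) :
    HasDerivAt (fun t : ℝ => ((kk h (g * fa t) 0 : ℝ) : ℂ)) (kk h g 1 : ℂ) 0 ∧
    HasDerivAt (fun t : ℝ => ((kk h (g * fa t) 1 : ℝ) : ℂ)) (-(kk h g 0 : ℂ)) 0 ∧
    HasDerivAt (fun t : ℝ => ((kk h (g * fa t) 2 : ℝ) : ℂ)) 0 0 := by
  refine ⟨?_, ?_, ?_⟩
  · simp_rw [(kk_fa h g _).1]
    exact (gkp_cs _ _).ofReal_comp
  · simp_rw [(kk_fa h g _).2.1]
    have h1 := (gkp_cs (kk h g 1) (-kk h g 0)).ofReal_comp
    have h2 : ∀ t : ℝ, -sin t * kk h g 0 + cos t * kk h g 1 =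
        cos t * kk h g 1 + sin t * -kk h g 0 := fun t => by ring
    simp_rw [h2]
    simpa using h1
  · simp_rw [(kk_fa h g _).2.2]
    exact hasDerivAt_const _ _

lemma gkp_ks_fb (h g : G) :
    HasDerivAt (fun t : ℝ => ((kk h (g * fb t) 0 : ℝ) : ℂ)) (kk h g 2 : ℂ) 0 ∧
    HasDerivAt (fun t : ℝ => ((kk h (g * fb t) 1 : ℝ) : ℂ)) 0 0 ∧
    HasDerivAt (fun t : ℝ => ((kk h (g * fb t) 2 : ℝ) : ℂ)) (-(kk h g 0 : ℂ)) 0 := by
  refine ⟨?_, ?_, ?_⟩
  · simp_rw [(kk_fb h g _).1]
    exact (gkp_cs _ _).ofReal_comp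
  · simp_rw [(kk_fb h g _).2.1]
    exact hasDerivAt_const _ _
  · simp_rw [(kk_fb h g _).2.2]
    have h1 := (gkp_cs (kk h g 2) (-kk h g 0)).ofReal_comp
    have h2 : ∀ t : ℝ, -sin t * kk h g 0 + cos t * kk h g 2 =
        cos t * kk h g 2 + sin t * -kk h g 0 := fun t => by ring
    simp_rw [h2]
    simpa using h1

theorem ev_fa (h g : G) (P : DD) :
    HasDerivAt (fun t : ℝ => ev h (g * fa t) P) (ev h g (dp P + dm P)) 0 := by
  have h1 := gkp_ev h g fa fa_zero (dp + dm) ?_ P
  · simpa using h1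
  intro n
  obtain ⟨k0, k1, k2⟩ := gkp_ks_fa h g
  have hI := Complex.I_mul_I
  fin_cases n
  · simp only [Fin.zero_eta, gkp_ev_X0]
    refine k0.congr_deriv ?_
    simp only [dp, dm, Derivation.add_apply, mkDerivation_X, map_add, Matrix.cons_val_zero,
      map_mul, gkp_ev_X1, gkp_ev_X2]
    simp only [ev, aeval_C, Algebra.algebraMap_self, RingHom.id_apply]
    ring
  · simp only [Fin.mk_one, gkp_ev_X1]
    refine (k1.add (k2.const_mul Complex.I)).congr_deriv ?_
    simp [dp, dm, gkp_ev_X0]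
  · simp only [Fin.reduceFinMk, gkp_ev_X2]
    refine (k1.sub (k2.const_mul Complex.I)).congr_deriv ?_
    simp [dp, dm, gkp_ev_X0]

theorem ev_fb (h g : G) (P : DD) :
    HasDerivAt (fun t : ℝ => ev h (g * fb t) P)
      (ev h g (Complex.I • (dp P - dm P))) 0 := by
  have h1 := gkp_ev h g fb fb_zero (Complex.I • (dp - dm)) ?_ P
  · simpa using h1
  intro n
  obtain ⟨k0, k1, k2⟩ := gkp_ks_fb h g
  have hI := Complex.I_mul_I
  fin_cases n
  · simp only [Fin.zero_eta, gkp_ev_X0]
    refine k0.congr_deriv ?_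
    simp only [dp, dm, Derivation.smul_apply, Derivation.sub_apply, mkDerivation_X, map_sub,
      Matrix.cons_val_zero, map_mul, gkp_ev_X1, gkp_ev_X2, map_smul]
    simp only [ev, aeval_C, Algebra.algebraMap_self, RingHom.id_apply, smul_eq_mul]
    linear_combination (kk h g 2 : ℂ) * hI
  · simp only [Fin.mk_one, gkp_ev_X1]
    refine (k1.add (k2.const_mul Complex.I)).congr_deriv ?_
    simp [dp, dm, gkp_ev_X0]
  · simp only [Fin.reduceFinMk, gkp_ev_X2]
    refine (k1.sub (k2.const_mul Complex.I)).congr_deriv ?_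
    simp [dp, dm, gkp_ev_X0]

theorem ev_fr (h g : G) (m : ℤ) (P : DD) (hP : P ∈ gr m) (t : ℝ) :
    ev h (g * fr t) P = Complex.exp (Complex.I * m * t) * ev h g P := by
  have hx : ∀ i : Fin 3, ev h (g * fr t) (X i) =
      Complex.exp (Complex.I * (wt i : ℂ) * t) * ev h g (X i) := by
    obtain ⟨e0, e1, e2⟩ := kk_fr h g t
    have hI := Complex.I_mul_I
    intro i
    fin_cases i
    · simp [gkp_ev_X0, e0, wt]
    · simp only [Fin.mk_one, gkp_ev_X1, e1, e2, wt, Matrix.cons_val_one, Matrix.cons_val_zero]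
      have h1 : Complex.I * (((-1 : ℤ)) : ℂ) * (t : ℂ) = ((-t : ℝ) : ℂ) * Complex.I := by
        push_cast; ring
      rw [h1, Complex.exp_mul_I, ← Complex.ofReal_cos, ← Complex.ofReal_sin, Real.cos_neg,
        Real.sin_neg]
      push_cast
      linear_combination ((kk h g 2 : ℂ) * Complex.sin t) * hI
    · simp only [Fin.reduceFinMk, gkp_ev_X2, e1, e2, wt, Matrix.cons_val]
      have h1 : Complex.I * (((1 : ℤ)) : ℂ) * (t : ℂ) = ((t : ℝ) : ℂ) * Complex.I := by
        push_cast; ring
      rw [h1, Complex.exp_mul_I, ← Complex.ofReal_cos, ← Complex.ofReal_sin]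
      push_cast
      linear_combination ((kk h g 2 : ℂ) * Complex.sin t) * hI
  have hP2 : P = ∑ s ∈ P.support, monomial s (coeff s P) := P.as_sum
  conv_lhs => rw [hP2]
  conv_rhs => rw [hP2]
  rw [map_sum, map_sum, Finset.mul_sum]
  refine Finset.sum_congr rfl fun s hs => ?_
  have hw : Finsupp.weight wt s = m := by
    have := (mem_weightedHomogeneousSubmodule ℂ wt m P).mp hP
    exact this (mem_support_iff.mp hs)
  have hmon : ∀ g' : G, ev h g' (monomial s (coeff s P)) =
      coeff s P * ∏ i ∈ s.support, (ev h g' (X i)) ^ (s i) := by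
    intro g'
    rw [monomial_eq, map_mul, Finsupp.prod, map_prod]
    simp only [map_pow]
    simp [ev]
  rw [hmon, hmon]
  simp_rw [hx, mul_pow]
  rw [Finset.prod_mul_distrib]
  have h5 : ∏ i ∈ s.support, Complex.exp (Complex.I * (wt i : ℂ) * t) ^ (s i) =
      Complex.exp (Complex.I * m * t) := by
    simp_rw [← Complex.exp_nat_mul]
    rw [← Complex.exp_sum]
    congr 1
    rw [← hw, Finsupp.weight_apply, Finsupp.sum]
    push_cast
    rw [Finset.mul_sum, Finset.sum_mul]
    refine Finset.sum_congr rfl fun i _ => ?_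
    simp
    ring
  rw [h5]
  ring

theorem ev_cont (P : DD) : Continuous (fun p : G × G => ev p.1 p.2 P) := by
  have k := kk_cont
  have kc : ∀ j, Continuous (fun p : G × G => ((kk p.1 p.2 j : ℝ) : ℂ)) := fun j =>
    Complex.continuous_ofReal.comp (kk_cont j)
  have hX : ∀ n : Fin 3, Continuous (fun p : G × G => ev p.1 p.2 (X n)) := by
    intro n
    fin_cases n
    · simp only [Fin.zero_eta, gkp_ev_X0]
      exact kc 0
    · simp only [Fin.mk_one, gkp_ev_X1]
      exact (kc 1).add (continuous_const.mul (kc 2))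
    · simp only [Fin.reduceFinMk, gkp_ev_X2]
      exact (kc 1).sub (continuous_const.mul (kc 2))
  induction P using MvPolynomial.induction_on with
  | C a =>
    have h1 : ∀ p : G × G, ev p.1 p.2 (C a) = a := fun p => by simp [ev]
    simp_rw [h1]
    exact continuous_const
  | add P Q hP hQ =>
    simp only [map_add]
    exact hP.add hQ
  | mul_X P n hP =>
    simp only [map_mul]
    exact hP.mul (hX n)

end Pool.Agent.Lib_MP_f78f32_gt
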