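import Pool.Agent.Lib_MP_f78f32_gt.GKDefs
import Pool.Agent.Lib_MP_f78f32_gt.SmJ
import Pool.Agent.Lib_MP_f78f32_gt.GKabs
import Pool.Agent.Lib_MP_f78f32_gt.GKpoly
import Pool.Agent.Lib_MP_f78f32_gt.GKip
import Pool.Agent.Lib_MP_f78f32_gt.GKmode
import Pool.Agent.Lib_MP_f78f32_gt.GKid

set_option autoImplicit false

/-!
# The interface theorem of the mode decomposition
-/

open MeasureTheory Real
open scoped Matrix ComplexConjugate

namespace Pool.Agent.Lib_MP_f78f32_gt

section gkmain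

private lemma intgC {F : G → ℂ} (hF : Continuous F) : Integrable F μ :=
  hF.integrable_of_hasCompactSupport (HasCompactSupport.of_compactSpace F)

/-- continuity of parameter integrals -/
private lemma cont_param {E : Type*} [NormedAddCommGroup E] [NormedSpace ℝ E]
    {K : G → G → E} (hK : Continuous (fun p : G × G => K p.1 p.2)) :
    Continuous (fun g => ∫ h, K h g ∂μ) := by
  have h1 : Continuous (Function.uncurry fun g h => K h g) := by
    have : (Function.uncurry fun g h => K h g) = (fun p : G × G => K p.1 p.2) ∘ Prod.swap := by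
      ext ⟨a, b⟩; rfl
    rw [this]
    exact hK.comp continuous_swap
  have := continuous_parametric_integral_of_continuous (μ := μ) h1 (s := Set.univ) isCompact_univ
  simpa using this

private lemma TT_cont (F : G → ℝ) (hF : Continuous F) (P : DD) : Continuous (TT F P) := by
  apply cont_param (K := fun h g => ev h g P * (F h : ℂ))
  exact (ev_cont P).mul (Complex.continuous_ofReal.comp (hF.comp continuous_fst))

private lemma TT_fr (F : G → ℝ) (m : ℤ) (P : DD) (hP : P ∈ gr m) (g : G) (t : ℝ) :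
    TT F P (g * fr t) = Complex.exp (Complex.I * m * t) * TT F P g := by
  simp only [TT]
  rw [← integral_const_mul]
  congr 1
  ext h
  rw [ev_fr h g m P hP t]
  ring

private lemma int_rightC (F : G → ℂ) (h : G) : ∫ g, F (g * h) ∂μ = ∫ g, F g ∂μ :=
  integral_mul_right_eq_self F h

/-- functions of different modes are orthogonal -/
private lemma int_mode_zero (V : G → ℂ) (l : ℤ) (hl : l ≠ 0)
    (hV : ∀ g t, V (g * fr t) = Complex.exp (Complex.I * l * t) * V g) :
    ∫ g, V g ∂μ = 0 := by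
  have h1 := int_rightC V (fr (π / l))
  have h2 : ∀ g, V (g * fr (π / l)) = -V g := by
    intro g
    rw [hV]
    have h3 : Complex.I * (l : ℂ) * ((π / l : ℝ) : ℂ) = π * Complex.I := by
      push_cast
      have : (l : ℂ) ≠ 0 := by exact_mod_cast hl
      field_simp
    rw [h3, Complex.exp_pi_mul_I]
    ring
  simp_rw [h2] at h1
  rw [integral_neg] at h1
  have h4 : (2 : ℂ) * ∫ g, V g ∂μ = 0 := by linear_combination -h1
  simpa using h4

/-- the dual function -/
noncomputable def gku (n : ℕ) (F : G → ℝ) (g : G) : ℝ :=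
  ∫ h, (lap2 (kap n)).eval (kk h g 2) * F h ∂μ

private lemma gku_cont (n : ℕ) (F : G → ℝ) (hF : Continuous F) : Continuous (gku n F) := by
  apply cont_param (K := fun h g => (lap2 (kap n)).eval (kk h g 2) * F h)
  exact ((lap2 (kap n)).continuous.comp (kk_cont 2)).mul (hF.comp continuous_fst)

private lemma gku_sum (n : ℕ) (F : G → ℝ) (hF : Continuous F) (g : G) :
    (gku n F g : ℂ) = ∑ j ∈ Finset.Icc (-(n : ℤ)) n, TT F (Um n (2 * j)) g := by
  simp only [TT, gku]
  rw [← integral_finsetSum]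
  · rw [← integral_complex_ofReal]
    congr 1
    ext h
    push_cast
    rw [← Finset.sum_mul, Um_sum]
  · intro j _
    apply intgC
    exact ((ev_cont _).comp (continuous_id.prodMk continuous_const)).mul
      (Complex.continuous_ofReal.comp hF)

/-- pairing with a function of an even mode -/
private lemma gku_pair (n : ℕ) (F : G → ℝ) (hF : Continuous F) (V : G → ℂ) (hV : Continuous V)
    (i : ℤ) (hm : ∀ g t, V (g * fr t) = Complex.exp (Complex.I * ((-(2 * i) : ℤ) : ℂ) * t) * V g) :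
    ∫ g, (gku n F g : ℂ) * V g ∂μ =
      if i ∈ Finset.Icc (-(n : ℤ)) n then ∫ g, TT F (Um n (2 * i)) g * V g ∂μ else 0 := by
  have h1 : ∀ g, (gku n F g : ℂ) * V g =
      ∑ j ∈ Finset.Icc (-(n : ℤ)) n, TT F (Um n (2 * j)) g * V g := by
    intro g
    rw [gku_sum n F hF g, Finset.sum_mul]
  simp_rw [h1]
  rw [integral_finsetSum]
  · have h2 : ∀ j ∈ Finset.Icc (-(n : ℤ)) n, ∫ g, TT F (Um n (2 * j)) g * V g ∂μ =
        if i = j then ∫ g, TT F (Um n (2 * j)) g * V g ∂μ else 0 := by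
      intro j _
      by_cases hij : i = j
      · rw [if_pos hij]
      · rw [if_neg hij]
        apply int_mode_zero _ (2 * j - 2 * i) (by omega)
        intro g t
        rw [TT_fr F (2 * j) _ (Um_mem n (2 * j)), hm]
        have : Complex.exp (Complex.I * ((2 * j - 2 * i : ℤ) : ℂ) * t) =
            Complex.exp (Complex.I * ((2 * j : ℤ) : ℂ) * t) *
              Complex.exp (Complex.I * ((-(2 * i) : ℤ) : ℂ) * t) := by
          rw [← Complex.exp_add]
          congr 1
          push_cast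
          ring
        rw [this]
        ring
    rw [Finset.sum_congr rfl h2, Finset.sum_ite_eq]
  · intro j _
    exact intgC ((TT_cont F hF _).mul hV)

private lemma TT_Um_zero_aux (n : ℕ) (F : G → ℝ) (g : G) :
    TT F (Um n 0) g = ((Sm (lap2 (kn n)) F g : ℝ) : ℂ) := by
  simp only [TT, Sm]
  rw [← integral_complex_ofReal]
  congr 1
  ext h
  rw [ev_Um_zero]
  push_cast
  rfl

private lemma ip_norm (F : G → ℝ) (P : DD) :
    (ip F P P).re = ∫ g, ‖TT F P g‖ ^ 2 ∂μ := by
  have h1 : ip F P P = ((∫ g, ‖TT F P g‖ ^ 2 ∂μ : ℝ) : ℂ) := by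
    simp only [ip]
    rw [← integral_complex_ofReal]
    congr 1
    ext g
    rw [Complex.mul_conj']
    push_cast
    rfl
  rw [h1, Complex.ofReal_re]

private lemma E_nonneg (J : Jet) : 0 ≤ J.E := integral_nonneg fun g => by positivity
private lemma n2_nonneg (F : G → ℝ) : 0 ≤ n2 F := integral_nonneg fun g => by positivity

private lemma Dn_ge (n : ℕ) (F : G → ℝ) :
    2 * (√((SmJ (kn n) F).E) * √((SmJ (lap2 (kn n)) F).E)) ≤ Dn n F := by
  have h2 := n2_nonneg (Sm (kn n) F)
  unfold Dn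
  nlinarith

private lemma Dn_nonneg (n : ℕ) (F : G → ℝ) : 0 ≤ Dn n F :=
  le_trans (by positivity) (Dn_ge n F)

/-- size of the modes -/
private lemma mode_bound (n : ℕ) (F : G → ℝ) (hF : Continuous F) (j : ℕ) (i : ℤ)
    (hi : |i| ≤ j) : ∫ g, ‖TT F (Um n (2 * i)) g‖ ^ 2 ∂μ ≤ (2 + j) * Dn n F := by
  rw [← ip_norm]
  have hD := Dn_nonneg n F
  have hj0 : (0 : ℝ) ≤ j := Nat.cast_nonneg j
  have h4 : ∀ x : ℝ, √((1 / 4) * x) = (1 / 2) * √x := by
    intro x
    rw [Real.sqrt_mul (by norm_num)]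
    congr 1
    rw [show (1 / 4 : ℝ) = (1 / 2) ^ 2 by norm_num, Real.sqrt_sq (by norm_num)]
  have key : ∀ k : ℕ, k ≤ j → ∀ A : ℝ,
      A ≤ (4 + 4 * k) * √((1 / 4) * (SmJ (kn n) F).E) *
        √((1 / 4) * (SmJ (lap2 (kn n)) F).E) → A ≤ (2 + j) * Dn n F := by
    intro k hk A hA
    have hk' : (k : ℝ) ≤ j := by exact_mod_cast hk
    have hk0 : (0 : ℝ) ≤ k := Nat.cast_nonneg k
    have h5 := Dn_ge n F
    set S := √((SmJ (kn n) F).E) * √((SmJ (lap2 (kn n)) F).E) with hS
    have hS0 : 0 ≤ S := by positivity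
    have h6 : (4 + 4 * (k : ℝ)) * √((1 / 4) * (SmJ (kn n) F).E) *
        √((1 / 4) * (SmJ (lap2 (kn n)) F).E) = (1 + k) * S := by
      rw [h4, h4, hS]; ring
    rw [h6] at hA
    refine hA.trans ?_
    have h7 : (1 + (k : ℝ)) * S ≤ (1 + j) * S := by nlinarith
    have h8 : (1 + (j : ℝ)) * S ≤ (1 + j) * Dn n F := by
      apply mul_le_mul_of_nonneg_left _ (by positivity)
      linarith
    nlinarith
  rcases lt_trichotomy i 0 with h | h | h
  · obtain ⟨k, hk⟩ : ∃ k : ℕ, i = -(k : ℤ) := ⟨i.natAbs, by omega⟩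
    have hk1 : 1 ≤ k := by omega
    have hkj : k ≤ j := by
      rw [hk, abs_neg, abs_of_nonneg (by positivity)] at hi
      exact_mod_cast hi
    have h1 := gk_abs_neg (D := DD) (ip F) (ip_add F hF) (fun c P Q => ip_smul F hF c P Q)
      (fun P Q => ip_conj F hF P Q)
      (ip_pos F hF) (dp : DD →ₗ[ℂ] DD) (dm : DD →ₗ[ℂ] DD)
      (fun P Q => ip_adj F hF P Q) gr (fun m P hP => dp_mem m P hP) (fun m P hP => dm_mem m P hP)
      (fun m P hP => comm_dp_dm m P hP) (Wm n) (Um n) (Wm_mem n) (Wm_rel n) (fun m => rfl) k hk1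
    have e : (2 * i : ℤ) = -(2 * (k : ℤ)) := by rw [hk]; ring
    rw [e]
    apply key k hkj
    refine h1.trans (le_of_eq ?_)
    rw [← ip_dm_Wm n F hF, ← ip_dm_Um n F hF]
    rfl
  · subst h
    have h1 := ip_Um_zero n F hF
    have e : (2 * (0 : ℤ)) = 0 := by ring
    rw [e]
    nlinarith
  · obtain ⟨k, hk⟩ : ∃ k : ℕ, i = (k : ℤ) := ⟨i.natAbs, by omega⟩
    have hk1 : 1 ≤ k := by omega
    have hkj : k ≤ j := by
      rw [hk, abs_of_nonneg (by positivity)] at hi
      exact_mod_cast hi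
    have h1 := gk_abs (D := DD) (ip F) (ip_add F hF) (fun c P Q => ip_smul F hF c P Q)
      (fun P Q => ip_conj F hF P Q)
      (ip_pos F hF) (dp : DD →ₗ[ℂ] DD) (dm : DD →ₗ[ℂ] DD)
      (fun P Q => ip_adj F hF P Q) gr (fun m P hP => dp_mem m P hP) (fun m P hP => dm_mem m P hP)
      (fun m P hP => comm_dp_dm m P hP) (Wm n) (Um n) (Wm_mem n) (Wm_rel n) (fun m => rfl) k hk1
    have e : (2 * i : ℤ) = (2 * (k : ℤ)) := by rw [hk]
    rw [e]
    apply key k hkj
    refine h1.trans (le_of_eq ?_)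
    rw [← ip_dp_Wm n F hF, ← ip_dp_Um n F hF]
    rfl

/-- the complex mode of `p`, `q` -/
private noncomputable def PP (p q : G → ℝ) (g : G) : ℂ := ((p g : ℂ) - Complex.I * (q g : ℂ)) / 2

private lemma PP_fr (p q : G → ℝ) (hp : ∀ g t, p (g * fr t) = cos t * p g + sin t * q g)
    (hq : ∀ g t, q (g * fr t) = -sin t * p g + cos t * q g) (g : G) (t : ℝ) :
    PP p q (g * fr t) = Complex.exp (Complex.I * t) * PP p q g := by
  simp only [PP]
  rw [hp, hq, mul_comm Complex.I (t : ℂ), Complex.exp_mul_I, ← Complex.ofReal_cos,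
    ← Complex.ofReal_sin]
  push_cast
  linear_combination ((Complex.sin t) * (q g : ℂ) / 2) * Complex.I_sq

private lemma PP_cont (p q : G → ℝ) (hp : Continuous p) (hq : Continuous q) :
    Continuous (PP p q) := by
  have h1 : Continuous fun g => (p g : ℂ) := Complex.continuous_ofReal.comp hp
  have h2 : Continuous fun g => (q g : ℂ) := Complex.continuous_ofReal.comp hq
  exact (h1.sub (continuous_const.mul h2)).div_const 2

private lemma PP_add (p q : G → ℝ) (g : G) : PP p q g + conj (PP p q g) = (p g : ℂ) := by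
  simp only [PP, map_div₀, map_sub, map_mul, Complex.conj_ofReal, Complex.conj_I, map_ofNat]
  ring

private lemma PP_norm (p q : G → ℝ) (g : G) : ‖PP p q g‖ ^ 2 = (p g ^ 2 + q g ^ 2) / 4 := by
  rw [← Complex.normSq_eq_norm_sq]
  simp only [PP, Complex.normSq_apply, Complex.div_re, Complex.div_im, Complex.sub_re,
    Complex.sub_im, Complex.mul_re, Complex.mul_im, Complex.ofReal_re, Complex.ofReal_im,
    Complex.I_re, Complex.I_im]
  norm_num
  ring

private lemma PP_conj_fr (p q : G → ℝ) (hp : ∀ g t, p (g * fr t) = cos t * p g + sin t * q g)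
    (hq : ∀ g t, q (g * fr t) = -sin t * p g + cos t * q g) (g : G) (t : ℝ) :
    conj (PP p q (g * fr t)) = Complex.exp (-(Complex.I * t)) * conj (PP p q g) := by
  rw [PP_fr p q hp hq, map_mul, ← Complex.exp_conj, map_mul, Complex.conj_I, Complex.conj_ofReal,
    neg_mul]

/-- the monomials have a definite mode -/
private lemma mono_fr (a p q : G → ℝ) (ha : ∀ g t, a (g * fr t) = a g)
    (hp : ∀ g t, p (g * fr t) = cos t * p g + sin t * q g)
    (hq : ∀ g t, q (g * fr t) = -sin t * p g + cos t * q g) (k l : ℕ) (g : G) (t : ℝ) :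
    (a (g * fr t) : ℂ) * (PP p q (g * fr t) ^ k * conj (PP p q (g * fr t)) ^ l) =
      Complex.exp (Complex.I * (((k : ℤ) - l : ℤ) : ℂ) * t) *
        ((a g : ℂ) * (PP p q g ^ k * conj (PP p q g) ^ l)) := by
  rw [ha, PP_conj_fr p q hp hq, PP_fr p q hp hq, mul_pow, mul_pow, ← Complex.exp_nat_mul,
    ← Complex.exp_nat_mul]
  have : Complex.exp (Complex.I * (((k : ℤ) - l : ℤ) : ℂ) * t) =
      Complex.exp (k * (Complex.I * t)) * Complex.exp (l * -(Complex.I * t)) := by
    rw [← Complex.exp_add]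
    congr 1
    push_cast
    ring
  rw [this]
  ring

private lemma mono_cont (a p q : G → ℝ) (ca : Continuous a) (cp : Continuous p)
    (cq : Continuous q) (k l : ℕ) :
    Continuous fun g => (a g : ℂ) * (PP p q g ^ k * conj (PP p q g) ^ l) := by
  have h1 : Continuous fun g => (a g : ℂ) := Complex.continuous_ofReal.comp ca
  have h2 := PP_cont p q cp cq
  exact h1.mul ((h2.pow k).mul ((Complex.continuous_conj.comp h2).pow l))

/-- expansion of the pairing with `a p^{2j}` -/
private lemma pair_expand (n : ℕ) (F : G → ℝ) (hF : Continuous F) (a p q : G → ℝ)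
    (ca : Continuous a) (cp : Continuous p) (cq : Continuous q)
    (ha : ∀ g t, a (g * fr t) = a g)
    (hp : ∀ g t, p (g * fr t) = cos t * p g + sin t * q g)
    (hq : ∀ g t, q (g * fr t) = -sin t * p g + cos t * q g) (j : ℕ) :
    ((∫ g, gku n F g * (a g * p g ^ (2 * j)) ∂μ : ℝ) : ℂ) =
      ∑ k ∈ Finset.range (2 * j + 1), ((2 * j).choose k : ℂ) *
        (if ((j : ℤ) - k) ∈ Finset.Icc (-(n : ℤ)) n then
          ∫ g, TT F (Um n (2 * ((j : ℤ) - k))) g *
            ((a g : ℂ) * (PP p q g ^ k * conj (PP p q g) ^ (2 * j - k))) ∂μ else 0) := by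
  rw [← integral_complex_ofReal]
  have h1 : ∀ g, ((gku n F g * (a g * p g ^ (2 * j)) : ℝ) : ℂ) =
      ∑ k ∈ Finset.range (2 * j + 1), ((2 * j).choose k : ℂ) * ((gku n F g : ℂ) *
        ((a g : ℂ) * (PP p q g ^ k * conj (PP p q g) ^ (2 * j - k)))) := by
    intro g
    push_cast
    rw [← PP_add p q g, add_pow, Finset.mul_sum, Finset.mul_sum]
    refine Finset.sum_congr rfl fun k _ => ?_
    ring
  simp_rw [h1]
  have hu : Continuous fun g => (gku n F g : ℂ) :=
    Complex.continuous_ofReal.comp (gku_cont n F hF)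
  rw [integral_finsetSum]
  · refine Finset.sum_congr rfl fun k hk => ?_
    rw [integral_const_mul]
    congr 1
    have hk2 : k ≤ 2 * j := by
      have := Finset.mem_range.1 hk
      omega
    apply gku_pair n F hF _ (mono_cont a p q ca cp cq k (2 * j - k))
    intro g t
    rw [mono_fr a p q ha hp hq]
    congr 3
    congr 1
    have : ((k : ℤ) - ((2 * j - k : ℕ) : ℤ)) = -(2 * ((j : ℤ) - k)) := by
      rw [Nat.cast_sub hk2]
      push_cast
      ring
    rw [this]
  · intro k _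
    exact intgC (continuous_const.mul (hu.mul (mono_cont a p q ca cp cq k (2 * j - k))))

/-- Cauchy Schwarz -/
private lemma cs (u v : G → ℝ) (hu : Continuous u) (hv : Continuous v) (hu0 : ∀ g, 0 ≤ u g)
    (hv0 : ∀ g, 0 ≤ v g) :
    ∫ g, u g * v g ∂μ ≤ √(∫ g, u g ^ 2 ∂μ) * √(∫ g, v g ^ 2 ∂μ) := by
  have h := integral_mul_le_Lp_mul_Lq_of_nonneg (μ := μ) (f := u) (g := v)
    Real.HolderConjugate.two_two (Filter.Eventually.of_forall hu0)
    (Filter.Eventually.of_forall hv0)
    (hu.memLp_of_hasCompactSupport (HasCompactSupport.of_compactSpace u))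
    (hv.memLp_of_hasCompactSupport (HasCompactSupport.of_compactSpace v))
  simp only [Real.rpow_two, Real.sqrt_eq_rpow] at h ⊢
  exact h

private lemma term_bound (n : ℕ) (F : G → ℝ) (hF : Continuous F) (a p q : G → ℝ)
    (ca : Continuous a) (cp : Continuous p) (cq : Continuous q) (j k : ℕ) (hk : k ≤ 2 * j) :
    ‖∫ g, TT F (Um n (2 * ((j : ℤ) - k))) g *
      ((a g : ℂ) * (PP p q g ^ k * conj (PP p q g) ^ (2 * j - k))) ∂μ‖ ≤
      (1 / 4) ^ j * (√(∫ g, a g ^ 2 * (p g ^ 2 + q g ^ 2) ^ (2 * j) ∂μ) *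
        √((2 + j) * Dn n F)) := by
  refine (norm_integral_le_integral_norm _).trans ?_
  have h1 : ∀ g, ‖TT F (Um n (2 * ((j : ℤ) - k))) g *
      ((a g : ℂ) * (PP p q g ^ k * conj (PP p q g) ^ (2 * j - k)))‖ =
      (1 / 4) ^ j * (‖TT F (Um n (2 * ((j : ℤ) - k))) g‖ *
        (|a g| * (p g ^ 2 + q g ^ 2) ^ j)) := by
    intro g
    have h2 : ‖PP p q g ^ k * conj (PP p q g) ^ (2 * j - k)‖ =
        (1 / 4) ^ j * (p g ^ 2 + q g ^ 2) ^ j := by
      rw [norm_mul, norm_pow, norm_pow, Complex.norm_conj, ← pow_add,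
        show k + (2 * j - k) = 2 * j by omega, pow_mul, PP_norm, div_pow, one_div, inv_pow]
      ring
    rw [norm_mul, norm_mul, h2, Complex.norm_real, Real.norm_eq_abs]
    ring
  simp_rw [h1]
  rw [integral_const_mul]
  apply mul_le_mul_of_nonneg_left _ (by positivity)
  have cT : Continuous fun g => ‖TT F (Um n (2 * ((j : ℤ) - k))) g‖ :=
    (TT_cont F hF _).norm
  have cv : Continuous fun g => |a g| * (p g ^ 2 + q g ^ 2) ^ j :=
    ca.abs.mul (((cp.pow 2).add (cq.pow 2)).pow j)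
  refine (cs _ _ cT cv (fun _ => norm_nonneg _) (fun g => by positivity)).trans ?_
  rw [mul_comm]
  have h3 : ∀ g, (|a g| * (p g ^ 2 + q g ^ 2) ^ j) ^ 2 =
      a g ^ 2 * (p g ^ 2 + q g ^ 2) ^ (2 * j) := by
    intro g
    rw [mul_pow, sq_abs, ← pow_mul, mul_comm j 2]
  simp_rw [h3]
  apply mul_le_mul_of_nonneg_left _ (Real.sqrt_nonneg _)
  apply Real.sqrt_le_sqrt
  apply mode_bound n F hF
  rw [abs_le]
  constructor <;> omega

private lemma kk_abs_le (h g : G) : |kk h g 2| ≤ 1 := by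
  have h1 := kk_sq h g
  apply abs_le_of_sq_le_sq _ (by norm_num)
  nlinarith [sq_nonneg (kk h g 0), sq_nonneg (kk h g 1)]

/-- the second derivatives vanish for the constant kernel -/
private lemma kn_zero_deriv : (kn 0).derivative = 0 := by
  simp [kn]

private lemma pair_two (n : ℕ) (F : G → ℝ) (hF : Continuous F) (a p q : G → ℝ)
    (ca : Continuous a) (cp : Continuous p) (cq : Continuous q)
    (ha : ∀ g t, a (g * fr t) = a g)
    (hp : ∀ g t, p (g * fr t) = cos t * p g + sin t * q g)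
    (hq : ∀ g t, q (g * fr t) = -sin t * p g + cos t * q g) :
    ∫ g, gku n F g * (a g * p g ^ 2) ∂μ =
      ∫ g, a g * (p g ^ 2 * (SmJ (kn n) F).YY g + q g ^ 2 * (SmJ (kn n) F).XX g -
        2 * p g * q g * (SmJ (kn n) F).XY g +
        (p g ^ 2 + q g ^ 2) * (SmJ (kn n) F).f g) ∂μ := by
  have h1 := pair_expand n F hF a p q ca cp cq ha hp hq 1
  -- the side conditions may be dropped
  have h2 : ∀ k ∈ Finset.range (2 * 1 + 1), ((2 * 1).choose k : ℂ) *
        (if (((1 : ℕ) : ℤ) - k) ∈ Finset.Icc (-(n : ℤ)) n then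
          ∫ g, TT F (Um n (2 * (((1 : ℕ) : ℤ) - k))) g *
            ((a g : ℂ) * (PP p q g ^ k * conj (PP p q g) ^ (2 * 1 - k))) ∂μ else 0) =
      ((2 * 1).choose k : ℂ) *
          ∫ g, TT F (Um n (2 * (((1 : ℕ) : ℤ) - k))) g *
            ((a g : ℂ) * (PP p q g ^ k * conj (PP p q g) ^ (2 * 1 - k))) ∂μ := by
    intro k hk
    congr 1
    split_ifs with hif
    · rfl
    · have hk3 : k < 3 := Finset.mem_range.1 hk
      have hn : n = 0 := by
        by_contra hn
        apply hif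
        rw [Finset.mem_Icc]
        have : 1 ≤ n := Nat.one_le_iff_ne_zero.2 hn
        constructor <;> push_cast <;> omega
      subst hn
      have hk1 : k ≠ 1 := by
        rintro rfl
        apply hif
        simp
      have hz : ∀ g, TT F (Um 0 (2 * (((1 : ℕ) : ℤ) - k))) g = 0 := by
        intro g
        rcases (by omega : k = 0 ∨ k = 2) with rfl | rfl
        · have e : (2 * (((1 : ℕ) : ℤ) - (0 : ℕ))) = 2 := by norm_num
          rw [e, TT_Um_two 0 F hF g]
          simp [SmJ, kn_zero_deriv]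
        · have e : (2 * (((1 : ℕ) : ℤ) - (2 : ℕ))) = -2 := by norm_num
          rw [e, TT_Um_neg_two 0 F hF g]
          simp [SmJ, kn_zero_deriv]
      simp_rw [hz]
      simp
  rw [Finset.sum_congr rfl h2] at h1
  have c1 : Continuous fun g => TT F (Um n 2) g *
      ((a g : ℂ) * (PP p q g ^ 0 * conj (PP p q g) ^ 2)) :=
    (TT_cont F hF _).mul (mono_cont a p q ca cp cq 0 2)
  have c2 : Continuous fun g => TT F (Um n 0) g *
      ((a g : ℂ) * (PP p q g ^ 1 * conj (PP p q g) ^ 1)) :=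
    (TT_cont F hF _).mul (mono_cont a p q ca cp cq 1 1)
  have c3 : Continuous fun g => TT F (Um n (-2)) g *
      ((a g : ℂ) * (PP p q g ^ 2 * conj (PP p q g) ^ 0)) :=
    (TT_cont F hF _).mul (mono_cont a p q ca cp cq 2 0)
  have h3 : ((∫ g, gku n F g * (a g * p g ^ 2) ∂μ : ℝ) : ℂ) =
      ∫ g, (TT F (Um n 2) g * ((a g : ℂ) * (PP p q g ^ 0 * conj (PP p q g) ^ 2)) +
        2 * (TT F (Um n 0) g * ((a g : ℂ) * (PP p q g ^ 1 * conj (PP p q g) ^ 1)))) +
        TT F (Um n (-2)) g * ((a g : ℂ) * (PP p q g ^ 2 * conj (PP p q g) ^ 0)) ∂μ := by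
    have i2 : Integrable (fun g => 2 * (TT F (Um n 0) g *
        ((a g : ℂ) * (PP p q g ^ 1 * conj (PP p q g) ^ 1)))) μ := (intgC c2).const_mul 2
    have i12 : Integrable (fun g => TT F (Um n 2) g *
        ((a g : ℂ) * (PP p q g ^ 0 * conj (PP p q g) ^ 2)) + 2 * (TT F (Um n 0) g *
        ((a g : ℂ) * (PP p q g ^ 1 * conj (PP p q g) ^ 1)))) μ := (intgC c1).add i2
    rw [integral_add i12 (intgC c3), integral_add (intgC c1) i2, integral_const_mul]
    rw [show 2 * 1 = 2 from rfl] at h1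
    rw [h1, Finset.sum_range_succ, Finset.sum_range_succ, Finset.sum_range_succ,
      Finset.sum_range_zero]
    norm_num [Nat.choose]
  have h4 : ((∫ g, gku n F g * (a g * p g ^ 2) ∂μ : ℝ) : ℂ) =
      ((∫ g, a g * (p g ^ 2 * (SmJ (kn n) F).YY g + q g ^ 2 * (SmJ (kn n) F).XX g -
        2 * p g * q g * (SmJ (kn n) F).XY g +
        (p g ^ 2 + q g ^ 2) * (SmJ (kn n) F).f g) ∂μ : ℝ) : ℂ) := by
    rw [h3, ← integral_complex_ofReal]
    congr 1
    ext g
    rw [TT_Um_two n F hF g, TT_Um_neg_two n F hF g, TT_Um_zero_aux, ← SmJ_lap (kn n) F hF g]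
    simp only [PP, map_div₀, map_sub, map_mul, Complex.conj_ofReal, Complex.conj_I, map_ofNat]
    push_cast
    have hI := Complex.I_sq
    ring_nf
    simp only [hI]
    ring
  exact_mod_cast h4

theorem GK (n : ℕ) : ∃ C : ℝ, ∀ F : G → ℝ, Continuous F → (∀ g, |F g| ≤ 1) →
    ∃ u : G → ℝ, Continuous u ∧ (∀ g, |u g| ≤ C) ∧ (∀ g t, u (g * fa t) = u g) ∧
      (∀ a : G → ℝ, Continuous a → (∀ g t, a (g * fr t) = a g) →
        ∫ g, u g * a g ∂μ = ∫ g, Sm (lap2 (kn n)) F g * a g ∂μ) ∧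
      (∀ a p q : G → ℝ, Continuous a → Continuous p → Continuous q →
        (∀ g t, a (g * fr t) = a g) →
        (∀ g t, p (g * fr t) = cos t * p g + sin t * q g) →
        (∀ g t, q (g * fr t) = -sin t * p g + cos t * q g) →
        (∫ g, u g * (a g * p g ^ 2) ∂μ =
          ∫ g, a g * (p g ^ 2 * (SmJ (kn n) F).YY g + q g ^ 2 * (SmJ (kn n) F).XX g -
            2 * p g * q g * (SmJ (kn n) F).XY g +
            (p g ^ 2 + q g ^ 2) * (SmJ (kn n) F).f g) ∂μ) ∧
        ∀ j : ℕ, |∫ g, u g * (a g * p g ^ (2 * j)) ∂μ| ≤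
          √(∫ g, a g ^ 2 * (p g ^ 2 + q g ^ 2) ^ (2 * j) ∂μ) * √((2 + j) * Dn n F)) := by
  obtain ⟨C, hC⟩ := (isCompact_Icc (a := (-1 : ℝ)) (b := 1)).exists_bound_of_continuousOn
    (lap2 (kap n)).continuous.continuousOn
  refine ⟨C, fun F hF hF1 => ⟨gku n F, gku_cont n F hF, ?_, ?_, ?_, ?_⟩⟩
  · intro g
    have hC0 : 0 ≤ C := (norm_nonneg _).trans (hC 0 (by norm_num))
    have h1 : ∀ h, ‖(lap2 (kap n)).eval (kk h g 2) * F h‖ ≤ C := by
      intro h
      rw [norm_mul]
      calc ‖(lap2 (kap n)).eval (kk h g 2)‖ * ‖F h‖ ≤ C * 1 :=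
            mul_le_mul (hC _ (abs_le.1 (kk_abs_le h g))) (hF1 h) (norm_nonneg _) hC0
        _ = C := mul_one C
    have h2 := norm_integral_le_of_norm_le_const (μ := μ) (Filter.Eventually.of_forall h1)
    simpa [gku] using h2
  · intro g t
    simp only [gku, (kk_fa _ g t).2.2]
  · intro a ca ha
    have ca' : Continuous fun g => (a g : ℂ) := Complex.continuous_ofReal.comp ca
    have h1 := gku_pair n F hF (fun g => (a g : ℂ)) ca' 0 (by
      intro g t
      rw [ha]
      simp)
    rw [if_pos (by simp)] at h1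
    have h2 : ((∫ g, gku n F g * a g ∂μ : ℝ) : ℂ) =
        ((∫ g, Sm (lap2 (kn n)) F g * a g ∂μ : ℝ) : ℂ) := by
      rw [← integral_complex_ofReal, ← integral_complex_ofReal]
      push_cast
      rw [h1]
      congr 1
      ext g
      rw [mul_zero, TT_Um_zero_aux]
    exact_mod_cast h2
  · intro a p q ca cp cq ha hp hq
    refine ⟨pair_two n F hF a p q ca cp cq ha hp hq, fun j => ?_⟩
    have h1 := pair_expand n F hF a p q ca cp cq ha hp hq j
    have h2 : |∫ g, gku n F g * (a g * p g ^ (2 * j)) ∂μ| =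
        ‖((∫ g, gku n F g * (a g * p g ^ (2 * j)) ∂μ : ℝ) : ℂ)‖ := by
      rw [Complex.norm_real, Real.norm_eq_abs]
    rw [h2, h1]
    set B := √(∫ g, a g ^ 2 * (p g ^ 2 + q g ^ 2) ^ (2 * j) ∂μ) * √((2 + j) * Dn n F) with hB
    have hB0 : 0 ≤ B := by positivity
    calc ‖∑ k ∈ Finset.range (2 * j + 1), ((2 * j).choose k : ℂ) *
        (if ((j : ℤ) - k) ∈ Finset.Icc (-(n : ℤ)) n then
          ∫ g, TT F (Um n (2 * ((j : ℤ) - k))) g *
            ((a g : ℂ) * (PP p q g ^ k * conj (PP p q g) ^ (2 * j - k))) ∂μ else 0)‖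
        ≤ ∑ k ∈ Finset.range (2 * j + 1), ((2 * j).choose k : ℝ) * ((1 / 4) ^ j * B) := by
          refine (norm_sum_le _ _).trans (Finset.sum_le_sum fun k hk => ?_)
          rw [norm_mul]
          have h3 : ‖((2 * j).choose k : ℂ)‖ = ((2 * j).choose k : ℝ) := Complex.norm_natCast _
          rw [h3]
          apply mul_le_mul_of_nonneg_left _ (by positivity)
          split_ifs with hif
          · apply term_bound n F hF a p q ca cp cq j k
            have := Finset.mem_range.1 hk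
            omega
          · rw [norm_zero]
            positivity
      _ = B := by
          rw [← Finset.sum_mul]
          have h4 : (∑ k ∈ Finset.range (2 * j + 1), ((2 * j).choose k : ℝ)) = 4 ^ j := by
            have h5 := Nat.sum_range_choose (2 * j)
            have h6 : ((∑ k ∈ Finset.range (2 * j + 1), (2 * j).choose k : ℕ) : ℝ) =
                ((2 ^ (2 * j) : ℕ) : ℝ) := by rw [h5]
            push_cast at h6
            rw [h6, pow_mul]
            norm_num
          rw [h4, ← mul_assoc, ← mul_pow]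
          norm_num

end gkmain

end Pool.Agent.Lib_MP_f78f32_gt
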