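import Pool.Agent.Lib_MP_f78f32_gt.Comm
import Pool.Agent.Lib_MP_f78f32_gt.SmJ

/-!
# A one-sided Hessian bound is preserved by zonal averaging
-/

open MeasureTheory Real
open scoped Matrix

namespace Pool.Agent.Lib_MP_f78f32_gt

private lemma hb_co_fa1 (a : Fin 3 → ℝ) : FD fa (fun g => co a 1 g) (fun g => -co a 0 g) := by
  intro g
  have h1 : (fun t => co a 1 (g * fa t)) = fun t => -sin t * co a 0 g + cos t * co a 1 g := by
    funext t; exact (co_fa a g t).2.1
  rw [h1]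
  have h2 := ((hasDerivAt_sin 0).neg.mul_const (co a 0 g)).add
    ((hasDerivAt_cos 0).mul_const (co a 1 g))
  simp only [sin_zero, neg_zero, zero_mul, cos_zero, add_zero, neg_one_mul] at h2
  exact h2

private lemma hb_co_fb2 (a : Fin 3 → ℝ) : FD fb (fun g => co a 2 g) (fun g => -co a 0 g) := by
  intro g
  have h1 : (fun t => co a 2 (g * fb t)) = fun t => -sin t * co a 0 g + cos t * co a 2 g := by
    funext t; exact (co_fb a g t).2.2
  rw [h1]
  have h2 := ((hasDerivAt_sin 0).neg.mul_const (co a 0 g)).add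
    ((hasDerivAt_cos 0).mul_const (co a 2 g))
  simp only [sin_zero, neg_zero, zero_mul, cos_zero, add_zero, neg_one_mul] at h2
  exact h2

/-- there is a rotation of the frame turning `(p, q)` into `(√(p²+q²), 0)` -/
private lemma hb_rot (p q : ℝ) :
    ∃ t, cos t * √(p ^ 2 + q ^ 2) = p ∧ sin t * √(p ^ 2 + q ^ 2) = q := by
  by_cases h : p ^ 2 + q ^ 2 = 0
  · have hp : p = 0 := by nlinarith [sq_nonneg p, sq_nonneg q]
    have hq : q = 0 := by nlinarith [sq_nonneg p, sq_nonneg q]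
    exact ⟨0, by simp [hp, hq]⟩
  · have h0 : 0 < p ^ 2 + q ^ 2 := lt_of_le_of_ne (by positivity) (Ne.symm h)
    have hs : 0 < √(p ^ 2 + q ^ 2) := Real.sqrt_pos.mpr h0
    have hz : (⟨p, q⟩ : ℂ) ≠ 0 := by
      intro hc
      have h1 := congrArg Complex.re hc
      have h2 := congrArg Complex.im hc
      simp at h1 h2
      rw [h1, h2] at h0
      simp at h0
    have hn : ‖(⟨p, q⟩ : ℂ)‖ = √(p ^ 2 + q ^ 2) := by
      rw [Complex.norm_def, Complex.normSq_mk]
      ring_nf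
    refine ⟨Complex.arg ⟨p, q⟩, ?_, ?_⟩
    · rw [Complex.cos_arg hz, hn]
      field_simp
    · rw [Complex.sin_arg, hn]
      field_simp

private lemma hb_XX_le (J : Jet) (hJ : J.Ok) (M : ℝ) (hM : ∀ g, J.XX g ≤ M) (h : G) (A B : ℝ) :
    A ^ 2 * J.XX h - 2 * A * B * J.XY h + B ^ 2 * J.YY h ≤ (A ^ 2 + B ^ 2) * M := by
  obtain ⟨t, h1, h2⟩ := hb_rot A (-B)
  have h3 := hJ.invXX h t
  have h4 := hM (h * fr t)
  set R := √(A ^ 2 + (-B) ^ 2) with hR
  have hR2 : R ^ 2 = A ^ 2 + B ^ 2 := by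
    rw [hR, Real.sq_sqrt (by positivity)]; ring
  have hA : A = cos t * R := h1.symm
  have hB : B = -(sin t * R) := by linarith
  have e : A ^ 2 * J.XX h - 2 * A * B * J.XY h + B ^ 2 * J.YY h = R ^ 2 * J.XX (h * fr t) := by
    rw [h3]
    conv_lhs => rw [hA, hB]
    ring
  rw [e, hR2]
  nlinarith [sq_nonneg A, sq_nonneg B]

private lemma hb_grad (J : Jet) (hJ : J.Ok) (L : ℝ) (hL : ∀ g, |J.X g| ≤ L) (h : G) (A B : ℝ) :
    |A * J.Y h + B * J.X h| ≤ √(A ^ 2 + B ^ 2) * L := by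
  obtain ⟨t, h1, h2⟩ := hb_rot B A
  have h3 := hJ.invX h t
  have h4 := hL (h * fr t)
  set R := √(B ^ 2 + A ^ 2) with hR
  have e : A * J.Y h + B * J.X h = R * J.X (h * fr t) := by
    rw [h3]
    conv_lhs => rw [← h1, ← h2]
    ring
  have e2 : √(A ^ 2 + B ^ 2) = R := by rw [hR]; ring_nf
  rw [e, e2, abs_mul, abs_of_nonneg (Real.sqrt_nonneg _)]
  gcongr

theorem hess (k : Polynomial ℝ) (hk : ∀ t, |t| ≤ 1 → 0 ≤ k.eval t)
    (hk1 : ∫ g : G, k.eval (g.1 0 0) ∂μ = 1) (J : Jet) (hJ : J.Ok) (M L : ℝ) (hM0 : 0 ≤ M)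
    (hM : ∀ g, J.XX g ≤ M) (hL : ∀ g, |J.X g| ≤ L) (g : G) :
    (SmJ k J.f).XX g ≤ M + L := by
  have hL0 : 0 ≤ L := (abs_nonneg _).trans (hL g)
  set a : Fin 3 → ℝ := fun i => g.1 i 2 with ha
  have g2 : co a 2 g = 1 := by have := g.col_dot 2 2; simpa [co, ha] using this
  have g1 : co a 1 g = 0 := by have := g.col_dot 2 1; simpa [co, ha] using this
  have g0 : co a 0 g = 0 := by have := g.col_dot 2 0; simpa [co, ha] using this
  have asq : a 0 ^ 2 + a 1 ^ 2 + a 2 ^ 2 = 1 := by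
    have := co_sq a g
    rw [g0, g1, g2] at this
    linarith
  set v : G → ℝ := va a J.X J.Y with hv
  set Xv : G → ℝ := fun h => co a 2 h * J.XX h - co a 1 h * J.XY h + co a 0 h * J.Y h with hXv
  set Yv : G → ℝ := fun h => -co a 0 h * J.X h + co a 2 h * J.XY h - co a 1 h * J.YY h with hYv
  have cX := hJ.cX
  have cY := hJ.cY
  have cXX := hJ.cXX
  have cXY := hJ.cXY
  have cYY := hJ.cYY
  have cv : Continuous v := comm_va_cont a J.X J.Y cX cY
  have cXv : Continuous Xv := by rw [hXv]; fun_prop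
  have cYv : Continuous Yv := by rw [hYv]; fun_prop
  have dXv : FD fa v Xv := by
    have h1 := ((comm_FD_co_fa a).mul fa_zero hJ.dXX).sub ((hb_co_fa1 a).mul fa_zero hJ.dYX)
    refine FD.congr h1 fun h => ?_
    rw [hXv]; ring
  have dYv : FD fb v Yv := by
    have h1 := ((hb_co_fb2 a).mul fb_zero hJ.dXY).sub ((comm_FD_co_fb a).mul fb_zero hJ.dYY)
    refine FD.congr h1 fun h => ?_
    rw [hYv]; ring
  have hφ := SmJ_ok k J.f hJ.cf
  have hψ := SmJ_ok k v cv
  -- first use of the commutation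
  have e1 : ∀ s, (SmJ k J.f).X (g * fa s) = (SmJ k v).f (g * fa s) := by
    intro s
    have h1 := comm k a J.f J.X J.Y hJ.cf cX cY hJ.dX hJ.dY (g * fa s)
    have h2 : co a 2 (g * fa s) = 1 := by rw [(co_fa a g s).2.2, g2]
    have h3 : co a 1 (g * fa s) = 0 := by rw [(co_fa a g s).2.1, g0, g1]; ring
    simp only [va, h2, h3, one_mul, zero_mul, sub_zero] at h1
    exact h1
  have e2 : (SmJ k J.f).XX g = (SmJ k v).X g := by
    have h1 := hφ.dXX g
    have h2 := hψ.dX g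
    have h3 : (fun t => (SmJ k J.f).X (g * fa t)) = fun t => (SmJ k v).f (g * fa t) := by
      funext s; exact e1 s
    rw [h3] at h1
    exact h1.unique h2
  have e3 : (SmJ k v).X g = Sm k (va a Xv Yv) g := by
    have h1 := comm k a v Xv Yv cv cXv cYv dXv dYv g
    simp only [va, g2, g1, one_mul, zero_mul, sub_zero] at h1
    rw [h1]
  have hbd : ∀ h, va a Xv Yv h ≤ M + L := by
    intro h
    have q := co_sq a h
    rw [asq] at q
    have q1 := hb_XX_le J hJ M hM h (co a 2 h) (co a 1 h)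
    have q2 := hb_grad J hJ L hL h (co a 2 h) (co a 1 h)
    have e : va a Xv Yv h = (co a 2 h ^ 2 * J.XX h - 2 * co a 2 h * co a 1 h * J.XY h +
        co a 1 h ^ 2 * J.YY h) + co a 0 h * (co a 2 h * J.Y h + co a 1 h * J.X h) := by
      simp only [va, hXv, hYv]; ring
    rw [e]
    have q3 : √(co a 2 h ^ 2 + co a 1 h ^ 2) ≤ 1 := by
      rw [Real.sqrt_le_left (by norm_num)]
      nlinarith [sq_nonneg (co a 0 h)]
    have q4 : |co a 0 h| ≤ 1 := by
      rw [← sq_le_one_iff_abs_le_one]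
      nlinarith [sq_nonneg (co a 1 h), sq_nonneg (co a 2 h)]
    have q5 : co a 0 h * (co a 2 h * J.Y h + co a 1 h * J.X h) ≤ L := by
      refine (le_abs_self _).trans ?_
      rw [abs_mul]
      calc |co a 0 h| * |co a 2 h * J.Y h + co a 1 h * J.X h| ≤ 1 * (1 * L) := by
            apply mul_le_mul q4 _ (abs_nonneg _) zero_le_one
            exact q2.trans (mul_le_mul_of_nonneg_right q3 hL0)
        _ = L := by ring
    have q6 : (co a 2 h ^ 2 + co a 1 h ^ 2) * M ≤ M := by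
      nlinarith [sq_nonneg (co a 0 h)]
    linarith
  rw [e2, e3]
  have hkk : ∀ h : G, 0 ≤ k.eval (kk h g 0) := fun h => by
    apply hk
    rw [kk_eq_mul]
    exact G.abs_entry_le _ _ _
  have c1 : Continuous fun h : G => k.eval (kk h g 0) := young_keval_cont_left k g
  have h5 : Sm k (va a Xv Yv) g ≤ ∫ h, k.eval (kk h g 0) * (M + L) ∂μ := by
    apply integral_mono
    · exact intg (c1.mul (comm_va_cont a Xv Yv cXv cYv))
    · exact intg (c1.mul continuous_const)
    · intro h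
      exact mul_le_mul_of_nonneg_left (hbd h) (hkk h)
  rw [integral_mul_const] at h5
  have h6 := young_kk (fun t => k.eval t) g
  rw [h6, hk1, one_mul] at h5
  exact h5

end Pool.Agent.Lib_MP_f78f32_gt
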