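import Pool.Agent.Lib_MP_f78f32_gt.Defs

/-!
# `L¹` bound from a one-sided Hessian bound
-/

open MeasureTheory Real
open scoped Matrix

namespace Pool.Agent.Lib_MP_f78f32_gt

/-- the quadratic form of the Hessian is bounded by `M` in every direction -/
lemma hess_dir (J : Jet) (hJ : J.Ok) (M : ℝ) (hM : ∀ g, J.XX g ≤ M) (g : G) (p q : ℝ) :
    p ^ 2 * J.XX g + 2 * p * q * J.XY g + q ^ 2 * J.YY g ≤ M * (p ^ 2 + q ^ 2) := by
  let z : ℂ := ⟨p, q⟩
  have hz : ‖z‖ ^ 2 = p ^ 2 + q ^ 2 := by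
    rw [← Complex.normSq_eq_norm_sq]
    simp only [Complex.normSq_mk, z]
    ring
  have hc := Complex.norm_mul_cos_arg z
  have hs := Complex.norm_mul_sin_arg z
  have hc' : p = ‖z‖ * cos z.arg := hc.symm
  have hs' : q = ‖z‖ * sin z.arg := hs.symm
  have h1 := hM (g * fr z.arg)
  rw [hJ.invXX] at h1
  have h2 := mul_le_mul_of_nonneg_left h1 (sq_nonneg ‖z‖)
  rw [← hz]
  calc p ^ 2 * J.XX g + 2 * p * q * J.XY g + q ^ 2 * J.YY g
      = ‖z‖ ^ 2 * (cos z.arg ^ 2 * J.XX g + 2 * cos z.arg * sin z.arg * J.XY g +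
          sin z.arg ^ 2 * J.YY g) := by
        rw [hc', hs']
        generalize hr : ‖z‖ = r
        generalize z.arg = t
        ring
    _ ≤ M * ‖z‖ ^ 2 := by linarith

lemma hess_disc (J : Jet) (hJ : J.Ok) (M : ℝ) (hM : ∀ g, J.XX g ≤ M) (g : G) :
    J.XY g ^ 2 ≤ (M - J.XX g) * (M - J.YY g) := by
  have key : ∀ x : ℝ, 0 ≤ (M - J.XX g) * (x * x) + (-(2 * J.XY g)) * x + (M - J.YY g) := by
    intro x
    have := hess_dir J hJ M hM g x 1
    nlinarith
  have := discrim_le_zero key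
  unfold discrim at this
  nlinarith

lemma hess_ptw (J : Jet) (hJ : J.Ok) (M : ℝ) (hM0 : 0 ≤ M) (hM : ∀ g, J.XX g ≤ M) (g : G) :
    √(J.XX g ^ 2 + J.XY g ^ 2) ≤ 4 * M - (J.XX g + J.YY g) := by
  have h1 := hess_disc J hJ M hM g
  have h2 := hM g
  have h3 := hess_dir J hJ M hM g 0 1
  simp only [ne_eq, OfNat.ofNat_ne_zero, not_false_eq_true, zero_pow, zero_mul, mul_zero, one_pow,
    one_mul, zero_add, mul_one] at h3
  set a := M - J.XX g with ha
  set b := M - J.YY g with hb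
  have ha0 : 0 ≤ a := by linarith
  have hb0 : 0 ≤ b := by linarith
  have hX : J.XX g = M - a := by rw [ha]; ring
  have hY : J.YY g = M - b := by rw [hb]; ring
  rw [hX, hY]
  apply Real.sqrt_le_iff.2
  constructor
  · linarith
  · nlinarith [mul_nonneg ha0 hb0, mul_nonneg hM0 ha0, mul_nonneg hM0 hb0, sq_nonneg a,
      sq_nonneg b, sq_nonneg M]

theorem hessL1_aux (J : Jet) (hJ : J.Ok) (M : ℝ) (hM0 : 0 ≤ M) (hM : ∀ g, J.XX g ≤ M) (d : ℝ)
    (hd : 0 < d) :
    ∫ g, √(J.X g ^ 2 + J.Y g ^ 2) * √(J.XX g ^ 2 + J.XY g ^ 2) ∂μ ≤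
      4 * M * (∫ g, √(J.X g ^ 2 + J.Y g ^ 2) ∂μ + d) + M * ∫ g, √(J.X g ^ 2 + J.Y g ^ 2) ∂μ := by
  have cX := hJ.cX
  have cY := hJ.cY
  have cXX := hJ.cXX
  have cXY := hJ.cXY
  have cYY := hJ.cYY
  set S : G → ℝ := fun g => d ^ 2 + J.X g ^ 2 + J.Y g ^ 2 with hS
  have hS0 : ∀ g, 0 < S g := fun g => by simp only [hS]; positivity
  have cS : Continuous S := by simp only [hS]; fun_prop
  have cR : Continuous fun g => √(S g) := Real.continuous_sqrt.comp cS
  have hR0 : ∀ g, √(S g) ≠ 0 := fun g => (Real.sqrt_pos.2 (hS0 g)).ne'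
  have dSa : FD fa S (fun g => 2 * J.X g * J.XX g + 2 * J.Y g * J.XY g) := by
    have h := ((FD.const (c := fa) (d ^ 2)).add (FD.pow fa_zero hJ.dXX 2)).add
      (FD.pow fa_zero hJ.dYX 2)
    refine h.congr fun g => ?_
    norm_num
  have dSb : FD fb S (fun g => 2 * J.X g * J.XY g + 2 * J.Y g * J.YY g) := by
    have h := ((FD.const (c := fb) (d ^ 2)).add (FD.pow fb_zero hJ.dXY 2)).add
      (FD.pow fb_zero hJ.dYY 2)
    refine h.congr fun g => ?_
    norm_num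
  have dRa : FD fa (fun g => √(S g))
      (fun g => 1 / (2 * √(S g)) * (2 * J.X g * J.XX g + 2 * J.Y g * J.XY g)) :=
    FD.comp (φ := Real.sqrt) (φ' := fun x => 1 / (2 * √x)) fa_zero
      (fun g => Real.hasDerivAt_sqrt (hS0 g).ne') dSa
  have dRb : FD fb (fun g => √(S g))
      (fun g => 1 / (2 * √(S g)) * (2 * J.X g * J.XY g + 2 * J.Y g * J.YY g)) :=
    FD.comp (φ := Real.sqrt) (φ' := fun x => 1 / (2 * √x)) fb_zero
      (fun g => Real.hasDerivAt_sqrt (hS0 g).ne') dSb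
  have dA := FD.mul fa_zero dRa hJ.dXX
  have dB := FD.mul fb_zero dRb hJ.dYY
  have cinv : Continuous fun g => 1 / (2 * √(S g)) :=
    continuous_const.div (continuous_const.mul cR) fun g => mul_ne_zero two_ne_zero (hR0 g)
  have cA' : Continuous (fun g => 1 / (2 * √(S g)) * (2 * J.X g * J.XX g + 2 * J.Y g * J.XY g) *
      J.X g + √(S g) * J.XX g) := by fun_prop
  have cB' : Continuous (fun g => 1 / (2 * √(S g)) * (2 * J.X g * J.XY g + 2 * J.Y g * J.YY g) *
      J.Y g + √(S g) * J.YY g) := by fun_prop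
  have iA := int_FDa dA (cR.mul cX) cA'
  have iB := int_FDb dB (cR.mul cY) cB'
  have iAB : ∫ g, ((1 / (2 * √(S g)) * (2 * J.X g * J.XX g + 2 * J.Y g * J.XY g) *
      J.X g + √(S g) * J.XX g) + (1 / (2 * √(S g)) * (2 * J.X g * J.XY g + 2 * J.Y g * J.YY g) *
      J.Y g + √(S g) * J.YY g)) ∂μ = 0 := by
    rw [integral_add (intg cA') (intg cB'), iA, iB, add_zero]
  set N : G → ℝ := fun g => √(J.X g ^ 2 + J.Y g ^ 2) with hN
  have cN : Continuous N := by
    simp only [hN]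
    fun_prop
  have hN2 : ∀ g, N g ^ 2 = J.X g ^ 2 + J.Y g ^ 2 := fun g => Real.sq_sqrt (by positivity)
  have hN0 : ∀ g, 0 ≤ N g := fun g => Real.sqrt_nonneg _
  have hNR : ∀ g, N g ≤ √(S g) := by
    intro g
    apply Real.sqrt_le_sqrt
    simp only [hS]
    nlinarith [sq_nonneg d]
  have hRN : ∀ g, √(S g) ≤ N g + d := by
    intro g
    apply Real.sqrt_le_iff.2
    have := hN0 g
    have h2 := hN2 g
    constructor
    · linarith
    · simp only [hS]
      nlinarith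
  -- pointwise bound
  have hpt : ∀ g, N g * √(J.XX g ^ 2 + J.XY g ^ 2) ≤
      (4 * M * (N g + d) + M * N g) - ((1 / (2 * √(S g)) * (2 * J.X g * J.XX g + 2 * J.Y g * J.XY g) *
      J.X g + √(S g) * J.XX g) + (1 / (2 * √(S g)) * (2 * J.X g * J.XY g + 2 * J.Y g * J.YY g) *
      J.Y g + √(S g) * J.YY g)) := by
    intro g
    have hR : 0 < √(S g) := Real.sqrt_pos.2 (hS0 g)
    have h1 := hess_ptw J hJ M hM0 hM g
    have h2 := hess_dir J hJ M hM g (J.X g) (J.Y g)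
    have h3 : N g * √(J.XX g ^ 2 + J.XY g ^ 2) ≤ √(S g) * (4 * M - (J.XX g + J.YY g)) :=
      (mul_le_mul_of_nonneg_right (hNR g) (Real.sqrt_nonneg _)).trans
        (mul_le_mul_of_nonneg_left h1 hR.le)
    have h4 : 1 / (2 * √(S g)) * (2 * J.X g * J.XX g + 2 * J.Y g * J.XY g) * J.X g +
        1 / (2 * √(S g)) * (2 * J.X g * J.XY g + 2 * J.Y g * J.YY g) * J.Y g ≤ M * N g := by
      have e : 1 / (2 * √(S g)) * (2 * J.X g * J.XX g + 2 * J.Y g * J.XY g) * J.X g +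
        1 / (2 * √(S g)) * (2 * J.X g * J.XY g + 2 * J.Y g * J.YY g) * J.Y g =
        (J.X g ^ 2 * J.XX g + 2 * J.X g * J.Y g * J.XY g + J.Y g ^ 2 * J.YY g) / √(S g) := by
        field_simp
        ring
      rw [e, div_le_iff₀ hR]
      refine h2.trans ?_
      rw [← hN2 g]
      have h5 := mul_le_mul_of_nonneg_left (hNR g) (hN0 g)
      nlinarith [mul_le_mul_of_nonneg_left h5 hM0]
    have h6 : √(S g) * (4 * M) ≤ 4 * M * (N g + d) := by
      have := mul_le_mul_of_nonneg_left (hRN g) (by positivity : 0 ≤ 4 * M)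
      linarith
    nlinarith
  have c1 : Continuous fun g => N g * √(J.XX g ^ 2 + J.XY g ^ 2) := by fun_prop
  have c2 : Continuous fun g => (4 * M * (N g + d) + M * N g) := by fun_prop
  have cAB : Continuous (fun g => ((1 / (2 * √(S g)) * (2 * J.X g * J.XX g + 2 * J.Y g * J.XY g) *
      J.X g + √(S g) * J.XX g) + (1 / (2 * √(S g)) * (2 * J.X g * J.XY g + 2 * J.Y g * J.YY g) *
      J.Y g + √(S g) * J.YY g))) := cA'.add cB'
  have h7 := integral_mono (intg c1) ((intg c2).sub (intg cAB)) hpt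
  have h8 : ∫ g, ((4 * M * (N g + d) + M * N g) - ((1 / (2 * √(S g)) * (2 * J.X g * J.XX g +
      2 * J.Y g * J.XY g) * J.X g + √(S g) * J.XX g) + (1 / (2 * √(S g)) * (2 * J.X g * J.XY g +
      2 * J.Y g * J.YY g) * J.Y g + √(S g) * J.YY g))) ∂μ =
      4 * M * (∫ g, N g ∂μ + d) + M * ∫ g, N g ∂μ := by
    rw [integral_sub (intg c2) (intg cAB), iAB, sub_zero]
    have i1 : Integrable (fun g => 4 * M * (N g + d)) μ := intg (by fun_prop)
    have i2 : Integrable (fun g => M * N g) μ := intg (by fun_prop)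
    rw [integral_add i1 i2, integral_const_mul, integral_const_mul,
      integral_add (intg cN) (intg continuous_const)]
    simp
  exact h7.trans h8.le

theorem hessL1 (J : Jet) (hJ : J.Ok) (M : ℝ) (hM0 : 0 ≤ M) (hM : ∀ g, J.XX g ≤ M) :
    ∫ g, √(J.X g ^ 2 + J.Y g ^ 2) * √(J.XX g ^ 2 + J.XY g ^ 2) ∂μ ≤
      5 * M * ∫ g, √(J.X g ^ 2 + J.Y g ^ 2) ∂μ := by
  apply le_of_forall_pos_le_add
  intro ε hε
  have h1 := hessL1_aux J hJ M hM0 hM (ε / (4 * M + 1)) (by positivity)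
  have h2 : 4 * M * (ε / (4 * M + 1)) ≤ ε := by
    rw [mul_div_assoc', div_le_iff₀ (by positivity)]
    nlinarith
  linarith

end Pool.Agent.Lib_MP_f78f32_gt
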