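import Pool.Agent.Lib_MP_f78f32_gt.Wallis
import Pool.Agent.Lib_MP_f78f32_gt.Moments

/-!
# Lower bound for the energy (moment method)
-/

open MeasureTheory Real
open scoped Matrix

namespace Pool.Agent.Lib_MP_f78f32_gt

/-- a rotation fixing the first basis vector is some `fr c` -/
lemma lo_eq_fr_of_first (k : G) (h00 : k.1 0 0 = 1) : ∃ c : ℝ, k = fr c := by
  have hr0 := k.row_dot 0 0
  have hc0 := k.col_dot 0 0
  have hc1 := k.col_dot 1 1
  have hc2 := k.col_dot 2 2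
  have hc12 := k.col_dot 1 2
  have hx := k.cross.1
  simp only [Fin.sum_univ_three, if_true, Fin.isValue, Fin.reduceEq, if_false]
    at hr0 hc0 hc1 hc2 hc12
  have h01 : k.1 0 1 = 0 := by nlinarith [sq_nonneg (k.1 0 1), sq_nonneg (k.1 0 2)]
  have h02 : k.1 0 2 = 0 := by nlinarith [sq_nonneg (k.1 0 1), sq_nonneg (k.1 0 2)]
  have h10 : k.1 1 0 = 0 := by nlinarith [sq_nonneg (k.1 1 0), sq_nonneg (k.1 2 0)]
  have h20 : k.1 2 0 = 0 := by nlinarith [sq_nonneg (k.1 1 0), sq_nonneg (k.1 2 0)]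
  rw [h01] at hc1 hc12
  rw [h02] at hc2 hc12
  rw [h00] at hx
  have hsq : (k.1 1 1) ^ 2 + (k.1 2 1) ^ 2 = 1 := by nlinarith
  obtain ⟨c, hc, hs⟩ : ∃ c : ℝ, cos c = k.1 1 1 ∧ sin c = k.1 2 1 := by
    refine ⟨Complex.arg ⟨k.1 1 1, k.1 2 1⟩, ?_, ?_⟩
    · have hn : ‖(⟨k.1 1 1, k.1 2 1⟩ : ℂ)‖ = 1 := by
        rw [Complex.norm_def, Complex.normSq_mk, Real.sqrt_eq_one]; nlinarith
      have h0 : (⟨k.1 1 1, k.1 2 1⟩ : ℂ) ≠ 0 := by
        intro h; rw [h] at hn; simp at hn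
      rw [Complex.cos_arg h0, hn]; simp
    · have hn : ‖(⟨k.1 1 1, k.1 2 1⟩ : ℂ)‖ = 1 := by
        rw [Complex.norm_def, Complex.normSq_mk, Real.sqrt_eq_one]; nlinarith
      rw [Complex.sin_arg, hn]; simp
  -- the remaining column
  have e12 : k.1 1 2 = -k.1 2 1 := by
    linear_combination (k.1 2 1) * hx + k.1 1 1 * hc12 - k.1 1 2 * hsq
  have e22 : k.1 2 2 = k.1 1 1 := by
    linear_combination (-k.1 1 1) * hx + k.1 2 1 * hc12 - k.1 2 2 * hsq
  refine ⟨c, ?_⟩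
  apply Subtype.ext
  ext i j
  fin_cases i <;> fin_cases j <;> simp [fr_val, hc, hs, h00, h01, h02, h10, h20, e12, e22]

/-- a unit vector in polar coordinates -/
lemma lo_polar_col (h : G) : ∃ b c : ℝ, h.1 0 0 = cos b ∧ h.1 1 0 = sin b * cos c ∧
    h.1 2 0 = sin b * sin c := by
  have hc0 := h.col_dot 0 0
  simp only [Fin.sum_univ_three, if_true] at hc0
  refine ⟨arccos (h.1 0 0), Complex.arg ⟨h.1 1 0, h.1 2 0⟩, ?_, ?_, ?_⟩
  · rw [cos_arccos] <;> have := abs_le.mp (h.abs_entry_le 0 0) <;> linarith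
  · have hs : sin (arccos (h.1 0 0)) = ‖(⟨h.1 1 0, h.1 2 0⟩ : ℂ)‖ := by
      rw [sin_arccos, Complex.norm_def, Complex.normSq_mk]; congr 1; nlinarith
    rw [hs]
    by_cases h0 : (⟨h.1 1 0, h.1 2 0⟩ : ℂ) = 0
    · rw [h0]; simp
      exact congrArg Complex.re h0
    · rw [Complex.cos_arg h0, mul_div_cancel₀]
      simpa using h0
  · have hs : sin (arccos (h.1 0 0)) = ‖(⟨h.1 1 0, h.1 2 0⟩ : ℂ)‖ := by
      rw [sin_arccos, Complex.norm_def, Complex.normSq_mk]; congr 1; nlinarith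
    rw [hs]
    by_cases h0 : (⟨h.1 1 0, h.1 2 0⟩ : ℂ) = 0
    · rw [h0]; simp
      exact congrArg Complex.im h0
    · rw [Complex.sin_arg, mul_div_cancel₀]
      simpa using h0

lemma lo_euler (h : G) : ∃ b c c' : ℝ, h = fr c * fa b * fr c' ∧ h.1 0 0 = cos b := by
  obtain ⟨b, c, h0, h1, h2⟩ := lo_polar_col h
  have hk : ((fr c * fa b)⁻¹ * h).1 0 0 = 1 := by
    have hb := sin_sq_add_cos_sq b
    have hc := sin_sq_add_cos_sq c
    simp [fr_val, fa_val, Matrix.mul_apply, Fin.sum_univ_three, Matrix.transpose_apply, h0, h1, h2]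
    linear_combination hb + sin b ^ 2 * hc
  obtain ⟨c', hc'⟩ := lo_eq_fr_of_first _ hk
  refine ⟨b, c, c', ?_, h0⟩
  rw [← hc']; group

/-- an even function with derivative bounded by `L` along the flow -/
lemma lo_even_lip (F F' : G → ℝ) (h : FD fa F F') (hev : ∀ g, F (g * fa π) = F g)
    (L : ℝ) (hL : ∀ g, |F' g| ≤ L) (g : G) (b : ℝ) :
    |F (g * fa b) - F g| ≤ π / 2 * L * √(1 - cos b ^ 2) := by
  have hL0 : 0 ≤ L := le_trans (abs_nonneg _) (hL 1)
  have key : ∀ b : ℝ, |F (g * fa b) - F g| ≤ L * |b| := by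
    intro b
    have := Convex.norm_image_sub_le_of_norm_hasDerivWithin_le (f := fun t => F (g * fa t))
      (f' := fun t => F' (g * fa t)) (s := Set.univ) (x := 0) (y := b) (C := L)
      (fun x _ => (h.ata g x).hasDerivWithinAt) (fun x _ => hL _) convex_univ
      (Set.mem_univ _) (Set.mem_univ _)
    simpa using this
  have hp1 : ∀ b : ℝ, F (g * fa (b + π)) = F (g * fa b) := by
    intro b; rw [fa_add, ← mul_assoc, hev]
  have hper : Function.Periodic (fun b : ℝ => F (g * fa b)) π := hp1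
  have hperc : Function.Periodic (fun b : ℝ => cos b ^ 2) π := by
    intro b; simp [cos_add_pi]
  -- reduce to `[-π/2, π/2]`
  obtain ⟨b', hb', hFb, hcb⟩ : ∃ b' : ℝ, |b'| ≤ π / 2 ∧ F (g * fa b) = F (g * fa b') ∧
      cos b ^ 2 = cos b' ^ 2 := by
    refine ⟨toIcoMod pi_pos (-(π / 2)) b, ?_, ?_, ?_⟩
    · have := toIcoMod_mem_Ico pi_pos (-(π / 2)) b
      rw [abs_le]; constructor <;> [exact this.1; linarith [this.2]]
    · have h1 : b = toIcoMod pi_pos (-(π / 2)) b + toIcoDiv pi_pos (-(π / 2)) b • π :=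
        (toIcoMod_add_toIcoDiv_zsmul pi_pos (-(π / 2)) b).symm
      conv_lhs => rw [h1]
      exact (hper.zsmul _) _
    · have h1 : b = toIcoMod pi_pos (-(π / 2)) b + toIcoDiv pi_pos (-(π / 2)) b • π :=
        (toIcoMod_add_toIcoDiv_zsmul pi_pos (-(π / 2)) b).symm
      conv_lhs => rw [h1]
      exact (hperc.zsmul _) _
  rw [hFb, hcb]
  refine (key b').trans ?_
  have h1 : |b'| ≤ π / 2 * √(1 - cos b' ^ 2) := by
    have h2 : √(1 - cos b' ^ 2) = |sin b'| := by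
      rw [← sin_sq, Real.sqrt_sq_eq_abs]
    rw [h2]
    have h3 : 2 / π * |b'| ≤ |sin b'| := by
      have := Real.mul_abs_le_abs_sin hb'
      exact this
    have hpi := pi_pos
    calc |b'| = π / 2 * (2 / π * |b'|) := by field_simp
      _ ≤ π / 2 * |sin b'| := mul_le_mul_of_nonneg_left h3 (by positivity)
  calc L * |b'| ≤ L * (π / 2 * √(1 - cos b' ^ 2)) := mul_le_mul_of_nonneg_left h1 hL0
    _ = _ := by ring

lemma lo_lip_ball (J : Jet) (hJ : J.Ok) (hev : ∀ g, J.f (g * fa π) = J.f g) (L : ℝ)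
    (hL : ∀ g, |J.X g| ≤ L) (g₀ g : G) :
    |J.f g₀| - π / 2 * L * √(1 - kk g₀ g 0 ^ 2) ≤ |J.f g| := by
  obtain ⟨b, c, c', he, hb⟩ := lo_euler (g₀⁻¹ * g)
  have h1 : g = g₀ * fr c * fa b * fr c' := by
    have : g = g₀ * (g₀⁻¹ * g) := by group
    rw [this, he]; group
  have h2 : J.f g = J.f (g₀ * fr c * fa b) := by rw [h1, hJ.inv]
  have h3 : J.f g₀ = J.f (g₀ * fr c) := by rw [hJ.inv]
  have h4 := lo_even_lip J.f J.X hJ.dX hev L hL (g₀ * fr c) b
  rw [← h2, ← h3, ← hb, ← kk_eq_mul] at h4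
  have h5 := abs_sub_abs_le_abs_sub (J.f g₀) (J.f g)
  rw [abs_sub_comm] at h5
  linarith

/-- Fubini and right invariance -/
lemma lo_swap_fa (u H : G → ℝ) (hu : Continuous u) (hH : Continuous H) :
    ∫ g, u g * (∫ t in (0:ℝ)..(2 * π), H (g * fa t)) ∂μ =
      ∫ g, (∫ t in (0:ℝ)..(2 * π), u (g * fa (-t))) * H g ∂μ := by
  have hpi : (0:ℝ) ≤ 2 * π := by positivity
  have hint : ∀ Φ : G × ℝ → ℝ, Continuous Φ →
      Integrable (Function.uncurry fun (g : G) (t : ℝ) => Φ (g, t))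
        (μ.prod (volume.restrict (Set.Ioc (0:ℝ) (2 * π)))) := by
    intro Φ hΦ
    have : IntegrableOn Φ (Set.univ ×ˢ Set.Icc (0:ℝ) (2 * π)) (μ.prod volume) :=
      hΦ.continuousOn.integrableOn_compact (isCompact_univ.prod isCompact_Icc)
    have h4 := this.mono_set (s := Set.univ ×ˢ Set.Ioc (0:ℝ) (2 * π))
      (Set.prod_mono le_rfl Set.Ioc_subset_Icc_self)
    rw [IntegrableOn, ← Measure.prod_restrict, Measure.restrict_univ] at h4
    exact h4
  simp only [intervalIntegral.integral_of_le hpi]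
  simp only [← integral_const_mul, ← integral_mul_const]
  have e1 := integral_integral_swap (hint (fun p => u p.1 * H (p.1 * fa p.2)) (by fun_prop))
  have e2 := integral_integral_swap (hint (fun p => u (p.1 * fa (-p.2)) * H p.1) (by fun_prop))
  simp only at e1 e2
  rw [e1, e2]
  congr 1
  ext t
  have := int_right (fun g => u (g * fa (-t)) * H g) (fa t)
  rw [← this]
  congr 1
  ext g
  rw [mul_assoc, ← fa_add, add_neg_cancel, fa_zero, mul_one]

/-- distance to the circle average -/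
lemma lo_avg_dist (F F' : G → ℝ) (h : FD fa F F') (hF : Continuous F) (hF' : Continuous F') (g : G) :
    |F g| ≤ |(1 / (2 * π)) * ∫ t in (0:ℝ)..(2 * π), F (g * fa t)| +
      (1 / 2) * ∫ t in (0:ℝ)..(2 * π), |F' (g * fa t)| := by
  have hpi : (0:ℝ) < 2 * π := by positivity
  have hcF : Continuous fun t => F (g * fa t) := by fun_prop
  have hcF' : Continuous fun t => F' (g * fa t) := by fun_prop
  have h2pi : fa (2 * π) = 1 := by
    apply Subtype.ext; ext i j; fin_cases i <;> fin_cases j <;> simp [fa_val]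
  have hd : ∀ a b : ℝ, F (g * fa b) - F (g * fa a) = ∫ t in a..b, F' (g * fa t) := by
    intro a b
    rw [intervalIntegral.integral_eq_sub_of_hasDerivAt (f := fun s => F (g * fa s))
      (fun s _ => h.ata g s)]
    exact hcF'.intervalIntegrable _ _
  have hpt : ∀ t ∈ Set.Icc (0:ℝ) (2 * π), |F g - F (g * fa t)| ≤
      (1 / 2) * ∫ t in (0:ℝ)..(2 * π), |F' (g * fa t)| := by
    intro t ht
    have h1 := hd 0 t
    have h2 := hd t (2 * π)
    rw [h2pi, mul_one] at h2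
    rw [fa_zero, mul_one] at h1
    have i1 := intervalIntegral.abs_integral_le_integral_abs (f := fun t => F' (g * fa t))
      (μ := volume) ht.1
    have i2 := intervalIntegral.abs_integral_le_integral_abs (f := fun t => F' (g * fa t))
      (μ := volume) ht.2
    rw [← h1] at i1
    rw [← h2] at i2
    have i3 := intervalIntegral.integral_add_adjacent_intervals
      (hcF'.abs.intervalIntegrable (μ := volume) 0 t) (hcF'.abs.intervalIntegrable (μ := volume) t (2 * π))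
    rw [abs_sub_comm] at i1
    linarith
  have h3 : F g - (1 / (2 * π)) * ∫ t in (0:ℝ)..(2 * π), F (g * fa t) =
      (1 / (2 * π)) * ∫ t in (0:ℝ)..(2 * π), (F g - F (g * fa t)) := by
    rw [intervalIntegral.integral_sub (intervalIntegrable_const)
      (hcF.intervalIntegrable _ _), intervalIntegral.integral_const]
    simp only [sub_zero, smul_eq_mul]
    field_simp
  have h4 : |∫ t in (0:ℝ)..(2 * π), (F g - F (g * fa t))| ≤
      ((1 / 2) * ∫ t in (0:ℝ)..(2 * π), |F' (g * fa t)|) * |2 * π - 0| := by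
    have := intervalIntegral.norm_integral_le_of_norm_le_const
      (f := fun t => F g - F (g * fa t)) (a := 0) (b := 2 * π)
      (C := (1 / 2) * ∫ t in (0:ℝ)..(2 * π), |F' (g * fa t)|) ?_
    · exact this
    · intro t ht
      rw [Set.uIoc_of_le hpi.le] at ht
      exact hpt t ⟨ht.1.le, ht.2⟩
  have h5 : |F g - (1 / (2 * π)) * ∫ t in (0:ℝ)..(2 * π), F (g * fa t)| ≤
      (1 / 2) * ∫ t in (0:ℝ)..(2 * π), |F' (g * fa t)| := by
    rw [h3, abs_mul, abs_of_pos (by positivity : (0:ℝ) < 1 / (2 * π))]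
    rw [sub_zero, abs_of_pos hpi] at h4
    calc 1 / (2 * π) * |∫ t in (0:ℝ)..(2 * π), (F g - F (g * fa t))| ≤
        1 / (2 * π) * (((1 / 2) * ∫ t in (0:ℝ)..(2 * π), |F' (g * fa t)|) * (2 * π)) :=
          mul_le_mul_of_nonneg_left h4 (by positivity)
      _ = _ := by field_simp
  have h6 := abs_sub_abs_le_abs_sub (F g) ((1 / (2 * π)) * ∫ t in (0:ℝ)..(2 * π), F (g * fa t))
  linarith

/-- circle average of the zonal power -/
lemma lo_chi_avg (g₀ g : G) (m : ℕ) :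
    ∫ t in (0:ℝ)..(2 * π), kk g₀ (g * fa (-t)) 0 ^ (2 * m) =
      2 * π * al m * (1 - kk g₀ g 2 ^ 2) ^ m := by
  have h1 := kk_sq g₀ g
  have h2 : 1 - kk g₀ g 2 ^ 2 = kk g₀ g 0 ^ 2 + (-kk g₀ g 1) ^ 2 := by linarith
  rw [h2, ← circle_avg]
  congr 1
  ext t
  rw [(kk_fa g₀ g (-t)).1, cos_neg, sin_neg]
  ring

lemma lo_al_low' (m : ℕ) : √(2 * m + 1) ≤ (4 * m + 1) * al (2 * m) := by
  have hp := al_pos (2 * m)
  rw [Real.sqrt_le_left (by positivity)]
  rcases Nat.eq_zero_or_pos m with h | h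
  · subst h; simp [al_zero]
  · have h1 := al_lower (2 * m) (by omega)
    push_cast at h1
    have hm : (1:ℝ) ≤ m := by exact_mod_cast h
    have h2 : 8 * (m:ℝ) * (2 * m + 1) ≤ (4 * m + 1) ^ 2 := by nlinarith
    have h3 : (2 * (m:ℝ) + 1) * (8 * m) ≤ ((4 * m + 1) * al (2 * m)) ^ 2 * (8 * m) := by
      calc (2 * (m:ℝ) + 1) * (8 * m) ≤ (4 * m + 1) ^ 2 * 1 := by linarith
        _ ≤ (4 * m + 1) ^ 2 * (4 * (2 * m) * al (2 * m) ^ 2) :=
            mul_le_mul_of_nonneg_left h1 (by positivity)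
        _ = _ := by ring
    exact le_of_mul_le_mul_right h3 (by positivity)

lemma lo_al_up' (m : ℕ) : (2 * m + 1) * al m ≤ √(2 * m + 1) := by
  have hp := al_pos m
  apply Real.le_sqrt_of_sq_le
  have h1 := al_upper m
  have : ((2 * (m:ℝ) + 1) * al m) ^ 2 = (2 * m + 1) * (al m ^ 2 * (2 * m + 1)) := by ring
  rw [this]
  calc (2 * (m:ℝ) + 1) * (al m ^ 2 * (2 * m + 1)) ≤ (2 * m + 1) * 1 :=
        mul_le_mul_of_nonneg_left h1 (by positivity)
    _ = _ := mul_one _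

theorem lower (J : Jet) (hJ : J.Ok) (hev : ∀ g, J.f (g * fa π) = J.f g) (L s c₁ δ : ℝ)
    (hc₁ : 0 ≤ c₁) (hδ : 0 ≤ δ) (hs : 0 ≤ s)
    (hL : ∀ g, |J.X g| ≤ L) (m : ℕ) (hm : π / 2 * L * √(2 / (2 * m + 3)) ≤ s / 2)
    (g₀ : G) (hg : s ≤ |J.f g₀|)
    (havg : ∀ g, |(1 / (2 * π)) * ∫ t in (0:ℝ)..(2 * π), J.f (g * fa t)| ≤
      δ + c₁ * ((1 / (2 * π)) * ∫ t in (0:ℝ)..(2 * π), J.X (g * fa t) ^ 2)) :
    s / 2 ≤ δ + c₁ * √(2 * m + 1) * J.E + π * √(√(2 * m + 1)) * √(J.E) := by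
  have hpi := pi_pos
  have hL0 : 0 ≤ L := le_trans (abs_nonneg _) (hL 1)
  have cf := hJ.cf
  have cX := hJ.cX
  have cY := hJ.cY
  set N : ℝ := 2 * m + 1 with hN
  have hNpos : 0 < N := by positivity
  -- the zonal weight
  set chi : G → ℝ := fun g => kk g₀ g 0 ^ (2 * m) with hchi
  have cchi : Continuous chi := by fun_prop
  have chi0 : ∀ g, 0 ≤ chi g := fun g => by
    simp only [hchi]; exact (even_two_mul m).pow_nonneg _
  have mchi : ∫ g, chi g ∂μ = 1 / N := moment g₀ m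
  have msqrt : ∫ g, chi g * √(1 - kk g₀ g 0 ^ 2) ∂μ ≤ √(2 / (2 * m + 3)) / N := by
    have h1 := int_kk' (fun x => (2 * m + 1) * x ^ (2 * m) * √(1 - x ^ 2)) g₀
    have h2 := moment_sqrt m
    rw [← h1] at h2
    rw [le_div_iff₀ hNpos, mul_comm, ← integral_const_mul]
    refine le_trans (le_of_eq ?_) h2
    congr 1
    ext g
    simp only [hchi, hN]
    ring
  -- step 2
  have step2 : s / 2 / N ≤ ∫ g, chi g * |J.f g| ∂μ := by
    have h1 : ∫ g, chi g * (s - π / 2 * L * √(1 - kk g₀ g 0 ^ 2)) ∂μ ≤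
        ∫ g, chi g * |J.f g| ∂μ := by
      apply integral_mono (intg (by fun_prop)) (intg (by fun_prop))
      intro g
      apply mul_le_mul_of_nonneg_left _ (chi0 g)
      have := lo_lip_ball J hJ hev L hL g₀ g
      linarith
    have h2 : ∫ g, chi g * (s - π / 2 * L * √(1 - kk g₀ g 0 ^ 2)) ∂μ =
        s * (∫ g, chi g ∂μ) - π / 2 * L * ∫ g, chi g * √(1 - kk g₀ g 0 ^ 2) ∂μ := by
      rw [← integral_const_mul, ← integral_const_mul, ← integral_sub (intg (by fun_prop))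
        (intg (by fun_prop))]
      congr 1
      ext g
      ring
    rw [h2, mchi] at h1
    have h3 : π / 2 * L * ∫ g, chi g * √(1 - kk g₀ g 0 ^ 2) ∂μ ≤ s / 2 / N := by
      calc π / 2 * L * ∫ g, chi g * √(1 - kk g₀ g 0 ^ 2) ∂μ ≤
          π / 2 * L * (√(2 / (2 * m + 3)) / N) := mul_le_mul_of_nonneg_left msqrt (by positivity)
        _ = (π / 2 * L * √(2 / (2 * m + 3))) / N := by ring
        _ ≤ s / 2 / N := div_le_div_of_nonneg_right hm hNpos.le
    have h4 : s * (1 / N) = s / 2 / N + s / 2 / N := by ring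
    linarith
  -- energy
  have hE0 : 0 ≤ J.E := integral_nonneg fun g => by positivity
  have hXE : ∫ g, J.X g ^ 2 ∂μ ≤ J.E := by
    apply integral_mono (intg (by fun_prop)) (intg (by fun_prop))
    intro g
    have := sq_nonneg (J.Y g)
    simp only
    linarith
  -- step 4
  have cA : Continuous fun g => ∫ t in (0:ℝ)..(2 * π), J.X (g * fa t) ^ 2 := by
    apply intervalIntegral.continuous_parametric_intervalIntegral_of_continuous'
    fun_prop
  have cB : Continuous fun g => ∫ t in (0:ℝ)..(2 * π), |J.X (g * fa t)| := by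
    apply intervalIntegral.continuous_parametric_intervalIntegral_of_continuous'
    fun_prop
  have step4 : ∫ g, chi g * |J.f g| ∂μ ≤ δ * (∫ g, chi g ∂μ) +
      c₁ * (1 / (2 * π)) * (∫ g, chi g * (∫ t in (0:ℝ)..(2 * π), J.X (g * fa t) ^ 2) ∂μ) +
      (1 / 2) * (∫ g, chi g * (∫ t in (0:ℝ)..(2 * π), |J.X (g * fa t)|) ∂μ) := by
    rw [← integral_const_mul, ← integral_const_mul, ← integral_const_mul,
      ← integral_add (intg (by fun_prop)) (intg (by fun_prop)),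
      ← integral_add (intg (by fun_prop)) (intg (by fun_prop))]
    apply integral_mono (intg (by fun_prop)) (intg (by fun_prop))
    intro g
    have h1 := lo_avg_dist J.f J.X hJ.dX cf cX g
    have h2 := havg g
    have h3 : |J.f g| ≤ δ + c₁ * ((1 / (2 * π)) * ∫ t in (0:ℝ)..(2 * π), J.X (g * fa t) ^ 2) +
        (1 / 2) * ∫ t in (0:ℝ)..(2 * π), |J.X (g * fa t)| := by linarith
    have h4 := mul_le_mul_of_nonneg_left h3 (chi0 g)
    simp only
    refine h4.trans (le_of_eq ?_)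
    ring
  have e1 : ∫ g, chi g * (∫ t in (0:ℝ)..(2 * π), J.X (g * fa t) ^ 2) ∂μ =
      2 * π * al m * ∫ g, (1 - kk g₀ g 2 ^ 2) ^ m * J.X g ^ 2 ∂μ := by
    rw [lo_swap_fa chi (fun g => J.X g ^ 2) cchi (by fun_prop), ← integral_const_mul]
    congr 1
    ext g
    simp only [hchi]
    rw [lo_chi_avg]
    ring
  have e2 : ∫ g, chi g * (∫ t in (0:ℝ)..(2 * π), |J.X (g * fa t)|) ∂μ =
      2 * π * al m * ∫ g, (1 - kk g₀ g 2 ^ 2) ^ m * |J.X g| ∂μ := by
    rw [lo_swap_fa chi (fun g => |J.X g|) cchi (by fun_prop), ← integral_const_mul]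
    congr 1
    ext g
    simp only [hchi]
    rw [lo_chi_avg]
    ring
  have hw0 : ∀ g, 0 ≤ 1 - kk g₀ g 2 ^ 2 := fun g => by
    have := kk_sq g₀ g
    nlinarith [sq_nonneg (kk g₀ g 0), sq_nonneg (kk g₀ g 1)]
  have hw1 : ∀ g, 1 - kk g₀ g 2 ^ 2 ≤ 1 := fun g => by nlinarith [sq_nonneg (kk g₀ g 2)]
  have b1 : ∫ g, (1 - kk g₀ g 2 ^ 2) ^ m * J.X g ^ 2 ∂μ ≤ J.E := by
    refine le_trans ?_ hXE
    apply integral_mono (intg (by fun_prop)) (intg (by fun_prop))
    intro g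
    have := pow_le_one₀ (n := m) (hw0 g) (hw1 g)
    calc (1 - kk g₀ g 2 ^ 2) ^ m * J.X g ^ 2 ≤ 1 * J.X g ^ 2 :=
          mul_le_mul_of_nonneg_right this (sq_nonneg _)
      _ = _ := one_mul _
  have hal := al_pos m
  have hal2 := al_pos (2 * m)
  -- Cauchy-Schwarz
  have cs : ∀ a b : G → ℝ, Continuous a → Continuous b →
      (∫ g, a g * b g ∂μ) ^ 2 ≤ (∫ g, a g ^ 2 ∂μ) * ∫ g, b g ^ 2 ∂μ := by
    intro a b ha hb
    have h1 : ∀ t : ℝ, 0 ≤ (∫ g, a g ^ 2 ∂μ) * (t * t) + (2 * ∫ g, a g * b g ∂μ) * t +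
        ∫ g, b g ^ 2 ∂μ := by
      intro t
      have h2 : 0 ≤ ∫ g, (t * a g + b g) ^ 2 ∂μ := integral_nonneg fun g => sq_nonneg _
      have h3 : ∫ g, (t * a g + b g) ^ 2 ∂μ = (∫ g, a g ^ 2 ∂μ) * (t * t) +
          (2 * ∫ g, a g * b g ∂μ) * t + ∫ g, b g ^ 2 ∂μ := by
        have h4 : ∀ g, (t * a g + b g) ^ 2 = (t * t) * a g ^ 2 + (2 * t) * (a g * b g) +
          b g ^ 2 := fun g => by ring
        simp_rw [h4]
        rw [integral_add (intg (by fun_prop)) (intg (by fun_prop)),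
          integral_add (intg (by fun_prop)) (intg (by fun_prop)), integral_const_mul,
          integral_const_mul]
        ring
      rw [h3] at h2
      exact h2
    have h2 := discrim_le_zero h1
    rw [discrim] at h2
    nlinarith
  have b2 : (∫ g, (1 - kk g₀ g 2 ^ 2) ^ m * |J.X g| ∂μ) ≤
      √(1 / ((4 * m + 1) * al (2 * m))) * √(J.E) := by
    rw [← Real.sqrt_mul (by positivity)]
    apply Real.le_sqrt_of_sq_le
    refine (cs _ _ (by fun_prop) (by fun_prop)).trans ?_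
    have h1 : ∫ g, ((1 - kk g₀ g 2 ^ 2) ^ m) ^ 2 ∂μ = 1 / ((4 * m + 1) * al (2 * m)) := by
      have h2 := moment_c g₀ (2 * m)
      push_cast at h2
      have h3 : (2 * (2 * (m:ℝ)) + 1) = 4 * m + 1 := by ring
      rw [h3] at h2
      rw [← h2]
      congr 1
      ext g
      rw [← pow_mul, mul_comm m 2]
    rw [h1]
    apply mul_le_mul_of_nonneg_left _ (by positivity)
    simp only [sq_abs]
    exact hXE
  have hup := lo_al_up' m
  have hlow := lo_al_low' m
  rw [e1, e2, mchi] at step4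
  have fin1 : s / 2 / N ≤ δ * (1 / N) + c₁ * al m * J.E +
      π * al m * (√(1 / ((4 * m + 1) * al (2 * m))) * √(J.E)) := by
    have t1 : c₁ * (1 / (2 * π)) * (2 * π * al m * ∫ g, (1 - kk g₀ g 2 ^ 2) ^ m * J.X g ^ 2 ∂μ) ≤
        c₁ * al m * J.E := by
      have : c₁ * (1 / (2 * π)) * (2 * π * al m * ∫ g, (1 - kk g₀ g 2 ^ 2) ^ m * J.X g ^ 2 ∂μ) =
        c₁ * al m * ∫ g, (1 - kk g₀ g 2 ^ 2) ^ m * J.X g ^ 2 ∂μ := by field_simp
      rw [this]
      exact mul_le_mul_of_nonneg_left b1 (by positivity)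
    have t2 : (1 / 2) * (2 * π * al m * ∫ g, (1 - kk g₀ g 2 ^ 2) ^ m * |J.X g| ∂μ) ≤
        π * al m * (√(1 / ((4 * m + 1) * al (2 * m))) * √(J.E)) := by
      have : (1 / 2) * (2 * π * al m * ∫ g, (1 - kk g₀ g 2 ^ 2) ^ m * |J.X g| ∂μ) =
        π * al m * ∫ g, (1 - kk g₀ g 2 ^ 2) ^ m * |J.X g| ∂μ := by ring
      rw [this]
      exact mul_le_mul_of_nonneg_left b2 (by positivity)
    linarith
  have fin2 := mul_le_mul_of_nonneg_left fin1 hNpos.le
  have l1 : N * (s / 2 / N) = s / 2 := by field_simp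
  rw [l1] at fin2
  have sE := Real.sqrt_nonneg J.E
  have r1 : N * (c₁ * al m * J.E) ≤ c₁ * √N * J.E := by
    calc N * (c₁ * al m * J.E) = c₁ * (N * al m) * J.E := by ring
      _ ≤ c₁ * √N * J.E := by gcongr
  have r2 : N * (π * al m * (√(1 / ((4 * m + 1) * al (2 * m))) * √(J.E))) ≤
      π * √(√N) * √(J.E) := by
    have q1 : √(1 / ((4 * (m:ℝ) + 1) * al (2 * m))) ≤ √(1 / √N) := by
      apply Real.sqrt_le_sqrt
      exact one_div_le_one_div_of_le (Real.sqrt_pos.mpr hNpos) hlow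
    have q2 : √N * √(1 / √N) = √(√N) := by
      have h0 : 0 ≤ √N := Real.sqrt_nonneg N
      have h1 : √N = √(√N) * √(√N) := (Real.mul_self_sqrt h0).symm
      have h2 : 0 < √(√N) := Real.sqrt_pos.mpr (Real.sqrt_pos.mpr hNpos)
      rw [Real.sqrt_div zero_le_one, Real.sqrt_one]
      rw [mul_one_div, div_eq_iff h2.ne']
      exact h1
    calc N * (π * al m * (√(1 / ((4 * m + 1) * al (2 * m))) * √(J.E))) =
        π * ((N * al m) * √(1 / ((4 * m + 1) * al (2 * m)))) * √(J.E) := by ring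
      _ ≤ π * (√N * √(1 / √N)) * √(J.E) := by gcongr
      _ = _ := by rw [q2]
  have r0 : N * (δ * (1 / N)) = δ := by field_simp
  have l2 : N * (δ * (1 / N) + c₁ * al m * J.E +
      π * al m * (√(1 / ((4 * m + 1) * al (2 * m))) * √(J.E))) =
      N * (δ * (1 / N)) + N * (c₁ * al m * J.E) +
      N * (π * al m * (√(1 / ((4 * m + 1) * al (2 * m))) * √(J.E))) := by ring
  rw [l2, r0] at fin2
  linarith

end Pool.Agent.Lib_MP_f78f32_gt
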