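import Pool.Agent.Lib_MP_f78f32_gt.GKDefs

/-!
# The Taylor expansion of the arc length integrand against a flow invariant function
-/

open MeasureTheory Real
open scoped Matrix ComplexConjugate

namespace Pool.Agent.Lib_MP_f78f32_gt

/-- binomial coefficients of exponent one half -/
noncomputable def bch (j : ℕ) : ℝ := Ring.choose (1 / 2 : ℝ) j

lemma bch_succ (n : ℕ) : bch (n + 1) * (n + 1) = bch n * (1 / 2 - n) := by
  have h1 := Ring.descPochhammer_eq_factorial_smul_choose (1 / 2 : ℝ) n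
  have h2 := Ring.descPochhammer_eq_factorial_smul_choose (1 / 2 : ℝ) (n + 1)
  have h3 : (descPochhammer ℤ (n + 1)).smeval (1 / 2 : ℝ) =
      (descPochhammer ℤ n).smeval (1 / 2 : ℝ) * (1 / 2 - n) := by
    simp [descPochhammer_succ_right, Polynomial.smeval_mul, Polynomial.smeval_natCast]
  rw [h3, h1] at h2
  simp only [nsmul_eq_mul] at h2
  rw [Nat.factorial_succ] at h2
  push_cast at h2
  have h4 : (n.factorial : ℝ) ≠ 0 := by positivity
  apply mul_left_cancel₀ h4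
  unfold bch
  linear_combination -h2

lemma bch_zero : bch 0 = 1 := by
  unfold bch
  exact Ring.choose_zero_right _

lemma bch_one : bch 1 = 1 / 2 := by
  have h := bch_succ 0
  rw [bch_zero] at h
  simpa using h

lemma bch_two : bch 2 = -(1 / 8) := by
  have h := bch_succ 1
  norm_num [bch_one] at h
  linarith

lemma abs_bch_le (i : ℕ) : |bch (i + 2)| ≤ 1 / 8 := by
  induction i with
  | zero => rw [zero_add, bch_two]; norm_num
  | succ i ih =>
    have h := bch_succ (i + 2)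
    have h1 : |bch (i + 2 + 1)| * ((i : ℝ) + 3) ≤ |bch (i + 2)| * ((i : ℝ) + 3) := by
      have h2 : |bch (i + 2 + 1)| * ((i : ℝ) + 3) = |bch (i + 2)| * |1 / 2 - ((i : ℝ) + 2)| := by
        rw [← abs_mul]
        have h3 : ((i : ℝ) + 3) = |((i : ℝ) + 3)| := (abs_of_nonneg (by positivity)).symm
        rw [h3, ← abs_mul]
        congr 1
        push_cast at h
        linear_combination h
      rw [h2]
      apply mul_le_mul_of_nonneg_left _ (abs_nonneg _)
      rw [abs_le]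
      have : (0 : ℝ) ≤ i := by positivity
      constructor <;> linarith
    have h4 : (0 : ℝ) < (i : ℝ) + 3 := by positivity
    have h5 := le_of_mul_le_mul_right h1 h4
    have h6 : i + 1 + 2 = i + 2 + 1 := by ring
    rw [h6]
    exact h5.trans ih

lemma hasSum_sqrt (z : ℝ) (hz : |z| < 1) : HasSum (fun n => bch n * z ^ n) (√(1 + z)) := by
  have h := (Real.one_add_rpow_hasFPowerSeriesOnBall_zero (a := 1 / 2)).hasSum (y := z) (by
    rw [← ENNReal.ofReal_one, Metric.eball_ofReal]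
    simpa using hz)
  rw [zero_add, ← Real.sqrt_eq_rpow] at h
  refine h.congr_fun ?_
  intro n
  rw [binomialSeries_apply]
  simp [bch]

/-- the integrand minus the main terms as a series -/
lemma hasSum_arc (p x : ℝ) (hp : 0 < p) (hx : |x| < p) :
    HasSum (fun i => bch (i + 2) * ((p ^ (2 * i + 3))⁻¹ * x ^ (2 * (i + 2))))
      (√(p ^ 2 + x ^ 2) - p - x ^ 2 / (2 * p)) := by
  have hz : |(x / p) ^ 2| < 1 := by
    rw [abs_pow, sq_lt_one_iff_abs_lt_one, abs_abs, abs_div, abs_of_pos hp, div_lt_one hp]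
    exact hx
  have h1 := (hasSum_sqrt _ hz).mul_left p
  have h2 : p * √(1 + (x / p) ^ 2) = √(p ^ 2 + x ^ 2) := by
    have : p ^ 2 + x ^ 2 = p ^ 2 * (1 + (x / p) ^ 2) := by field_simp
    rw [this, Real.sqrt_mul (by positivity), Real.sqrt_sq hp.le]
  rw [h2, ← hasSum_nat_add_iff' 2] at h1
  simp only [Finset.sum_range_succ, Finset.sum_range_zero, bch_zero, bch_one] at h1
  have h3 : √(p ^ 2 + x ^ 2) - p - x ^ 2 / (2 * p) = √(p ^ 2 + x ^ 2) -
      (0 + p * (1 * ((x / p) ^ 2) ^ 0) + p * (1 / 2 * ((x / p) ^ 2) ^ 1)) := by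
    field_simp
    ring
  rw [h3]
  refine h1.congr_fun ?_
  intro i
  have h4 : p ^ (2 * (i + 2)) = p ^ (2 * i + 3) * p := by ring
  rw [← pow_mul, div_pow, h4]
  field_simp

lemma sq_add_sq_le (J : Jet) (hJ : J.Ok) (L : ℝ) (hL : ∀ g, |J.X g| ≤ L) (g : G) :
    J.X g ^ 2 + J.Y g ^ 2 ≤ L ^ 2 := by
  set z : ℂ := ⟨J.X g, J.Y g⟩ with hz
  have h1 := hJ.invX g (Complex.arg z)
  have h2 : ‖z‖ * cos (Complex.arg z) = J.X g := Complex.norm_mul_cos_arg z
  have h3 : ‖z‖ * sin (Complex.arg z) = J.Y g := Complex.norm_mul_sin_arg z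
  have h4 : J.X (g * fr (Complex.arg z)) = ‖z‖ := by
    rw [h1, ← h2, ← h3]
    have := sin_sq_add_cos_sq (Complex.arg z)
    linear_combination ‖z‖ * this
  have h5 := hL (g * fr (Complex.arg z))
  rw [h4, abs_of_nonneg (norm_nonneg z)] at h5
  have h6 : J.X g ^ 2 + J.Y g ^ 2 = ‖z‖ ^ 2 := by
    rw [← h2, ← h3]
    have := sin_sq_add_cos_sq (Complex.arg z)
    linear_combination ‖z‖ ^ 2 * this
  rw [h6]
  exact pow_le_pow_left₀ (norm_nonneg z) h5 2

lemma sqrt_four_le (i : ℕ) : √(2 + ((i + 2 : ℕ) : ℝ)) ≤ 2 * (3 / 2 : ℝ) ^ i := by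
  rw [Real.sqrt_le_left (by positivity)]
  have h : (1 : ℝ) + i * (5 / 4) ≤ (1 + 5 / 4) ^ i := one_add_mul_le_pow (by norm_num) i
  have h2 : (2 * (3 / 2 : ℝ) ^ i) ^ 2 = 4 * (1 + 5 / 4) ^ i := by
    rw [mul_pow, ← pow_mul, mul_comm i 2, pow_mul]
    norm_num
  rw [h2]
  push_cast
  have : (0 : ℝ) ≤ i := by positivity
  linarith

theorem taylorE (u : G → ℝ) (hu : Continuous u) (J : Jet) (hJ : J.Ok) (L D : ℝ)
    (hf : ∀ g, |J.f g| ≤ 1 / 4) (hL : ∀ g, |J.X g| ≤ L) (hL4 : L ≤ 1 / 4) (hD : 0 ≤ D)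
    (hmode : ∀ a : G → ℝ, Continuous a → (∀ g t, a (g * fr t) = a g) → ∀ j : ℕ,
      |∫ g, u g * (a g * J.X g ^ (2 * j)) ∂μ| ≤
        √(∫ g, a g ^ 2 * (J.X g ^ 2 + J.Y g ^ 2) ^ (2 * j) ∂μ) * √((2 + j) * D)) :
    |∫ g, u g * (√((1 + J.f g) ^ 2 + J.X g ^ 2) - (1 + J.f g) -
      J.X g ^ 2 / (2 * (1 + J.f g))) ∂μ| ≤ L ^ 3 * √(J.E) * √D := by
  have hL0 : 0 ≤ L := (abs_nonneg _).trans (hL 1)
  have hρ : ∀ g, 3 / 4 ≤ 1 + J.f g := fun g => by
    have := abs_le.mp (hf g)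
    linarith
  have hρ0 : ∀ g, 0 < 1 + J.f g := fun g => by linarith [hρ g]
  have cf := hJ.cf
  have cX := hJ.cX
  have cY := hJ.cY
  -- the functions `a`
  set a : ℕ → G → ℝ := fun i g => ((1 + J.f g) ^ (2 * i + 3))⁻¹ with ha
  have ca : ∀ i, Continuous (a i) := fun i => by
    refine Continuous.inv₀ (by fun_prop) ?_
    intro g
    exact (pow_pos (hρ0 g) _).ne'
  have ai : ∀ i g t, a i (g * fr t) = a i g := fun i g t => by
    simp only [ha, hJ.inv]
  have a0 : ∀ i g, 0 ≤ a i g := fun i g => inv_nonneg.mpr (pow_nonneg (hρ0 g).le _)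
  have a1 : ∀ i g, a i g ≤ (4 / 3) ^ (2 * i + 3) := fun i g => by
    simp only [ha]
    rw [← inv_pow]
    apply pow_le_pow_left₀ (inv_nonneg.mpr (hρ0 g).le)
    rw [inv_le_comm₀ (hρ0 g) (by norm_num)]
    have := hρ g
    norm_num at this ⊢
    exact this
  -- series
  set F : ℕ → G → ℝ := fun i g => bch (i + 2) * (u g * (a i g * J.X g ^ (2 * (i + 2)))) with hF
  have hsum : ∀ g, HasSum (fun i => F i g) (u g * (√((1 + J.f g) ^ 2 + J.X g ^ 2) -
      (1 + J.f g) - J.X g ^ 2 / (2 * (1 + J.f g)))) := by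
    intro g
    have h1 := (hasSum_arc (1 + J.f g) (J.X g) (hρ0 g) (by
      have := hL g
      have := hρ g
      linarith)).mul_left (u g)
    refine h1.congr_fun ?_
    intro i
    simp only [hF, ha]
    ring
  have cF : ∀ i, Continuous (F i) := fun i => by
    have := ca i
    simp only [hF]
    fun_prop
  obtain ⟨B, hB⟩ : ∃ B : ℝ, ∀ g, |u g| ≤ B := by
    obtain ⟨B, hB⟩ := isCompact_univ.exists_bound_of_continuousOn hu.continuousOn
    exact ⟨B, fun g => hB g (Set.mem_univ g)⟩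
  have hB0 : 0 ≤ B := (abs_nonneg _).trans (hB 1)
  have hFb : ∀ i g, ‖F i g‖ ≤ B * (1 / 9 : ℝ) ^ i := by
    intro i g
    have e1 := abs_bch_le i
    have e2 : |J.X g| ^ (2 * (i + 2)) ≤ (1 / 4) ^ (2 * (i + 2)) :=
      pow_le_pow_left₀ (abs_nonneg _) ((hL g).trans hL4) _
    have e3 : ‖F i g‖ = |bch (i + 2)| * (|u g| * (a i g * |J.X g| ^ (2 * (i + 2)))) := by
      simp only [hF]
      rw [Real.norm_eq_abs, abs_mul, abs_mul, abs_mul, abs_pow, abs_of_nonneg (a0 i g)]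
    rw [e3]
    calc |bch (i + 2)| * (|u g| * (a i g * |J.X g| ^ (2 * (i + 2))))
        ≤ 1 / 8 * (B * ((4 / 3) ^ (2 * i + 3) * (1 / 4) ^ (2 * (i + 2)))) := by
          have := a0 i g
          have := a1 i g
          have := hB g
          gcongr
      _ = B * (1 / 9 : ℝ) ^ i * (1 / 864) := by
          have : ((4 / 3 : ℝ) ^ (2 * i + 3) * (1 / 4) ^ (2 * (i + 2))) =
              (1 / 9) ^ i * (1 / 108) := by
            rw [show 2 * (i + 2) = 2 * i + 4 by ring, pow_add, pow_add, pow_mul, pow_mul,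
              show (4 / 3 : ℝ) ^ 2 = 16 / 9 by norm_num, show (1 / 4 : ℝ) ^ 2 = 1 / 16 by norm_num,
              show (1 / 9 : ℝ) = 16 / 9 * (1 / 16) by norm_num, mul_pow]
            ring
          rw [this]
          ring
      _ ≤ B * (1 / 9 : ℝ) ^ i * 1 := by
          have : 0 ≤ B * (1 / 9 : ℝ) ^ i := by positivity
          gcongr
          norm_num
      _ = B * (1 / 9 : ℝ) ^ i := mul_one _
  have hFs : Summable fun i => ∫ g, ‖F i g‖ ∂μ := by
    refine Summable.of_nonneg_of_le (fun i => integral_nonneg fun g => norm_nonneg _) ?_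
      ((summable_geometric_of_lt_one (r := 1 / 9) (by norm_num) (by norm_num)).mul_left B)
    intro i
    calc ∫ g, ‖F i g‖ ∂μ ≤ ∫ g, B * (1 / 9 : ℝ) ^ i ∂μ :=
          integral_mono (intg (cF i).norm) (integrable_const _) (hFb i)
      _ = B * (1 / 9 : ℝ) ^ i := by simp
  have key := hasSum_integral_of_summable_integral_norm (fun i => intg (cF i)) hFs
  have key2 : ∫ g, ∑' i, F i g ∂μ = ∫ g, u g * (√((1 + J.f g) ^ 2 + J.X g ^ 2) -
      (1 + J.f g) - J.X g ^ 2 / (2 * (1 + J.f g))) ∂μ := by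
    congr 1
    ext g
    exact (hsum g).tsum_eq
  rw [← key2, ← key.tsum_eq]
  have hE0 : 0 ≤ J.E := integral_nonneg fun g => by positivity
  have hterm : ∀ i, ‖∫ g, F i g ∂μ‖ ≤
      (16 / 27 * (L ^ 3 * √(J.E) * √D)) * (1 / 6 : ℝ) ^ i := by
    intro i
    have e1 := abs_bch_le i
    have e2 : ∫ g, F i g ∂μ = bch (i + 2) * ∫ g, u g * (a i g * J.X g ^ (2 * (i + 2))) ∂μ := by
      simp only [hF]
      rw [integral_const_mul]
    have e3 := hmode (a i) (ca i) (ai i) (i + 2)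
    have e4 : ∫ g, a i g ^ 2 * (J.X g ^ 2 + J.Y g ^ 2) ^ (2 * (i + 2)) ∂μ ≤
        ((4 / 3 * L) ^ (2 * i + 3)) ^ 2 * J.E := by
      unfold Jet.E
      rw [← integral_const_mul]
      have c1 := ca i
      refine integral_mono (intg (by fun_prop)) (intg (by fun_prop)) ?_
      intro g
      have q0 : 0 ≤ J.X g ^ 2 + J.Y g ^ 2 := by positivity
      have q1 := sq_add_sq_le J hJ L hL g
      have q2 : (J.X g ^ 2 + J.Y g ^ 2) ^ (2 * (i + 2)) ≤
          (L ^ 2) ^ (2 * i + 3) * (J.X g ^ 2 + J.Y g ^ 2) := by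
        rw [show 2 * (i + 2) = (2 * i + 3) + 1 by ring, pow_succ]
        gcongr
      have q3 : a i g ^ 2 ≤ ((4 / 3) ^ (2 * i + 3)) ^ 2 := pow_le_pow_left₀ (a0 i g) (a1 i g) 2
      calc a i g ^ 2 * (J.X g ^ 2 + J.Y g ^ 2) ^ (2 * (i + 2))
          ≤ ((4 / 3) ^ (2 * i + 3)) ^ 2 *
            ((L ^ 2) ^ (2 * i + 3) * (J.X g ^ 2 + J.Y g ^ 2)) := by gcongr
        _ = ((4 / 3 * L) ^ (2 * i + 3)) ^ 2 * (J.X g ^ 2 + J.Y g ^ 2) := by
          rw [mul_pow (4 / 3 : ℝ) L]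
          ring
    have e5 : √(∫ g, a i g ^ 2 * (J.X g ^ 2 + J.Y g ^ 2) ^ (2 * (i + 2)) ∂μ) ≤
        (4 / 3 * L) ^ (2 * i + 3) * √(J.E) := by
      refine (Real.sqrt_le_sqrt e4).trans ?_
      rw [Real.sqrt_mul (by positivity), Real.sqrt_sq (by positivity)]
    have e6 : (4 / 3 * L) ^ (2 * i + 3) ≤ 64 / 27 * L ^ 3 * (1 / 9) ^ i := by
      have q1 : (4 / 3 * L) ^ 2 ≤ 1 / 9 := by nlinarith
      calc (4 / 3 * L) ^ (2 * i + 3) = 64 / 27 * L ^ 3 * ((4 / 3 * L) ^ 2) ^ i := by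
            rw [pow_add, pow_mul]
            ring
        _ ≤ 64 / 27 * L ^ 3 * (1 / 9) ^ i := by gcongr
    have e7 := sqrt_four_le i
    rw [Real.norm_eq_abs, e2, abs_mul]
    rw [Real.sqrt_mul (by positivity)] at e3
    calc |bch (i + 2)| * |∫ g, u g * (a i g * J.X g ^ (2 * (i + 2))) ∂μ|
        ≤ 1 / 8 * ((64 / 27 * L ^ 3 * (1 / 9) ^ i * √(J.E)) * ((2 * (3 / 2 : ℝ) ^ i) * √D)) := by
          apply mul_le_mul e1 _ (abs_nonneg _) (by norm_num)
          refine e3.trans ?_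
          apply mul_le_mul _ _ (by positivity) (by positivity)
          · refine e5.trans ?_
            gcongr
          · gcongr
      _ = (16 / 27 * (L ^ 3 * √(J.E) * √D)) * (1 / 6 : ℝ) ^ i := by
          rw [show (1 / 6 : ℝ) = 1 / 9 * (3 / 2) by norm_num, mul_pow]
          ring
  have hgeo : HasSum (fun i : ℕ => (16 / 27 * (L ^ 3 * √(J.E) * √D)) * (1 / 6 : ℝ) ^ i)
      ((16 / 27 * (L ^ 3 * √(J.E) * √D)) * (1 - 1 / 6)⁻¹) :=
    (hasSum_geometric_of_lt_one (by norm_num) (by norm_num)).mul_left _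
  have h := tsum_of_norm_bounded hgeo hterm
  rw [Real.norm_eq_abs] at h
  refine h.trans ?_
  have : 0 ≤ L ^ 3 * √(J.E) * √D := by positivity
  norm_num
  linarith

end Pool.Agent.Lib_MP_f78f32_gt
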