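import Pool.Agent.Lib_MP_f78f32_gt.Rho
import Pool.Agent.Lib_MP_f78f32_gt.GKmain
import Pool.Agent.Lib_MP_f78f32_gt.Taylor
import Pool.Agent.Lib_MP_f78f32_gt.Lower
import Pool.Agent.Lib_MP_f78f32_gt.Wirt
import Pool.Agent.Lib_MP_f78f32_gt.HessBd

/-!
# Main analytic theorem
-/

open MeasureTheory Real
open scoped Matrix ComplexConjugate

namespace Pool.Agent.Lib_MP_f78f32_gt

lemma Jet.E_nonneg (J : Jet) : 0 ≤ J.E := integral_nonneg fun g => by positivity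

/-- there is a rotation of the frame turning `(p, q)` into `(√(p²+q²), 0)` -/
lemma exists_rot (p q : ℝ) : ∃ t, cos t * √(p ^ 2 + q ^ 2) = p ∧ sin t * √(p ^ 2 + q ^ 2) = q := by
  by_cases h : p ^ 2 + q ^ 2 = 0
  · have hp : p = 0 := by nlinarith [sq_nonneg p, sq_nonneg q]
    have hq : q = 0 := by nlinarith [sq_nonneg p, sq_nonneg q]
    exact ⟨0, by simp [hp, hq]⟩
  · have h0 : 0 < p ^ 2 + q ^ 2 := lt_of_le_of_ne (by positivity) (Ne.symm h)
    have hs : 0 < √(p ^ 2 + q ^ 2) := Real.sqrt_pos.mpr h0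
    have hz : (⟨p, q⟩ : ℂ) ≠ 0 := by
      intro hc
      have h1 := congrArg Complex.re hc
      have h2 := congrArg Complex.im hc
      simp at h1 h2
      rw [h1, h2] at h0
      simp at h0
    have hn : ‖(⟨p, q⟩ : ℂ)‖ = √(p ^ 2 + q ^ 2) := by
      rw [Complex.norm_def, Complex.normSq_mk]
      ring_nf
    refine ⟨Complex.arg ⟨p, q⟩, ?_, ?_⟩
    · rw [Complex.cos_arg hz, hn]
      field_simp
    · rw [Complex.sin_arg, hn]
      field_simp

lemma grad_le (J : Jet) (hJ : J.Ok) (L : ℝ) (hL : ∀ g, |J.X g| ≤ L) (g : G) :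
    √(J.X g ^ 2 + J.Y g ^ 2) ≤ L := by
  obtain ⟨t, h1, h2⟩ := exists_rot (J.X g) (J.Y g)
  have h := hJ.invX g t
  have h3 := sin_sq_add_cos_sq t
  set R := √(J.X g ^ 2 + J.Y g ^ 2) with hR
  have h4 : J.X (g * fr t) = R := by
    rw [h, ← h1, ← h2]
    have : cos t * (cos t * R) + sin t * (sin t * R) = (sin t ^ 2 + cos t ^ 2) * R := by ring
    rw [this, h3, one_mul]
  have h5 := hL (g * fr t)
  rw [h4] at h5
  exact (le_abs_self _).trans h5

lemma grad_sq_le (J : Jet) (hJ : J.Ok) (L : ℝ) (hL : ∀ g, |J.X g| ≤ L) (g : G) :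
    J.X g ^ 2 + J.Y g ^ 2 ≤ L ^ 2 := by
  have h := grad_le J hJ L hL g
  have h0 : 0 ≤ J.X g ^ 2 + J.Y g ^ 2 := by positivity
  calc J.X g ^ 2 + J.Y g ^ 2 = √(J.X g ^ 2 + J.Y g ^ 2) ^ 2 := (Real.sq_sqrt h0).symm
    _ ≤ L ^ 2 := by gcongr

/-- the quadratic form of the rotated Hessian -/
lemma cof_le (J : Jet) (hJ : J.Ok) (M : ℝ) (hM : ∀ g, J.XX g ≤ M) (g : G) (p q : ℝ) :
    p ^ 2 * J.YY g + q ^ 2 * J.XX g - 2 * p * q * J.XY g ≤ (p ^ 2 + q ^ 2) * M := by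
  obtain ⟨t, h1, h2⟩ := exists_rot q (-p)
  have h := hJ.invXX g t
  have h3 := hM (g * fr t)
  set R := √(q ^ 2 + (-p) ^ 2) with hR
  have hR2 : R ^ 2 = q ^ 2 + p ^ 2 := by
    rw [hR, Real.sq_sqrt (by positivity)]; ring
  have h4 : p ^ 2 * J.YY g + q ^ 2 * J.XX g - 2 * p * q * J.XY g = R ^ 2 * J.XX (g * fr t) := by
    rw [h, ← h1]
    have : p = - (sin t * R) := by linarith
    rw [this]
    ring
  rw [h4, hR2]
  nlinarith [sq_nonneg p, sq_nonneg q]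

/-- mean zero parts: `∫ X² = ∫ Y²` -/
lemma intX_eq (J : Jet) (hJ : J.Ok) : ∫ g, J.X g ^ 2 ∂μ = (1 / 2) * J.E := by
  have h1 : ∫ g, J.X g ^ 2 ∂μ = ∫ g, J.Y g ^ 2 ∂μ := by
    have h2 := int_right (fun g => J.X g ^ 2) (fr (π / 2))
    rw [← h2]
    congr 1
    ext g
    rw [hJ.invX g (π / 2)]
    simp
  have h2 : J.E = ∫ g, J.X g ^ 2 ∂μ + ∫ g, J.Y g ^ 2 ∂μ :=
    integral_add (intg (hJ.cX.pow 2)) (intg (hJ.cY.pow 2))
  rw [h2, ← h1]; ring

lemma n2_nonneg (F : G → ℝ) : 0 ≤ n2 F := integral_nonneg fun g => by positivity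

/-- Cauchy-Schwarz for continuous functions -/
lemma cs_int (F H : G → ℝ) (hF : Continuous F) (hH : Continuous H) :
    |∫ g, F g * H g ∂μ| ≤ √(n2 F) * √(n2 H) := by
  have h := fun c : ℝ => integral_nonneg (μ := μ) (f := fun g => (F g + c * H g) ^ 2)
    (fun g => by positivity)
  have h1 : ∀ c : ℝ, 0 ≤ n2 F + 2 * c * (∫ g, F g * H g ∂μ) + c ^ 2 * n2 H := by
    intro c
    have h2 := h c
    have h3 : ∫ g, (F g + c * H g) ^ 2 ∂μ =
        n2 F + 2 * c * (∫ g, F g * H g ∂μ) + c ^ 2 * n2 H := by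
      have : ∀ g, (F g + c * H g) ^ 2 = F g ^ 2 + (2 * c) * (F g * H g) + c ^ 2 * H g ^ 2 := by
        intro g; ring
      simp_rw [this]
      rw [integral_add, integral_add, integral_const_mul, integral_const_mul]
      · rfl
      · exact intg (hF.pow 2)
      · exact intg (continuous_const.mul (hF.mul hH))
      · exact intg ((hF.pow 2).add (continuous_const.mul (hF.mul hH)))
      · exact intg (continuous_const.mul (hH.pow 2))
    linarith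
  have h4 : (∫ g, F g * H g ∂μ) ^ 2 ≤ n2 F * n2 H := by
    have hd := discrim_le_zero (a := n2 H) (b := 2 * (∫ g, F g * H g ∂μ)) (c := n2 F)
      (fun c => by have := h1 c; linarith [this])
    unfold discrim at hd
    nlinarith
  rw [← Real.sqrt_mul (n2_nonneg F)]
  exact Real.abs_le_sqrt h4

lemma sqrt_sub_le (ρ x : ℝ) (hρ : 0 < ρ) :
    0 ≤ √(ρ ^ 2 + x ^ 2) - ρ ∧ √(ρ ^ 2 + x ^ 2) - ρ ≤ x ^ 2 / (2 * ρ) := by
  have h1 : ρ ≤ √(ρ ^ 2 + x ^ 2) := Real.le_sqrt_of_sq_le (by nlinarith [sq_nonneg x])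
  refine ⟨by linarith, ?_⟩
  have h2 : √(ρ ^ 2 + x ^ 2) ≤ ρ + x ^ 2 / (2 * ρ) := by
    rw [Real.sqrt_le_left (by positivity)]
    have : (ρ + x ^ 2 / (2 * ρ)) ^ 2 = ρ ^ 2 + x ^ 2 + (x ^ 2 / (2 * ρ)) ^ 2 := by
      field_simp
      ring
    rw [this]
    nlinarith [sq_nonneg (x ^ 2 / (2 * ρ))]
  linarith

/-- circle averages of `f` are controlled by the gradient -/
lemma avg_f (J : Jet) (hJ : J.Ok) (δ : ℝ) (hf : ∀ g, |J.f g| ≤ 1 / 4) (g : G)
    (hP : |(1 / (2 * π)) * (∫ t in (0:ℝ)..(2 * π),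
      √((1 + J.f (g * fa t)) ^ 2 + J.X (g * fa t) ^ 2)) - 1| ≤ δ) :
    |(1 / (2 * π)) * ∫ t in (0:ℝ)..(2 * π), J.f (g * fa t)| ≤
      δ + 2 / 3 * ((1 / (2 * π)) * ∫ t in (0:ℝ)..(2 * π), J.X (g * fa t) ^ 2) := by
  have hpi := Real.pi_pos
  have c1 : Continuous fun t : ℝ => J.f (g * fa t) := hJ.cf.comp (by fun_prop)
  have c2 : Continuous fun t : ℝ => J.X (g * fa t) := hJ.cX.comp (by fun_prop)
  have c3 : Continuous fun t : ℝ => √((1 + J.f (g * fa t)) ^ 2 + J.X (g * fa t) ^ 2) := by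
    fun_prop
  have hsplit : ∫ t in (0:ℝ)..(2 * π), J.f (g * fa t) =
      (∫ t in (0:ℝ)..(2 * π), √((1 + J.f (g * fa t)) ^ 2 + J.X (g * fa t) ^ 2)) - 2 * π -
      ∫ t in (0:ℝ)..(2 * π), (√((1 + J.f (g * fa t)) ^ 2 + J.X (g * fa t) ^ 2) -
        (1 + J.f (g * fa t))) := by
    have c4 : Continuous fun t : ℝ => 1 + J.f (g * fa t) := by fun_prop
    have c5 : Continuous fun _ : ℝ => (1 : ℝ) := continuous_const
    rw [intervalIntegral.integral_sub (c3.intervalIntegrable _ _) (c4.intervalIntegrable _ _),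
      intervalIntegral.integral_add (c5.intervalIntegrable _ _) (c1.intervalIntegrable _ _)]
    simp
  have hpos : ∀ t, 0 < 1 + J.f (g * fa t) := fun t => by
    have := (abs_le.mp (hf (g * fa t))).1
    linarith
  have hlow : 0 ≤ ∫ t in (0:ℝ)..(2 * π), (√((1 + J.f (g * fa t)) ^ 2 + J.X (g * fa t) ^ 2) -
        (1 + J.f (g * fa t))) := by
    apply intervalIntegral.integral_nonneg (by positivity)
    intro t _
    exact (sqrt_sub_le _ _ (hpos t)).1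
  have hup : ∫ t in (0:ℝ)..(2 * π), (√((1 + J.f (g * fa t)) ^ 2 + J.X (g * fa t) ^ 2) -
        (1 + J.f (g * fa t))) ≤ ∫ t in (0:ℝ)..(2 * π), 2 / 3 * J.X (g * fa t) ^ 2 := by
    have c4 : Continuous fun t : ℝ => √((1 + J.f (g * fa t)) ^ 2 + J.X (g * fa t) ^ 2) -
        (1 + J.f (g * fa t)) := by fun_prop
    have c5 : Continuous fun t : ℝ => 2 / 3 * J.X (g * fa t) ^ 2 := by fun_prop
    apply intervalIntegral.integral_mono_on (by positivity)
      (c4.intervalIntegrable _ _) (c5.intervalIntegrable _ _)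
    intro t _
    refine (sqrt_sub_le _ _ (hpos t)).2.trans ?_
    have h3 := (abs_le.mp (hf (g * fa t))).1
    rw [div_le_iff₀ (by have := hpos t; linarith)]
    nlinarith [sq_nonneg (J.X (g * fa t))]
  rw [intervalIntegral.integral_const_mul] at hup
  set A := ∫ t in (0:ℝ)..(2 * π), √((1 + J.f (g * fa t)) ^ 2 + J.X (g * fa t) ^ 2) with hA
  set B := ∫ t in (0:ℝ)..(2 * π), (√((1 + J.f (g * fa t)) ^ 2 + J.X (g * fa t) ^ 2) -
        (1 + J.f (g * fa t))) with hB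
  set Q := ∫ t in (0:ℝ)..(2 * π), J.X (g * fa t) ^ 2 with hQ
  rw [hsplit]
  have e1 : (1 / (2 * π)) * (A - 2 * π - B) = ((1 / (2 * π)) * A - 1) - (1 / (2 * π)) * B := by
    field_simp
  rw [e1]
  have e2 : |(1 / (2 * π)) * B| ≤ 2 / 3 * ((1 / (2 * π)) * Q) := by
    rw [abs_of_nonneg (by positivity)]
    calc (1 / (2 * π)) * B ≤ (1 / (2 * π)) * (2 / 3 * Q) := by gcongr
      _ = 2 / 3 * ((1 / (2 * π)) * Q) := by ring
  calc _ ≤ |(1 / (2 * π)) * A - 1| + |(1 / (2 * π)) * B| := abs_sub _ _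
    _ ≤ _ := add_le_add hP e2

/-- bound of the `L²` norm by the energy -/
lemma n2_bound (J : Jet) (hJ : J.Ok) (hev : ∀ g, J.f (g * fa π) = J.f g) (L δ : ℝ)
    (hδ : 0 ≤ δ) (hf : ∀ g, |J.f g| ≤ 1 / 4) (hL0 : 0 ≤ L) (hL : ∀ g, |J.X g| ≤ L)
    (hP : ∀ g, |(1 / (2 * π)) * (∫ t in (0:ℝ)..(2 * π),
      √((1 + J.f (g * fa t)) ^ 2 + J.X (g * fa t) ^ 2)) - 1| ≤ δ) :
    n2 J.f ≤ (1 / 8 + 4 / 9 * L ^ 2) * J.E + 2 * δ ^ 2 := by
  have hpi := Real.pi_pos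
  have h1 := wirt_G J.f J.X hJ.cf hJ.cX hJ.dX hev
  have h2 : ∀ g, ((1 / (2 * π)) * ∫ t in (0:ℝ)..(2 * π), J.f (g * fa t)) ^ 2 ≤
      2 * δ ^ 2 + 8 / 9 * L ^ 2 *
        ((1 / (2 * π)) * ∫ t in (0:ℝ)..(2 * π), J.X (g * fa t) ^ 2) := by
    intro g
    have h3 := avg_f J hJ δ hf g (hP g)
    have c2 : Continuous fun t : ℝ => J.X (g * fa t) := hJ.cX.comp (by fun_prop)
    set a := (1 / (2 * π)) * ∫ t in (0:ℝ)..(2 * π), J.f (g * fa t)
    set b := (1 / (2 * π)) * ∫ t in (0:ℝ)..(2 * π), J.X (g * fa t) ^ 2 with hb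
    have hb0 : 0 ≤ b := by
      have : 0 ≤ ∫ t in (0:ℝ)..(2 * π), J.X (g * fa t) ^ 2 :=
        intervalIntegral.integral_nonneg (by positivity) (fun t _ => by positivity)
      positivity
    have hb1 : b ≤ L ^ 2 := by
      have h4 : ∫ t in (0:ℝ)..(2 * π), J.X (g * fa t) ^ 2 ≤ ∫ t in (0:ℝ)..(2 * π), L ^ 2 := by
        have c4 : Continuous fun t : ℝ => J.X (g * fa t) ^ 2 := by fun_prop
        have c5 : Continuous fun _ : ℝ => L ^ 2 := continuous_const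
        apply intervalIntegral.integral_mono_on (by positivity)
          (c4.intervalIntegrable _ _) (c5.intervalIntegrable _ _)
        intro t _
        rw [← sq_abs]
        have := hL (g * fa t)
        gcongr
      rw [intervalIntegral.integral_const, smul_eq_mul, sub_zero] at h4
      calc b ≤ (1 / (2 * π)) * (2 * π * L ^ 2) := by rw [hb]; gcongr
        _ = L ^ 2 := by field_simp
    have h5 : a ^ 2 ≤ (δ + 2 / 3 * b) ^ 2 := by
      rw [← sq_abs a]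
      gcongr
    nlinarith [sq_nonneg (δ - 2 / 3 * b), mul_nonneg hb0 (sub_nonneg.mpr hb1)]
  have hcont : Continuous fun g : G => ∫ t in (0:ℝ)..(2 * π), J.f (g * fa t) := by
    apply intervalIntegral.continuous_parametric_intervalIntegral_of_continuous'
    exact hJ.cf.comp (by fun_prop)
  have hcont2 : Continuous fun g : G => ∫ t in (0:ℝ)..(2 * π), J.X (g * fa t) ^ 2 := by
    apply intervalIntegral.continuous_parametric_intervalIntegral_of_continuous'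
    exact (hJ.cX.comp (by fun_prop)).pow 2
  have h6 : ∫ g, ((1 / (2 * π)) * ∫ t in (0:ℝ)..(2 * π), J.f (g * fa t)) ^ 2 ∂μ ≤
      ∫ g, (2 * δ ^ 2 + 8 / 9 * L ^ 2 *
        ((1 / (2 * π)) * ∫ t in (0:ℝ)..(2 * π), J.X (g * fa t) ^ 2)) ∂μ := by
    apply integral_mono
    · exact intg ((continuous_const.mul hcont).pow 2)
    · exact intg (continuous_const.add (continuous_const.mul (continuous_const.mul hcont2)))
    · exact h2
  have c6 : Continuous fun g : G => 8 / 9 * L ^ 2 * ((1 / (2 * π)) *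
      ∫ t in (0:ℝ)..(2 * π), J.X (g * fa t) ^ 2) :=
    continuous_const.mul (continuous_const.mul hcont2)
  have e6 : ∫ g : G, 8 / 9 * L ^ 2 * ((1 / (2 * π)) *
      ∫ t in (0:ℝ)..(2 * π), J.X (g * fa t) ^ 2) ∂μ = 8 / 9 * L ^ 2 * ∫ g : G, ((1 / (2 * π)) *
      ∫ t in (0:ℝ)..(2 * π), J.X (g * fa t) ^ 2) ∂μ := integral_const_mul _ _
  rw [integral_add (integrable_const _) (intg c6), e6] at h6
  have h7 := avg_fa (fun _ => 1) (fun g => J.X g ^ 2) continuous_const (hJ.cX.pow 2)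
    (fun _ _ => rfl)
  simp only [one_mul] at h7
  rw [← h7, intX_eq J hJ] at h6
  simp only [integral_const, probReal_univ, smul_eq_mul, one_mul] at h6
  rw [intX_eq J hJ] at h1
  have h8 : n2 J.f = ∫ g, J.f g ^ 2 ∂μ := rfl
  rw [h8]
  nlinarith

/-- integration by parts against the jet of `Sm k f` -/
lemma parts (J : Jet) (hJ : J.Ok) (k : Polynomial ℝ) :
    ∫ g, Sm (lap2 k) J.f g * J.f g ∂μ =
      - (∫ g, (J.X g * (SmJ k J.f).X g + J.Y g * (SmJ k J.f).Y g) ∂μ) +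
      2 * ∫ g, (SmJ k J.f).f g * J.f g ∂μ := by
  have hφ := SmJ_ok k J.f hJ.cf
  set φ := SmJ k J.f with hφdef
  have h1 : ∫ g, (φ.XX g * J.f g + φ.X g * J.X g) ∂μ = 0 :=
    int_FDa (FD.mul fa_zero hφ.dXX hJ.dX) (hφ.cX.mul hJ.cf)
      ((hφ.cXX.mul hJ.cf).add (hφ.cX.mul hJ.cX))
  have h2 : ∫ g, (φ.YY g * J.f g + φ.Y g * J.Y g) ∂μ = 0 :=
    int_FDb (FD.mul fb_zero hφ.dYY hJ.dY) (hφ.cY.mul hJ.cf)
      ((hφ.cYY.mul hJ.cf).add (hφ.cY.mul hJ.cY))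
  have c1 : Continuous fun g => φ.XX g * J.f g + φ.X g * J.X g :=
    (hφ.cXX.mul hJ.cf).add (hφ.cX.mul hJ.cX)
  have c2 : Continuous fun g => φ.YY g * J.f g + φ.Y g * J.Y g :=
    (hφ.cYY.mul hJ.cf).add (hφ.cY.mul hJ.cY)
  have c3 : Continuous fun g => J.X g * φ.X g + J.Y g * φ.Y g :=
    (hJ.cX.mul hφ.cX).add (hJ.cY.mul hφ.cY)
  have c4 : Continuous fun g => φ.f g * J.f g := hφ.cf.mul hJ.cf
  have h3 : ∀ g, Sm (lap2 k) J.f g * J.f g =
      (φ.XX g * J.f g + φ.X g * J.X g) + (φ.YY g * J.f g + φ.Y g * J.Y g) -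
      (J.X g * φ.X g + J.Y g * φ.Y g) + 2 * (φ.f g * J.f g) := by
    intro g
    rw [← SmJ_lap k J.f hJ.cf g]
    ring
  simp_rw [h3]
  have c5 : Continuous fun g => (φ.XX g * J.f g + φ.X g * J.X g) +
      (φ.YY g * J.f g + φ.Y g * J.Y g) := c1.add c2
  have c6 : Continuous fun g => (φ.XX g * J.f g + φ.X g * J.X g) +
      (φ.YY g * J.f g + φ.Y g * J.Y g) - (J.X g * φ.X g + J.Y g * φ.Y g) := c5.sub c3
  have c7 : Continuous fun g => 2 * (φ.f g * J.f g) := continuous_const.mul c4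
  rw [integral_add (intg c6) (intg c7), integral_sub (intg c5) (intg c3),
    integral_add (intg c1) (intg c2), h1, h2, integral_const_mul]
  ring

/-- the main identity -/
lemma main_ident (J : Jet) (hJ : J.Ok) (hf : ∀ g, |J.f g| ≤ 1 / 4) (n : ℕ) (u : G → ℝ)
    (hu : Continuous u)
    (h0 : ∀ a : G → ℝ, Continuous a → (∀ g t, a (g * fr t) = a g) →
        ∫ g, u g * a g ∂μ = ∫ g, Sm (lap2 (kn n)) J.f g * a g ∂μ)
    (h2 : ∀ a : G → ℝ, Continuous a → (∀ g t, a (g * fr t) = a g) →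
      ∫ g, u g * (a g * J.X g ^ 2) ∂μ =
          ∫ g, a g * (J.X g ^ 2 * (SmJ (kn n) J.f).YY g + J.Y g ^ 2 * (SmJ (kn n) J.f).XX g -
            2 * J.X g * J.Y g * (SmJ (kn n) J.f).XY g +
            (J.X g ^ 2 + J.Y g ^ 2) * (SmJ (kn n) J.f).f g) ∂μ) :
    ∫ g, (J.X g * (SmJ (kn n) J.f).X g + J.Y g * (SmJ (kn n) J.f).Y g) ∂μ =
      2 * (∫ g, (SmJ (kn n) J.f).f g * J.f g ∂μ) +
      (∫ g, 1 / (2 * (1 + J.f g)) *
        (J.X g ^ 2 * (SmJ (kn n) J.f).YY g + J.Y g ^ 2 * (SmJ (kn n) J.f).XX g -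
            2 * J.X g * J.Y g * (SmJ (kn n) J.f).XY g +
            (J.X g ^ 2 + J.Y g ^ 2) * (SmJ (kn n) J.f).f g) ∂μ) +
      (∫ g, u g * (√((1 + J.f g) ^ 2 + J.X g ^ 2) - (1 + J.f g) -
        J.X g ^ 2 / (2 * (1 + J.f g))) ∂μ) -
      ∫ g, u g * (√((1 + J.f g) ^ 2 + J.X g ^ 2) - 1) ∂μ := by
  have hpos : ∀ g, 0 < 1 + J.f g := fun g => by
    have := (abs_le.mp (hf g)).1
    linarith
  have cf := hJ.cf
  have cX := hJ.cX
  have ca : Continuous fun g => 1 / (2 * (1 + J.f g)) := by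
    apply Continuous.div continuous_const (by fun_prop)
    intro g
    have := hpos g
    positivity
  have ha : ∀ g t, 1 / (2 * (1 + J.f (g * fr t))) = 1 / (2 * (1 + J.f g)) := fun g t => by
    rw [hJ.inv]
  have e0 := h0 J.f hJ.cf hJ.inv
  have e2 := h2 _ ca ha
  rw [parts J hJ (kn n)] at e0
  have c1 : Continuous fun g => u g * J.f g := hu.mul cf
  have c2 : Continuous fun g => u g * (1 / (2 * (1 + J.f g)) * J.X g ^ 2) :=
    hu.mul (ca.mul (cX.pow 2))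
  have c3 : Continuous fun g => u g * (√((1 + J.f g) ^ 2 + J.X g ^ 2) - (1 + J.f g) -
        J.X g ^ 2 / (2 * (1 + J.f g))) := by
    apply hu.mul
    apply Continuous.sub (by fun_prop)
    have : ∀ g, J.X g ^ 2 / (2 * (1 + J.f g)) = 1 / (2 * (1 + J.f g)) * J.X g ^ 2 := by
      intro g; ring
    simp_rw [this]
    exact ca.mul (cX.pow 2)
  have e3 : ∫ g, u g * (√((1 + J.f g) ^ 2 + J.X g ^ 2) - 1) ∂μ =
      (∫ g, u g * J.f g ∂μ) + (∫ g, u g * (1 / (2 * (1 + J.f g)) * J.X g ^ 2) ∂μ) +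
      ∫ g, u g * (√((1 + J.f g) ^ 2 + J.X g ^ 2) - (1 + J.f g) -
        J.X g ^ 2 / (2 * (1 + J.f g))) ∂μ := by
    have c12 : Continuous fun g => u g * J.f g + u g * (1 / (2 * (1 + J.f g)) * J.X g ^ 2) :=
      c1.add c2
    rw [← integral_add (intg c1) (intg c2), ← integral_add (intg c12) (intg c3)]
    congr 1
    ext g
    ring
  rw [e3, e0, e2]
  ring

/-- the property provided by the theorem `GK` -/
def GKprop (n : ℕ) (C : ℝ) : Prop :=
  ∀ F : G → ℝ, Continuous F → (∀ g, |F g| ≤ 1) →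
    ∃ u : G → ℝ, Continuous u ∧ (∀ g, |u g| ≤ C) ∧ (∀ g t, u (g * fa t) = u g) ∧
      (∀ a : G → ℝ, Continuous a → (∀ g t, a (g * fr t) = a g) →
        ∫ g, u g * a g ∂μ = ∫ g, Sm (lap2 (kn n)) F g * a g ∂μ) ∧
      (∀ a p q : G → ℝ, Continuous a → Continuous p → Continuous q →
        (∀ g t, a (g * fr t) = a g) →
        (∀ g t, p (g * fr t) = cos t * p g + sin t * q g) →
        (∀ g t, q (g * fr t) = -sin t * p g + cos t * q g) →
        (∫ g, u g * (a g * p g ^ 2) ∂μ =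
          ∫ g, a g * (p g ^ 2 * (SmJ (kn n) F).YY g + q g ^ 2 * (SmJ (kn n) F).XX g -
            2 * p g * q g * (SmJ (kn n) F).XY g +
            (p g ^ 2 + q g ^ 2) * (SmJ (kn n) F).f g) ∂μ) ∧
        ∀ j : ℕ, |∫ g, u g * (a g * p g ^ (2 * j)) ∂μ| ≤
          √(∫ g, a g ^ 2 * (p g ^ 2 + q g ^ 2) ^ (2 * j) ∂μ) * √((2 + j) * Dn n F))

lemma kn_nonneg (n : ℕ) (t : ℝ) : 0 ≤ (kn n).eval t := by
  simp only [kn, Polynomial.eval_mul, Polynomial.eval_C, Polynomial.eval_pow, Polynomial.eval_X]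
  have : 0 ≤ t ^ (2 * n) := by rw [pow_mul]; positivity
  positivity

/-- key inequality -/
lemma key (n : ℕ) (C : ℝ) (hGK : GKprop n C) (J : Jet) (hJ : J.Ok)
    (hev : ∀ g, J.f (g * fa π) = J.f g) (κ δ : ℝ) (hκ0 : 0 < κ) (hκ : κ ≤ 1 / 100)
    (hδ : 0 ≤ δ) (hf : ∀ g, |J.f g| ≤ 2 * κ ^ 2) (hX : ∀ g, |J.X g| ≤ 4 * κ)
    (hXX : ∀ g, J.XX g ≤ 1 + 4 * κ)
    (hP : ∀ g, |(1 / (2 * π)) * (∫ t in (0:ℝ)..(2 * π),
      √((1 + J.f (g * fa t)) ^ 2 + J.X (g * fa t) ^ 2)) - 1| ≤ δ) :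
    1 / 5 * J.E ≤ 17 * √(2 / (2 * n + 3)) * √(J.E) +
      (4 * κ) ^ 3 * √(J.E) * (√(16 * n + 9) * √(J.E) + 3 * δ) + C * δ + 4 * δ ^ 2 := by
  have hκ2 : κ ^ 2 ≤ 1 / 10000 := by nlinarith
  have hf4 : ∀ g, |J.f g| ≤ 1 / 4 := fun g => (hf g).trans (by nlinarith)
  obtain ⟨u, hu, huC, hinv, h0, h2⟩ := hGK J.f hJ.cf (fun g => (hf4 g).trans (by norm_num))
  have hφ := SmJ_ok (kn n) J.f hJ.cf
  have hψ := SmJ_ok (lap2 (kn n)) J.f hJ.cf
  have hE := J.E_nonneg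
  have id := main_ident J hJ hf4 n u hu h0
    (fun a ha hai => (h2 a J.X J.Y ha hJ.cX hJ.cY hai hJ.invX hJ.invY).1)
  -- b6
  have b6 := n2_bound J hJ hev (4 * κ) δ hδ hf4 (by positivity) hX hP
  have b6' : n2 J.f ≤ 0.1258 * J.E + 2 * δ ^ 2 := by nlinarith
  -- n2 φ ≤ n2 f
  have b0 : n2 (SmJ (kn n) J.f).f ≤ n2 J.f := by
    have := young (kn n) J.f hJ.cf
    rw [norm_kn, one_pow, one_mul] at this
    exact this
  -- b1
  have b1 : (∫ g, (SmJ (kn n) J.f).f g * J.f g ∂μ) ≤ n2 J.f := by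
    have h := cs_int _ _ hφ.cf hJ.cf
    have h' : √(n2 (SmJ (kn n) J.f).f) * √(n2 J.f) ≤ n2 J.f := by
      calc √(n2 (SmJ (kn n) J.f).f) * √(n2 J.f) ≤ √(n2 J.f) * √(n2 J.f) := by gcongr
        _ = n2 J.f := Real.mul_self_sqrt (n2_nonneg _)
    exact (le_abs_self _).trans (h.trans h')
  -- b2
  have hφXX : ∀ g, (SmJ (kn n) J.f).XX g ≤ 1 + 4 * κ + 4 * κ := fun g =>
    hess (kn n) (fun t _ => kn_nonneg n t) (int_kn n) J hJ (1 + 4 * κ) (4 * κ) (by positivity)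
      hXX hX g
  have hφf : ∀ g, |(SmJ (kn n) J.f).f g| ≤ 2 * κ ^ 2 := fun g => by
    have := Sm_bound (kn n) J.f hJ.cf (2 * κ ^ 2) hf g
    rw [norm_kn, one_mul] at this
    exact this
  have hpos : ∀ g, 0 < 1 + J.f g := fun g => by
    have := (abs_le.mp (hf4 g)).1
    linarith
  have cf := hJ.cf
  have cX := hJ.cX
  have cY := hJ.cY
  have cφf := hφ.cf
  have cφXX := hφ.cXX
  have cφXY := hφ.cXY
  have cφYY := hφ.cYY
  have ca : Continuous fun g => 1 / (2 * (1 + J.f g)) := by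
    apply Continuous.div continuous_const (by fun_prop)
    intro g
    have := hpos g
    positivity
  have b2 : (∫ g, 1 / (2 * (1 + J.f g)) *
        (J.X g ^ 2 * (SmJ (kn n) J.f).YY g + J.Y g ^ 2 * (SmJ (kn n) J.f).XX g -
            2 * J.X g * J.Y g * (SmJ (kn n) J.f).XY g +
            (J.X g ^ 2 + J.Y g ^ 2) * (SmJ (kn n) J.f).f g) ∂μ) ≤ 0.5403 * J.E := by
    have e : 0.5403 * J.E = ∫ g, 0.5403 * (J.X g ^ 2 + J.Y g ^ 2) ∂μ :=
      (integral_const_mul _ _).symm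
    rw [e]
    apply integral_mono
    · apply intg
      apply ca.mul
      fun_prop
    · apply intg
      fun_prop
    · intro g
      have q1 := cof_le _ hφ _ hφXX g (J.X g) (J.Y g)
      have q2 := (abs_le.mp (hφf g)).2
      have q3 := (abs_le.mp (hf g)).1
      have q4 : 0 ≤ J.X g ^ 2 + J.Y g ^ 2 := by positivity
      have q5 : J.X g ^ 2 * (SmJ (kn n) J.f).YY g + J.Y g ^ 2 * (SmJ (kn n) J.f).XX g -
            2 * J.X g * J.Y g * (SmJ (kn n) J.f).XY g +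
            (J.X g ^ 2 + J.Y g ^ 2) * (SmJ (kn n) J.f).f g ≤
            (J.X g ^ 2 + J.Y g ^ 2) * 1.0802 := by nlinarith
      have q6 : 1 / (2 * (1 + J.f g)) ≤ 1 / (2 * 0.9998) := by
        apply one_div_le_one_div_of_le (by norm_num)
        nlinarith
      have q7 : 0 ≤ 1 / (2 * (1 + J.f g)) := by have := hpos g; positivity
      refine (mul_le_mul_of_nonneg_left q5 q7).trans ?_
      calc 1 / (2 * (1 + J.f g)) * ((J.X g ^ 2 + J.Y g ^ 2) * 1.0802)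
          ≤ 1 / (2 * 0.9998) * ((J.X g ^ 2 + J.Y g ^ 2) * 1.0802) := by gcongr
        _ ≤ 0.5403 * (J.X g ^ 2 + J.Y g ^ 2) := by nlinarith
  -- b4
  have b4 : |∫ g, u g * (√((1 + J.f g) ^ 2 + J.X g ^ 2) - 1) ∂μ| ≤ C * δ := by
    rw [avg_fa u _ hu (by fun_prop) hinv]
    have := norm_integral_le_of_norm_le_const (μ := μ) (C := C * δ)
      (f := fun g => u g * ((1 / (2 * π)) * ∫ t in (0:ℝ)..(2 * π),
        (√((1 + J.f (g * fa t)) ^ 2 + J.X (g * fa t) ^ 2) - 1))) (by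
      refine Filter.Eventually.of_forall fun g => ?_
      have c3 : Continuous fun t : ℝ => √((1 + J.f (g * fa t)) ^ 2 + J.X (g * fa t) ^ 2) := by
        fun_prop
      have c5 : Continuous fun _ : ℝ => (1 : ℝ) := continuous_const
      have e : (1 / (2 * π)) * ∫ t in (0:ℝ)..(2 * π),
          (√((1 + J.f (g * fa t)) ^ 2 + J.X (g * fa t) ^ 2) - 1) =
          (1 / (2 * π)) * (∫ t in (0:ℝ)..(2 * π),
            √((1 + J.f (g * fa t)) ^ 2 + J.X (g * fa t) ^ 2)) - 1 := by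
        rw [intervalIntegral.integral_sub (c3.intervalIntegrable _ _)
          (c5.intervalIntegrable _ _)]
        have := Real.pi_pos
        simp
        field_simp
      rw [e, norm_mul, Real.norm_eq_abs, Real.norm_eq_abs]
      have hC0 : 0 ≤ C := (abs_nonneg _).trans (huC g)
      exact mul_le_mul (huC g) (hP g) (abs_nonneg _) hC0)
    simpa using this
  -- b7
  have b7 : Dn n J.f ≤ (16 * n + 9) * J.E + 8 * δ ^ 2 := by
    have e1 := energy_Sm (kn n) J hJ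
    rw [norm_kn, one_pow, one_mul] at e1
    have e2 := energy_Sm (lap2 (kn n)) J hJ
    have e3 : (∫ g : G, |(lap2 (kn n)).eval (g.1 0 0)| ∂μ) ^ 2 ≤ (8 * n + 4) ^ 2 := by
      have h := norm_lap2_kn n
      have h0 : 0 ≤ ∫ g : G, |(lap2 (kn n)).eval (g.1 0 0)| ∂μ :=
        integral_nonneg fun g => abs_nonneg _
      gcongr
    have e4 : √((SmJ (lap2 (kn n)) J.f).E) ≤ (8 * n + 4) * √(J.E) := by
      rw [Real.sqrt_le_left (by positivity), mul_pow, Real.sq_sqrt hE]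
      exact e2.trans (mul_le_mul_of_nonneg_right e3 hE)
    have e5 : √((SmJ (kn n) J.f).E) ≤ √(J.E) := Real.sqrt_le_sqrt e1
    have e6 : √((SmJ (kn n) J.f).E) * √((SmJ (lap2 (kn n)) J.f).E) ≤ (8 * n + 4) * J.E := by
      calc _ ≤ √(J.E) * ((8 * n + 4) * √(J.E)) := by gcongr
        _ = (8 * n + 4) * (√(J.E) * √(J.E)) := by ring
        _ = (8 * n + 4) * J.E := by rw [Real.mul_self_sqrt hE]
    have e7 : n2 (Sm (kn n) J.f) ≤ n2 J.f := b0
    unfold Dn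
    nlinarith
  have hD0 : 0 ≤ Dn n J.f := by
    unfold Dn
    have := n2_nonneg (Sm (kn n) J.f)
    positivity
  -- b3
  have b3 := taylorE u hu J hJ (4 * κ) (Dn n J.f) hf4 hX (by linarith) hD0
    (fun a ha hai j => (h2 a J.X J.Y ha hJ.cX hJ.cY hai hJ.invX hJ.invY).2 j)
  have b8 : √(Dn n J.f) ≤ √(16 * n + 9) * √(J.E) + 3 * δ := by
    rw [Real.sqrt_le_left (by positivity)]
    have h1 : (√(16 * (n:ℝ) + 9) * √(J.E) + 3 * δ) ^ 2 =
        (16 * n + 9) * J.E + 9 * δ ^ 2 + 6 * (√(16 * (n:ℝ) + 9) * √(J.E)) * δ := by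
      have s1 : √(16 * (n:ℝ) + 9) ^ 2 = 16 * n + 9 := Real.sq_sqrt (by positivity)
      have s2 : √(J.E) ^ 2 = J.E := Real.sq_sqrt hE
      calc _ = √(16 * (n:ℝ) + 9) ^ 2 * √(J.E) ^ 2 + 9 * δ ^ 2 +
            6 * (√(16 * (n:ℝ) + 9) * √(J.E)) * δ := by ring
        _ = _ := by rw [s1, s2]
    rw [h1]
    have h2 : 0 ≤ 6 * (√(16 * (n:ℝ) + 9) * √(J.E)) * δ := by positivity
    nlinarith [sq_nonneg δ]
  have b3' : (4 * κ) ^ 3 * √(J.E) * √(Dn n J.f) ≤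
      (4 * κ) ^ 3 * √(J.E) * (√(16 * n + 9) * √(J.E) + 3 * δ) := by gcongr
  -- b5
  have b5 := rho0 J hJ hev (1 + 4 * κ) (4 * κ) (by positivity) hXX hX n
  have b5' : π * √(2 / (2 * n + 3)) * (5 * (1 + 4 * κ) + 4 * κ) * √(J.E) ≤
      17 * √(2 / (2 * n + 3)) * √(J.E) := by
    have hpi := Real.pi_lt_d2
    have hpi0 := Real.pi_pos
    have h1 : π * (5 * (1 + 4 * κ) + 4 * κ) ≤ 17 := by nlinarith
    have h2 : 0 ≤ √(2 / (2 * (n:ℝ) + 3)) * √(J.E) := by positivity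
    calc _ = (π * (5 * (1 + 4 * κ) + 4 * κ)) * (√(2 / (2 * n + 3)) * √(J.E)) := by ring
      _ ≤ 17 * (√(2 / (2 * n + 3)) * √(J.E)) := by gcongr
      _ = _ := by ring
  have b3a := (abs_le.mp b3).2
  have b4a := (abs_le.mp b4).1
  nlinarith

end Pool.Agent.Lib_MP_f78f32_gt
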