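import Pool.Agent.Lib_MP_f78f32_gt.Key

/-!
# Main analytic theorem: choice of parameters
-/

open MeasureTheory Real
open scoped Matrix ComplexConjugate

namespace Pool.Agent.Lib_MP_f78f32_gt

/-- **Main analytic theorem.** -/
theorem MAT : ∃ κ₀ > 0, κ₀ ≤ 1 / 100 ∧ ∀ κ, 0 < κ → κ ≤ κ₀ → ∃ δ > 0, ∀ J : Jet, J.Ok →
    (∀ g, J.f (g * fa π) = J.f g) →
    (∀ g, |J.f g| ≤ 2 * κ ^ 2) → (∃ g, κ ^ 2 / 2 ≤ |J.f g|) →
    (∀ g, |J.X g| ≤ 4 * κ) → (∀ g, J.XX g ≤ 1 + 4 * κ) →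
    (∀ g, |(1 / (2 * π)) * (∫ t in (0:ℝ)..(2 * π),
      √((1 + J.f (g * fa t)) ^ 2 + J.X (g * fa t) ^ 2)) - 1| ≤ δ) → False := by
  refine ⟨(1 / 200000) ^ 4, by norm_num, by norm_num, ?_⟩
  intro κ hκ0 hκ
  -- fourth root
  obtain ⟨b, hb0, hb4, hb⟩ : ∃ b : ℝ, 0 < b ∧ b ^ 4 = κ ∧ b ≤ 1 / 200000 := by
    refine ⟨√(√κ), by positivity, ?_, ?_⟩
    · have h1 : √(√κ) ^ 2 = √κ := Real.sq_sqrt (Real.sqrt_nonneg _)
      have h2 : √κ ^ 2 = κ := Real.sq_sqrt hκ0.le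
      calc √(√κ) ^ 4 = (√(√κ) ^ 2) ^ 2 := by ring
        _ = κ := by rw [h1, h2]
    · have h3 : √κ ≤ (1 / 200000) ^ 2 := by
        rw [Real.sqrt_le_left (by norm_num)]
        calc κ ≤ (1 / 200000) ^ 4 := hκ
          _ = ((1 / 200000) ^ 2) ^ 2 := by norm_num
      rw [Real.sqrt_le_left (by norm_num)]
      exact h3
  have hκ100 : κ ≤ 1 / 100 := hκ.trans (by norm_num)
  -- choice of n
  set n := ⌈(b ^ 22)⁻¹⌉₊ with hn
  have hn1 : (b ^ 22)⁻¹ ≤ n := Nat.le_ceil _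
  have hn2 : (n : ℝ) ≤ (b ^ 22)⁻¹ + 1 := (Nat.ceil_lt_add_one (by positivity)).le
  obtain ⟨C, hC⟩ := GK n
  have hGK : GKprop n C := hC
  set A : ℝ := 170 * b ^ 11 with hA
  have hA0 : 0 < A := by positivity
  -- bounds on kernels
  have hb1 : b ≤ 1 := hb.trans (by norm_num)
  have hbinv : 1 ≤ (b ^ 22)⁻¹ := by
    rw [one_le_inv₀ (by positivity)]
    exact pow_le_one₀ hb0.le hb1
  have s1 : √(2 / (2 * (n:ℝ) + 3)) ≤ b ^ 11 := by
    rw [Real.sqrt_le_left (by positivity)]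
    have : 2 / (2 * (n:ℝ) + 3) ≤ 2 / (2 * (b ^ 22)⁻¹) := by
      apply div_le_div_of_nonneg_left (by norm_num) (by positivity)
      linarith
    refine this.trans ?_
    field_simp
    ring_nf
    rfl
  have s2 : √(16 * (n:ℝ) + 9) ≤ 7 * (b ^ 11)⁻¹ := by
    rw [Real.sqrt_le_left (by positivity)]
    have : (7 * (b ^ 11)⁻¹) ^ 2 = 49 * (b ^ 22)⁻¹ := by
      field_simp
      norm_num
    rw [this]
    nlinarith
  -- choice of δ
  set C' : ℝ := |C| + 5 with hC'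
  have hC'0 : 0 < C' := by positivity
  set δ : ℝ := min (min 1 (b ^ 8 / 16)) (A ^ 2 / (10 * C')) with hδ
  have hδ0 : 0 < δ := by
    rw [hδ]
    apply lt_min (lt_min one_pos (by positivity)) (by positivity)
  have hδ1 : δ ≤ 1 := (min_le_left _ _).trans (min_le_left _ _)
  have hδ2 : δ ≤ b ^ 8 / 16 := (min_le_left _ _).trans (min_le_right _ _)
  have hδ3 : δ ≤ A ^ 2 / (10 * C') := min_le_right _ _
  refine ⟨δ, hδ0, ?_⟩
  intro J hJ hev hf hg hX hXX hP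
  obtain ⟨g₀, hg₀⟩ := hg
  have hκ2 : κ ^ 2 ≤ 1 / 10000 := by nlinarith
  have hf4 : ∀ g, |J.f g| ≤ 1 / 4 := fun g => (hf g).trans (by nlinarith)
  have hE := J.E_nonneg
  have hk := key n C hGK J hJ hev κ δ hκ0 hκ100 hδ0.le hf hX hXX hP
  set x := √(J.E) with hx
  have hx0 : 0 ≤ x := Real.sqrt_nonneg _
  have hxE : x ^ 2 = J.E := Real.sq_sqrt hE
  have hE1 : J.E ≤ 1 := by
    have h1 : J.E ≤ ∫ g : G, (4 * κ) ^ 2 ∂μ := by
      apply integral_mono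
      · exact intg ((hJ.cX.pow 2).add (hJ.cY.pow 2))
      · exact integrable_const _
      · intro g
        exact grad_sq_le J hJ (4 * κ) hX g
    simp only [integral_const, probReal_univ, smul_eq_mul, one_mul] at h1
    nlinarith
  have hx1 : x ≤ 1 := by
    rw [hx, Real.sqrt_le_left (by norm_num)]
    linarith
  -- simplified key inequality
  have k1 : 17 * √(2 / (2 * (n:ℝ) + 3)) * x ≤ 17 * b ^ 11 * x := by gcongr
  have k2 : (4 * κ) ^ 3 * x * (√(16 * (n:ℝ) + 9) * x) ≤ 1 / 10 * x ^ 2 := by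
    calc (4 * κ) ^ 3 * x * (√(16 * (n:ℝ) + 9) * x)
        ≤ (4 * κ) ^ 3 * x * (7 * (b ^ 11)⁻¹ * x) := by gcongr
      _ = (448 * b) * x ^ 2 := by
          rw [← hb4]; field_simp; ring
      _ ≤ 1 / 10 * x ^ 2 := by
          apply mul_le_mul_of_nonneg_right _ (sq_nonneg x)
          linarith
  have k3 : (4 * κ) ^ 3 * x * (3 * δ) ≤ δ := by
    have h1 : (4 * κ) ^ 3 ≤ 1 / 3 := by
      have : (4 * κ) ^ 3 ≤ (4 * (1 / 100)) ^ 3 := by gcongr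
      linarith [this, (by norm_num : (4 * (1 / 100 : ℝ)) ^ 3 ≤ 1 / 3)]
    have h2 : (4 * κ) ^ 3 * x ≤ 1 / 3 := by
      calc (4 * κ) ^ 3 * x ≤ 1 / 3 * 1 := by gcongr
        _ = 1 / 3 := by norm_num
    nlinarith
  have k4 : C * δ ≤ |C| * δ := by
    apply mul_le_mul_of_nonneg_right (le_abs_self _) hδ0.le
  have k5 : δ ^ 2 ≤ δ := by nlinarith
  have k6 : x ^ 2 ≤ A * x + A ^ 2 := by
    have h1 : 10 * C' * δ ≤ A ^ 2 := by
      rw [le_div_iff₀ (by positivity)] at hδ3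
      linarith
    have h2 : 1 / 5 * x ^ 2 ≤ 17 * b ^ 11 * x + 1 / 10 * x ^ 2 + C' * δ := by
      rw [hxE] at *
      nlinarith
    rw [hA] at *
    nlinarith
  have k7 : x ≤ 2 * A := by
    by_contra hcon
    push Not at hcon
    nlinarith
  -- lower bound
  set m := ⌈632 / b ^ 8⌉₊ with hm
  have hm1 : 632 / b ^ 8 ≤ m := Nat.le_ceil _
  have hm2 : (m : ℝ) ≤ 632 / b ^ 8 + 1 := (Nat.ceil_lt_add_one (by positivity)).le
  have hb8 : b ^ 8 ≤ 1 := pow_le_one₀ hb0.le hb1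
  have m1 : π / 2 * (4 * κ) * √(2 / (2 * (m:ℝ) + 3)) ≤ κ ^ 2 / 2 / 2 := by
    have hpi := Real.pi_lt_d4
    have hpi0 := Real.pi_pos
    have h1 : √(2 / (2 * (m:ℝ) + 3)) ≤ b ^ 4 / 25.1328 := by
      rw [Real.sqrt_le_left (by positivity)]
      have : 2 / (2 * (m:ℝ) + 3) ≤ 2 / (2 * (632 / b ^ 8)) := by
        apply div_le_div_of_nonneg_left (by norm_num) (by positivity)
        linarith
      refine this.trans ?_
      have e1 : 2 / (2 * (632 / b ^ 8)) = b ^ 8 / 632 := by field_simp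
      have e2 : (b ^ 4 / 25.1328) ^ 2 = b ^ 8 / 631.65763584 := by
        rw [div_pow]; ring_nf
      rw [e1, e2]
      apply div_le_div_of_nonneg_left (by positivity) (by norm_num) (by norm_num)
    calc π / 2 * (4 * κ) * √(2 / (2 * (m:ℝ) + 3))
        ≤ 3.1416 / 2 * (4 * κ) * (b ^ 4 / 25.1328) := by
          gcongr
      _ = (3.1416 * 2 / 25.1328) * κ ^ 2 := by rw [← hb4]; ring
      _ ≤ κ ^ 2 / 2 / 2 := by nlinarith [sq_nonneg κ]
  have hs0 : (0:ℝ) ≤ κ ^ 2 / 2 := by positivity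
  have hlow := lower J hJ hev (4 * κ) (κ ^ 2 / 2) (2 / 3) δ (by norm_num) hδ0.le hs0 hX m m1
    g₀ hg₀ (fun g => avg_f J hJ δ hf4 g (hP g))
  have m2 : √(2 * (m:ℝ) + 1) ≤ 36 / b ^ 4 := by
    rw [Real.sqrt_le_left (by positivity)]
    have e1 : (36 / b ^ 4) ^ 2 = 1296 / b ^ 8 := by
      rw [div_pow]; norm_num; ring_nf
    have e2 : 1 ≤ 1 / b ^ 8 := by
      rw [le_div_iff₀ (by positivity)]; linarith
    have e3 : 632 / b ^ 8 = 632 * (1 / b ^ 8) := by ring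
    have e4 : 1296 / b ^ 8 = 1296 * (1 / b ^ 8) := by ring
    rw [e1, e4]
    rw [e3] at hm2
    linarith
  have m3 : √(√(2 * (m:ℝ) + 1)) ≤ 6 / b ^ 2 := by
    rw [Real.sqrt_le_left (by positivity)]
    refine m2.trans (le_of_eq ?_)
    rw [div_pow]; norm_num; ring_nf
  have l1 : 2 / 3 * √(2 * (m:ℝ) + 1) * J.E ≤ 2 / 3 * (36 / b ^ 4) * (2 * A) ^ 2 := by
    rw [← hxE]
    gcongr
  have l2 : π * √(√(2 * (m:ℝ) + 1)) * x ≤ 3.15 * (6 / b ^ 2) * (2 * A) := by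
    have hpi := Real.pi_lt_d2
    gcongr
  have l3 : 2 / 3 * (36 / b ^ 4) * (2 * A) ^ 2 ≤ b ^ 8 / 32 := by
    have : 2 / 3 * (36 / b ^ 4) * (2 * A) ^ 2 = 2774400 * b ^ 18 := by
      rw [hA]; field_simp; ring
    rw [this]
    have h10 : b ^ 10 ≤ (1 / 200000) ^ 10 := by gcongr
    calc 2774400 * b ^ 18 = 2774400 * b ^ 10 * b ^ 8 := by ring
      _ ≤ 2774400 * (1 / 200000) ^ 10 * b ^ 8 := by gcongr
      _ ≤ b ^ 8 / 32 := by
          have : (0:ℝ) < b ^ 8 := by positivity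
          nlinarith [(by norm_num : (2774400 * (1 / 200000) ^ 10 : ℝ) ≤ 1 / 32)]
  have l4 : 3.15 * (6 / b ^ 2) * (2 * A) ≤ b ^ 8 / 16 := by
    have : 3.15 * (6 / b ^ 2) * (2 * A) = 6426 * b * b ^ 8 := by
      rw [hA]; field_simp; ring
    rw [this]
    have : (0:ℝ) < b ^ 8 := by positivity
    nlinarith
  have l5 : κ ^ 2 / 2 / 2 = b ^ 8 / 4 := by rw [← hb4]; ring
  rw [l5] at hlow
  have : (0:ℝ) < b ^ 8 := by positivity
  linarith

end Pool.Agent.Lib_MP_f78f32_gt
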