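import Pool.Agent.Lib_MP_f78f32_gt.Defs

/-!
# Differences of a function along a rotation are controlled by the derivative
-/

open MeasureTheory Real
open scoped Matrix

namespace Pool.Agent.Lib_MP_f78f32_gt

/-- an element of the group whose first column is the first basis vector is a flow element -/
lemma path_stab (g : G) (h0 : g.1 0 0 = 1) (h1 : g.1 1 0 = 0) (h2 : g.1 2 0 = 0) :
    ∃ c : ℝ, g = fr c := by
  have c01 := g.col_dot 0 1
  have c02 := g.col_dot 0 2
  have c11 := g.col_dot 1 1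
  have c12 := g.col_dot 1 2
  have c22 := g.col_dot 2 2
  have hd := g.det
  rw [Matrix.det_fin_three] at hd
  simp only [Fin.sum_univ_three, if_true, Fin.isValue, Fin.reduceEq, if_false, h0, h1, h2,
    zero_mul, add_zero, one_mul] at c01 c02 c11 c12 c22 hd
  rw [c01] at c11 c12 hd
  rw [c02] at c22 c12 hd
  simp only [zero_mul, mul_zero, zero_add, sub_zero, add_zero] at c11 c12 c22 hd
  let z : ℂ := ⟨g.1 1 1, g.1 2 1⟩
  have hz : ‖z‖ = 1 := by
    rw [← sq_eq_sq₀ (norm_nonneg _) zero_le_one, ← Complex.normSq_eq_norm_sq]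
    simp only [Complex.normSq_mk, z]
    linarith
  have hc := Complex.norm_mul_cos_arg z
  have hs := Complex.norm_mul_sin_arg z
  rw [hz, one_mul] at hc hs
  have e22 : g.1 2 2 = g.1 1 1 := by linear_combination (-g.1 2 2) * c11 + g.1 1 1 * hd + g.1 2 1 * c12
  have e12 : g.1 1 2 = -g.1 2 1 := by linear_combination (-g.1 1 2) * c11 + g.1 1 1 * c12 - g.1 2 1 * hd
  refine ⟨z.arg, ?_⟩
  apply Subtype.ext
  ext i j
  fin_cases i <;> fin_cases j <;> simp [fr_val, h0, h1, h2, c01, c02, hc, hs, e22, e12, z]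

/-- two rotations with the same first column differ by a flow element -/
lemma path_col (g h : G) (hgh : ∀ i, g.1 i 0 = h.1 i 0) : ∃ c : ℝ, h = g * fr c := by
  have hh : ∀ i, (g⁻¹ * h).1 i 0 = if i = 0 then 1 else 0 := by
    intro i
    have := g.col_dot i 0
    rw [G.mul_val, G.inv_val, Matrix.mul_apply]
    simp only [Matrix.transpose_apply]
    rw [← this]
    exact Finset.sum_congr rfl fun x _ => by rw [hgh x]
  obtain ⟨c, hc⟩ := path_stab (g⁻¹ * h) (by simpa using hh 0) (by simpa using hh 1)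
    (by simpa using hh 2)
  exact ⟨c, by rw [← hc, mul_inv_cancel_left]⟩

lemma path_fa_nonneg (w w' : G → ℝ) (cw : Continuous w) (cw' : Continuous w') (dw : FD fa w w')
    (b : ℝ) (hb : 0 ≤ b) : ∫ g, |w g - w (g * fa b)| ∂μ ≤ b * ∫ g, |w' g| ∂μ := by
  have h1 : ∀ g, |w g - w (g * fa b)| ≤ ∫ s in (0:ℝ)..b, |w' (g * fa s)| := by
    intro g
    have h2 : ∫ s in (0:ℝ)..b, w' (g * fa s) = w (g * fa b) - w g := by
      rw [intervalIntegral.integral_eq_sub_of_hasDerivAt (f := fun s => w (g * fa s))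
        (fun s _ => dw.ata g s)]
      · simp
      · exact (cw'.comp (continuous_const.mul fa_cont)).intervalIntegrable _ _
    rw [abs_sub_comm, ← h2]
    exact intervalIntegral.abs_integral_le_integral_abs hb
  have hcont : Continuous (fun p : G × ℝ => |w' (p.1 * fa p.2)|) := by fun_prop
  have hint : Continuous (fun g : G => ∫ s in (0:ℝ)..b, |w' (g * fa s)|) :=
    intervalIntegral.continuous_parametric_intervalIntegral_of_continuous' hcont 0 b
  have h3 : ∫ g, |w g - w (g * fa b)| ∂μ ≤ ∫ g, (∫ s in (0:ℝ)..b, |w' (g * fa s)|) ∂μ := by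
    apply integral_mono
    · exact intg (by fun_prop)
    · exact intg hint
    · exact h1
  have h4 : ∫ g, (∫ s in (0:ℝ)..b, |w' (g * fa s)|) ∂μ =
      ∫ s in (0:ℝ)..b, ∫ g, |w' (g * fa s)| ∂μ := by
    simp only [intervalIntegral.integral_of_le hb]
    apply integral_integral_swap
    have : IntegrableOn (fun p : G × ℝ => |w' (p.1 * fa p.2)|) (Set.univ ×ˢ Set.Icc (0:ℝ) b)
        (μ.prod volume) :=
      hcont.continuousOn.integrableOn_compact (isCompact_univ.prod isCompact_Icc)
    have h4 := this.mono_set (s := Set.univ ×ˢ Set.Ioc (0:ℝ) b)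
      (Set.prod_mono le_rfl Set.Ioc_subset_Icc_self)
    rw [IntegrableOn, ← Measure.prod_restrict, Measure.restrict_univ] at h4
    exact h4
  have h5 : ∀ s, ∫ g, |w' (g * fa s)| ∂μ = ∫ g, |w' g| ∂μ :=
    fun s => int_right (fun g => |w' g|) (fa s)
  rw [h4] at h3
  simp_rw [h5] at h3
  simpa using h3

lemma path_fa (w w' : G → ℝ) (cw : Continuous w) (cw' : Continuous w') (dw : FD fa w w')
    (b : ℝ) : ∫ g, |w g - w (g * fa b)| ∂μ ≤ |b| * ∫ g, |w' g| ∂μ := by
  rcases le_total 0 b with hb | hb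
  · rw [abs_of_nonneg hb]
    exact path_fa_nonneg w w' cw cw' dw b hb
  · rw [abs_of_nonpos hb]
    have h1 := path_fa_nonneg w w' cw cw' dw (-b) (by linarith)
    have h2 := int_right (fun g => |w g - w (g * fa (-b))|) (fa b)
    have h3 : ∀ g : G, |w (g * fa b) - w (g * fa b * fa (-b))| = |w g - w (g * fa b)| := by
      intro g
      rw [mul_assoc, ← fa_add, add_neg_cancel, fa_zero, mul_one, abs_sub_comm]
    simp only [h3] at h2
    rw [h2]
    exact h1

theorem path (w w' : G → ℝ) (cw : Continuous w) (cw' : Continuous w') (dw : FD fa w w')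
    (inv : ∀ g t, w (g * fr t) = w g) (hev : ∀ g, w (g * fa π) = w g) (h : G) :
    ∫ g, |w g - w (g * h)| ∂μ ≤ (π / 2) * √(1 - h.1 0 0 ^ 2) * ∫ g, |w' g| ∂μ := by
  set b := Real.arccos (h.1 0 0) with hb
  have hle := abs_le.1 (h.abs_entry_le 0 0)
  have hcos : cos b = h.1 0 0 := Real.cos_arccos hle.1 hle.2
  have hsin : sin b = √(1 - h.1 0 0 ^ 2) := Real.sin_arccos _
  have hb0 : 0 ≤ b := Real.arccos_nonneg _
  have hbpi : b ≤ π := Real.arccos_le_pi _
  -- the angle of the remaining entries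
  let z : ℂ := ⟨h.1 1 0, h.1 2 0⟩
  have hz : ‖z‖ = sin b := by
    have h1 : 0 ≤ sin b := by rw [hsin]; positivity
    rw [← sq_eq_sq₀ (norm_nonneg _) h1, ← Complex.normSq_eq_norm_sq]
    simp only [Complex.normSq_mk, z]
    have h2 := h.col_dot 0 0
    simp only [Fin.sum_univ_three, if_true] at h2
    have h3 := sin_sq_add_cos_sq b
    rw [hcos] at h3
    linarith
  have hc := Complex.norm_mul_cos_arg z
  have hs := Complex.norm_mul_sin_arg z
  rw [hz] at hc hs
  obtain ⟨c', hc'⟩ : ∃ c' : ℝ, h = fr z.arg * fa b * fr c' := by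
    apply path_col
    intro i
    fin_cases i
    · simp [fr_val, fa_val, Matrix.mul_apply, Fin.sum_univ_three, hcos]
    · simp [fr_val, fa_val, Matrix.mul_apply, Fin.sum_univ_three]
      rw [mul_comm, hc]
    · simp [fr_val, fa_val, Matrix.mul_apply, Fin.sum_univ_three]
      rw [mul_comm, hs]
  have e1 : ∫ g, |w g - w (g * h)| ∂μ = ∫ g, |w g - w (g * fa b)| ∂μ := by
    have h2 := int_right (fun g => |w g - w (g * fa b)|) (fr z.arg)
    rw [← h2]
    congr 1
    funext g
    rw [inv g, hc', ← mul_assoc, inv, ← mul_assoc]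
  have hW : 0 ≤ ∫ g, |w' g| ∂μ := integral_nonneg fun g => abs_nonneg _
  rw [e1, ← hsin]
  rcases le_total b (π / 2) with hlt | hgt
  · refine (path_fa w w' cw cw' dw b).trans ?_
    rw [abs_of_nonneg hb0]
    apply mul_le_mul_of_nonneg_right _ hW
    have h3 := Real.mul_le_sin hb0 hlt
    have hpi := Real.pi_pos
    have h4 : π / 2 * (2 / π * b) = b := by field_simp
    exact h4.symm.le.trans (mul_le_mul_of_nonneg_left h3 (by positivity))
  · have e2 : ∀ g : G, w (g * fa b) = w (g * fa (b - π)) := by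
      intro g
      have : fa b = fa (b - π) * fa π := by rw [← fa_add, sub_add_cancel]
      rw [this, ← mul_assoc, hev]
    simp_rw [e2]
    refine (path_fa w w' cw cw' dw (b - π)).trans ?_
    rw [abs_of_nonpos (by linarith)]
    apply mul_le_mul_of_nonneg_right _ hW
    have h3 := Real.mul_le_sin (x := π - b) (by linarith) (by linarith)
    rw [Real.sin_pi_sub] at h3
    have hpi := Real.pi_pos
    have h4 : π / 2 * (2 / π * (π - b)) = -(b - π) := by field_simp; ring
    exact h4.symm.le.trans (mul_le_mul_of_nonneg_left h3 (by positivity))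

end Pool.Agent.Lib_MP_f78f32_gt
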