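import Pool.Agent.Lib_MP_f78f32_gt.Defs

/-!
# Schur test, symmetry and difference formula for zonal convolution on the rotation group
-/

open MeasureTheory Real
open scoped Matrix

namespace Pool.Agent.Lib_MP_f78f32_gt

lemma young_kk (φ : ℝ → ℝ) (g : G) : ∫ h, φ (kk h g 0) ∂μ = ∫ h : G, φ (h.1 0 0) ∂μ := by
  simp_rw [kk_eq_mul]
  have h1 := int_inv (fun h : G => φ ((h * g).1 0 0))
  rw [h1]
  exact int_right (fun h : G => φ (h.1 0 0)) g

lemma young_kk' (φ : ℝ → ℝ) (h : G) : ∫ g, φ (kk h g 0) ∂μ = ∫ g : G, φ (g.1 0 0) ∂μ := by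
  simp_rw [kk_eq_mul]
  exact int_left (fun g : G => φ (g.1 0 0)) h⁻¹

lemma young_swap (f : G → G → ℝ) (hf : Continuous (Function.uncurry f)) :
    ∫ g, ∫ h, f g h ∂μ ∂μ = ∫ h, ∫ g, f g h ∂μ ∂μ := by
  apply integral_integral_swap
  exact hf.integrable_of_hasCompactSupport (HasCompactSupport.of_compactSpace _)

lemma young_cont_int (f : G → G → ℝ) (hf : Continuous (Function.uncurry f)) :
    Continuous fun g => ∫ h, f g h ∂μ := by
  have := continuous_parametric_integral_of_continuous (μ := μ) hf (isCompact_univ (X := G))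
  simpa using this

lemma young_keval_cont (k : Polynomial ℝ) : Continuous (fun p : G × G => k.eval (kk p.1 p.2 0)) :=
  k.continuous.comp (kk_cont 0)

lemma young_keval_cont_left (k : Polynomial ℝ) (g : G) : Continuous (fun h : G => k.eval (kk h g 0)) :=
  k.continuous.comp (kk_cont_left g 0)

lemma young_keval_cont_swap (k : Polynomial ℝ) : Continuous (fun p : G × G => k.eval (kk p.2 p.1 0)) :=
  (young_keval_cont k).comp continuous_swap

theorem Sm_cont (k : Polynomial ℝ) (F : G → ℝ) (hF : Continuous F) : Continuous (Sm k F) := by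
  unfold Sm
  apply young_cont_int (fun g h => k.eval (kk h g 0) * F h)
  exact (young_keval_cont_swap k).mul (hF.comp continuous_snd)

/-- weighted Cauchy Schwarz -/
lemma young_wcs (w F : G → ℝ) (hw : Continuous w) (hF : Continuous F) (h0 : ∀ g, 0 ≤ w g) :
    (∫ g, w g * F g ∂μ) ^ 2 ≤ (∫ g, w g ∂μ) * ∫ g, w g * F g ^ 2 ∂μ := by
  have key : ∀ x : ℝ, 0 ≤ (∫ g, w g ∂μ) * (x * x) + (-(2 * ∫ g, w g * F g ∂μ)) * x +
      ∫ g, w g * F g ^ 2 ∂μ := by
    intro x
    have h1 : 0 ≤ ∫ g, w g * (F g - x) ^ 2 ∂μ :=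
      integral_nonneg fun g => mul_nonneg (h0 g) (sq_nonneg _)
    have h2 : ∫ g, w g * (F g - x) ^ 2 ∂μ = (∫ g, w g ∂μ) * (x * x) +
        (-(2 * ∫ g, w g * F g ∂μ)) * x + ∫ g, w g * F g ^ 2 ∂μ := by
      have e : (fun g => w g * (F g - x) ^ 2) =
          fun g => (x * x) * w g + (-(2 * x)) * (w g * F g) + w g * F g ^ 2 := by
        funext g; ring
      rw [e, integral_add, integral_add, integral_const_mul, integral_const_mul]
      · ring
      · exact intg (by fun_prop)
      · exact intg (by fun_prop)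
      · exact intg (by fun_prop)
      · exact intg (by fun_prop)
    rw [h2] at h1
    exact h1
  have := discrim_le_zero key
  unfold discrim at this
  nlinarith

theorem young_Sm_sq (k : Polynomial ℝ) (F : G → ℝ) (hF : Continuous F) (g : G) :
    Sm k F g ^ 2 ≤ (∫ g : G, |k.eval (g.1 0 0)| ∂μ) *
      ∫ h, |k.eval (kk h g 0)| * F h ^ 2 ∂μ := by
  have h1 : |Sm k F g| ≤ ∫ h, |k.eval (kk h g 0)| * |F h| ∂μ := by
    unfold Sm
    refine (abs_integral_le_integral_abs).trans (le_of_eq ?_)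
    congr 1
    funext h
    rw [abs_mul]
  have h2 := young_wcs (fun h => |k.eval (kk h g 0)|) (fun h => |F h|) (young_keval_cont_left k g).abs hF.abs
    (fun h => abs_nonneg _)
  have h3 : ∫ h, |k.eval (kk h g 0)| ∂μ = ∫ g : G, |k.eval (g.1 0 0)| ∂μ :=
    young_kk (fun t => |k.eval t|) g
  simp only [sq_abs] at h2
  rw [h3] at h2
  refine le_trans ?_ h2
  rw [← sq_abs (Sm k F g)]
  exact pow_le_pow_left₀ (abs_nonneg _) h1 2

theorem young (k : Polynomial ℝ) (F : G → ℝ) (hF : Continuous F) :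
    n2 (Sm k F) ≤ (∫ g : G, |k.eval (g.1 0 0)| ∂μ) ^ 2 * n2 F := by
  set K := ∫ g : G, |k.eval (g.1 0 0)| ∂μ with hK
  have hc : Continuous (fun p : G × G => |k.eval (kk p.2 p.1 0)| * F p.2 ^ 2) :=
    (young_keval_cont_swap k).abs.mul ((hF.comp continuous_snd).pow 2)
  have h1 : n2 (Sm k F) ≤ ∫ g, K * ∫ h, |k.eval (kk h g 0)| * F h ^ 2 ∂μ ∂μ := by
    unfold n2
    apply integral_mono
    · exact intg ((Sm_cont k F hF).pow 2)
    · exact intg (continuous_const.mul (young_cont_int _ hc))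
    · intro g
      exact young_Sm_sq k F hF g
  have h2 : ∫ g, K * ∫ h, |k.eval (kk h g 0)| * F h ^ 2 ∂μ ∂μ = K ^ 2 * n2 F := by
    rw [integral_const_mul, young_swap (fun g h => |k.eval (kk h g 0)| * F h ^ 2) hc]
    have h3 : ∀ h, ∫ g, |k.eval (kk h g 0)| * F h ^ 2 ∂μ = K * F h ^ 2 := by
      intro h
      rw [integral_mul_const, young_kk' (fun t => |k.eval t|) h]
    simp_rw [h3]
    rw [integral_const_mul]
    unfold n2
    ring
  rw [← h2]
  exact h1

theorem Sm_symm (k : Polynomial ℝ) (F H : G → ℝ) (hF : Continuous F) (hH : Continuous H) :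
    ∫ g, H g * Sm k F g ∂μ = ∫ g, F g * Sm k H g ∂μ := by
  have h1 : ∀ g, H g * Sm k F g = ∫ h, H g * (k.eval (kk h g 0) * F h) ∂μ := by
    intro g
    rw [integral_const_mul]
    rfl
  have h2 : ∀ h, F h * Sm k H h = ∫ g, H g * (k.eval (kk h g 0) * F h) ∂μ := by
    intro h
    unfold Sm
    rw [← integral_const_mul]
    congr 1
    funext g
    rw [kk_symm g h]
    ring
  simp_rw [h1, h2]
  apply young_swap (fun g h => H g * (k.eval (kk h g 0) * F h))
  exact (hH.comp continuous_fst).mul ((young_keval_cont_swap k).mul (hF.comp continuous_snd))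

theorem Sm_bound (k : Polynomial ℝ) (F : G → ℝ) (hF : Continuous F) (B : ℝ)
    (hB : ∀ g, |F g| ≤ B) (g : G) :
    |Sm k F g| ≤ (∫ g : G, |k.eval (g.1 0 0)| ∂μ) * B := by
  rw [← young_kk (fun t => |k.eval t|) g, ← integral_mul_const]
  unfold Sm
  refine (abs_integral_le_integral_abs).trans ?_
  apply integral_mono
  · exact intg ((young_keval_cont_left k g).mul hF).abs
  · exact intg ((young_keval_cont_left k g).abs.mul continuous_const)
  · intro h
    simp only [abs_mul]
    exact mul_le_mul_of_nonneg_left (hB h) (abs_nonneg _)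

theorem Sm_diff (k : Polynomial ℝ) (hk : ∫ g : G, k.eval (g.1 0 0) ∂μ = 1)
    (F : G → ℝ) (hF : Continuous F) :
    n2 F - ∫ g, F g * Sm k F g ∂μ =
      (1 / 2) * ∫ h : G, k.eval (h.1 0 0) * (∫ g, (F g - F (g * h)) ^ 2 ∂μ) ∂μ := by
  have hk0 : Continuous (fun h : G => k.eval (h.1 0 0)) := k.continuous.comp (G.cont_entry 0 0)
  have e1 : ∀ h : G, ∫ g, (F g - F (g * h)) ^ 2 ∂μ = 2 * n2 F - 2 * ∫ g, F g * F (g * h) ∂μ := by
    intro h
    have hc : Continuous fun g : G => F (g * h) := hF.comp (continuous_id.mul continuous_const)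
    have e : (fun g => (F g - F (g * h)) ^ 2) =
        fun g => F g ^ 2 + F (g * h) ^ 2 - 2 * (F g * F (g * h)) := by
      funext g; ring
    have i1 : Integrable (fun g => F g ^ 2) μ := intg (hF.pow 2)
    have i2 : Integrable (fun g => F (g * h) ^ 2) μ := intg (hc.pow 2)
    have i3 : Integrable (fun g => 2 * (F g * F (g * h))) μ :=
      intg (continuous_const.mul (hF.mul hc))
    have i12 : Integrable (fun g => F g ^ 2 + F (g * h) ^ 2) μ := i1.add i2
    rw [e, integral_sub i12 i3, integral_add i1 i2, integral_const_mul,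
      int_right (fun g => F g ^ 2) h]
    unfold n2
    ring
  simp_rw [e1]
  have e2 : (fun h : G => k.eval (h.1 0 0) * (2 * n2 F - 2 * ∫ g, F g * F (g * h) ∂μ)) =
      fun h : G => (2 * n2 F) * k.eval (h.1 0 0) - 2 * (k.eval (h.1 0 0) * ∫ g, F g * F (g * h) ∂μ) := by
    funext h; ring
  have hc2 : Continuous (fun p : G × G => F p.2 * F (p.2 * p.1)) :=
    (hF.comp continuous_snd).mul (hF.comp (continuous_snd.mul continuous_fst))
  have hc3 : Continuous fun h : G => ∫ g, F g * F (g * h) ∂μ :=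
    young_cont_int (fun h g => F g * F (g * h)) hc2
  have i4 : Integrable (fun h : G => (2 * n2 F) * k.eval (h.1 0 0)) μ :=
    intg (continuous_const.mul hk0)
  have i5 : Integrable (fun h : G => 2 * (k.eval (h.1 0 0) * ∫ g, F g * F (g * h) ∂μ)) μ :=
    intg (continuous_const.mul (hk0.mul hc3))
  rw [e2, integral_sub i4 i5, integral_const_mul, integral_const_mul, hk]
  have e3 : ∫ h : G, k.eval (h.1 0 0) * ∫ g, F g * F (g * h) ∂μ ∂μ = ∫ g, F g * Sm k F g ∂μ := by
    have e4 : ∀ h : G, k.eval (h.1 0 0) * ∫ g, F g * F (g * h) ∂μ =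
        ∫ g, k.eval (h.1 0 0) * (F g * F (g * h)) ∂μ := by
      intro h
      rw [integral_const_mul]
    simp_rw [e4]
    rw [young_swap (fun h g => k.eval (h.1 0 0) * (F g * F (g * h)))
      ((hk0.comp continuous_fst).mul hc2)]
    congr 1
    funext g
    have e5 : ∫ h : G, k.eval (h.1 0 0) * (F g * F (g * h)) ∂μ =
        ∫ h : G, k.eval ((g⁻¹ * h).1 0 0) * (F g * F (g * (g⁻¹ * h))) ∂μ :=
      (int_left (fun h : G => k.eval (h.1 0 0) * (F g * F (g * h))) g⁻¹).symm
    rw [e5]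
    unfold Sm
    rw [← integral_const_mul]
    congr 1
    funext h
    rw [← kk_eq_mul, kk_symm g h, mul_inv_cancel_left]
    ring
  rw [e3]
  ring

end Pool.Agent.Lib_MP_f78f32_gt
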