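import Pool.Agent.Lib_MP_f78f32_gt.Moments
import Pool.Agent.Lib_MP_f78f32_gt.Young
import Pool.Agent.Lib_MP_f78f32_gt.Comm
import Pool.Agent.Lib_MP_f78f32_gt.Path
import Pool.Agent.Lib_MP_f78f32_gt.HessL1

/-!
# The part of the energy at small scales
-/

open MeasureTheory Real
open scoped Matrix

namespace Pool.Agent.Lib_MP_f78f32_gt

/-- rotation derivative in the `i`-th coordinate direction -/
private noncomputable def vi (J : Jet) (i : Fin 3) (g : G) : ℝ := va (Pi.single i 1) J.X J.Y g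

private lemma co_single (i j : Fin 3) (g : G) : co (Pi.single i 1) j g = g.1 i j := by
  simp [co, Pi.single_apply]

private lemma vi_eq (J : Jet) (i : Fin 3) (g : G) :
    vi J i g = g.1 i 2 * J.X g - g.1 i 1 * J.Y g := by
  simp [vi, va, co_single]

/-- derivative of `vi` along `fa` -/
private noncomputable def vi' (J : Jet) (i : Fin 3) (g : G) : ℝ :=
  g.1 i 2 * J.XX g - g.1 i 1 * J.XY g + g.1 i 0 * J.Y g

private lemma vi_cont (J : Jet) (hJ : J.Ok) (i : Fin 3) : Continuous (vi J i) := by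
  have h1 := hJ.cX
  have h2 := hJ.cY
  have e2 := G.cont_entry i 2
  have e1 := G.cont_entry i 1
  have : vi J i = fun g => g.1 i 2 * J.X g - g.1 i 1 * J.Y g := funext (vi_eq J i)
  rw [this]
  exact (e2.mul h1).sub (e1.mul h2)

private lemma vi'_cont (J : Jet) (hJ : J.Ok) (i : Fin 3) : Continuous (vi' J i) := by
  have e2 := G.cont_entry i 2
  have e1 := G.cont_entry i 1
  have e0 := G.cont_entry i 0
  exact ((e2.mul hJ.cXX).sub (e1.mul hJ.cXY)).add (e0.mul hJ.cY)

private lemma FD_fa_entry (i : Fin 3) :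
    FD fa (fun g => g.1 i 1) (fun g => -g.1 i 0) ∧ FD fa (fun g => g.1 i 2) (fun _ => 0) := by
  refine ⟨fun g => ?_, fun g => ?_⟩
  · have h1 : (fun t : ℝ => (g * fa t).1 i 1) = fun t => -sin t * g.1 i 0 + cos t * g.1 i 1 :=
      funext fun t => (mul_fa g t i).2.1
    rw [h1]
    have h2 : HasDerivAt (fun t : ℝ => -sin t * g.1 i 0 + cos t * g.1 i 1)
        (-cos 0 * g.1 i 0 + -sin 0 * g.1 i 1) 0 :=
      ((hasDerivAt_sin 0).neg.mul_const _).add ((hasDerivAt_cos 0).mul_const _)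
    simpa using h2
  · have h1 : (fun t : ℝ => (g * fa t).1 i 2) = fun t => g.1 i 2 :=
      funext fun t => (mul_fa g t i).2.2
    rw [h1]
    exact hasDerivAt_const _ _

private lemma vi_FD (J : Jet) (hJ : J.Ok) (i : Fin 3) : FD fa (vi J i) (vi' J i) := by
  have h := ((FD.mul fa_zero (FD_fa_entry i).2 hJ.dXX).sub
    (FD.mul fa_zero (FD_fa_entry i).1 hJ.dYX))
  have h2 : vi J i = fun g => g.1 i 2 * J.X g - g.1 i 1 * J.Y g := funext (vi_eq J i)
  rw [h2]
  exact h.congr fun g => by simp only [vi']; ring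

private lemma vi_inv (J : Jet) (hJ : J.Ok) (i : Fin 3) (g : G) (t : ℝ) :
    vi J i (g * fr t) = vi J i g := by
  rw [vi_eq, vi_eq, hJ.invX, hJ.invY, (mul_fr g t i).2.1, (mul_fr g t i).2.2]
  have := sin_sq_add_cos_sq t
  linear_combination (g.1 i 2 * J.X g - g.1 i 1 * J.Y g) * this

private lemma fa_pi_fb (t : ℝ) : fa π * fb t = fb (-t) * fa π := by
  apply Subtype.ext
  ext i j
  fin_cases i <;> fin_cases j <;>
    simp [fa_val, fb_val, Matrix.mul_apply, Fin.sum_univ_three]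

private lemma X_ev (J : Jet) (hJ : J.Ok) (hev : ∀ g, J.f (g * fa π) = J.f g) (g : G) :
    J.X (g * fa π) = J.X g := by
  have h1 := hJ.dX (g * fa π)
  have h2 : (fun t => J.f (g * fa π * fa t)) = fun t => J.f (g * fa t) := by
    funext t
    rw [mul_assoc, ← fa_add, add_comm, fa_add, ← mul_assoc, hev]
  rw [h2] at h1
  exact h1.unique (hJ.dX g)

private lemma Y_ev (J : Jet) (hJ : J.Ok) (hev : ∀ g, J.f (g * fa π) = J.f g) (g : G) :
    J.Y (g * fa π) = -J.Y g := by
  have h1 := hJ.dY (g * fa π)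
  have h2 : (fun t => J.f (g * fa π * fb t)) = fun t => J.f (g * fb (-t)) := by
    funext t
    rw [mul_assoc, fa_pi_fb, ← mul_assoc, hev]
  rw [h2] at h1
  have h3 : HasDerivAt (fun t : ℝ => -t) (-1) 0 := hasDerivAt_neg 0
  have h4 : HasDerivAt (fun t => J.f (g * fb t)) (J.Y g) (-0) := by
    simpa using hJ.dY g
  have h5 := HasDerivAt.comp (h₂ := fun t => J.f (g * fb t)) (h := fun t : ℝ => -t) 0 h4 h3
  have h6 : HasDerivAt (fun t => J.f (g * fb (-t))) (J.Y g * -1) 0 := h5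
  have := h1.unique h6
  linarith

private lemma vi_ev (J : Jet) (hJ : J.Ok) (hev : ∀ g, J.f (g * fa π) = J.f g) (i : Fin 3) (g : G) :
    vi J i (g * fa π) = vi J i g := by
  rw [vi_eq, vi_eq, X_ev J hJ hev, Y_ev J hJ hev, (mul_fa g π i).2.1, (mul_fa g π i).2.2]
  simp

private lemma hasDerivAt_mul_abs (s : ℝ) : HasDerivAt (fun s : ℝ => s * |s|) (2 * |s|) s := by
  rcases lt_trichotomy s 0 with h | h | h
  · have h1 : HasDerivAt (fun s : ℝ => -(s ^ 2)) (-(2 * s)) s := by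
      have := (hasDerivAt_pow 2 s).neg
      simp only [Nat.cast_ofNat, Nat.add_one_sub_one, pow_one] at this
      exact this
    have h2 : (fun s : ℝ => s * |s|) =ᶠ[nhds s] fun s : ℝ => -(s ^ 2) := by
      filter_upwards [Iio_mem_nhds h] with x hx
      rw [abs_of_neg hx]; ring
    have h3 := h1.congr_of_eventuallyEq h2
    rw [abs_of_neg h]
    have h4 : 2 * -s = -(2 * s) := by ring
    rw [h4]
    exact h3
  · subst h
    simp only [abs_zero, mul_zero]
    rw [hasDerivAt_iff_isLittleO_nhds_zero]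
    simp only [zero_add, abs_zero, mul_zero, sub_zero, smul_zero]
    have : (fun h : ℝ => h * |h|) =o[nhds 0] fun h : ℝ => h * 1 := by
      apply Asymptotics.IsBigO.mul_isLittleO (Asymptotics.isBigO_refl _ _)
      rw [Asymptotics.isLittleO_one_iff]
      have := (continuous_abs (G := ℝ)).tendsto 0
      simpa using this
    simpa using this
  · have h1 : HasDerivAt (fun s : ℝ => (s ^ 2)) ((2 * s)) s := by
      simpa using hasDerivAt_pow 2 s
    have h2 : (fun s : ℝ => s * |s|) =ᶠ[nhds s] fun s : ℝ => (s ^ 2) := by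
      filter_upwards [Ioi_mem_nhds h] with x hx
      rw [abs_of_pos hx]; ring
    have h3 := h1.congr_of_eventuallyEq h2
    rw [abs_of_pos h]
    exact h3

private lemma sq_sub_le (s t : ℝ) : (s - t) ^ 2 ≤ 2 * abs (s * |s| - t * |t|) := by
  rcases le_total 0 s with hs | hs <;> rcases le_total 0 t with ht | ht
  · rw [abs_of_nonneg hs, abs_of_nonneg ht]
    have h1 : s * s - t * t = (s - t) * (s + t) := by ring
    rw [h1, abs_mul, abs_of_nonneg (add_nonneg hs ht)]
    have h2 : |s - t| ≤ s + t := abs_le.mpr ⟨by linarith, by linarith⟩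
    have h3 : (s - t) ^ 2 = |s - t| * |s - t| := by rw [← sq, sq_abs]
    nlinarith [abs_nonneg (s - t)]
  · rw [abs_of_nonneg hs, abs_of_nonpos ht]
    have h1 : s * s - t * -t = s ^ 2 + t ^ 2 := by ring
    rw [h1, abs_of_nonneg (by positivity)]
    nlinarith [sq_nonneg (s + t)]
  · rw [abs_of_nonpos hs, abs_of_nonneg ht]
    have h1 : s * -s - t * t = -(s ^ 2 + t ^ 2) := by ring
    rw [h1, abs_neg, abs_of_nonneg (by positivity)]
    nlinarith [sq_nonneg (s + t)]
  · rw [abs_of_nonpos hs, abs_of_nonpos ht]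
    have h1 : s * -s - t * -t = -((s - t) * (s + t)) := by ring
    rw [h1, abs_neg, abs_mul, abs_of_nonpos (add_nonpos hs ht)]
    have h2 : |s - t| ≤ -(s + t) := abs_le.mpr ⟨by linarith, by linarith⟩
    have h3 : (s - t) ^ 2 = |s - t| * |s - t| := by rw [← sq, sq_abs]
    nlinarith [abs_nonneg (s - t)]

private lemma vi'_sq (J : Jet) (g : G) :
    ∑ i, vi' J i g ^ 2 = J.XX g ^ 2 + J.XY g ^ 2 + J.Y g ^ 2 := by
  have h00 := g.col_dot 0 0
  have h11 := g.col_dot 1 1
  have h22 := g.col_dot 2 2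
  have h01 := g.col_dot 0 1
  have h02 := g.col_dot 0 2
  have h12 := g.col_dot 1 2
  simp only [Fin.sum_univ_three, if_true, Fin.isValue, Fin.reduceEq, if_false] at h00 h11 h22 h01 h02 h12
  simp only [vi', Fin.sum_univ_three]
  linear_combination (J.XX g ^ 2) * h22 + (J.XY g ^ 2) * h11 + (J.Y g ^ 2) * h00 -
    (2 * J.XX g * J.XY g) * h12 + (2 * J.XX g * J.Y g) * h02 - (2 * J.XY g * J.Y g) * h01

private lemma vi_sq (J : Jet) (g : G) : ∑ i, vi J i g ^ 2 = J.X g ^ 2 + J.Y g ^ 2 := by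
  have h := va_sum J.X J.Y J.X J.Y g
  simp only [vi]
  simp only [sq]
  exact h

/-- Cauchy-Schwarz for three terms -/
private lemma cs3 (J : Jet) (g : G) :
    ∑ i, |vi J i g| * |vi' J i g| ≤
      √(J.X g ^ 2 + J.Y g ^ 2) * √(J.XX g ^ 2 + J.XY g ^ 2 + J.Y g ^ 2) := by
  rw [← vi_sq, ← vi'_sq]
  have h := Finset.sum_mul_sq_le_sq_mul_sq (Finset.univ : Finset (Fin 3)) (fun i => |vi J i g|)
    (fun i => |vi' J i g|)
  simp only [sq_abs] at h
  rw [← Real.sqrt_mul (Finset.sum_nonneg fun i _ => sq_nonneg _)]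
  exact Real.le_sqrt_of_sq_le h

private lemma Y_le (J : Jet) (hJ : J.Ok) (L : ℝ) (hL : ∀ g, |J.X g| ≤ L) (g : G) :
    |J.Y g| ≤ L := by
  have h := hL (g * fr (π / 2))
  rw [hJ.invX] at h
  simpa using h

private lemma pt_bound (J : Jet) (hJ : J.Ok) (L : ℝ) (hL : ∀ g, |J.X g| ≤ L) (g : G) :
    ∑ i, |vi J i g| * |vi' J i g| ≤
      √(J.X g ^ 2 + J.Y g ^ 2) * √(J.XX g ^ 2 + J.XY g ^ 2) + L * √(J.X g ^ 2 + J.Y g ^ 2) := by
  refine (cs3 J g).trans ?_
  have h1 : √(J.XX g ^ 2 + J.XY g ^ 2 + J.Y g ^ 2) ≤ √(J.XX g ^ 2 + J.XY g ^ 2) + |J.Y g| := by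
    rw [Real.sqrt_le_left (by positivity)]
    have h2 : √(J.XX g ^ 2 + J.XY g ^ 2) ^ 2 = J.XX g ^ 2 + J.XY g ^ 2 :=
      Real.sq_sqrt (by positivity)
    have h3 : |J.Y g| ^ 2 = J.Y g ^ 2 := sq_abs _
    nlinarith [Real.sqrt_nonneg (J.XX g ^ 2 + J.XY g ^ 2), abs_nonneg (J.Y g),
      mul_nonneg (Real.sqrt_nonneg (J.XX g ^ 2 + J.XY g ^ 2)) (abs_nonneg (J.Y g))]
  have h4 := Y_le J hJ L hL g
  have h5 := Real.sqrt_nonneg (J.X g ^ 2 + J.Y g ^ 2)
  calc √(J.X g ^ 2 + J.Y g ^ 2) * √(J.XX g ^ 2 + J.XY g ^ 2 + J.Y g ^ 2)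
      ≤ √(J.X g ^ 2 + J.Y g ^ 2) * (√(J.XX g ^ 2 + J.XY g ^ 2) + L) :=
        mul_le_mul_of_nonneg_left (h1.trans (by linarith)) h5
    _ = _ := by ring

private lemma sqrt_le_E (J : Jet) (hJ : J.Ok) :
    ∫ g, √(J.X g ^ 2 + J.Y g ^ 2) ∂μ ≤ √(J.E) := by
  have c1 : Continuous fun g => √(J.X g ^ 2 + J.Y g ^ 2) := by
    have := hJ.cX
    have := hJ.cY
    fun_prop
  have c2 : Continuous fun g => (J.X g ^ 2 + J.Y g ^ 2) := by
    have := hJ.cX
    have := hJ.cY
    fun_prop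
  set m := ∫ g, √(J.X g ^ 2 + J.Y g ^ 2) ∂μ with hm
  apply Real.le_sqrt_of_sq_le
  have h1 : 0 ≤ ∫ g, (√(J.X g ^ 2 + J.Y g ^ 2) - m) ^ 2 ∂μ := integral_nonneg fun g => sq_nonneg _
  have h2 : ∫ g, (√(J.X g ^ 2 + J.Y g ^ 2) - m) ^ 2 ∂μ =
      ∫ g, ((J.X g ^ 2 + J.Y g ^ 2) - 2 * m * √(J.X g ^ 2 + J.Y g ^ 2) + m ^ 2) ∂μ := by
    congr 1
    funext g
    have h3 : √(J.X g ^ 2 + J.Y g ^ 2) ^ 2 = J.X g ^ 2 + J.Y g ^ 2 :=
      Real.sq_sqrt (by positivity)
    linear_combination h3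
  rw [h2, integral_add, integral_sub, integral_const_mul, integral_const] at h1
  · simp only [probReal_univ, one_smul] at h1
    rw [← hm] at h1
    have : J.E = ∫ g, (J.X g ^ 2 + J.Y g ^ 2) ∂μ := rfl
    rw [← this] at h1
    nlinarith
  · exact intg c2
  · exact (intg c1).const_mul _
  · exact (intg c2).sub ((intg c1).const_mul _)
  · exact integrable_const _

theorem rho0 (J : Jet) (hJ : J.Ok) (hev : ∀ g, J.f (g * fa π) = J.f g) (M L : ℝ) (hM0 : 0 ≤ M)
    (hM : ∀ g, J.XX g ≤ M) (hL : ∀ g, |J.X g| ≤ L) (n : ℕ) :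
    J.E - ∫ g, (J.X g * (SmJ (kn n) J.f).X g + J.Y g * (SmJ (kn n) J.f).Y g) ∂μ ≤
      π * √(2 / (2 * n + 3)) * (5 * M + L) * √(J.E) := by
  have hL0 : 0 ≤ L := (abs_nonneg _).trans (hL 1)
  have cv := vi_cont J hJ
  have cv' := vi'_cont J hJ
  have cS : ∀ i, Continuous (Sm (kn n) (vi J i)) := fun i => Sm_cont _ _ (cv i)
  have key1 : J.E - ∫ g, (J.X g * (SmJ (kn n) J.f).X g + J.Y g * (SmJ (kn n) J.f).Y g) ∂μ =
      ∑ i, (n2 (vi J i) - ∫ g, vi J i g * Sm (kn n) (vi J i) g ∂μ) := by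
    rw [Finset.sum_sub_distrib]
    congr 1
    · simp only [n2, Jet.E]
      have h := integral_finsetSum (μ := μ) (Finset.univ : Finset (Fin 3))
        (f := fun i g => vi J i g ^ 2) fun i _ => intg ((cv i).pow 2)
      rw [← h]
      congr 1
      funext g
      exact (vi_sq J g).symm
    · have h := integral_finsetSum (μ := μ) (Finset.univ : Finset (Fin 3))
        (f := fun i g => vi J i g * Sm (kn n) (vi J i) g) fun i _ => intg ((cv i).mul (cS i))
      rw [← h]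
      congr 1
      funext g
      rw [← va_sum J.X J.Y (SmJ (kn n) J.f).X (SmJ (kn n) J.f).Y g]
      refine Finset.sum_congr rfl fun i _ => ?_
      rw [comm (kn n) (Pi.single i 1) J.f J.X J.Y hJ.cf hJ.cX hJ.cY hJ.dX hJ.dY g]
      rfl
  have hkn : ∀ h : G, (kn n).eval (h.1 0 0) = (2 * n + 1) * h.1 0 0 ^ (2 * n) := by
    intro h
    simp [kn]
  have hkn0 : ∀ h : G, 0 ≤ (kn n).eval (h.1 0 0) := by
    intro h
    rw [hkn, pow_mul]
    positivity
  set I := ∫ h : G, (2 * n + 1) * h.1 0 0 ^ (2 * n) * √(1 - h.1 0 0 ^ 2) ∂μ with hI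
  have hI1 : I ≤ √(2 / (2 * n + 3)) := moment_sqrt n
  have e00 := G.cont_entry 0 0
  have key2 : ∀ i, n2 (vi J i) - ∫ g, vi J i g * Sm (kn n) (vi J i) g ∂μ ≤
      π * I * ∫ g, |vi J i g| * |vi' J i g| ∂μ := by
    intro i
    rw [Sm_diff (kn n) (int_kn n) (vi J i) (cv i)]
    have hw : FD fa (fun g => vi J i g * |vi J i g|) (fun g => 2 * |vi J i g| * vi' J i g) :=
      FD.comp (φ := fun s => s * |s|) (φ' := fun s => 2 * |s|) fa_zero
        (fun g => hasDerivAt_mul_abs _) (vi_FD J hJ i)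
    have cw : Continuous fun g => vi J i g * |vi J i g| := by
      have := cv i
      fun_prop
    have cw' : Continuous fun g => 2 * |vi J i g| * vi' J i g := by
      have := cv i
      have := cv' i
      fun_prop
    have hp := fun h => path _ _ cw cw' hw
      (fun g t => by simp only [vi_inv J hJ]) (fun g => by simp only [vi_ev J hJ hev]) h
    have hA : ∫ g, |2 * |vi J i g| * vi' J i g| ∂μ = 2 * ∫ g, |vi J i g| * |vi' J i g| ∂μ := by
      rw [← integral_const_mul]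
      congr 1
      funext g
      rw [abs_mul, abs_mul, abs_abs, abs_of_pos (by norm_num : (0:ℝ) < 2)]
      ring
    set A := ∫ g, |vi J i g| * |vi' J i g| ∂μ with hAdef
    have h1 : ∀ h : G, ∫ g, (vi J i g - vi J i (g * h)) ^ 2 ∂μ ≤
        2 * π * √(1 - h.1 0 0 ^ 2) * A := by
      intro h
      have c1 : Continuous fun g => abs (vi J i g * |vi J i g| - vi J i (g * h) * |vi J i (g * h)|) := by
        have := cv i
        fun_prop
      calc ∫ g, (vi J i g - vi J i (g * h)) ^ 2 ∂μ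
          ≤ ∫ g, 2 * abs (vi J i g * |vi J i g| - vi J i (g * h) * |vi J i (g * h)|) ∂μ := by
            apply integral_mono_of_nonneg
            · exact Filter.Eventually.of_forall fun g => sq_nonneg _
            · exact (intg c1).const_mul 2
            · exact Filter.Eventually.of_forall fun g => sq_sub_le _ _
        _ = 2 * ∫ g, abs (vi J i g * |vi J i g| - vi J i (g * h) * |vi J i (g * h)|) ∂μ :=
            integral_const_mul _ _
        _ ≤ 2 * ((π / 2) * √(1 - h.1 0 0 ^ 2) * ∫ g, |2 * |vi J i g| * vi' J i g| ∂μ) :=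
            mul_le_mul_of_nonneg_left (hp h) (by norm_num)
        _ = _ := by rw [hA]; ring
    have h2 : ∫ h : G, (kn n).eval (h.1 0 0) * (∫ g, (vi J i g - vi J i (g * h)) ^ 2 ∂μ) ∂μ ≤
        ∫ h : G, (2 * π * A) * ((2 * n + 1) * h.1 0 0 ^ (2 * n) * √(1 - h.1 0 0 ^ 2)) ∂μ := by
      apply integral_mono_of_nonneg
      · exact Filter.Eventually.of_forall fun h =>
          mul_nonneg (hkn0 h) (integral_nonneg fun g => sq_nonneg _)
      · apply intg
        have e1 : Continuous fun a : G => √(1 - a.1 0 0 ^ 2) := by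
          apply Continuous.sqrt
          exact continuous_const.sub (e00.pow 2)
        exact continuous_const.mul ((continuous_const.mul (e00.pow (2 * n))).mul e1)
      · refine Filter.Eventually.of_forall fun h => ?_
        have := mul_le_mul_of_nonneg_left (h1 h) (hkn0 h)
        simp only
        refine this.trans (le_of_eq ?_)
        rw [hkn]
        ring
    rw [integral_const_mul, ← hI] at h2
    linarith
  have hB : ∫ g, ∑ i, |vi J i g| * |vi' J i g| ∂μ ≤ (5 * M + L) * √(J.E) := by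
    have c1 : Continuous fun g => √(J.X g ^ 2 + J.Y g ^ 2) := by
      have := hJ.cX
      have := hJ.cY
      fun_prop
    have c2 : Continuous fun g => √(J.XX g ^ 2 + J.XY g ^ 2) := by
      have := hJ.cXX
      have := hJ.cXY
      fun_prop
    calc ∫ g, ∑ i, |vi J i g| * |vi' J i g| ∂μ
        ≤ ∫ g, (√(J.X g ^ 2 + J.Y g ^ 2) * √(J.XX g ^ 2 + J.XY g ^ 2) +
            L * √(J.X g ^ 2 + J.Y g ^ 2)) ∂μ := by
          apply integral_mono_of_nonneg
          · exact Filter.Eventually.of_forall fun g =>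
              Finset.sum_nonneg fun i _ => mul_nonneg (abs_nonneg _) (abs_nonneg _)
          · exact (intg (c1.mul c2)).add ((intg c1).const_mul L)
          · exact Filter.Eventually.of_forall fun g => pt_bound J hJ L hL g
      _ = (∫ g, √(J.X g ^ 2 + J.Y g ^ 2) * √(J.XX g ^ 2 + J.XY g ^ 2) ∂μ) +
            L * ∫ g, √(J.X g ^ 2 + J.Y g ^ 2) ∂μ := by
          have c12 : Continuous fun g => √(J.X g ^ 2 + J.Y g ^ 2) * √(J.XX g ^ 2 + J.XY g ^ 2) :=
            c1.mul c2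
          rw [integral_add (intg c12) ((intg c1).const_mul L), integral_const_mul]
      _ ≤ 5 * M * (∫ g, √(J.X g ^ 2 + J.Y g ^ 2) ∂μ) + L * ∫ g, √(J.X g ^ 2 + J.Y g ^ 2) ∂μ :=
          add_le_add (hessL1 J hJ M hM0 hM) le_rfl
      _ = (5 * M + L) * ∫ g, √(J.X g ^ 2 + J.Y g ^ 2) ∂μ := by ring
      _ ≤ (5 * M + L) * √(J.E) :=
          mul_le_mul_of_nonneg_left (sqrt_le_E J hJ) (by positivity)
  have hsum : ∫ g, ∑ i, |vi J i g| * |vi' J i g| ∂μ = ∑ i, ∫ g, |vi J i g| * |vi' J i g| ∂μ :=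
    integral_finsetSum _ fun i _ => intg ((cv i).abs.mul (cv' i).abs)
  have hI0 : 0 ≤ I := by
    rw [hI]
    refine integral_nonneg fun h => ?_
    have : (0:ℝ) ≤ h.1 0 0 ^ (2 * n) := by rw [pow_mul]; positivity
    positivity
  have hAn : 0 ≤ ∫ g, ∑ i, |vi J i g| * |vi' J i g| ∂μ :=
    integral_nonneg fun g => Finset.sum_nonneg fun i _ => mul_nonneg (abs_nonneg _) (abs_nonneg _)
  calc J.E - ∫ g, (J.X g * (SmJ (kn n) J.f).X g + J.Y g * (SmJ (kn n) J.f).Y g) ∂μ
      = ∑ i, (n2 (vi J i) - ∫ g, vi J i g * Sm (kn n) (vi J i) g ∂μ) := key1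
    _ ≤ ∑ i, π * I * ∫ g, |vi J i g| * |vi' J i g| ∂μ := Finset.sum_le_sum fun i _ => key2 i
    _ = π * I * ∫ g, ∑ i, |vi J i g| * |vi' J i g| ∂μ := by rw [hsum, Finset.mul_sum]
    _ ≤ π * √(2 / (2 * n + 3)) * ((5 * M + L) * √(J.E)) := by
        apply mul_le_mul _ hB hAn (by positivity)
        exact mul_le_mul_of_nonneg_left hI1 pi_pos.le
    _ = _ := by ring

end Pool.Agent.Lib_MP_f78f32_gt
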