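import Pool.Agent.Lib_MP_f78f32_gt.Defs

/-! # Wallis numbers -/

open MeasureTheory Real
open scoped Matrix

namespace Pool.Agent.Lib_MP_f78f32_gt

theorem al_pos (k : ℕ) : 0 < al k := by
  unfold al
  have : 0 < Nat.centralBinom k := Nat.centralBinom_pos k
  positivity

theorem al_zero : al 0 = 1 := by simp [al]

theorem al_succ (k : ℕ) : al (k + 1) * (2 * k + 2) = al k * (2 * k + 1) := by
  unfold al
  have h := Nat.succ_mul_centralBinom_succ k
  have h' : ((k : ℝ) + 1) * (Nat.centralBinom (k + 1) : ℝ) =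
      2 * (2 * k + 1) * (Nat.centralBinom k : ℝ) := by exact_mod_cast h
  rw [pow_succ]
  field_simp
  linarith

lemma al_succ' (k : ℕ) : al (k + 1) = al k * ((2 * k + 1) / (2 * k + 2)) := by
  have h := al_succ k
  have h2 : (2 * (k : ℝ) + 2) ≠ 0 := by positivity
  field_simp
  linarith

theorem al_upper (k : ℕ) : al k ^ 2 * (2 * k + 1) ≤ 1 := by
  induction k with
  | zero => rw [al_zero]; norm_num
  | succ k ih =>
    have hk : (0 : ℝ) ≤ k := Nat.cast_nonneg k
    rw [al_succ', mul_pow, div_pow]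
    push_cast
    have h1 : al k ^ 2 * ((2 * (k : ℝ) + 1) ^ 2 / (2 * k + 2) ^ 2) * (2 * (k + 1) + 1) =
        (al k ^ 2 * (2 * k + 1)) * (((2 * k + 1) * (2 * k + 3)) / (2 * k + 2) ^ 2) := by
      field_simp
      ring
    rw [h1]
    have h2 : ((2 * (k : ℝ) + 1) * (2 * k + 3)) / (2 * k + 2) ^ 2 ≤ 1 := by
      rw [div_le_one (by positivity)]
      nlinarith
    have h3 : 0 ≤ ((2 * (k : ℝ) + 1) * (2 * k + 3)) / (2 * k + 2) ^ 2 := by positivity
    exact mul_le_one₀ ih h3 h2

theorem al_lower (k : ℕ) (hk : 1 ≤ k) : 1 ≤ 4 * k * al k ^ 2 := by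
  induction k, hk using Nat.le_induction with
  | base =>
    have h := al_succ' 0
    rw [al_zero] at h
    simp only [Nat.cast_one]
    have h1 : al 1 = 1 / 2 := by
      have h' : al 1 = 1 * ((2 * ((0 : ℕ) : ℝ) + 1) / (2 * ((0 : ℕ) : ℝ) + 2)) := h
      rw [h']; norm_num
    rw [h1]; norm_num
  | succ k hk ih =>
    have hk0 : (0 : ℝ) < k := by exact_mod_cast hk
    rw [al_succ', mul_pow, div_pow]
    push_cast
    have h1 : 4 * ((k : ℝ) + 1) * (al k ^ 2 * ((2 * k + 1) ^ 2 / (2 * k + 2) ^ 2)) =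
        (4 * k * al k ^ 2) * ((2 * k + 1) ^ 2 / (4 * k * (k + 1))) := by
      field_simp
      ring
    rw [h1]
    have h2 : 1 ≤ (2 * (k : ℝ) + 1) ^ 2 / (4 * k * (k + 1)) := by
      rw [one_le_div (by positivity)]
      nlinarith
    calc (1 : ℝ) = 1 * 1 := (one_mul 1).symm
      _ ≤ _ := mul_le_mul ih h2 zero_le_one (by linarith)

lemma int_cos_pow (k : ℕ) : ∫ t in (0:ℝ)..(2 * π), cos t ^ (2 * k) = 2 * π * al k := by
  induction k with
  | zero => simp [al_zero]
  | succ k ih =>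
    rw [show 2 * (k + 1) = 2 * k + 2 by ring, integral_cos_pow, ih, al_succ']
    simp only [sin_two_pi, sin_zero, mul_zero, sub_zero, zero_div, zero_add]
    push_cast
    ring

theorem circle_avg (p q : ℝ) (k : ℕ) :
    ∫ t in (0:ℝ)..(2 * π), (cos t * p + sin t * q) ^ (2 * k) =
      2 * π * al k * (p ^ 2 + q ^ 2) ^ k := by
  set z : ℂ := ⟨p, q⟩ with hz
  set R := ‖z‖ with hR
  set a := Complex.arg z with ha
  have hp : R * cos a = p := Complex.norm_mul_cos_arg z
  have hq : R * sin a = q := Complex.norm_mul_sin_arg z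
  have hRR : R ^ 2 = p ^ 2 + q ^ 2 := by
    rw [← hp, ← hq]
    have := sin_sq_add_cos_sq a
    linear_combination (-R ^ 2) * this
  have h1 : ∀ t : ℝ, (cos t * p + sin t * q) ^ (2 * k) = R ^ (2 * k) * cos (t - a) ^ (2 * k) := by
    intro t
    rw [← mul_pow, cos_sub, ← hp, ← hq]
    congr 1
    ring
  simp only [h1]
  rw [intervalIntegral.integral_const_mul]
  have h2 : ∫ t in (0:ℝ)..(2 * π), cos (t - a) ^ (2 * k) = ∫ t in (0:ℝ)..(2 * π), cos t ^ (2 * k) := by
    rw [intervalIntegral.integral_comp_sub_right (fun t => cos t ^ (2 * k)) a]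
    have hper : Function.Periodic (fun t : ℝ => cos t ^ (2 * k)) (2 * π) := by
      intro t
      simp
    have h3 := hper.intervalIntegral_add_eq (0 - a) 0
    rw [show 0 - a + 2 * π = 2 * π - a by ring, zero_add] at h3
    exact h3
  rw [h2, int_cos_pow, pow_mul, hRR]
  ring

end Pool.Agent.Lib_MP_f78f32_gt
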